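import Pool.Agent.Lib.MP_4e5fcd_ag.Det.S1

/-! # DET-S2: locally finite sums: change of variable and products -/

namespace MotMono

variable {β β' B : Type} [CommRing B]

private theorem s2_trunc {μ : β → Polynomial B} (hμ : LocFin μ) (j : ℕ) :
    ∃ T : Finset β, ∀ k ≤ j, ∀ b, (μ b).coeff k ≠ 0 → b ∈ T := by
  classical
  refine ⟨(Finset.range (j + 1)).biUnion fun k => (hμ k).toFinset, fun k hk b hb => ?_⟩
  rw [Finset.mem_biUnion]
  refine ⟨k, Finset.mem_range.2 (by omega), ?_⟩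
  rw [Set.Finite.mem_toFinset]
  exact hb

open Classical in
private theorem s2_finsum (f : β → B) (T : Finset β) (hT : ∀ b, f b ≠ 0 → b ∈ T) (V : Set β) :
    ∑ᶠ (b : β) (_ : b ∈ V), f b = ∑ b ∈ T.filter (fun b => b ∈ V), f b := by
  refine finsum_mem_eq_sum_of_inter_support_eq f ?_
  ext b
  simp only [Set.mem_inter_iff, Function.mem_support, Finset.coe_filter, Set.mem_setOf_eq]
  constructor
  · rintro ⟨h1, h2⟩
    exact ⟨⟨hT b h2, h1⟩, h2⟩
  · rintro ⟨⟨-, h1⟩, h2⟩
    exact ⟨h1, h2⟩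

open Classical in
private theorem s2_coeff {μ : β → Polynomial B} (T : Finset β) (k : ℕ)
    (hT : ∀ b, (μ b).coeff k ≠ 0 → b ∈ T) (V : Set β) :
    PowerSeries.coeff k (SS μ V) = (∑ b ∈ T.filter (fun b => b ∈ V), μ b : Polynomial B).coeff k := by
  rw [coeff_SS, s2_finsum (fun b => (μ b).coeff k) T hT V, Polynomial.finset_sum_coeff]

/-- change of variable -/
theorem SS_image {μ : β → Polynomial B} {μ' : β' → Polynomial B} (hμ : LocFin μ) (V : Set β)
    (f : β → β') (hf : Set.InjOn f V) (P : Polynomial B) (h : ∀ b ∈ V, μ' (f b) = P * μ b) :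
    SS μ' (f '' V) = (P : PowerSeries B) * SS μ V := by
  classical
  ext j
  obtain ⟨T, hT⟩ := s2_trunc hμ j
  have h1 : PowerSeries.coeff j ((P : PowerSeries B) * SS μ V) =
      (P * ∑ b ∈ T.filter (fun b => b ∈ V), μ b).coeff j := by
    rw [PowerSeries.coeff_mul, Polynomial.coeff_mul]
    refine Finset.sum_congr rfl fun p hp => ?_
    have hp' : p.2 ≤ j := by
      have := Finset.HasAntidiagonal.mem_antidiagonal.1 hp
      omega
    rw [Polynomial.coeff_coe, s2_coeff T p.2 (hT p.2 hp') V]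
  rw [h1, coeff_SS, finsum_mem_image hf]
  have h2 : ∑ᶠ (b : β) (_ : b ∈ V), (μ' (f b)).coeff j = ∑ᶠ (b : β) (_ : b ∈ V), (P * μ b).coeff j :=
    finsum_mem_congr rfl fun b hb => by rw [h b hb]
  rw [h2, s2_finsum (fun b => (P * μ b).coeff j) T ?_ V, Finset.mul_sum, Polynomial.finset_sum_coeff]
  intro b hb
  by_contra hbT
  apply hb
  rw [Polynomial.coeff_mul]
  refine Finset.sum_eq_zero fun p hp => ?_
  have hp' : p.2 ≤ j := by
    have := Finset.HasAntidiagonal.mem_antidiagonal.1 hp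
    omega
  have h3 : (μ b).coeff p.2 = 0 := by
    by_contra h4
    exact hbT (hT p.2 hp' b h4)
  rw [h3, mul_zero]

private theorem s2_zero {α : Type} [Fintype α] (p : α → Polynomial B) (j : ℕ) (a : α)
    (h : ∀ k ≤ j, (p a).coeff k = 0) : (∏ a, p a).coeff j = 0 := by
  have h1 : Polynomial.X ^ (j + 1) ∣ p a := by
    rw [Polynomial.X_pow_dvd_iff]
    intro k hk
    exact h k (by omega)
  have h2 : Polynomial.X ^ (j + 1) ∣ ∏ a, p a := h1.trans (Finset.dvd_prod_of_mem p (Finset.mem_univ a))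
  exact (Polynomial.X_pow_dvd_iff.1 h2) j (by omega)

private theorem s2_mem {α : Type} [Fintype α] {γ : α → Type} (μ : ∀ a, γ a → Polynomial B)
    (j : ℕ) (T : ∀ a, Finset (γ a)) (hT : ∀ a, ∀ k ≤ j, ∀ b, (μ a b).coeff k ≠ 0 → b ∈ T a)
    (b : ∀ a, γ a) (hb : (∏ a, μ a (b a)).coeff j ≠ 0) (a : α) : b a ∈ T a := by
  by_contra hcon
  apply hb
  refine s2_zero (fun a => μ a (b a)) j a fun k hk => ?_
  by_contra h
  exact hcon (hT a k hk (b a) h)

/-- products of finitely many sums -/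
theorem locFin_pi {α : Type} [Fintype α] {γ : α → Type} (μ : ∀ a, γ a → Polynomial B)
    (hμ : ∀ a, LocFin (μ a)) : LocFin (fun b : ∀ a, γ a => ∏ a, μ a (b a)) := by
  classical
  intro j
  choose T hT using fun a => s2_trunc (hμ a) j
  refine (Fintype.piFinset T).finite_toSet.subset fun b hb => ?_
  rw [Finset.mem_coe, Fintype.mem_piFinset]
  exact s2_mem μ j T hT b hb

theorem SS_pi {α : Type} [Fintype α] {γ : α → Type} (μ : ∀ a, γ a → Polynomial B)
    (hμ : ∀ a, LocFin (μ a)) (V : ∀ a, Set (γ a)) :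
    SS (fun b : ∀ a, γ a => ∏ a, μ a (b a)) {b | ∀ a, b a ∈ V a} = ∏ a, SS (μ a) (V a) := by
  classical
  ext j
  choose T hT using fun a => s2_trunc (hμ a) j
  -- the right hand side modulo `X ^ (j + 1)`
  set p : α → Polynomial B := fun a => ∑ b ∈ (T a).filter (fun b => b ∈ V a), μ a b with hp
  have h1 : ∀ a, (PowerSeries.X : PowerSeries B) ^ (j + 1) ∣ SS (μ a) (V a) - (p a : PowerSeries B) := by
    intro a
    rw [PowerSeries.X_pow_dvd_iff]
    intro k hk
    rw [map_sub, s2_coeff (T a) k (hT a k (by omega)) (V a), Polynomial.coeff_coe, sub_self]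
  have h2 : (PowerSeries.X : PowerSeries B) ^ (j + 1) ∣
      ∏ a, SS (μ a) (V a) - ∏ a, (p a : PowerSeries B) := by
    rw [← Ideal.mem_span_singleton, ← Ideal.Quotient.eq, map_prod, map_prod]
    refine Finset.prod_congr rfl fun a _ => ?_
    rw [Ideal.Quotient.eq, Ideal.mem_span_singleton]
    exact h1 a
  have h3 : PowerSeries.coeff j (∏ a, SS (μ a) (V a)) = (∏ a, p a).coeff j := by
    have h4 := PowerSeries.X_pow_dvd_iff.1 h2 j (by omega)
    rw [map_sub, sub_eq_zero] at h4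
    rw [h4]
    have h5 : (∏ a, (p a : PowerSeries B)) = ((∏ a, p a : Polynomial B) : PowerSeries B) :=
      (map_prod (Polynomial.coeToPowerSeries.ringHom (R := B)) p Finset.univ).symm
    rw [h5, Polynomial.coeff_coe]
  rw [h3, coeff_SS, s2_finsum (fun b : ∀ a, γ a => (∏ a, μ a (b a)).coeff j) (Fintype.piFinset T) ?_ _]
  · rw [hp, Finset.prod_univ_sum, Polynomial.finset_sum_coeff]
    refine Finset.sum_congr ?_ fun b _ => rfl
    ext b
    simp only [Finset.mem_filter, Fintype.mem_piFinset, Set.mem_setOf_eq]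
    constructor
    · rintro ⟨h1, h2⟩ a
      exact ⟨h1 a, h2 a⟩
    · intro h
      exact ⟨fun a => (h a).1, fun a => (h a).2⟩
  · intro b hb
    rw [Fintype.mem_piFinset]
    exact s2_mem μ j T hT b hb

end MotMono
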