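import Pool.Agent.Lib.MP_4e5fcd_ag.Det.B1
import Pool.Agent.Lib.MP_4e5fcd_ag.Det.S2

/-! # DET-B2: the sum over all profiles, split by the first index in the support -/

open MvPolynomial

namespace MotMono

theorem locFin_mu (m n : ℕ) (hmn : m ≤ n) :
    LocFin (fun b : Fin m → ℕ => mu m n (extb b)) := by
  intro j
  have hfin : {b : Fin m → ℕ | ∀ i, b i ∈ Set.Iic (j + 1)}.Finite :=
    Set.Finite.pi' (fun _ => Set.finite_Iic _)
  apply hfin.subset
  intro b hb i
  simp only [Set.mem_setOf_eq] at hb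
  rw [Set.mem_Iic]
  have h1 : ∑ i ∈ Finset.range m, (extb b i - 1) ≤ j := by
    by_contra hlt
    push Not at hlt
    apply hb
    exact (Polynomial.X_pow_dvd_iff.1 (mu_dvd m n hmn (extb b))) j hlt
  have h2 : extb b i - 1 ≤ ∑ i ∈ Finset.range m, (extb b i - 1) :=
    Finset.single_le_sum (f := fun i => extb b i - 1) (fun _ _ => Nat.zero_le _)
      (Finset.mem_range.2 i.2)
  have h3 : extb b i = b i := by
    unfold extb
    rw [dif_pos i.2]
  rw [h3] at h2
  omega

/-- the profile with first support index `ρ` -/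
def insF {m : ℕ} (ρ : ℕ) (b : Fin (m - ρ) → ℕ) : Fin m → ℕ := fun i =>
  if h : ρ ≤ (i : ℕ) then b ⟨i - ρ, by omega⟩ + (if (i : ℕ) = ρ then 1 else 0) else 0

theorem b2_extb_ins {m ρ : ℕ} (b : Fin (m - ρ) → ℕ) (i : ℕ) (hi : i < m - ρ) :
    extb (insF ρ b) (ρ + i) = b ⟨i, hi⟩ + if i = 0 then 1 else 0 := by
  unfold extb insF
  have h1 : ρ + i < m := by omega
  rw [dif_pos h1]
  have h2 : ρ ≤ ((⟨ρ + i, h1⟩ : Fin m) : ℕ) := by simp
  rw [dif_pos h2]
  have h3 : (⟨((⟨ρ + i, h1⟩ : Fin m) : ℕ) - ρ, by omega⟩ : Fin (m - ρ)) = ⟨i, hi⟩ := by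
    apply Fin.ext
    simp
  rw [h3]
  congr 1
  by_cases h : i = 0
  · subst h; simp
  · rw [if_neg h, if_neg]
    simp only
    omega

theorem b2_extb_lt {m ρ : ℕ} (b : Fin (m - ρ) → ℕ) (i : ℕ) (hi : i < ρ) :
    extb (insF ρ b) i = 0 := by
  unfold extb insF
  by_cases h : i < m
  · rw [dif_pos h, dif_neg]
    simp only
    omega
  · rw [dif_neg h]

theorem b2_mu_ins {m ρ : ℕ} (n : ℕ) (hρ : ρ < m) (b : Fin (m - ρ) → ℕ) :
    mu m n (extb (insF ρ b)) = Rp m n ρ * mu (m - ρ) (n - ρ) (extb b) := by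
  rw [mu_first m n (extb (insF ρ b)) ρ hρ]
  · congr 1
    apply mu_congr
    intro i hi
    rw [b2_extb_ins b i hi]
    simp only [Nat.add_sub_cancel]
    unfold extb
    rw [dif_pos hi]
  · have h0 : 0 < m - ρ := by omega
    have h1 := b2_extb_ins b 0 h0
    rw [Nat.add_zero, if_pos rfl] at h1
    rw [h1]
    exact Nat.succ_ne_zero _
  · intro i hi
    exact b2_extb_lt b i hi

theorem b2_ins_inj {m ρ : ℕ} : Function.Injective (insF ρ : (Fin (m - ρ) → ℕ) → Fin m → ℕ) := by
  intro b b' h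
  ext ⟨i, hi⟩
  have h1 := b2_extb_ins b i hi
  have h2 := b2_extb_ins b' i hi
  rw [h] at h1
  rw [h1] at h2
  omega

theorem b2_ins_surj {m ρ : ℕ} (b : Fin m → ℕ) (hρ : ρ < m) (h0 : b ⟨ρ, hρ⟩ ≠ 0)
    (h : ∀ i : Fin m, (i : ℕ) < ρ → b i = 0) :
    insF ρ (fun i : Fin (m - ρ) => b ⟨ρ + i, by omega⟩ - if (i : ℕ) = 0 then 1 else 0) = b := by
  ext i
  unfold insF
  by_cases hi : ρ ≤ (i : ℕ)
  · rw [dif_pos hi]
    simp only
    have h1 : (⟨ρ + ((i : ℕ) - ρ), by omega⟩ : Fin m) = i := by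
      apply Fin.ext
      simp only
      omega
    rw [h1]
    by_cases h2 : (i : ℕ) = ρ
    · rw [if_pos h2, if_pos (by omega)]
      have h3 : b i ≠ 0 := by
        have : i = ⟨ρ, hρ⟩ := Fin.ext h2
        rw [this]
        exact h0
      omega
    · rw [if_neg h2, if_neg (by omega)]
      rfl
  · rw [dif_neg hi, h i (by omega)]

open Classical in
theorem SS_first (m n : ℕ) (hmn : m ≤ n) (V : Set (Fin m → ℕ)) :
    SS (fun b : Fin m → ℕ => mu m n (extb b)) V =
      ∑ ρ ∈ Finset.range m, (Rp m n ρ : PowerSeries Bu) *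
        SS (fun b : Fin (m - ρ) → ℕ => mu (m - ρ) (n - ρ) (extb b)) {b | insF ρ b ∈ V} +
      if (fun _ => 0) ∈ V then (Rp m n m : PowerSeries Bu) else 0 := by
  set W : ℕ → Set (Fin m → ℕ) := fun ρ => insF ρ '' {b | insF ρ b ∈ V} with hW
  have hWne : ∀ ρ ∈ Finset.range m, ∀ b ∈ W ρ, extb b ρ ≠ 0 ∧ ∀ i < ρ, extb b i = 0 := by
    rintro ρ hρ _ ⟨b, _, rfl⟩
    rw [Finset.mem_range] at hρ
    constructor
    · have h0 : 0 < m - ρ := by omega
      have h1 := b2_extb_ins b 0 h0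
      rw [Nat.add_zero, if_pos rfl] at h1
      rw [h1]
      exact Nat.succ_ne_zero _
    · intro i hi
      exact b2_extb_lt b i hi
  have hV : V = (⋃ ρ ∈ Finset.range m, W ρ) ∪ (V ∩ {fun _ => 0}) := by
    ext b
    constructor
    · intro hb
      by_cases hb0 : b = fun _ => 0
      · right
        exact ⟨hb, hb0⟩
      · left
        have hex : ∃ i, ∃ hi : i < m, b ⟨i, hi⟩ ≠ 0 := by
          by_contra hcon
          push Not at hcon
          apply hb0
          ext ⟨i, hi⟩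
          exact hcon i hi
        have hspec := Nat.find_spec hex
        set ρ := Nat.find hex with hρ
        obtain ⟨hρm, hρ0⟩ := hspec
        have hmin : ∀ i : Fin m, (i : ℕ) < ρ → b i = 0 := by
          intro i hi
          have := Nat.find_min hex hi
          push Not at this
          exact this i.2
        have hs := b2_ins_surj b hρm hρ0 hmin
        rw [Set.mem_iUnion₂]
        refine ⟨ρ, Finset.mem_range.2 hρm, _, ?_, hs⟩
        rw [Set.mem_setOf_eq, hs]
        exact hb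
    · rintro (hb | hb)
      · rw [Set.mem_iUnion₂] at hb
        obtain ⟨ρ, _, b', hb', rfl⟩ := hb
        exact hb'
      · exact hb.1
  have hloc := locFin_mu m n hmn
  have hdisj : Disjoint (⋃ ρ ∈ Finset.range m, W ρ) (V ∩ {fun _ => 0}) := by
    rw [Set.disjoint_left]
    rintro b hb ⟨_, hb0⟩
    rw [Set.mem_iUnion₂] at hb
    obtain ⟨ρ, hρ, hbρ⟩ := hb
    apply (hWne ρ hρ b hbρ).1
    rw [Set.mem_singleton_iff] at hb0
    rw [hb0]
    unfold extb
    split_ifs <;> rfl
  have hdisj2 : ∀ i ∈ Finset.range m, ∀ j ∈ Finset.range m, i ≠ j → Disjoint (W i) (W j) := by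
    intro i hi j hj hij
    rw [Set.disjoint_left]
    intro b hbi hbj
    have h1 := hWne i hi b hbi
    have h2 := hWne j hj b hbj
    rcases lt_or_gt_of_ne hij with h | h
    · exact h1.1 (h2.2 i h)
    · exact h2.1 (h1.2 j h)
  conv_lhs => rw [hV]
  rw [SS_union hloc hdisj, SS_biUnion hloc _ _ hdisj2]
  congr 1
  · apply Finset.sum_congr rfl
    intro ρ hρ
    rw [Finset.mem_range] at hρ
    exact SS_image (locFin_mu (m - ρ) (n - ρ) (by omega)) _ (insF ρ) b2_ins_inj.injOn _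
      (fun b _ => b2_mu_ins n hρ b)
  · by_cases h0 : (fun _ => 0) ∈ V
    · rw [if_pos h0]
      have h1 : V ∩ {fun _ => 0} = {(fun _ => 0 : Fin m → ℕ)} := by
        ext b
        simp only [Set.mem_inter_iff, Set.mem_singleton_iff]
        constructor
        · exact fun h => h.2
        · intro h
          exact ⟨h ▸ h0, h⟩
      rw [h1, SS_singleton, mu_of_zero]
      intro i hi
      unfold extb
      rw [dif_pos hi]
    · rw [if_neg h0]
      have h1 : V ∩ {fun _ => 0} = (∅ : Set (Fin m → ℕ)) := by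
        ext b
        simp only [Set.mem_inter_iff, Set.mem_singleton_iff, Set.mem_empty_iff_false, iff_false]
        rintro ⟨h2, h3⟩
        exact h0 (h3 ▸ h2)
      rw [h1, SS_empty]

end MotMono
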