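import Pool.Agent.Lib.MP_4e5fcd_ag.Det.B4

/-! # DET-B3: the measure of the profiles of a family -/

open MvPolynomial

namespace MotMono

variable {s : ℕ} {m : Fin s → ℕ}

theorem locFin_muA (n : Fin s → ℕ) (hmn : ∀ a, m a ≤ n a) :
    LocFin (muA n : ((Σ a, Fin (m a)) → ℕ) → Bq) := by
  intro j
  have h1 := locFin_pi (fun (a : Fin s) (b : Fin (m a) → ℕ) => mu (m a) (n a) (extb b))
    (fun a => locFin_mu (m a) (n a) (hmn a)) j
  let c : ((Σ a, Fin (m a)) → ℕ) → ∀ a, Fin (m a) → ℕ := fun b a i => b ⟨a, i⟩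
  have hc : Function.Injective c := by
    intro b b' h
    funext ⟨a, i⟩
    exact congrFun (congrFun h a) i
  exact (h1.preimage hc.injOn)

private theorem b3_part_add (b u : (Σ a, Fin (m a)) → ℕ) (a : Fin s) :
    part (b + u) a = fun i => part b a i + part u a i := by
  funext i
  unfold part extb
  by_cases h : i < m a
  · simp only [dif_pos h, Pi.add_apply]
  · simp only [dif_neg h, Nat.add_zero]

theorem muA_add (n : Fin s → ℕ) (b u : (Σ a, Fin (m a)) → ℕ) (hu : ∀ c, u c ≠ 0 → b c ≠ 0) :
    muA n (b + u) = Polynomial.X ^ pair (nuf n) u * muA n b := by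
  have h1 : pair (nuf n) u = ∑ a, ∑ i ∈ Finset.range (m a), (m a - i) * (n a - i) * part u a i := by
    unfold pair nuf
    rw [Fintype.sum_sigma]
    refine Finset.sum_congr rfl fun a _ => ?_
    rw [Finset.sum_range]
    refine Finset.sum_congr rfl fun i _ => ?_
    unfold part extb
    rw [dif_pos i.2]
  unfold muA
  rw [h1, ← Finset.prod_pow_eq_pow_sum, ← Finset.prod_mul_distrib]
  refine Finset.prod_congr rfl fun a _ => ?_
  rw [b3_part_add]
  refine mu_add (m a) (n a) (part b a) (part u a) fun i hi h => ?_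
  unfold part extb at h ⊢
  rw [dif_pos hi] at h ⊢
  exact hu _ h

theorem pair_Wf (w b : (Σ a, Fin (m a)) → ℕ) :
    pair (Wf w) b = ∑ c : (Σ a, Fin (m a)), w c * ev (part b c.1) (c.2 + 1) := by
  unfold pair Wf
  rw [Fintype.sum_sigma, Fintype.sum_sigma]
  refine Finset.sum_congr rfl fun a _ => ?_
  simp only
  have h1 : ∀ i : Fin (m a), ev (part b a) (i + 1) = ∑ k : Fin (m a), ((i : ℕ) + 1 - k) * b ⟨a, k⟩ := by
    intro i
    unfold ev
    have h2 : Finset.range ((i : ℕ) + 1) ⊆ Finset.range (m a) :=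
      Finset.range_subset_range.2 (by omega)
    rw [Finset.sum_subset h2, Finset.sum_range]
    · refine Finset.sum_congr rfl fun k _ => ?_
      unfold part extb
      rw [dif_pos k.2]
    · intro k _ hk
      rw [Finset.mem_range, not_lt] at hk
      have : (i : ℕ) + 1 - k = 0 := by omega
      rw [this, Nat.zero_mul]
  simp_rw [h1, Finset.mul_sum, Finset.sum_mul]
  rw [Finset.sum_comm]
  refine Finset.sum_congr rfl fun i _ => Finset.sum_congr rfl fun k _ => ?_
  ring

end MotMono
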