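import Pool.Agent.Lib.MP_4e5fcd_ag.Det.B2

/-! # DET-B4: total mass, truncated sums -/

open MvPolynomial

namespace MotMono

private theorem b4_zero_mem {V : Set (Fin 0 → ℕ)} (b : Fin 0 → ℕ) (hb : b ∈ V) : V = {b} := by
  ext c
  rw [Set.mem_singleton_iff]
  constructor
  · intro _
    exact Subsingleton.elim _ _
  · rintro rfl
    exact hb

private theorem b4_SS_zero (n : ℕ) (V : Set (Fin 0 → ℕ)) [Decidable ((fun _ => 0) ∈ V)] :
    SS (fun b : Fin 0 → ℕ => mu 0 n (extb b)) V = if (fun _ => 0) ∈ V then 1 else 0 := by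
  split_ifs with h
  · rw [b4_zero_mem _ h, SS_singleton, mu_of_zero _ _ _ (fun i hi => absurd hi (Nat.not_lt_zero i))]
    simp [Rp]
  · have h1 : V = ∅ := by
      rw [Set.eq_empty_iff_forall_notMem]
      intro b hb
      apply h
      have : b = fun _ => 0 := Subsingleton.elim _ _
      rwa [this] at hb
    rw [h1, SS_empty]

theorem mu_total (m n : ℕ) (hmn : m ≤ n) :
    SS (fun b : Fin m → ℕ => mu m n (extb b)) Set.univ = 1 := by
  classical
  induction m using Nat.strong_induction_on generalizing n with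
  | _ m ih =>
    rcases Nat.eq_zero_or_pos m with rfl | hm
    · rw [b4_SS_zero, if_pos (Set.mem_univ _)]
    · have h1 := SS_first m n hmn Set.univ
      rw [if_pos (Set.mem_univ _)] at h1
      have huniv : ∀ ρ, {b : Fin (m - ρ) → ℕ | insF ρ b ∈ (Set.univ : Set (Fin m → ℕ))} =
          Set.univ := by
        intro ρ
        ext b
        simp
      obtain ⟨q, hq⟩ : ∃ q, m = q + 1 := ⟨m - 1, by omega⟩
      have hr : Finset.range m = insert 0 (Finset.Ioo 0 m) := by
        ext i
        simp only [Finset.mem_range, Finset.mem_insert, Finset.mem_Ioo]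
        omega
      rw [hr, Finset.sum_insert (by simp)] at h1
      have h2 : ∑ ρ ∈ Finset.Ioo 0 m, (Rp m n ρ : PowerSeries Bu) *
          SS (fun b : Fin (m - ρ) → ℕ => mu (m - ρ) (n - ρ) (extb b)) {b | insF ρ b ∈
            (Set.univ : Set (Fin m → ℕ))} = ∑ ρ ∈ Finset.Ioo 0 m, (Rp m n ρ : PowerSeries Bu) := by
        refine Finset.sum_congr rfl fun ρ hρ => ?_
        rw [Finset.mem_Ioo] at hρ
        rw [huniv, ih (m - ρ) (by omega) (n - ρ) (by omega), mul_one]
      have h3 : SS (fun b : Fin (m - 0) → ℕ => mu (m - 0) (n - 0) (extb b))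
          {b | insF 0 b ∈ (Set.univ : Set (Fin m → ℕ))} =
          SS (fun b : Fin m → ℕ => mu m n (extb b)) Set.univ := by
        rw [huniv]
        rfl
      rw [h2, h3] at h1
      have h4 : ((∑ ρ ∈ Finset.range (m + 1), Rp m n ρ : Bq) : PowerSeries Bu) = ((1 : Bq) :
        PowerSeries Bu) := by rw [sum_Rp m n]
      have h5 : ((∑ ρ ∈ Finset.range (m + 1), Rp m n ρ : Bq) : PowerSeries Bu) =
          ∑ ρ ∈ Finset.range (m + 1), (Rp m n ρ : PowerSeries Bu) :=
        map_sum (Polynomial.coeToPowerSeries.ringHom (R := Bu)) (fun ρ => Rp m n ρ)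
          (Finset.range (m + 1))
      rw [h5, Finset.sum_range_succ, hr, Finset.sum_insert (by simp), Polynomial.coe_one] at h4
      set F := SS (fun b : Fin m → ℕ => mu m n (extb b)) Set.univ with hF
      have h6 : (F - 1) * (1 - (Rp m n 0 : PowerSeries Bu)) = 0 := by
        have h7 : F = (Rp m n 0 : PowerSeries Bu) * F + (1 - (Rp m n 0 : PowerSeries Bu)) := by
          conv_lhs => rw [h1]
          rw [← h4]
          ring
        linear_combination h7
      rcases mul_eq_zero.1 h6 with h7 | h7
      · exact sub_eq_zero.1 h7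
      · exfalso
        have h8 : (Rp m n 0 : PowerSeries Bu) = PowerSeries.X ^ (m * n) := by
          unfold Rp
          rw [if_pos rfl]
          simp
        rw [h8] at h7
        have h9 := congrArg (PowerSeries.constantCoeff (R := Bu)) h7
        rw [map_sub, map_one, map_pow, PowerSeries.constantCoeff_X, zero_pow, sub_zero,
          map_zero] at h9
        · exact one_ne_zero h9
        · have : 0 < m * n := Nat.mul_pos hm (by omega)
          omega

private theorem b4_ev (m ρ : ℕ) (hρ : ρ < m) (b : Fin (m - ρ) → ℕ) (r : ℕ) (hr : r ≤ m) :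
    ev (extb (insF ρ b)) r = (r - ρ) + ev (extb b) (r - ρ) := by
  unfold ev
  rcases Nat.lt_or_ge ρ r with h | h
  · obtain ⟨q, hq⟩ : ∃ q, r = ρ + (q + 1) := ⟨r - ρ - 1, by omega⟩
    subst hq
    have h0 : ρ + (q + 1) - ρ = q + 1 := by omega
    rw [h0, Finset.sum_range_add, Finset.sum_eq_zero (s := Finset.range ρ), zero_add]
    · have h1 : ∀ i ∈ Finset.range (q + 1), (ρ + (q + 1) - (ρ + i)) * extb (insF ρ b) (ρ + i) =
          (q + 1 - i) * extb b i + (q + 1) * (if i = 0 then 1 else 0) := by
        intro i hi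
        rw [Finset.mem_range] at hi
        have h2 : extb (insF ρ b) (ρ + i) = extb b i + (if i = 0 then 1 else 0) := by
          unfold extb insF
          rw [dif_pos (by omega), dif_pos (show i < m - ρ by omega), dif_pos (by simp)]
          congr 1
          · congr 1
            ext
            simp
          · by_cases h3 : i = 0
            · rw [if_pos h3, if_pos (by simp [h3])]
            · rw [if_neg h3, if_neg (by simp [h3])]
        rw [h2]
        have h3 : ρ + (q + 1) - (ρ + i) = q + 1 - i := by omega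
        rw [h3, Nat.mul_add]
        by_cases h4 : i = 0
        · rw [h4]; simp
        · rw [if_neg h4, Nat.mul_zero, Nat.mul_zero]
      rw [Finset.sum_congr rfl h1, Finset.sum_add_distrib, ← Finset.mul_sum,
        Finset.sum_ite_eq' (Finset.range (q + 1)) 0 (fun _ => 1), if_pos (by simp), Nat.mul_one,
        Nat.add_comm]
    · intro i hi
      rw [Finset.mem_range] at hi
      have h2 : extb (insF ρ b) i = 0 := by
        unfold extb insF
        rw [dif_pos (by omega), dif_neg (by simp only; omega)]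
      rw [h2, Nat.mul_zero]
  · have h0 : r - ρ = 0 := by omega
    rw [h0, Finset.range_zero, Finset.sum_empty, Nat.add_zero]
    refine Finset.sum_eq_zero fun i hi => ?_
    rw [Finset.mem_range] at hi
    have h2 : extb (insF ρ b) i = 0 := by
      unfold extb insF
      rw [dif_pos (by omega), dif_neg (by simp only; omega)]
    rw [h2, Nat.mul_zero]

theorem eb_insF (m L ρ : ℕ) (hρ : ρ < m) (b : Fin (m - ρ) → ℕ) :
    eb m (L + 1) (extb (insF ρ b)) = shiftE ρ (L + 1) (eb (m - ρ) L (extb b)) := by
  funext r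
  unfold shiftE eb
  by_cases hr : r ≤ m
  · rw [if_pos hr, if_pos (show r - ρ ≤ m - ρ by omega), b4_ev m ρ hρ b r hr]
    rcases Nat.eq_zero_or_pos (r - ρ) with h | h
    · have h1 : ev (extb b) 0 = 0 := by simp [ev]
      rw [h, h1]
      simp
    · omega
  · rw [if_neg hr, if_neg (show ¬ (r - ρ ≤ m - ρ) by omega)]
    omega

private theorem b4_ev_zero (b : ℕ → ℕ) (m : ℕ) (hb : ∀ i < m, b i = 0) (r : ℕ) (hr : r ≤ m) :
    ev b r = 0 := by
  unfold ev
  refine Finset.sum_eq_zero fun i hi => ?_
  rw [Finset.mem_range] at hi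
  rw [hb i (by omega), Nat.mul_zero]

theorem PP_eq_SS (L m n : ℕ) (hmn : m ≤ n) (Φ : (ℕ → ℕ) → Prop) :
    ((PP L m n Φ : Bq) : PowerSeries Bu) =
      SS (fun b : Fin m → ℕ => mu m n (extb b)) {b | Φ (eb m L (extb b))} := by
  classical
  induction L generalizing m n Φ with
  | zero =>
    have h1 : ∀ b : Fin m → ℕ, eb m 0 (extb b) = 0 := by
      intro b
      funext r
      unfold eb
      simp
    have h2 : PP 0 m n Φ = if Φ 0 then 1 else 0 := by
      unfold PP
      by_cases h : Φ 0
      · rw [if_pos h]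
      · rw [if_neg h]
    rw [h2]
    by_cases h : Φ 0
    · rw [if_pos h, Polynomial.coe_one, ← mu_total m n hmn]
      congr 1
      ext b
      simp only [Set.mem_univ, Set.mem_setOf_eq, true_iff]
      rw [h1]
      exact h
    · rw [if_neg h, Polynomial.coe_zero, ← SS_empty (fun b : Fin m → ℕ => mu m n (extb b))]
      congr 1
      ext b
      simp only [Set.mem_empty_iff_false, Set.mem_setOf_eq, false_iff]
      rw [h1]
      exact h
  | succ L ih =>
    have h2 : PP (L + 1) m n Φ = ∑ ρ ∈ Finset.range (m + 1),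
      Rp m n ρ * PP L (m - ρ) (n - ρ) (fun E => Φ (shiftE ρ (L + 1) E)) := by
      rw [PP]
    have h3 : ((∑ ρ ∈ Finset.range (m + 1),
      Rp m n ρ * PP L (m - ρ) (n - ρ) (fun E => Φ (shiftE ρ (L + 1) E)) : Bq) : PowerSeries Bu) =
        ∑ ρ ∈ Finset.range (m + 1), (Rp m n ρ : PowerSeries Bu) *
          ((PP L (m - ρ) (n - ρ) (fun E => Φ (shiftE ρ (L + 1) E)) : Bq) : PowerSeries Bu) := by
      have h4 := map_sum (Polynomial.coeToPowerSeries.ringHom (R := Bu)) (fun ρ =>
        Rp m n ρ * PP L (m - ρ) (n - ρ) (fun E => Φ (shiftE ρ (L + 1) E))) (Finset.range (m + 1))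
      refine h4.trans (Finset.sum_congr rfl fun ρ _ => ?_)
      exact map_mul (Polynomial.coeToPowerSeries.ringHom (R := Bu)) _ _
    rw [h2, h3, SS_first m n hmn, Finset.sum_range_succ]
    congr 1
    · refine Finset.sum_congr rfl fun ρ hρ => ?_
      rw [Finset.mem_range] at hρ
      rw [ih (m - ρ) (n - ρ) (by omega)]
      congr 2
      ext b
      simp only [Set.mem_setOf_eq]
      rw [eb_insF m L ρ hρ b]
    · rw [Nat.sub_self, ih 0 (n - m) (by omega), b4_SS_zero]
      have h5 : ((fun _ => 0) ∈ {b : Fin 0 → ℕ | Φ (shiftE m (L + 1) (eb 0 L (extb b)))}) ↔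
          ((fun _ => 0) ∈ {b : Fin m → ℕ | Φ (eb m (L + 1) (extb b))}) := by
        simp only [Set.mem_setOf_eq]
        have h6 : shiftE m (L + 1) (eb 0 L (extb (fun _ : Fin 0 => 0))) =
            eb m (L + 1) (extb (fun _ : Fin m => 0)) := by
          funext r
          unfold shiftE eb
          by_cases hr : r ≤ m
          · rw [if_pos hr, if_pos (by omega), b4_ev_zero (extb fun _ : Fin m => 0) m
              (fun i hi => by unfold extb; rw [dif_pos hi]) r hr,
              b4_ev_zero (extb fun _ : Fin 0 => 0) 0 (fun i hi => absurd hi (Nat.not_lt_zero i))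
              (r - m) (by omega)]
            simp only [Nat.min_zero, Nat.add_zero]
            omega
          · rw [if_neg hr, if_neg (by omega)]
            omega
        rw [h6]
      by_cases h6 : ((fun _ => 0) ∈ {b : Fin m → ℕ | Φ (eb m (L + 1) (extb b))})
      · rw [if_pos (h5.2 h6), if_pos h6, mul_one]
      · rw [if_neg (fun h7 => h6 (h5.1 h7)), if_neg h6, mul_zero]

end MotMono
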