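import Pool.Agent.Lib.MP_4e5fcd_ag.Det.Defs

/-!
# Auxiliary definitions for sums of products of determinantal ideals
-/

open MvPolynomial

namespace MotMono

/-! ### Minors of matrices of power series -/

/-- all `r × r` minors are divisible by `t ^ j` -/
def Dv {ι κ : Type} (j r : ℕ) (M : Matrix ι κ (PowerSeries ℂ)) : Prop :=
  ∀ (S : Fin r → ι) (T : Fin r → κ), (PowerSeries.X : PowerSeries ℂ) ^ j ∣ (M.submatrix S T).det

open Classical in
/-- the order of the `r × r` minors, cut off at `L` -/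
noncomputable def et {ι κ : Type} (L : ℕ) (M : Matrix ι κ (PowerSeries ℂ)) (r : ℕ) : ℕ :=
  Nat.findGreatest (fun j => Dv j r M) L

/-- the matrix of power series (polynomials) of a jet with `L` levels -/
noncomputable def mser {ι κ : Type} {L : ℕ} (γ : (ι × κ) × Fin L → ℂ) :
    Matrix ι κ (PowerSeries ℂ) :=
  fun i k => PowerSeries.mk fun l => if h : l < L then γ ((i, k), ⟨l, h⟩) else 0

/-- the jets whose vector of orders of minors satisfies `Φ` -/
def SP (m n L : ℕ) (Φ : (ℕ → ℕ) → Prop) : Set ((Fin m × Fin n) × Fin L → ℂ) :=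
  {γ | Φ (et L (mser γ))}

/-- matrices of rank `ρ` -/
def RankSet (m n ρ : ℕ) : Set (Fin m × Fin n → ℂ) :=
  {A | (∃ (S : Fin ρ → Fin m) (T : Fin ρ → Fin n),
      (Matrix.of fun i j => A (S i, T j)).det ≠ 0) ∧
    ∀ (S : Fin (ρ + 1) → Fin m) (T : Fin (ρ + 1) → Fin n),
      (Matrix.of fun i j => A (S i, T j)).det = 0}

/-- the vector of orders of minors after the elimination of `ρ` pivots and division by `t` -/
def shiftE (ρ L : ℕ) (E : ℕ → ℕ) : ℕ → ℕ := fun r => min L ((r - ρ) + E (r - ρ))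

/-! ### The universal ring -/

/-- coefficients: one variable for each rank stratum -/
abbrev Bu : Type := MvPolynomial (ℕ × ℕ × ℕ) ℤ

/-- polynomials in `q = L⁻¹` -/
abbrev Bq : Type := Polynomial Bu

/-- the normalised class of the set of `m × n` matrices of rank `ρ` -/
noncomputable def Rp (m n ρ : ℕ) : Bq :=
  if ρ = 0 then Polynomial.X ^ (m * n)
  else if ρ < m then Polynomial.C (MvPolynomial.X (m, n, ρ))
  else 1 - Polynomial.X ^ (m * n) -
    ∑ ρ' ∈ Finset.Ioo 0 m, Polynomial.C (MvPolynomial.X (m, n, ρ'))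

/-- the homomorphism from the universal ring to `M_ℂ` -/
noncomputable def theta : Bq →+* MC :=
  Polynomial.eval₂RingHom
    (MvPolynomial.eval₂Hom (Int.castRingHom MC) fun c : ℕ × ℕ × ℕ =>
      algebraMap K0 MC (cls (RankSet c.1 c.2.1 c.2.2)) *
        ((Lu ^ (-((c.1 * c.2.1 : ℕ) : ℤ)) : MCˣ) : MC))
    ((Lu⁻¹ : MCˣ) : MC)

open Classical in
/-- the normalised class of `SP m n L Φ` in the universal ring -/
noncomputable def PP : ℕ → ℕ → ℕ → ((ℕ → ℕ) → Prop) → Bq
  | 0, _, _, Φ => if Φ 0 then 1 else 0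
  | L + 1, m, n, Φ => ∑ ρ ∈ Finset.range (m + 1),
      Rp m n ρ * PP L (m - ρ) (n - ρ) (fun E => Φ (shiftE ρ (L + 1) E))

/-! ### The measure of the profiles -/

/-- extension by zero -/
def extb {m : ℕ} (b : Fin m → ℕ) : ℕ → ℕ := fun i => if h : i < m then b ⟨i, h⟩ else 0

/-- the last index before `i` in the support of `b` (`0` if there is none) -/
def prevS (b : ℕ → ℕ) (i : ℕ) : ℕ := Nat.findGreatest (fun j => b j ≠ 0) (i - 1)

/-- the normalised class of the set of arcs with profile `b`; `b i` is the number of the units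
which come from the rank `i` stratum -/
noncomputable def mu (m n : ℕ) (b : ℕ → ℕ) : Bq :=
  (∏ i ∈ Finset.range m, if b i = 0 then 1 else
    Rp (m - prevS b i) (n - prevS b i) (i - prevS b i) *
      Polynomial.X ^ ((m - i) * (n - i) * (b i - 1))) *
    Rp (m - prevS b m) (n - prevS b m) (m - prevS b m)

/-- the sum of the `r` smallest invariant exponents of the profile `b` -/
def ev (b : ℕ → ℕ) (r : ℕ) : ℕ := ∑ i ∈ Finset.range r, (r - i) * b i

/-- the vector of orders of minors of the profile `b`, cut off at `L` -/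
def eb (m L : ℕ) (b : ℕ → ℕ) (r : ℕ) : ℕ := if r ≤ m then min L (ev b r) else L

/-! ### Sums over infinite sets of profiles -/

/-- local finiteness -/
def LocFin {β B : Type} [CommRing B] (μ : β → Polynomial B) : Prop :=
  ∀ j, {b | (μ b).coeff j ≠ 0}.Finite

/-- the sum of the polynomials `μ b`, `b ∈ V` -/
noncomputable def SS {β B : Type} [CommRing B] (μ : β → Polynomial B) (V : Set β) :
    PowerSeries B :=
  PowerSeries.mk fun j => ∑ᶠ (b : β) (_ : b ∈ V), (μ b).coeff j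

/-! ### Functionals on profiles -/

/-- the pairing of a functional and a profile -/
def pair {ι : Type} [Fintype ι] (W b : ι → ℕ) : ℕ := ∑ i, W i * b i

/-- the series `∑ b ∈ V, μ b T ^ ⟨W, b⟩` -/
noncomputable def HS {ι B : Type} [Fintype ι] [CommRing B] (μ : (ι → ℕ) → Polynomial B)
    (V : Set (ι → ℕ)) (W : ι → ℕ) : PowerSeries (PowerSeries B) :=
  PowerSeries.mk fun k => SS μ {b | b ∈ V ∧ pair W b = k}

/-- the series is a polynomial in `T` -/
def IsPolyT {B : Type} [CommRing B] (F : PowerSeries B) : Prop :=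
  ∃ K, ∀ k, K ≤ k → PowerSeries.coeff k F = 0

/-- the minimum of the functionals -/
noncomputable def minF {ι : Type} [Fintype ι] (A : Finset (ι → ℕ)) (b : ι → ℕ) : ℕ :=
  sInf {k | ∃ W ∈ A, pair W b = k}

/-- `W` attains the minimum at `u` -/
def InFace {ι : Type} [Fintype ι] (A : Finset (ι → ℕ)) (u W : ι → ℕ) : Prop :=
  W ∈ A ∧ ∀ W' ∈ A, pair W u ≤ pair W' u

/-- `u` spans a ray of the fan of `A` -/
def Ext {ι : Type} [Fintype ι] (A : Finset (ι → ℕ)) (u : ι → ℕ) : Prop :=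
  u ≠ 0 ∧ ∀ y : ι → ℚ, (∀ i, u i = 0 → y i = 0) →
    (∀ W W', InFace A u W → InFace A u W' → ∑ i, (W i : ℚ) * y i = ∑ i, (W' i : ℚ) * y i) →
    ∃ c : ℚ, ∀ i, y i = c * u i

/-- the series `∑ b, μ b T ^ min_W ⟨W, b⟩` over all profiles with `b i ≠ 0` for `i ∈ I₀` -/
noncomputable def ZS {ι B : Type} [Fintype ι] [CommRing B] (μ : (ι → ℕ) → Polynomial B)
    (I₀ : Set ι) (A : Finset (ι → ℕ)) : PowerSeries (PowerSeries B) :=
  PowerSeries.mk fun k => SS μ {b | (∀ i ∈ I₀, b i ≠ 0) ∧ minF A b = k}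

/-! ### Profiles of families of matrices -/

variable {s : ℕ} {m n : Fin s → ℕ}

/-- the order of vanishing of the product of determinantal ideals with exponents `w` along the
rank strata -/
def Wf (w : (Σ a, Fin (m a)) → ℕ) : (Σ a, Fin (m a)) → ℕ :=
  fun c => ∑ i : Fin (m c.1), w ⟨c.1, i⟩ * (i + 1 - c.2)

/-- the codimensions of the rank strata -/
def nuf (n : Fin s → ℕ) : (Σ a, Fin (m a)) → ℕ := fun c => (m c.1 - c.2) * (n c.1 - c.2)

/-- the profile of the `a`-th matrix -/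
def part (b : (Σ a, Fin (m a)) → ℕ) (a : Fin s) : ℕ → ℕ := extb fun i => b ⟨a, i⟩

/-- the measure of a profile of a family of matrices -/
noncomputable def muA (n : Fin s → ℕ) (b : (Σ a, Fin (m a)) → ℕ) : Bq :=
  ∏ a, mu (m a) (n a) (part b a)

open Classical in
/-- the finite set of functionals -/
noncomputable def AW (A : Finset ((Σ a, Fin (m a)) → ℕ)) : Finset ((Σ a, Fin (m a)) → ℕ) :=
  A.image Wf

/-- the `r × r` minors of the `a`-th matrix occur in a minimal functional at `u` -/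
def Vis (A : Finset ((Σ a, Fin (m a)) → ℕ)) (u : (Σ a, Fin (m a)) → ℕ) (a : Fin s) (r : ℕ) :
    Prop :=
  ∃ w ∈ A, InFace (AW A) u (Wf w) ∧ ∃ i : Fin (m a), (i : ℕ) + 1 = r ∧ w ⟨a, i⟩ ≠ 0

/-- every block of length at least two of `u` is detected by a visible minor -/
def Detected (A : Finset ((Σ a, Fin (m a)) → ℕ)) (u : (Σ a, Fin (m a)) → ℕ) : Prop :=
  ∀ a, ∀ i : Fin (m a), u ⟨a, i⟩ ≠ 0 → ∀ h : (i : ℕ) + 1 < m a, u ⟨a, ⟨i + 1, h⟩⟩ = 0 →
    ∃ r, Vis A u a r ∧ (i : ℕ) < r ∧ r < m a ∧ ∀ k : Fin (m a), i < k → (k : ℕ) ≤ r → u ⟨a, k⟩ = 0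

/-- primitive vectors -/
def Prim {ι : Type} (u : ι → ℕ) : Prop := ∀ d : ℕ, (∀ i, d ∣ u i) → d = 1

/-! ### The structure of the contact jets of one matrix -/

/-- the invariant exponents of a profile -/
def mue (b : ℕ → ℕ) (i : ℕ) : ℕ := ∑ k ∈ Finset.range (i + 1), b k

/-- the diagonal matrix with entries `z i * t ^ (mue b i)` -/
noncomputable def refM (m n : ℕ) (b : ℕ → ℕ) (z : ℕ → ℂ) :
    Matrix (Fin m) (Fin n) (PowerSeries ℂ) :=
  fun i k => if (i : ℕ) = k then PowerSeries.C (z i) * PowerSeries.X ^ mue b i else 0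

/-- elimination of the first pivot -/
noncomputable def elim1 {m n : ℕ} (E : Matrix (Fin (m + 1)) (Fin (n + 1)) (PowerSeries ℂ)) :
    Matrix (Fin m) (Fin n) (PowerSeries ℂ) :=
  fun i k => E i.succ k.succ - E i.succ 0 * (E 0 0)⁻¹ * E 0 k.succ

/-- division by `t ^ c` -/
noncomputable def divX {ι κ : Type} (c : ℕ) (M : Matrix ι κ (PowerSeries ℂ)) :
    Matrix ι κ (PowerSeries ℂ) :=
  fun i k => PowerSeries.mk fun l => PowerSeries.coeff (l + c) (M i k)

/-- the matrix has the profile `b` and leading coefficients `z`, and is adapted to the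
coordinate flags -/
def Str : (m n : ℕ) → (b : ℕ → ℕ) → (z : ℕ → ℂ) → Matrix (Fin m) (Fin n) (PowerSeries ℂ) → Prop
  | 0, _, _, _, _ => True
  | _ + 1, 0, _, _, _ => False
  | m + 1, n + 1, b, z, M =>
      (∀ i k, ∀ l ≤ b 0, PowerSeries.coeff l (M i k) =
        PowerSeries.coeff l (refM (m + 1) (n + 1) b z i k)) ∧
      Str m n (fun i => b (i + 1)) (fun i => z (i + 1)) (elim1 (divX (b 0) M))

/-- the leading coefficients of the `r × r` minors of `M` are proportional to those of the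
reference matrix of the profile `u` -/
def PatR (m n : ℕ) (u : ℕ → ℕ) (r : ℕ) (M : Matrix (Fin m) (Fin n) (PowerSeries ℂ)) : Prop :=
  ∃ (e' : ℕ) (c : ℂ), c ≠ 0 ∧ ∀ (S : Fin r → Fin m) (T : Fin r → Fin n),
    (∀ l < e', PowerSeries.coeff l (M.submatrix S T).det = 0) ∧
    PowerSeries.coeff e' (M.submatrix S T).det =
      c * PowerSeries.coeff (ev u r) ((refM m n u 1).submatrix S T).det

/-- the leading coefficients are constant on the blocks of `b` -/
def BlockConst (m : ℕ) (b : ℕ → ℕ) (z : ℕ → ℂ) : Prop :=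
  ∀ i, i + 1 < m → b (i + 1) = 0 → z (i + 1) = z i

/-! ### The family of jets -/

variable {N : ℕ}

/-- the `a`-th matrix of a jet -/
def jetPart (e : (Σ a, Fin (m a) × Fin (n a)) ≃ Fin N) {L : ℕ} (γ : Fin N × Fin L → ℂ)
    (a : Fin s) : (Fin (m a) × Fin (n a)) × Fin L → ℂ :=
  fun c => γ (e ⟨a, c.1⟩, c.2)

/-- the reference curve -/
noncomputable def curveU (e : (Σ a, Fin (m a) × Fin (n a)) ≃ Fin N)
    (u : (Σ a, Fin (m a)) → ℕ) (δ : ℂ) (x : Fin N) : Polynomial ℂ :=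
  if ((e.symm x).2.1 : ℕ) = (e.symm x).2.2 then
    Polynomial.C δ * Polynomial.X ^ mue (part u (e.symm x).1) (e.symm x).2.1 else 0

/-- extension by one -/
noncomputable def extz {m : ℕ} (z : Fin m → ℂ) : ℕ → ℂ :=
  fun i => if h : i < m then z ⟨i, h⟩ else 1

/-- the finite set of the leading coefficients of the contact jets -/
def Gz (A : Finset ((Σ a, Fin (m a)) → ℕ)) (u : (Σ a, Fin (m a)) → ℕ) (δ : ℂ) :
    Set ((Σ a, Fin (m a)) → ℂ) :=
  {z | (∀ c, z c ≠ 0) ∧
    (∀ a, ∀ i : Fin (m a), (∀ k : Fin (m a), k ≤ i → u ⟨a, k⟩ = 0) → z ⟨a, i⟩ = δ) ∧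
    (∀ a, ∀ i : Fin (m a), ∀ h : (i : ℕ) + 1 < m a, u ⟨a, ⟨i + 1, h⟩⟩ = 0 →
      z ⟨a, ⟨i + 1, h⟩⟩ = z ⟨a, i⟩) ∧
    ∀ w ∈ A, InFace (AW A) u (Wf w) →
      ∏ c : (Σ a, Fin (m a)), (∏ i : Fin (m c.1), if i ≤ c.2 then z ⟨c.1, i⟩ / δ else 1) ^ w c = 1}

end MotMono
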