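import Pool.Agent.Lib.MP_4e5fcd_ag.Det.Base

/-! # DET-M0: first properties of `Str` -/

open MvPolynomial

namespace MotMono

theorem str_congr_bz {m n : ℕ} {b b' : ℕ → ℕ} {z z' : ℕ → ℂ} (hb : ∀ i < m, b i = b' i)
    (hz : ∀ i < m, z i = z' i) (M : Matrix (Fin m) (Fin n) (PowerSeries ℂ)) :
    Str m n b z M ↔ Str m n b' z' M := by
  induction m generalizing n b b' z z' with
  | zero => simp [Str]
  | succ m ih =>
    cases n with
    | zero => simp [Str]
    | succ n =>
      have h0 : b 0 = b' 0 := hb 0 (Nat.succ_pos _)
      have hmue : ∀ i : Fin (m + 1), mue b i = mue b' i := by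
        intro i
        unfold mue
        refine Finset.sum_congr rfl fun j hj => hb j ?_
        have := Finset.mem_range.mp hj
        have := i.2
        omega
      have href : ∀ i k, refM (m + 1) (n + 1) b z i k = refM (m + 1) (n + 1) b' z' i k := by
        intro i k
        unfold refM
        rw [hmue i, hz i i.2]
      rw [Str, Str, h0]
      refine and_congr ?_ (ih (fun i hi => hb (i + 1) (by omega)) (fun i hi => hz (i + 1) (by omega)) _)
      constructor
      · intro h i k l hl
        rw [h i k l hl, href]
      · intro h i k l hl
        rw [h i k l hl, href]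

/-- the leading coefficients are determined by the matrix -/
theorem str_unique (m n : ℕ) (b : ℕ → ℕ) (z z' : ℕ → ℂ)
    (M : Matrix (Fin m) (Fin n) (PowerSeries ℂ)) (h : Str m n b z M) (h' : Str m n b z' M) :
    ∀ i < m, z i = z' i := by
  induction m generalizing n b z z' with
  | zero => intro i hi; omega
  | succ m ih =>
    cases n with
    | zero => simp [Str] at h
    | succ n =>
      rw [Str] at h h'
      have hcoef : ∀ y : ℕ → ℂ, PowerSeries.coeff (b 0) (refM (m + 1) (n + 1) b y 0 0) = y 0 := by
        intro y
        unfold refM
        have hm : mue b ((0 : Fin (m + 1)) : ℕ) = b 0 := by simp [mue]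
        rw [if_pos (by simp), hm, PowerSeries.coeff_C_mul, PowerSeries.coeff_X_pow_self]
        simp
      intro i hi
      cases i with
      | zero =>
        have h1 := h.1 0 0 (b 0) le_rfl
        have h2 := h'.1 0 0 (b 0) le_rfl
        rw [hcoef] at h1 h2
        rw [← h1, h2]
      | succ i =>
        exact ih n (fun i => b (i + 1)) (fun i => z (i + 1)) (fun i => z' (i + 1)) _ h.2 h'.2 i
          (by omega)

end MotMono
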