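import Pool.Agent.Lib.MP_4e5fcd_ag.Det.M8a
import Pool.Agent.Lib.MP_4e5fcd_ag.Det.B3

/-! # DET-P1: lowest coefficients of products of minors -/

open MvPolynomial

namespace MotMono

variable {s N : ℕ} {m n : Fin s → ℕ}

/-- lowest coefficient of a product -/
theorem coeff_prod_lowest {α : Type} (t : Finset α) (F : α → PowerSeries ℂ) (k : α → ℕ)
    (h : ∀ a ∈ t, ∀ l < k a, PowerSeries.coeff l (F a) = 0) :
    (∀ l < ∑ a ∈ t, k a, PowerSeries.coeff l (∏ a ∈ t, F a) = 0) ∧
      PowerSeries.coeff (∑ a ∈ t, k a) (∏ a ∈ t, F a) =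
        ∏ a ∈ t, PowerSeries.coeff (k a) (F a) := by
  have h1 : ∀ a ∈ t, ∃ G : PowerSeries ℂ, F a = PowerSeries.X ^ k a * G := by
    intro a ha
    have h2 := PowerSeries.X_pow_dvd_iff.mpr (h a ha)
    exact h2
  choose! G hG using h1
  have hprod : ∏ a ∈ t, F a = PowerSeries.X ^ (∑ a ∈ t, k a) * ∏ a ∈ t, G a := by
    rw [Finset.prod_congr rfl hG, Finset.prod_mul_distrib, Finset.prod_pow_eq_pow_sum]
  constructor
  · intro l hl
    rw [hprod]
    exact PowerSeries.X_pow_dvd_iff.mp (dvd_mul_right _ _) l hl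
  · have h3 : ∀ a ∈ t, PowerSeries.coeff (k a) (F a) = PowerSeries.constantCoeff (G a) := by
      intro a ha
      have h4 := PowerSeries.coeff_X_pow_mul (G a) (k a) 0
      rw [zero_add] at h4
      rw [hG a ha, h4, PowerSeries.coeff_zero_eq_constantCoeff_apply]
    have h5 := PowerSeries.coeff_X_pow_mul (∏ a ∈ t, G a) (∑ a ∈ t, k a) 0
    rw [zero_add] at h5
    rw [hprod, h5, PowerSeries.coeff_zero_eq_constantCoeff_apply, map_prod]
    exact (Finset.prod_congr rfl h3).symm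

/-- lowest coefficient of a product of minors -/
theorem prodMinor_lowest (M : ∀ a, Matrix (Fin (m a)) (Fin (n a)) (PowerSeries ℂ))
    {w : (Σ a, Fin (m a)) → ℕ} (C : Choice m n w) (k : ∀ c : (Σ a, Fin (m a)), Fin (w c) → ℕ)
    (h : ∀ c j, ∀ l < k c j, PowerSeries.coeff l ((M c.1).submatrix (C c j).1 (C c j).2).det = 0) :
    (∀ l < ∑ c, ∑ j, k c j, PowerSeries.coeff l (prodMinor M C) = 0) ∧
      PowerSeries.coeff (∑ c, ∑ j, k c j) (prodMinor M C) =
        ∏ c, ∏ j, PowerSeries.coeff (k c j) ((M c.1).submatrix (C c j).1 (C c j).2).det := by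
  unfold prodMinor
  have h1 : ∀ c, (∀ l < ∑ j, k c j,
      PowerSeries.coeff l (∏ j, ((M c.1).submatrix (C c j).1 (C c j).2).det) = 0) ∧
      PowerSeries.coeff (∑ j, k c j) (∏ j, ((M c.1).submatrix (C c j).1 (C c j).2).det) =
        ∏ j, PowerSeries.coeff (k c j) ((M c.1).submatrix (C c j).1 (C c j).2).det := fun c =>
    coeff_prod_lowest Finset.univ (fun j => ((M c.1).submatrix (C c j).1 (C c j).2).det) (k c)
      (fun j _ => h c j)
  have h2 := coeff_prod_lowest Finset.univ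
    (fun c => ∏ j, ((M c.1).submatrix (C c j).1 (C c j).2).det) (fun c => ∑ j, k c j)
    (fun c _ => (h1 c).1)
  refine ⟨h2.1, h2.2.trans ?_⟩
  exact Finset.prod_congr rfl fun c _ => (h1 c).2

/-- minors of the reference matrices -/
theorem coeff_refU_minor (u : (Σ a, Fin (m a)) → ℕ) (δ : ℂ) (c : Σ a, Fin (m a))
    (S : Fin (c.2 + 1) → Fin (m c.1)) (T : Fin (c.2 + 1) → Fin (n c.1)) :
    (∀ l < ev (part u c.1) (c.2 + 1),
      PowerSeries.coeff l ((refU n u δ c.1).submatrix S T).det = 0) ∧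
    PowerSeries.coeff (ev (part u c.1) (c.2 + 1)) ((refU n u δ c.1).submatrix S T).det =
      δ ^ ((c.2 : ℕ) + 1) * PowerSeries.coeff (ev (part u c.1) (c.2 + 1))
        ((refM (m c.1) (n c.1) (part u c.1) 1).submatrix S T).det := by
  constructor
  · intro l hl
    exact coeff_ref_minor_lt (part u c.1) (fun _ => δ) S T l hl
  · have h1 := coeff_ref_minor (m := m c.1) (n := n c.1) (part u c.1) (part u c.1)
      (fun _ _ => Iff.rfl) (fun _ => δ) (fun _ _ _ => rfl)
      (show (c.2 : ℕ) + 1 ≤ m c.1 by have := c.2.2; omega) S T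
    rw [Finset.prod_const, Finset.card_range] at h1
    exact h1

theorem prodMinor_refU (u : (Σ a, Fin (m a)) → ℕ) (δ : ℂ)
    {w : (Σ a, Fin (m a)) → ℕ} (C : Choice m n w) :
    (∀ l < pair (Wf w) u, PowerSeries.coeff l (prodMinor (refU n u δ) C) = 0) ∧
    PowerSeries.coeff (pair (Wf w) u) (prodMinor (refU n u δ) C) =
      ∏ c, ∏ j, PowerSeries.coeff (ev (part u c.1) (c.2 + 1))
        ((refU n u δ c.1).submatrix (C c j).1 (C c j).2).det := by
  have h1 := prodMinor_lowest (refU n u δ) C (fun c _ => ev (part u c.1) (c.2 + 1))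
    (fun c j => (coeff_refU_minor u δ c (C c j).1 (C c j).2).1)
  have h2 : ∑ c : (Σ a, Fin (m a)), ∑ _j : Fin (w c), ev (part u c.1) (c.2 + 1) =
      pair (Wf w) u := by
    rw [pair_Wf]
    refine Finset.sum_congr rfl fun c _ => ?_
    rw [Finset.sum_const, Finset.card_univ, Fintype.card_fin, smul_eq_mul]
  rw [h2] at h1
  exact h1

/-- leading principal minors -/
def idChoice (hmn : ∀ a, m a ≤ n a) (w : (Σ a, Fin (m a)) → ℕ) : Choice m n w := fun c _ =>
  (Fin.castLE (by omega), Fin.castLE (by have := hmn c.1; omega))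

theorem coeff_prodMinor_id (hmn : ∀ a, m a ≤ n a) (u : (Σ a, Fin (m a)) → ℕ) (δ : ℂ)
    (hδ : δ ≠ 0) (w : (Σ a, Fin (m a)) → ℕ) :
    PowerSeries.coeff (pair (Wf w) u) (prodMinor (refU n u δ) (idChoice hmn w)) ≠ 0 := by
  rw [(prodMinor_refU u δ (idChoice hmn w)).2]
  refine Finset.prod_ne_zero_iff.mpr fun c _ => Finset.prod_ne_zero_iff.mpr fun j _ => ?_
  rw [(coeff_refU_minor u δ c _ _).2]
  refine mul_ne_zero (pow_ne_zero _ hδ) ?_
  have hm : (c.2 : ℕ) + 1 ≤ m c.1 := by have := c.2.2; omega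
  have hn : (c.2 : ℕ) + 1 ≤ n c.1 := hm.trans (hmn c.1)
  have h1 := coeff_ref_minor_id (m := m c.1) (n := n c.1) (part u c.1) hm hn
  have h2 : PowerSeries.coeff (ev (part u c.1) (c.2 + 1))
      ((refM (m c.1) (n c.1) (part u c.1) 1).submatrix (idChoice hmn w c j).1
        (idChoice hmn w c j).2).det = 1 := h1
  rw [h2]
  exact one_ne_zero

end MotMono
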