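import Pool.Agent.Lib.MP_4e5fcd_ag.Det.M4
import Pool.Agent.Lib.MP_4e5fcd_ag.Det.P1

/-! # DET-M10a: products of minors of structured matrices -/

open MvPolynomial

namespace MotMono

variable {s N : ℕ} {m n : Fin s → ℕ}

theorem m10a_fac {p : ℕ} (z : Fin p → ℂ) (δ : ℂ) (hδ : δ ≠ 0) (k : Fin p) :
    ∏ i ∈ Finset.range ((k : ℕ) + 1), (extz z) i =
      (∏ i : Fin p, if i ≤ k then z i / δ else 1) * δ ^ ((k : ℕ) + 1) := by
  have h1 : (∏ i : Fin p, if i ≤ k then z i / δ else 1) =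
      ∏ i ∈ Finset.range p, if i ≤ (k : ℕ) then (extz z) i / δ else 1 := by
    rw [← Fin.prod_univ_eq_prod_range (fun i => if i ≤ (k : ℕ) then (extz z) i / δ else 1) p]
    refine Finset.prod_congr rfl fun i _ => ?_
    have h2 : (extz z) i = z i := by simp [extz]
    rw [h2]
    by_cases h : i ≤ k
    · rw [if_pos h, if_pos (by exact_mod_cast h)]
    · rw [if_neg h, if_neg (by exact_mod_cast h)]
  have h3 : (∏ i ∈ Finset.range p, if i ≤ (k : ℕ) then (extz z) i / δ else 1) =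
      ∏ i ∈ Finset.range ((k : ℕ) + 1), (extz z) i / δ := by
    rw [← Finset.prod_filter]
    refine Finset.prod_congr ?_ fun _ _ => rfl
    ext i
    simp only [Finset.mem_filter, Finset.mem_range]
    have := k.2
    omega
  rw [h1, h3, Finset.prod_div_distrib, Finset.prod_const, Finset.card_range,
    div_mul_cancel₀ _ (pow_ne_zero _ hδ)]

/-- the products of minors of structured matrices -/
theorem prodMinor_of_str (hmn : ∀ a, m a ≤ n a)
    (u : (Σ a, Fin (m a)) → ℕ) (δ : ℂ) (hδ : δ ≠ 0) (b : (Σ a, Fin (m a)) → ℕ)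
    (hbu : ∀ c, b c = 0 ↔ u c = 0) (z : (Σ a, Fin (m a)) → ℂ) (hz : ∀ c, z c ≠ 0)
    (hbc : ∀ a, BlockConst (m a) (part b a) (extz fun i => z ⟨a, i⟩))
    (M : ∀ a, Matrix (Fin (m a)) (Fin (n a)) (PowerSeries ℂ))
    (hM : ∀ a, Str (m a) (n a) (part b a) (extz fun i => z ⟨a, i⟩) (M a))
    (w : (Σ a, Fin (m a)) → ℕ) (C : Choice m n w) :
    (∀ l < pair (Wf w) b, PowerSeries.coeff l (prodMinor M C) = 0) ∧
    PowerSeries.coeff (pair (Wf w) b) (prodMinor M C) =
      (∏ c : (Σ a, Fin (m a)), (∏ i : Fin (m c.1), if i ≤ c.2 then z ⟨c.1, i⟩ / δ else 1) ^ w c) *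
        PowerSeries.coeff (pair (Wf w) u) (prodMinor (refU n u δ) C) := by
  have hext : ∀ a, ∀ i < m a, (extz fun i => z ⟨a, i⟩) i ≠ 0 := by
    intro a i hi
    have : (extz fun i => z ⟨a, i⟩) i = z ⟨a, ⟨i, hi⟩⟩ := by simp [extz, hi]
    rw [this]
    exact hz _
  have hsupp : ∀ a, ∀ i < m a, part b a i = 0 ↔ part u a i = 0 := by
    intro a i hi
    have h1 : part b a i = b ⟨a, ⟨i, hi⟩⟩ := by simp [part, extb, hi]
    have h2 : part u a i = u ⟨a, ⟨i, hi⟩⟩ := by simp [part, extb, hi]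
    rw [h1, h2]
    exact hbu _
  have hminor : ∀ (c : Σ a, Fin (m a)) (j : Fin (w c)),
      (∀ l < ev (part b c.1) (c.2 + 1),
        PowerSeries.coeff l ((M c.1).submatrix (C c j).1 (C c j).2).det = 0) ∧
      PowerSeries.coeff (ev (part b c.1) (c.2 + 1))
        ((M c.1).submatrix (C c j).1 (C c j).2).det =
      (∏ i : Fin (m c.1), if i ≤ c.2 then z ⟨c.1, i⟩ / δ else 1) *
        PowerSeries.coeff (ev (part u c.1) (c.2 + 1))
          ((refU n u δ c.1).submatrix (C c j).1 (C c j).2).det := by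
    intro c j
    have hr : (c.2 : ℕ) + 1 ≤ m c.1 := c.2.2
    refine ⟨fun l hl => ?_, ?_⟩
    · rw [coeff_minor_of_str (m c.1) (n c.1) (hmn c.1) (part b c.1) (extz fun i => z ⟨c.1, i⟩)
        (hext c.1) (hbc c.1) (M c.1) (hM c.1) hr _ _ l hl.le]
      exact coeff_ref_minor_lt _ _ _ _ l hl
    · rw [coeff_minor_of_str (m c.1) (n c.1) (hmn c.1) (part b c.1) (extz fun i => z ⟨c.1, i⟩)
        (hext c.1) (hbc c.1) (M c.1) (hM c.1) hr _ _ _ le_rfl,
        coeff_ref_minor (part b c.1) (part u c.1) (hsupp c.1) _ (hbc c.1) hr,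
        (coeff_refU_minor u δ c (C c j).1 (C c j).2).2,
        m10a_fac (fun i => z ⟨c.1, i⟩) δ hδ c.2, mul_assoc]
      rfl
  obtain ⟨h1, h2⟩ := prodMinor_lowest M C (fun c _ => ev (part b c.1) (c.2 + 1))
    (fun c j l hl => (hminor c j).1 l hl)
  have hsum : (∑ c : (Σ a, Fin (m a)), ∑ _j : Fin (w c), ev (part b c.1) (c.2 + 1)) =
      pair (Wf w) b := by
    rw [pair_Wf]
    refine Finset.sum_congr rfl fun c _ => ?_
    rw [Finset.sum_const, Finset.card_univ, Fintype.card_fin, smul_eq_mul]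
  rw [hsum] at h1 h2
  refine ⟨h1, ?_⟩
  rw [h2, (prodMinor_refU u δ C).2, ← Finset.prod_mul_distrib]
  refine Finset.prod_congr rfl fun c _ => ?_
  rw [Finset.prod_congr rfl fun j _ => (hminor c j).2, Finset.prod_mul_distrib, Finset.prod_const,
    Finset.card_univ, Fintype.card_fin]

end MotMono
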