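import Pool.Agent.Lib.MP_4e5fcd_ag.Det.P1

/-! # DET-M9: from contact to proportional leading minors -/

open MvPolynomial

namespace MotMono

variable {s : ℕ} {m n : Fin s → ℕ}

/-- changing one factor of a double product -/
theorem m9_prod {ι : Type} [Fintype ι] [DecidableEq ι] {κ : ι → Type} [∀ c, Fintype (κ c)]
    [∀ c, DecidableEq (κ c)] {α : ι → Type} {B : Type} [CommMonoid B] (g : ∀ c, α c → B)
    (C : ∀ c, κ c → α c) (c₀ : ι) (j₀ : κ c₀) (x : α c₀) :
    ∏ c, ∏ j, g c (Function.update C c₀ (Function.update (C c₀) j₀ x) c j) =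
      g c₀ x * ((∏ j ∈ Finset.univ.erase j₀, g c₀ (C c₀ j)) *
        ∏ c ∈ Finset.univ.erase c₀, ∏ j, g c (C c j)) := by
  rw [← Finset.mul_prod_erase Finset.univ _ (Finset.mem_univ c₀)]
  rw [← Finset.mul_prod_erase Finset.univ
    (fun j => g c₀ (Function.update C c₀ (Function.update (C c₀) j₀ x) c₀ j)) (Finset.mem_univ j₀)]
  rw [mul_assoc]
  congr 1
  · simp
  · congr 1
    · refine Finset.prod_congr rfl fun j hj => ?_
      have hj' : j ≠ j₀ := Finset.ne_of_mem_erase hj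
      simp [Function.update_of_ne hj']
    · refine Finset.prod_congr rfl fun c hc => ?_
      have hc' : c ≠ c₀ := Finset.ne_of_mem_erase hc
      rw [Function.update_of_ne hc']

/-- lowest coefficients of the factors of a product -/
theorem m9_lowest (F R : PowerSeries ℂ) (d : ℕ)
    (h0 : ∀ l < d, PowerSeries.coeff l (F * R) = 0) (hd : PowerSeries.coeff d (F * R) ≠ 0) :
    ∃ e ρ : ℕ, PowerSeries.coeff ρ R ≠ 0 ∧ ∀ G : PowerSeries ℂ,
      (∀ l < d, PowerSeries.coeff l (G * R) = 0) →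
      (∀ l < e, PowerSeries.coeff l G = 0) ∧
        PowerSeries.coeff d (G * R) = PowerSeries.coeff e G * PowerSeries.coeff ρ R := by
  have hFR : F * R ≠ 0 := by
    intro h
    rw [h] at hd
    simp at hd
  have hF : F ≠ 0 := left_ne_zero_of_mul hFR
  have hR : R ≠ 0 := right_ne_zero_of_mul hFR
  obtain ⟨e, he⟩ : ∃ e : ℕ, F.order = e := ⟨_, (PowerSeries.coe_toNat_order hF).symm⟩
  obtain ⟨ρ, hρ⟩ : ∃ ρ : ℕ, R.order = ρ := ⟨_, (PowerSeries.coe_toNat_order hR).symm⟩
  have hord : (F * R).order = (d : ℕ∞) := by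
    rw [PowerSeries.order_eq_nat]
    exact ⟨hd, h0⟩
  have hsum : e + ρ = d := by
    rw [PowerSeries.order_mul, he, hρ] at hord
    exact_mod_cast hord
  have hρ' : PowerSeries.coeff ρ R ≠ 0 ∧ ∀ l < ρ, PowerSeries.coeff l R = 0 :=
    PowerSeries.order_eq_nat.1 hρ
  refine ⟨e, ρ, hρ'.1, fun G hG => ?_⟩
  have h1 : ∀ l < e, PowerSeries.coeff l G = 0 := by
    by_contra hcon
    push Not at hcon
    obtain ⟨l, hl, hne⟩ := hcon
    have hG0 : G ≠ 0 := by
      intro h
      rw [h] at hne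
      simp at hne
    obtain ⟨o, ho⟩ : ∃ o : ℕ, G.order = o := ⟨_, (PowerSeries.coe_toNat_order hG0).symm⟩
    have hol : o ≤ l := by
      have := PowerSeries.order_le l hne
      rw [ho] at this
      exact_mod_cast this
    have hGR : (G * R).order = ((o + ρ : ℕ) : ℕ∞) := by
      rw [PowerSeries.order_mul, ho, hρ]
      push_cast
      rfl
    have := (PowerSeries.order_eq_nat.1 hGR).1
    exact this (hG _ (by omega))
  refine ⟨h1, ?_⟩
  have hmul : PowerSeries.coeff (e + ρ) (G * R) =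
      PowerSeries.coeff e G * PowerSeries.coeff ρ R := by
    rw [PowerSeries.coeff_mul]
    rw [Finset.sum_eq_single (e, ρ)]
    · rintro ⟨i, j⟩ hij hne
      rw [Finset.HasAntidiagonal.mem_antidiagonal] at hij
      simp only at hij ⊢
      rcases lt_trichotomy i e with h | h | h
      · rw [h1 i h, zero_mul]
      · exfalso
        apply hne
        rw [Prod.mk.injEq]
        exact ⟨h, by omega⟩
      · rw [hρ'.2 j (by omega), mul_zero]
    · intro h
      exact absurd (show (e, ρ) ∈ Finset.HasAntidiagonal.antidiagonal (e + ρ) from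
        Finset.HasAntidiagonal.mem_antidiagonal.2 rfl) h
  rw [← hsum]
  exact hmul

/-- the leading minors of visible size are proportional to those of the reference matrices -/
theorem pat_of_contact (hmn : ∀ a, m a ≤ n a) (A : Finset ((Σ a, Fin (m a)) → ℕ))
    (u : (Σ a, Fin (m a)) → ℕ) (δ : ℂ) (hδ : δ ≠ 0) (d : ℕ)
    (M : ∀ a, Matrix (Fin (m a)) (Fin (n a)) (PowerSeries ℂ))
    (h : ∀ w ∈ A, ∀ C : Choice m n w, (∀ l < d, PowerSeries.coeff l (prodMinor M C) = 0) ∧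
      PowerSeries.coeff d (prodMinor M C) =
        PowerSeries.coeff (minF (AW A) u) (prodMinor (refU n u δ) C)) :
    ∀ a r, Vis A u a r → PatR (m a) (n a) (part u a) r (M a) := by
  rintro a r ⟨w, hwA, hface, i, rfl, hwi⟩
  have hmin : minF (AW A) u = pair (Wf w) u := by
    unfold minF
    apply le_antisymm
    · exact Nat.sInf_le ⟨Wf w, hface.1, rfl⟩
    · refine le_csInf ?_ ?_
      · exact ⟨pair (Wf w) u, Wf w, hface.1, rfl⟩
      · rintro k ⟨W', hW', rfl⟩
        exact hface.2 W' hW'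
  set c₀ : (Σ a, Fin (m a)) := ⟨a, i⟩ with hc₀
  have hpos : 0 < w c₀ := Nat.pos_of_ne_zero hwi
  set j₀ : Fin (w c₀) := ⟨0, hpos⟩ with hj₀
  set C₀ : Choice m n w := idChoice hmn w with hC₀
  -- the minors of `M`
  let g : ∀ c : (Σ a, Fin (m a)),
      ((Fin (c.2 + 1) → Fin (m c.1)) × (Fin (c.2 + 1) → Fin (n c.1))) → PowerSeries ℂ :=
    fun c p => ((M c.1).submatrix p.1 p.2).det
  let g' : ∀ c : (Σ a, Fin (m a)),
      ((Fin (c.2 + 1) → Fin (m c.1)) × (Fin (c.2 + 1) → Fin (n c.1))) → ℂ :=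
    fun c p => PowerSeries.coeff (ev (part u c.1) (c.2 + 1))
        ((refU n u δ c.1).submatrix p.1 p.2).det
  set R : PowerSeries ℂ := (∏ j ∈ Finset.univ.erase j₀, g c₀ (C₀ c₀ j)) *
        ∏ c ∈ Finset.univ.erase c₀, ∏ j, g c (C₀ c j) with hR
  set K : ℂ := (∏ j ∈ Finset.univ.erase j₀, g' c₀ (C₀ c₀ j)) *
        ∏ c ∈ Finset.univ.erase c₀, ∏ j, g' c (C₀ c j) with hK
  let upd : ((Fin (c₀.2 + 1) → Fin (m c₀.1)) × (Fin (c₀.2 + 1) → Fin (n c₀.1))) →
      Choice m n w := fun x => Function.update C₀ c₀ (Function.update (C₀ c₀) j₀ x)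
  have hM : ∀ x, prodMinor M (upd x) = g c₀ x * R := fun x => m9_prod g C₀ c₀ j₀ x
  have hU : ∀ x, PowerSeries.coeff (minF (AW A) u) (prodMinor (refU n u δ) (upd x)) =
      g' c₀ x * K := by
    intro x
    rw [hmin, (prodMinor_refU u δ (upd x)).2]
    exact m9_prod g' C₀ c₀ j₀ x
  have hid : upd (C₀ c₀ j₀) = C₀ := by
    simp only [upd, Function.update_eq_self]
  have hne : g' c₀ (C₀ c₀ j₀) * K ≠ 0 := by
    rw [← hU, hid, hmin]
    exact coeff_prodMinor_id hmn u δ hδ w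
  have hK0 : K ≠ 0 := right_ne_zero_of_mul hne
  have hx : ∀ x, (∀ l < d, PowerSeries.coeff l (g c₀ x * R) = 0) ∧
      PowerSeries.coeff d (g c₀ x * R) = g' c₀ x * K := by
    intro x
    have := h w hwA (upd x)
    rw [hM, hU] at this
    exact this
  obtain ⟨e, ρ, hρ, hall⟩ := m9_lowest (g c₀ (C₀ c₀ j₀)) R d (hx _).1
    (by rw [(hx _).2]; exact hne)
  refine ⟨e, δ ^ ((i : ℕ) + 1) * K * (PowerSeries.coeff ρ R)⁻¹,
    mul_ne_zero (mul_ne_zero (pow_ne_zero _ hδ) hK0) (inv_ne_zero hρ), fun S T => ?_⟩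
  obtain ⟨h1, h2⟩ := hall (g c₀ (S, T)) (hx (S, T)).1
  refine ⟨h1, ?_⟩
  rw [(hx (S, T)).2] at h2
  have h3 : g' c₀ (S, T) = δ ^ ((i : ℕ) + 1) * PowerSeries.coeff (ev (part u a) (i + 1))
        ((refM (m a) (n a) (part u a) 1).submatrix S T).det :=
    (coeff_refU_minor u δ c₀ S T).2
  have h4 : PowerSeries.coeff e ((M a).submatrix S T).det =
      g' c₀ (S, T) * K * (PowerSeries.coeff ρ R)⁻¹ := by
    rw [h2]
    field_simp
    rfl
  rw [h4, h3]
  ring

end MotMono
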