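import Pool.Agent.Lib.MP_4e5fcd_ag.Det.Base

/-! # DET-U1: visible minors at a ray -/

open MvPolynomial

namespace MotMono

variable {s : ℕ} {m : Fin s → ℕ}

/-- the sum of the `r` smallest exponents of a rational profile -/
def evq (y : (Σ a, Fin (m a)) → ℚ) (a : Fin s) (r : ℕ) : ℚ :=
  ∑ i : Fin (m a), ((r - (i : ℕ) : ℕ) : ℚ) * y ⟨a, i⟩

theorem sum_Wf_mul (w : (Σ a, Fin (m a)) → ℕ) (y : (Σ a, Fin (m a)) → ℚ) :
    ∑ c, (Wf w c : ℚ) * y c = ∑ c : (Σ a, Fin (m a)), (w c : ℚ) * evq y c.1 (c.2 + 1) := by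
  rw [Fintype.sum_sigma, Fintype.sum_sigma]
  refine Finset.sum_congr rfl fun a _ => ?_
  have hR : ∑ x : Fin (m a), (w ⟨a, x⟩ : ℚ) * evq y a ((x : ℕ) + 1) =
      ∑ k : Fin (m a), ∑ x : Fin (m a),
        (w ⟨a, x⟩ : ℚ) * ((((x : ℕ) + 1 - (k : ℕ) : ℕ) : ℚ) * y ⟨a, k⟩) := by
    rw [Finset.sum_comm]
    refine Finset.sum_congr rfl fun k _ => ?_
    unfold evq
    rw [Finset.mul_sum]
  refine Eq.trans ?_ hR.symm
  refine Finset.sum_congr rfl fun k _ => ?_
  change ((∑ i : Fin (m a), w ⟨a, i⟩ * ((i : ℕ) + 1 - (k : ℕ)) : ℕ) : ℚ) * y ⟨a, k⟩ = _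
  push_cast
  rw [Finset.sum_mul]
  refine Finset.sum_congr rfl fun i _ => ?_
  ring

theorem evq_cast (b : (Σ a, Fin (m a)) → ℕ) (a : Fin s) (r : ℕ) (hr : r ≤ m a) :
    evq (fun c => (b c : ℚ)) a r = ev (part b a) r := by
  unfold evq ev part extb
  push_cast
  rw [Finset.sum_fin_eq_sum_range]
  have h1 : Finset.range r ⊆ Finset.range (m a) := Finset.range_subset_range.mpr hr
  rw [← Finset.sum_subset h1]
  · refine Finset.sum_congr rfl fun i hi => ?_
    have hi' : i < m a := lt_of_lt_of_le (Finset.mem_range.mp hi) hr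
    rw [dif_pos hi', dif_pos hi']
  · intro i _ hi2
    have : r ≤ i := by simpa using hi2
    split_ifs with h
    · simp [Nat.sub_eq_zero_of_le this]
    · rfl

theorem u1_face_nonempty (A : Finset ((Σ a, Fin (m a)) → ℕ)) (u : (Σ a, Fin (m a)) → ℕ)
    (hN : 0 < minF (AW A) u) : ∃ w ∈ A, InFace (AW A) u (Wf w) ∧ pair (Wf w) u = minF (AW A) u := by
  have hne : ({k | ∃ W ∈ AW A, pair W u = k} : Set ℕ).Nonempty := by
    by_contra h
    rw [Set.not_nonempty_iff_eq_empty] at h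
    unfold minF at hN
    rw [h, Nat.sInf_empty] at hN
    exact lt_irrefl _ hN
  obtain ⟨W, hW, hWe⟩ := Nat.sInf_mem hne
  classical
  unfold AW at hW
  obtain ⟨w, hw, rfl⟩ := Finset.mem_image.mp hW
  refine ⟨w, hw, ⟨hW, fun W' hW' => ?_⟩, hWe⟩
  rw [hWe]
  exact Nat.sInf_le ⟨W', hW', rfl⟩

/-- a vector supported in the support of `u` with vanishing visible values is zero -/
theorem eq_zero_of_vis (A : Finset ((Σ a, Fin (m a)) → ℕ)) (u : (Σ a, Fin (m a)) → ℕ)
    (hu : Ext (AW A) u) (hN : 0 < minF (AW A) u) (y : (Σ a, Fin (m a)) → ℚ)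
    (hy : ∀ c, u c = 0 → y c = 0) (hv : ∀ a r, Vis A u a r → evq y a r = 0) : y = 0 := by
  classical
  have key : ∀ W, InFace (AW A) u W → ∑ c, (W c : ℚ) * y c = 0 := by
    intro W hW
    have hW' := hW.1
    unfold AW at hW'
    obtain ⟨w, hw, rfl⟩ := Finset.mem_image.mp hW'
    rw [sum_Wf_mul]
    refine Finset.sum_eq_zero fun c _ => ?_
    by_cases hwc : w c = 0
    · simp [hwc]
    · rw [hv c.1 (c.2 + 1) ⟨w, hw, hW, c.2, rfl, hwc⟩, mul_zero]
  obtain ⟨c, hc⟩ := hu.2 y hy fun W W' hW hW' => by rw [key W hW, key W' hW']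
  obtain ⟨w, hw, hface, hpair⟩ := u1_face_nonempty A u hN
  have h1 := key _ hface
  have h2 : ∑ i, (Wf w i : ℚ) * y i = c * (pair (Wf w) u : ℚ) := by
    unfold pair
    push_cast
    rw [Finset.mul_sum]
    refine Finset.sum_congr rfl fun i _ => ?_
    rw [hc i]; ring
  rw [h1, hpair] at h2
  have h3 : c = 0 := by
    rcases mul_eq_zero.mp h2.symm with h | h
    · exact h
    · exfalso
      have : (minF (AW A) u : ℚ) ≠ 0 := by exact_mod_cast hN.ne'
      exact this h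
  funext i
  rw [hc i, h3]; simp

theorem u1_sum_ite (M r q : ℕ) (c : ℚ) (hr : r ≤ M) :
    ∑ k : Fin M, ((r - (k : ℕ) : ℕ) : ℚ) * (if (k : ℕ) = q then c else 0) =
      ((r - q : ℕ) : ℚ) * c := by
  by_cases hq : q < M
  · rw [Finset.sum_eq_single (⟨q, hq⟩ : Fin M)]
    · simp
    · intro b _ hb
      have : (b : ℕ) ≠ q := fun h => hb (Fin.ext h)
      rw [if_neg this, mul_zero]
    · intro h; exact absurd (Finset.mem_univ _) h
  · have h0 : r - q = 0 := by omega
    rw [h0]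
    push_cast
    rw [zero_mul]
    refine Finset.sum_eq_zero fun k _ => ?_
    have : (k : ℕ) ≠ q := by have := k.2; omega
    rw [if_neg this, mul_zero]

/-- a vector supported on one matrix -/
def u1vec (m : Fin s → ℕ) (a : Fin s) (f : ℕ → ℚ) : (Σ a, Fin (m a)) → ℚ :=
  fun c => if c.1 = a then f c.2 else 0

theorem evq_u1vec (a : Fin s) (f : ℕ → ℚ) (a' : Fin s) (r : ℕ) :
    evq (u1vec m a f) a' r =
      if a' = a then ∑ k : Fin (m a'), ((r - (k : ℕ) : ℕ) : ℚ) * f k else 0 := by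
  unfold evq u1vec
  by_cases h : a' = a
  · simp [h]
  · simp [h]

/-- the boundary between two positive blocks is seen by a visible minor -/
theorem vis_boundary (A : Finset ((Σ a, Fin (m a)) → ℕ)) (u : (Σ a, Fin (m a)) → ℕ)
    (hu : Ext (AW A) u) (hN : 0 < minF (AW A) u) (a : Fin s) (i i' : Fin (m a)) (hii : i < i')
    (hi : u ⟨a, i⟩ ≠ 0) (hi' : u ⟨a, i'⟩ ≠ 0) (hz : ∀ k, i < k → k < i' → u ⟨a, k⟩ = 0) :
    ∃ r, Vis A u a r ∧ (i : ℕ) < r ∧ r < m a ∧
      ∀ k : Fin (m a), i' < k → (k : ℕ) ≤ r → u ⟨a, k⟩ = 0 := by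
  classical
  by_contra hcon
  push Not at hcon
  have hex : ∃ q, (i' : ℕ) < q ∧ (q = m a ∨ ∃ h : q < m a, u ⟨a, ⟨q, h⟩⟩ ≠ 0) :=
    ⟨m a, i'.2, Or.inl rfl⟩
  obtain ⟨hq1, hq2⟩ := Nat.find_spec hex
  have hqmin := fun k (hk : k < Nat.find hex) => Nat.find_min hex hk
  set q := Nat.find hex with hqdef
  clear_value q
  have hqm : q ≤ m a := by
    rcases hq2 with h | ⟨h, _⟩
    · exact h.le
    · exact h.le
  have hii' : (i : ℕ) < i' := hii
  set g1 : ℚ := (i' : ℕ) - (i : ℕ) with hg1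
  set g2 : ℚ := (q : ℕ) - (i' : ℕ) with hg2
  have hg1p : 0 < g1 := by
    rw [hg1, sub_pos]; exact_mod_cast hii'
  have hg2p : 0 < g2 := by
    rw [hg2, sub_pos]; exact_mod_cast hq1
  set f : ℕ → ℚ := fun k => (if k = i then 1 / g1 else 0) +
    (if k = i' then -(1 / g1 + 1 / g2) else 0) + (if k = q then 1 / g2 else 0) with hf
  have hev : ∀ r ≤ m a, ∑ k : Fin (m a), ((r - (k : ℕ) : ℕ) : ℚ) * f k =
      ((r - (i : ℕ) : ℕ) : ℚ) * (1 / g1) + ((r - (i' : ℕ) : ℕ) : ℚ) * (-(1 / g1 + 1 / g2)) +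
        ((r - q : ℕ) : ℚ) * (1 / g2) := by
    intro r hr
    rw [← u1_sum_ite (m a) r i (1 / g1) hr, ← u1_sum_ite (m a) r i' (-(1 / g1 + 1 / g2)) hr,
      ← u1_sum_ite (m a) r q (1 / g2) hr, ← Finset.sum_add_distrib, ← Finset.sum_add_distrib]
    refine Finset.sum_congr rfl fun k _ => ?_
    rw [hf]; ring
  have h0 := eq_zero_of_vis A u hu hN (u1vec m a f) (by
    rintro ⟨a', k⟩ hk
    unfold u1vec
    by_cases ha : a' = a
    · subst ha
      have h1 : (k : ℕ) ≠ i := by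
        intro h; rw [Fin.ext h] at hk; exact hi hk
      have h2 : (k : ℕ) ≠ i' := by
        intro h; rw [Fin.ext h] at hk; exact hi' hk
      have h3 : (k : ℕ) ≠ q := by
        rintro h
        rcases hq2 with h' | ⟨h', h''⟩
        · have := k.2; omega
        · subst h; exact h'' hk
      simp [hf, h1, h2, h3]
    · simp [ha]) (by
    intro a' r hvis
    rw [evq_u1vec]
    split_ifs with ha
    swap
    · rfl
    subst ha
    have hr : r ≤ m a' := by
      obtain ⟨w, _, _, j, hj, _⟩ := hvis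
      rw [← hj]; exact j.2
    rw [hev r hr]
    by_cases c1 : r ≤ i
    · have e1 : r - (i : ℕ) = 0 := by omega
      have e2 : r - (i' : ℕ) = 0 := by omega
      have e3 : r - q = 0 := by omega
      rw [e1, e2, e3]; simp
    · by_cases c2 : q ≤ r
      · rw [Nat.cast_sub (by omega), Nat.cast_sub (by omega), Nat.cast_sub c2]
        field_simp
        rw [hg1, hg2]; ring
      · exfalso
        push Not at c1 c2
        obtain ⟨k, hk1, hk2, hk3⟩ := hcon r hvis c1 (by omega)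
        exact hqmin k (by omega) ⟨hk1, Or.inr ⟨k.2, hk3⟩⟩)
  have h1 := congrFun h0 ⟨a, i⟩
  have hne1 : (i : ℕ) ≠ i' := hii'.ne
  have hne2 : (i : ℕ) ≠ q := by omega
  simp only [u1vec, hf, if_true, if_neg hne1, if_neg hne2, Pi.zero_apply, add_zero] at h1
  have : (1 : ℚ) / g1 > 0 := by positivity
  linarith

/-- if the last block has length one, then the minors of maximal size are visible -/
theorem vis_last (A : Finset ((Σ a, Fin (m a)) → ℕ)) (u : (Σ a, Fin (m a)) → ℕ)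
    (hu : Ext (AW A) u) (hN : 0 < minF (AW A) u) (a : Fin s) (i : Fin (m a))
    (hi : (i : ℕ) + 1 = m a) (hui : u ⟨a, i⟩ ≠ 0) : Vis A u a (m a) := by
  classical
  by_contra hcon
  have h0 := eq_zero_of_vis A u hu hN (u1vec m a fun k => if k = i then 1 else 0) (by
    rintro ⟨a', k⟩ hk
    unfold u1vec
    by_cases ha : a' = a
    · subst ha
      have h1 : (k : ℕ) ≠ i := by
        intro h; rw [Fin.ext h] at hk; exact hui hk
      simp [h1]
    · simp [ha]) (by
    intro a' r hvis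
    rw [evq_u1vec]
    split_ifs with ha
    swap
    · rfl
    subst ha
    have hr : r ≤ m a' := by
      obtain ⟨w, _, _, j, hj, _⟩ := hvis
      rw [← hj]; exact j.2
    rw [u1_sum_ite (m a') r i 1 hr]
    have : r ≠ m a' := by
      rintro h; rw [h] at hvis; exact hcon hvis
    have e : r - (i : ℕ) = 0 := by omega
    rw [e]; simp)
  have h1 := congrFun h0 ⟨a, i⟩
  simp [u1vec] at h1

end MotMono
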