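import Pool.Agent.Lib.MP_4e5fcd_ag.Det.M3
import Pool.Agent.Lib.MP_4e5fcd_ag.Det.M9
import Pool.Agent.Lib.MP_4e5fcd_ag.Det.M10a
import Pool.Agent.Lib.MP_4e5fcd_ag.Det.U1
import Pool.Agent.Lib.MP_4e5fcd_ag.Det.M0

/-! # DET-M10: the structure of the contact jets -/

open MvPolynomial

namespace MotMono

variable {s N : ℕ} {m n : Fin s → ℕ}

theorem m10_part_lt (b : (Σ a, Fin (m a)) → ℕ) (a : Fin s) (i : ℕ) (hi : i < m a) :
    part b a i = b ⟨a, ⟨i, hi⟩⟩ := by
  simp [part, extb, hi]

theorem m10_part_smul (τ : ℕ) (u : (Σ a, Fin (m a)) → ℕ) (a : Fin s) (i : ℕ) :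
    part (τ • u) a i = τ * part u a i := by
  unfold part extb
  split_ifs with h
  · simp
  · simp

theorem m10_extz_lt {p : ℕ} (z : Fin p → ℂ) (i : ℕ) (hi : i < p) :
    extz z i = z ⟨i, hi⟩ := by
  simp [extz, hi]

theorem m10_pair_smul {ι : Type} [Fintype ι] (W u : ι → ℕ) (τ : ℕ) :
    pair W (τ • u) = τ * pair W u := by
  unfold pair
  rw [Finset.mul_sum]
  refine Finset.sum_congr rfl fun i _ => ?_
  simp only [Pi.smul_apply, smul_eq_mul]
  ring

theorem m10_minF_le {ι : Type} [Fintype ι] (A : Finset (ι → ℕ)) (u W : ι → ℕ) (hW : W ∈ A) :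
    minF A u ≤ pair W u := Nat.sInf_le ⟨W, hW, rfl⟩

theorem m10_exists_face {ι : Type} [Fintype ι] (A : Finset (ι → ℕ)) (u : ι → ℕ)
    (hN : 0 < minF A u) : ∃ W, InFace A u W := by
  have hne : {k | ∃ W ∈ A, pair W u = k}.Nonempty := by
    by_contra h
    rw [Set.not_nonempty_iff_eq_empty] at h
    unfold minF at hN
    rw [h] at hN
    simp at hN
  obtain ⟨W, hW, hWk⟩ := Nat.sInf_mem hne
  exact ⟨W, hW, fun W' hW' => by
    rw [hWk]
    exact Nat.sInf_le ⟨W', hW', rfl⟩⟩

theorem m10_face_eq {ι : Type} [Fintype ι] (A : Finset (ι → ℕ)) (u W : ι → ℕ)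
    (hW : InFace A u W) : minF A u = pair W u := by
  refine le_antisymm (m10_minF_le A u W hW.1) ?_
  refine le_csInf ⟨_, W, hW.1, rfl⟩ ?_
  rintro k ⟨W', hW', rfl⟩
  exact hW.2 W' hW'

/-- the constant terms of a structured matrix -/
theorem m10_const (p q : ℕ) (hpq : p ≤ q) (b u : ℕ → ℕ) (z : ℕ → ℂ) (δ : ℂ)
    (hbu : ∀ i < p, b i = 0 ↔ u i = 0)
    (hz : ∀ i < p, (∀ k ≤ i, u k = 0) → z i = δ) (M : Matrix (Fin p) (Fin q) (PowerSeries ℂ))
    (h : Str p q b z M) (i : Fin p) (k : Fin q) :
    PowerSeries.coeff 0 (M i k) = PowerSeries.coeff 0 (refM p q u (fun _ => δ) i k) := by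
  cases p with
  | zero => exact i.elim0
  | succ p =>
    cases q with
    | zero => exact k.elim0
    | succ q =>
      rw [Str] at h
      rw [h.1 i k 0 (Nat.zero_le _)]
      have hmue : mue b i = 0 ↔ mue u i = 0 := by
        unfold mue
        rw [Finset.sum_eq_zero_iff, Finset.sum_eq_zero_iff]
        constructor
        · intro h' j hj
          have hj' := Finset.mem_range.mp hj
          exact (hbu j (by have := i.2; omega)).mp (h' j hj)
        · intro h' j hj
          have hj' := Finset.mem_range.mp hj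
          exact (hbu j (by have := i.2; omega)).mpr (h' j hj)
      unfold refM
      split_ifs with hik
      · by_cases hm : mue b i = 0
        · have hm' := hmue.mp hm
          have hu0 : ∀ j ≤ (i : ℕ), u j = 0 := by
            intro j hj
            unfold mue at hm'
            rw [Finset.sum_eq_zero_iff] at hm'
            exact hm' j (Finset.mem_range.mpr (by omega))
          rw [hm, hm', hz i i.2 hu0]
        · have hm' : mue u i ≠ 0 := fun h' => hm (hmue.mpr h')
          rw [PowerSeries.coeff_C_mul, PowerSeries.coeff_C_mul, PowerSeries.coeff_X_pow,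
            PowerSeries.coeff_X_pow, if_neg (Ne.symm hm), if_neg (Ne.symm hm')]
          simp
      · rfl

/-- a rational multiple of a primitive vector which is a natural vector is a natural multiple -/
theorem m10_prim {ι : Type} (u b : ι → ℕ) (hp : Prim u) (hu : u ≠ 0) (c : ℚ)
    (h : ∀ i, (b i : ℚ) = c * u i) : ∃ τ : ℕ, b = τ • u := by
  obtain ⟨i₀, hi₀⟩ : ∃ i, u i ≠ 0 := by
    by_contra hcon
    push Not at hcon
    exact hu (funext hcon)
  have hc : 0 ≤ c := by
    have h1 := h i₀
    have h2 : (0 : ℚ) < u i₀ := by exact_mod_cast Nat.pos_of_ne_zero hi₀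
    have h3 : (0 : ℚ) ≤ b i₀ := by positivity
    rw [h1] at h3
    exact nonneg_of_mul_nonneg_left h3 h2
  have hden : c.den = 1 := by
    refine hp c.den fun i => ?_
    have h1 := h i
    have h2 : (b i : ℤ) * c.den = c.num * u i := by
      have h3 : ((b i : ℤ) : ℚ) * c.den = c.num * u i := by
        have h4 : c * c.den = c.num := Rat.mul_den_eq_num c
        push_cast
        rw [h1, ← h4]
        ring
      exact_mod_cast h3
    have h5 : (c.den : ℤ) ∣ c.num * u i := ⟨b i, by rw [← h2]; ring⟩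
    have h6 : IsCoprime (c.den : ℤ) c.num := by
      rw [Int.isCoprime_iff_gcd_eq_one]
      have := c.reduced
      rw [Int.gcd_comm]
      exact this
    have h7 := h6.dvd_of_dvd_mul_left h5
    exact_mod_cast h7
  refine ⟨c.num.toNat, funext fun i => ?_⟩
  have hnum : (c.num.toNat : ℤ) = c.num := Int.toNat_of_nonneg (Rat.num_nonneg.mpr hc)
  have hcn : c = c.num := by
    conv_lhs => rw [← Rat.num_div_den c]
    rw [hden]
    simp
  have h1 := h i
  rw [hcn] at h1
  have h2 : (b i : ℤ) = c.num * u i := by exact_mod_cast h1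
  rw [← hnum] at h2
  simp only [Pi.smul_apply, smul_eq_mul]
  exact_mod_cast h2

theorem contact_iff (hmn : ∀ a, m a ≤ n a) (A : Finset ((Σ a, Fin (m a)) → ℕ))
    (u : (Σ a, Fin (m a)) → ℕ) (hu : Ext (AW A) u) (hN : 0 < minF (AW A) u)
    (hdet : Detected A u) (hp : Prim u) (δ : ℂ) (hδ : δ ≠ 0) (d : ℕ) (hd : 0 < d)
    (M : ∀ a, Matrix (Fin (m a)) (Fin (n a)) (PowerSeries ℂ)) :
    ((∀ a i k, PowerSeries.coeff 0 (M a i k) = PowerSeries.coeff 0 (refU n u δ a i k)) ∧
      ∀ w ∈ A, ∀ C : Choice m n w, (∀ l < d, PowerSeries.coeff l (prodMinor M C) = 0) ∧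
        PowerSeries.coeff d (prodMinor M C) =
          PowerSeries.coeff (minF (AW A) u) (prodMinor (refU n u δ) C)) ↔
    ∃ τ : ℕ, d = τ * minF (AW A) u ∧ ∃ z ∈ Gz A u δ,
      ∀ a, Str (m a) (n a) (part (τ • u) a) (extz fun i => z ⟨a, i⟩) (M a) := by
  constructor
  · rintro ⟨h0, hc⟩
    have hpat := pat_of_contact hmn A u δ hδ d M hc
    have hex : ∀ a, ∃ (b : ℕ → ℕ) (z : ℕ → ℂ), (∀ i < m a, b i = 0 ↔ part u a i = 0) ∧
        (∀ i < m a, z i ≠ 0) ∧ BlockConst (m a) b z ∧
        (∀ i < m a, (∀ k ≤ i, part u a k = 0) → z i = δ) ∧ Str (m a) (n a) b z (M a) := by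
      intro a
      refine str_of_pat (m a) (n a) (hmn a) (part u a) δ hδ {r | Vis A u a r} ?_ ?_ ?_ (M a)
        (fun i k => h0 a i k) (fun r hr _ => hpat a r hr)
      · intro i hi him hi1
        rw [m10_part_lt u a i (by omega)] at hi
        rw [m10_part_lt u a (i + 1) him] at hi1
        obtain ⟨r, hr1, hr2, hr3, hr4⟩ := hdet a ⟨i, by omega⟩ hi him hi1
        refine ⟨r, hr1, hr2, hr3, fun k hk1 hk2 => ?_⟩
        rw [m10_part_lt u a k (by omega)]
        exact hr4 ⟨k, by omega⟩ hk1 hk2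
      · intro i i' hii' hi'm hi hi' hk
        rw [m10_part_lt u a i (by omega)] at hi
        rw [m10_part_lt u a i' hi'm] at hi'
        obtain ⟨r, hr1, hr2, hr3, hr4⟩ := vis_boundary A u hu hN a ⟨i, by omega⟩ ⟨i', hi'm⟩
          hii' hi hi' (fun k hk1 hk2 => by
            have := hk k hk1 hk2
            rw [m10_part_lt u a k k.2] at this
            exact this)
        refine ⟨r, hr1, hr2, hr3, fun k hk1 hk2 => ?_⟩
        rw [m10_part_lt u a k (by omega)]
        exact hr4 ⟨k, by omega⟩ hk1 hk2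
      · intro hm hlast
        rw [m10_part_lt u a (m a - 1) (by omega)] at hlast
        exact vis_last A u hu hN a ⟨m a - 1, by omega⟩ (by simp only; omega) hlast
    choose b z hbu hz hbc hzδ hstr using hex
    set b' : (Σ a, Fin (m a)) → ℕ := fun c => b c.1 c.2 with hb'
    set z' : (Σ a, Fin (m a)) → ℂ := fun c => z c.1 c.2 with hz'
    have hpb : ∀ a, ∀ i < m a, part b' a i = b a i := fun a i hi => by
      rw [m10_part_lt b' a i hi]
    have hpz : ∀ a, ∀ i < m a, (extz fun i => z' ⟨a, i⟩) i = z a i := fun a i hi => by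
      rw [m10_extz_lt _ i hi]
    have hM' : ∀ a, Str (m a) (n a) (part b' a) (extz fun i => z' ⟨a, i⟩) (M a) := fun a =>
      (str_congr_bz (hpb a) (hpz a) (M a)).mpr (hstr a)
    have hbu' : ∀ c, b' c = 0 ↔ u c = 0 := by
      rintro ⟨a, i⟩
      have := hbu a i i.2
      rw [m10_part_lt u a i i.2] at this
      exact this
    have hz'0 : ∀ c, z' c ≠ 0 := fun c => hz c.1 c.2 c.2.2
    have hbc' : ∀ a, BlockConst (m a) (part b' a) (extz fun i => z' ⟨a, i⟩) := by
      intro a i hi hb0
      rw [hpb a (i + 1) hi] at hb0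
      rw [hpz a (i + 1) hi, hpz a i (by omega)]
      exact hbc a i hi hb0
    have key := fun w C => prodMinor_of_str hmn u δ hδ b' hbu' z' hz'0 hbc' M hM' w C
    have hfac : ∀ w : (Σ a, Fin (m a)) → ℕ,
        (∏ c : (Σ a, Fin (m a)),
          (∏ i : Fin (m c.1), if i ≤ c.2 then z' ⟨c.1, i⟩ / δ else 1) ^ w c) ≠ 0 := by
      intro w
      refine Finset.prod_ne_zero_iff.mpr fun c _ => pow_ne_zero _ ?_
      refine Finset.prod_ne_zero_iff.mpr fun i _ => ?_
      split_ifs
      · exact div_ne_zero (hz'0 _) hδ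
      · exact one_ne_zero
    have hface : ∀ w ∈ A, InFace (AW A) u (Wf w) → pair (Wf w) b' = d := by
      intro w hw hf
      obtain ⟨k1, k2⟩ := key w (idChoice hmn w)
      obtain ⟨c1, c2⟩ := hc w hw (idChoice hmn w)
      have hne := coeff_prodMinor_id hmn u δ hδ w
      rcases lt_trichotomy (pair (Wf w) b') d with hlt | heq | hgt
      · exfalso
        have h1 := c1 _ hlt
        rw [k2] at h1
        exact mul_ne_zero (hfac w) hne h1
      · exact heq
      · exfalso
        have h1 := k1 _ hgt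
        rw [c2, m10_face_eq (AW A) u (Wf w) hf] at h1
        exact hne h1
    obtain ⟨c, hcb⟩ := hu.2 (fun c => (b' c : ℚ))
      (fun c hc0 => by
        have := (hbu' c).mpr hc0
        simp only [this]
        simp)
      (by
        have haux : ∀ W, InFace (AW A) u W → ∑ i, (W i : ℚ) * (b' i : ℚ) = d := by
          intro W hW
          obtain ⟨w, hw, rfl⟩ := Finset.mem_image.mp hW.1
          have := hface w hw hW
          unfold pair at this
          rw [← this]
          push_cast
          rfl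
        intro W W' hW hW'
        rw [haux W hW, haux W' hW'])
    obtain ⟨τ, hτ⟩ := m10_prim u b' hp hu.1 c hcb
    obtain ⟨W₀, hW₀⟩ := m10_exists_face (AW A) u hN
    refine ⟨τ, ?_, z', ⟨hz'0, ?_, ?_, ?_⟩, ?_⟩
    · obtain ⟨w, hw, rfl⟩ := Finset.mem_image.mp hW₀.1
      rw [m10_face_eq (AW A) u _ hW₀, ← hface w hw hW₀, hτ, m10_pair_smul]
    · intro a i hi
      refine hzδ a i i.2 fun k hk => ?_
      have hkm : k < m a := lt_of_le_of_lt hk i.2
      rw [m10_part_lt u a k hkm]
      exact hi ⟨k, hkm⟩ hk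
    · intro a i h hui
      exact hbc a i h ((hbu' ⟨a, ⟨i + 1, h⟩⟩).mpr hui)
    · intro w hw hf
      obtain ⟨k1, k2⟩ := key w (idChoice hmn w)
      obtain ⟨c1, c2⟩ := hc w hw (idChoice hmn w)
      have hne := coeff_prodMinor_id hmn u δ hδ w
      rw [hface w hw hf, c2, m10_face_eq (AW A) u (Wf w) hf] at k2
      exact mul_right_cancel₀ hne (by rw [one_mul]; exact k2.symm)
    · intro a
      rw [← hτ]
      exact hM' a
  · rintro ⟨τ, hdτ, z, ⟨hz0, hzδ, hzbc, hz1⟩, hM⟩
    have hτ : 0 < τ := by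
      rcases Nat.eq_zero_or_pos τ with h | h
      · rw [h, zero_mul] at hdτ
        omega
      · exact h
    have hbu : ∀ c, (τ • u) c = 0 ↔ u c = 0 := by
      intro c
      simp only [Pi.smul_apply, smul_eq_mul, mul_eq_zero]
      constructor
      · rintro (h | h)
        · omega
        · exact h
      · exact fun h => Or.inr h
    have hbc : ∀ a, BlockConst (m a) (part (τ • u) a) (extz fun i => z ⟨a, i⟩) := by
      intro a i hi hb0
      rw [m10_part_lt _ a (i + 1) hi] at hb0
      have h1 := (hbu _).mp hb0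
      rw [m10_extz_lt _ (i + 1) hi, m10_extz_lt _ i (by omega)]
      exact hzbc a ⟨i, by omega⟩ hi h1
    refine ⟨?_, ?_⟩
    · intro a i k
      refine m10_const (m a) (n a) (hmn a) (part (τ • u) a) (part u a) _ δ ?_ ?_ (M a) (hM a) i k
      · intro j hj
        rw [m10_part_lt _ a j hj, m10_part_lt _ a j hj]
        exact hbu _
      · intro j hj hk
        rw [m10_extz_lt _ j hj]
        refine hzδ a ⟨j, hj⟩ fun k hkj => ?_
        have := hk k hkj
        rw [m10_part_lt u a k k.2] at this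
        exact this
    · intro w hw C
      obtain ⟨k1, k2⟩ := prodMinor_of_str hmn u δ hδ (τ • u) hbu z hz0 hbc M hM w C
      rw [m10_pair_smul] at k1 k2
      have hle : minF (AW A) u ≤ pair (Wf w) u :=
        m10_minF_le _ _ _ (Finset.mem_image_of_mem _ hw)
      by_cases hf : InFace (AW A) u (Wf w)
      · rw [← m10_face_eq (AW A) u (Wf w) hf, ← hdτ] at k1
        rw [← m10_face_eq (AW A) u (Wf w) hf, ← hdτ, hz1 w hw hf, one_mul] at k2
        exact ⟨k1, k2⟩
      · have hlt : minF (AW A) u < pair (Wf w) u := by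
          refine lt_of_le_of_ne hle fun heq => hf ⟨Finset.mem_image_of_mem _ hw, ?_⟩
          intro W' hW'
          rw [← heq]
          exact m10_minF_le _ _ _ hW'
        have hlt' : d < τ * pair (Wf w) u := by
          rw [hdτ]
          exact Nat.mul_lt_mul_of_pos_left hlt hτ
        refine ⟨fun l hl => k1 l (lt_trans hl hlt'), ?_⟩
        rw [k1 d hlt', (prodMinor_refU u δ C).1 _ hlt]

end MotMono
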