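import Pool.Agent.Lib.MP_4e5fcd_ag.Det.C3b

/-! # DET-C4: the classes in the universal ring -/

open MvPolynomial

namespace MotMono

private theorem c4_LL : algebraMap K0 MC LL = ((Lu : MCˣ) : MC) := by
  unfold Lu
  rw [IsUnit.unit_spec]

private theorem c4_LL_pow (k : ℕ) : algebraMap K0 MC (LL ^ k) = ((Lu ^ (k : ℤ) : MCˣ) : MC) := by
  rw [map_pow, c4_LL, ← Units.val_pow_eq_pow_val, zpow_natCast]

private theorem c4_theta_X : theta Polynomial.X = ((Lu⁻¹ : MCˣ) : MC) := by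
  unfold theta
  rw [Polynomial.coe_eval₂RingHom, Polynomial.eval₂_X]

private theorem c4_theta_X_pow (k : ℕ) :
    theta (Polynomial.X ^ k) = ((Lu ^ (-(k : ℤ)) : MCˣ) : MC) := by
  rw [map_pow, c4_theta_X, ← Units.val_pow_eq_pow_val, inv_pow, zpow_neg, zpow_natCast]

private theorem c4_theta_C (m n ρ : ℕ) :
    theta (Polynomial.C (MvPolynomial.X (m, n, ρ))) =
      algebraMap K0 MC (cls (RankSet m n ρ)) * ((Lu ^ (-((m * n : ℕ) : ℤ)) : MCˣ) : MC) := by
  unfold theta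
  rw [Polynomial.coe_eval₂RingHom, Polynomial.eval₂_C, MvPolynomial.coe_eval₂Hom,
    MvPolynomial.eval₂_X]

theorem theta_Rp (m n ρ : ℕ) (hmn : m ≤ n) (hρ : ρ ≤ m) :
    theta (Rp m n ρ) = algebraMap K0 MC (cls (RankSet m n ρ)) *
      ((Lu ^ (-((m * n : ℕ) : ℤ)) : MCˣ) : MC) := by
  unfold Rp
  by_cases h0 : ρ = 0
  · subst h0
    rw [if_pos rfl, c4_theta_X_pow, cls_rankSet_zero, map_one, one_mul]
  · rw [if_neg h0]
    by_cases h1 : ρ < m
    · rw [if_pos h1, c4_theta_C]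
    · rw [if_neg h1]
      have hm : ρ = m := by omega
      subst hm
      have hsum := sum_rankSet ρ n
      rw [Finset.sum_range_succ] at hsum
      have h2 : ∑ ρ' ∈ Finset.range ρ, cls (RankSet ρ n ρ') =
          1 + ∑ ρ' ∈ Finset.Ioo 0 ρ, cls (RankSet ρ n ρ') := by
        have h3 : Finset.range ρ = insert 0 (Finset.Ioo 0 ρ) := by
          ext a
          rw [Finset.mem_insert, Finset.mem_range, Finset.mem_Ioo]
          omega
        rw [h3, Finset.sum_insert (by simp), cls_rankSet_zero]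
      rw [h2] at hsum
      have h4 : cls (RankSet ρ n ρ) =
          LL ^ (ρ * n) - 1 - ∑ ρ' ∈ Finset.Ioo 0 ρ, cls (RankSet ρ n ρ') := by
        rw [← hsum]
        ring
      rw [h4, map_sub, map_sub, map_sub, map_sub, map_one, map_one, map_sum, map_sum,
        c4_theta_X_pow, c4_LL_pow, sub_mul, sub_mul, ← Units.val_mul, ← zpow_add,
        add_neg_cancel, zpow_zero, Units.val_one, one_mul, Finset.sum_mul]
      congr 1
      exact Finset.sum_congr rfl fun ρ' _ => c4_theta_C ρ n ρ'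

theorem theta_PP (L m n : ℕ) (hmn : m ≤ n) (Φ : (ℕ → ℕ) → Prop) :
    theta (PP L m n Φ) = algebraMap K0 MC (cls (SP m n L Φ)) *
      ((Lu ^ (-((m * n * L : ℕ) : ℤ)) : MCˣ) : MC) := by
  classical
  induction L generalizing m n Φ with
  | zero =>
    have het : ∀ γ : (Fin m × Fin n) × Fin 0 → ℂ, et 0 (mser γ) = 0 := by
      intro γ
      funext r
      exact Nat.le_zero.1 (et_le 0 r _)
    rw [PP]
    by_cases hΦ : Φ 0
    · rw [if_pos hΦ]
      have h1 : SP m n 0 Φ = Set.univ := by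
        ext γ
        unfold SP
        rw [Set.mem_ofPred_eq, het γ]
        exact ⟨fun _ => trivial, fun _ => hΦ⟩
      rw [h1, cls_univ]
      simp
    · rw [if_neg hΦ]
      have h1 : SP m n 0 Φ = ∅ := by
        ext γ
        unfold SP
        rw [Set.mem_ofPred_eq, het γ]
        exact ⟨fun h => (hΦ h).elim, fun h => h.elim⟩
      rw [h1, cls_empty, map_zero, map_zero, zero_mul]
  | succ L ih =>
    rw [PP, map_sum, cls_SP_succ m n L hmn Φ, map_sum, Finset.sum_mul]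
    refine Finset.sum_congr rfl fun ρ hρ => ?_
    rw [Finset.mem_range] at hρ
    rw [map_mul, theta_Rp m n ρ hmn (by omega), ih (m - ρ) (n - ρ) (by omega), map_mul, map_mul,
      c4_LL_pow]
    have hle : (m - ρ) * (n - ρ) ≤ m * n := Nat.mul_le_mul (Nat.sub_le _ _) (Nat.sub_le _ _)
    have hexp : ((((m * n - (m - ρ) * (n - ρ)) * L : ℕ) : ℤ)) +
        -((m * n * (L + 1) : ℕ) : ℤ) =
        -((m * n : ℕ) : ℤ) + -(((m - ρ) * (n - ρ) * L : ℕ) : ℤ) := by
      obtain ⟨d, hd⟩ := Nat.exists_eq_add_of_le hle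
      have h5 : m * n - (m - ρ) * (n - ρ) = d := by omega
      rw [h5]
      have h6 : ((m * n : ℕ) : ℤ) = (((m - ρ) * (n - ρ) : ℕ) : ℤ) + d := by
        rw [hd]
        push_cast
        ring
      have h7 : ((m * n * (L + 1) : ℕ) : ℤ) = ((m * n : ℕ) : ℤ) * (L + 1) := by push_cast; ring
      have h8 : (((m - ρ) * (n - ρ) * L : ℕ) : ℤ) = (((m - ρ) * (n - ρ) : ℕ) : ℤ) * L := by
        rw [Nat.cast_mul]
      rw [h7, h8, h6, Nat.cast_mul]
      ring
    have hu : ((Lu ^ ((((m * n - (m - ρ) * (n - ρ)) * L : ℕ) : ℤ)) : MCˣ) : MC) *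
        ((Lu ^ (-((m * n * (L + 1) : ℕ) : ℤ)) : MCˣ) : MC) =
        ((Lu ^ (-((m * n : ℕ) : ℤ)) : MCˣ) : MC) *
        ((Lu ^ (-(((m - ρ) * (n - ρ) * L : ℕ) : ℤ)) : MCˣ) : MC) := by
      rw [← Units.val_mul, ← Units.val_mul, ← zpow_add, ← zpow_add, hexp]
    calc _ = algebraMap K0 MC (cls (RankSet m n ρ)) *
          algebraMap K0 MC (cls (SP (m - ρ) (n - ρ) L fun E => Φ (shiftE ρ (L + 1) E))) *
          (((Lu ^ (-((m * n : ℕ) : ℤ)) : MCˣ) : MC) *
          ((Lu ^ (-(((m - ρ) * (n - ρ) * L : ℕ) : ℤ)) : MCˣ) : MC)) := by ring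
      _ = _ := by
          rw [← hu]
          ring

end MotMono
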