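import Pool.Agent.Lib.MP_4e5fcd_ag.K2
import Pool.Agent.Lib.MP_4e5fcd_ag.Det.Base

/-! # DET-C5: classes of product sets -/

open MvPolynomial

namespace MotMono

variable {s N : ℕ} {m n : Fin s → ℕ}

private theorem c5_constr {s : ℕ} {σ : Fin s → Type} {G : ∀ a, Set (σ a → ℂ)}
    (hG : ∀ a, Constr (G a)) :
    Constr {γ : (Σ a, σ a) → ℂ | ∀ a, (fun i => γ ⟨a, i⟩) ∈ G a} := by
  have e : {γ : (Σ a, σ a) → ℂ | ∀ a, (fun i => γ ⟨a, i⟩) ∈ G a} =
      ⋂ a, {γ : (Σ a, σ a) → ℂ | (fun i => γ ⟨a, i⟩) ∈ G a} := by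
    ext γ; simp
  rw [e]
  exact constr_iInter fun a => (hG a).comp fun i => (⟨a, i⟩ : Σ a, σ a)

private theorem c5_cls (s : ℕ) : ∀ {σ : Fin s → Type} [∀ a, Finite (σ a)]
    {G : ∀ a, Set (σ a → ℂ)}, (∀ a, Constr (G a)) →
    cls {γ : (Σ a, σ a) → ℂ | ∀ a, (fun i => γ ⟨a, i⟩) ∈ G a} = ∏ a, cls (G a) := by
  induction s with
  | zero =>
    intro σ _ G hG
    have h : {γ : (Σ a, σ a) → ℂ | ∀ a, (fun i => γ ⟨a, i⟩) ∈ G a} = {0} := by
      ext γ
      simp only [Set.mem_ofPred_eq, Set.mem_singleton_iff]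
      refine ⟨fun _ => ?_, fun _ a => a.elim0⟩
      funext x
      exact x.1.elim0
    rw [h, cls_singleton]
    simp
  | succ s ih =>
    intro σ _ G hG
    have hG' : ∀ a : Fin s, Constr (G a.succ) := fun a => hG a.succ
    rw [Fin.prod_univ_succ, ← ih hG', ← cls_prodSet (hG 0) (c5_constr hG')]
    refine cls_iso (c5_constr hG) ((hG 0).prodSet (c5_constr hG')) ?_
    refine ⟨fun γ q => Sum.elim (fun i => γ ⟨0, i⟩)
        (fun p : (Σ a : Fin s, σ a.succ) => γ ⟨p.1.succ, p.2⟩) q,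
      fun z q => Fin.cases (motive := fun a => σ a → ℂ) (fun i => z (Sum.inl i))
        (fun a i => z (Sum.inr ⟨a, i⟩)) q.1 q.2, ?_, ?_, ?_, ?_, ?_, ?_⟩
    · intro q
      rcases q with i | p
      · exact regFun_coord _ _
      · exact regFun_coord _ _
    · intro q
      obtain ⟨a, i⟩ := q
      induction a using Fin.cases with
      | zero => exact regFun_coord _ (Sum.inl i)
      | succ a => exact regFun_coord _ (Sum.inr (⟨a, i⟩ : Σ a : Fin s, σ a.succ))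
    · intro γ hγ
      exact ⟨hγ 0, fun a => hγ a.succ⟩
    · intro z hz a
      induction a using Fin.cases with
      | zero => exact hz.1
      | succ a => exact hz.2 a
    · intro γ _
      funext q
      obtain ⟨a, i⟩ := q
      induction a using Fin.cases with
      | zero => rfl
      | succ a => rfl
    · intro z _
      funext q
      rcases q with i | p <;> rfl

private def c5_equiv (e : (Σ a, Fin (m a) × Fin (n a)) ≃ Fin N) (L : ℕ) :
    (Σ a, (Fin (m a) × Fin (n a)) × Fin L) ≃ Fin N × Fin L where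
  toFun q := (e ⟨q.1, q.2.1⟩, q.2.2)
  invFun y := ⟨(e.symm y.1).1, ((e.symm y.1).2, y.2)⟩
  left_inv q := by
    obtain ⟨a, c, l⟩ := q
    show (⟨(e.symm (e ⟨a, c⟩)).1, ((e.symm (e ⟨a, c⟩)).2, l)⟩ :
      Σ a, (Fin (m a) × Fin (n a)) × Fin L) = ⟨a, (c, l)⟩
    rw [Equiv.symm_apply_apply]
  right_inv y := by
    obtain ⟨x, l⟩ := y
    simp

theorem constr_family (e : (Σ a, Fin (m a) × Fin (n a)) ≃ Fin N) (L : ℕ)
    (G : ∀ a, Set ((Fin (m a) × Fin (n a)) × Fin L → ℂ)) (hG : ∀ a, Constr (G a)) :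
    Constr {γ : Fin N × Fin L → ℂ | ∀ a, jetPart e γ a ∈ G a} := by
  have h : {γ : Fin N × Fin L → ℂ | ∀ a, jetPart e γ a ∈ G a} =
      ⋂ a, {γ : Fin N × Fin L → ℂ | jetPart e γ a ∈ G a} := by
    ext γ; simp
  rw [h]
  exact constr_iInter fun a => (hG a).comp fun c : (Fin (m a) × Fin (n a)) × Fin L =>
    ((e ⟨a, c.1⟩, c.2) : Fin N × Fin L)

theorem cls_family (e : (Σ a, Fin (m a) × Fin (n a)) ≃ Fin N) (L : ℕ)
    (G : ∀ a, Set ((Fin (m a) × Fin (n a)) × Fin L → ℂ)) (hG : ∀ a, Constr (G a)) :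
    cls {γ : Fin N × Fin L → ℂ | ∀ a, jetPart e γ a ∈ G a} = ∏ a, cls (G a) := by
  rw [← c5_cls s (σ := fun a => (Fin (m a) × Fin (n a)) × Fin L) hG]
  symm
  refine cls_iso (c5_constr hG) (constr_family e L G hG) ?_
  exact RegIso.reindex (c5_equiv e L)
    {γ : (Σ a, (Fin (m a) × Fin (n a)) × Fin L) → ℂ | ∀ a, (fun i => γ ⟨a, i⟩) ∈ G a}

end MotMono
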