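import Pool.Agent.Lib.MP_4e5fcd_ag.Det.A1

/-! # DET-A2: orders of minors after block elimination -/

open MvPolynomial

namespace MotMono

variable {ι κ ι' κ' : Type}

theorem a2_zero (r : ℕ) (M : Matrix ι κ (PowerSeries ℂ)) : Dv 0 r M := fun S T => by
  rw [pow_zero]
  exact one_dvd _

theorem le_et_iff (L j r : ℕ) (M : Matrix ι κ (PowerSeries ℂ)) :
    j ≤ et L M r ↔ j ≤ L ∧ Dv j r M := by
  classical
  constructor
  · intro h
    have h1 : et L M r ≤ L := Nat.findGreatest_le L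
    have h2 : Dv (et L M r) r M :=
      Nat.findGreatest_spec (P := fun j => Dv j r M) (Nat.zero_le L) (a2_zero r M)
    exact ⟨h.trans h1, h2.mono h⟩
  · rintro ⟨h1, h2⟩
    exact Nat.le_findGreatest h1 h2

theorem et_le (L r : ℕ) (M : Matrix ι κ (PowerSeries ℂ)) : et L M r ≤ L := by
  classical
  exact Nat.findGreatest_le L

theorem et_zero_right (L : ℕ) (M : Matrix ι κ (PowerSeries ℂ)) : et L M 0 = 0 := by
  have h := ((le_et_iff L (et L M 0) 0 M).1 le_rfl).2
  rwa [dv_zero] at h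

theorem et_of_card_lt [Fintype ι] (L r : ℕ) (M : Matrix ι κ (PowerSeries ℂ))
    (h : Fintype.card ι < r) : et L M r = L :=
  le_antisymm (et_le L r M) ((le_et_iff L L r M).2 ⟨le_rfl, dv_of_card_lt M h⟩)

theorem a2_congr {L j r : ℕ} (hj : j ≤ L) {M M' : Matrix ι κ (PowerSeries ℂ)}
    (h : ∀ i k, (PowerSeries.X : PowerSeries ℂ) ^ L ∣ M i k - M' i k) (hd : Dv j r M) :
    Dv j r M' := by
  intro S T
  set I : Ideal (PowerSeries ℂ) := Ideal.span {(PowerSeries.X : PowerSeries ℂ) ^ L} with hI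
  have h1 : Ideal.Quotient.mk I (M.submatrix S T).det = Ideal.Quotient.mk I (M'.submatrix S T).det := by
    rw [RingHom.map_det, RingHom.map_det]
    congr 1
    ext a b
    simp only [RingHom.mapMatrix_apply, Matrix.map_apply, Matrix.submatrix_apply]
    rw [Ideal.Quotient.eq, hI, Ideal.mem_span_singleton]
    exact h _ _
  rw [Ideal.Quotient.eq, hI, Ideal.mem_span_singleton] at h1
  have h2 : (PowerSeries.X : PowerSeries ℂ) ^ j ∣
      (M.submatrix S T).det - (M'.submatrix S T).det := (pow_dvd_pow _ hj).trans h1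
  exact (dvd_sub_right (hd S T)).1 h2

/-- `et L M` depends only on `M` modulo `t ^ L` -/
theorem et_congr (L : ℕ) (M M' : Matrix ι κ (PowerSeries ℂ))
    (h : ∀ i k, (PowerSeries.X : PowerSeries ℂ) ^ L ∣ M i k - M' i k) : et L M = et L M' := by
  have h' : ∀ i k, (PowerSeries.X : PowerSeries ℂ) ^ L ∣ M' i k - M i k := by
    intro i k
    rw [← dvd_neg, neg_sub]
    exact h i k
  funext r
  refine eq_of_forall_le_iff fun j => ?_
  rw [le_et_iff, le_et_iff]
  constructor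
  · rintro ⟨h1, h2⟩
    exact ⟨h1, a2_congr h1 h h2⟩
  · rintro ⟨h1, h2⟩
    exact ⟨h1, a2_congr h1 h' h2⟩

theorem et_submatrix (L : ℕ) (M : Matrix ι κ (PowerSeries ℂ)) (e : ι' ≃ ι) (f : κ' ≃ κ) :
    et L (M.submatrix e f) = et L M := by
  funext r
  refine eq_of_forall_le_iff fun j => ?_
  rw [le_et_iff, le_et_iff, dv_submatrix]

variable [Fintype ι] [Fintype κ] [DecidableEq ι] [DecidableEq κ] {ρ : ℕ}

theorem dv_block (M : Matrix (Fin ρ ⊕ ι) (Fin ρ ⊕ κ) (PowerSeries ℂ))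
    (hA : IsUnit M.toBlocks₁₁.det) (j r : ℕ) :
    Dv j (ρ + r) M ↔
      Dv j r (M.toBlocks₂₂ - M.toBlocks₂₁ * M.toBlocks₁₁⁻¹ * M.toBlocks₁₂) := by
  set A := M.toBlocks₁₁ with hAdef
  set B' := M.toBlocks₁₂
  set C' := M.toBlocks₂₁
  set D' := M.toBlocks₂₂
  have hM : M = Matrix.fromBlocks A B' C' D' := (Matrix.fromBlocks_toBlocks M).symm
  set Sc := D' - C' * A⁻¹ * B' with hSc
  have h1 : A * A⁻¹ = 1 := Matrix.mul_nonsing_inv _ hA
  have h2 : A⁻¹ * A = 1 := Matrix.nonsing_inv_mul _ hA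
  have h3 : M = Matrix.fromBlocks (1 : Matrix (Fin ρ) (Fin ρ) (PowerSeries ℂ)) 0 (C' * A⁻¹)
        (1 : Matrix ι ι (PowerSeries ℂ)) *
      (Matrix.fromBlocks A 0 0 (1 : Matrix ι ι (PowerSeries ℂ)) *
        (Matrix.fromBlocks (1 : Matrix (Fin ρ) (Fin ρ) (PowerSeries ℂ)) 0 0 Sc *
          Matrix.fromBlocks (1 : Matrix (Fin ρ) (Fin ρ) (PowerSeries ℂ)) (A⁻¹ * B') 0
            (1 : Matrix κ κ (PowerSeries ℂ)))) := by
    rw [Matrix.fromBlocks_multiply, Matrix.fromBlocks_multiply, Matrix.fromBlocks_multiply]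
    simp only [Matrix.one_mul, Matrix.mul_one, Matrix.zero_mul, Matrix.mul_zero, add_zero, zero_add]
    rw [hM]
    congr 1
    · rw [← Matrix.mul_assoc, h1, Matrix.one_mul]
    · rw [Matrix.mul_assoc, h2, Matrix.mul_one]
    · rw [hSc, Matrix.mul_assoc C', ← Matrix.mul_assoc A, h1, Matrix.one_mul,
        Matrix.mul_assoc C']
      abel
  rw [h3, dv_mul_left_iff, dv_mul_left_iff, dv_mul_right_iff, dv_fromBlocks_one]
  · rw [Matrix.det_fromBlocks_zero₂₁]
    simp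
  · rw [Matrix.det_fromBlocks_zero₂₁, Matrix.det_one, mul_one]
    exact hA
  · rw [Matrix.det_fromBlocks_zero₁₂]
    simp

theorem dv_block_le (M : Matrix (Fin ρ ⊕ ι) (Fin ρ ⊕ κ) (PowerSeries ℂ))
    (hA : IsUnit M.toBlocks₁₁.det) (j r : ℕ) (hr : r ≤ ρ) : Dv j r M ↔ j = 0 := by
  constructor
  · intro h
    obtain ⟨k, hk⟩ := Nat.exists_eq_add_of_le hr
    have h1 := h.add k
    rw [← hk] at h1
    have h2 := h1 Sum.inl Sum.inl
    have h3 : M.submatrix Sum.inl Sum.inl = M.toBlocks₁₁ := rfl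
    rw [h3] at h2
    have h4 : IsUnit ((PowerSeries.X : PowerSeries ℂ) ^ j) := isUnit_of_dvd_unit h2 hA
    by_contra hj
    have h5 : IsUnit (PowerSeries.X : PowerSeries ℂ) := (isUnit_pow_iff hj).1 h4
    exact PowerSeries.X_prime.not_isUnit h5
  · rintro rfl
    exact a2_zero r M

/-- if the Schur complement is `t D'` -/
theorem et_block (M : Matrix (Fin ρ ⊕ ι) (Fin ρ ⊕ κ) (PowerSeries ℂ))
    (hA : IsUnit M.toBlocks₁₁.det) (D' : Matrix ι κ (PowerSeries ℂ))
    (hD : M.toBlocks₂₂ - M.toBlocks₂₁ * M.toBlocks₁₁⁻¹ * M.toBlocks₁₂ =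
      (PowerSeries.X : PowerSeries ℂ) • D') (L : ℕ) :
    et (L + 1) M = shiftE ρ (L + 1) (et L D') := by
  funext r
  refine eq_of_forall_le_iff fun j => ?_
  rw [le_et_iff]
  unfold shiftE
  rw [le_min_iff]
  refine and_congr_right fun hj => ?_
  rcases le_or_gt r ρ with hr | hr
  · rw [dv_block_le M hA j r hr, Nat.sub_eq_zero_of_le hr, et_zero_right]
    omega
  · obtain ⟨k, rfl⟩ := Nat.exists_eq_add_of_le hr.le
    have hk : 1 ≤ k := by omega
    rw [dv_block M hA, hD, dv_smul_X, Nat.add_sub_cancel_left]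
    have h1 : j ≤ k + et L D' k ↔ j - k ≤ et L D' k := by omega
    rw [h1, le_et_iff]
    constructor
    · intro h
      exact ⟨by omega, h⟩
    · intro h
      exact h.2

end MotMono
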