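import Pool.Agent.Lib.MP_4e5fcd_ag.C2
import Pool.Agent.Lib.MP_4e5fcd_ag.Det.Base

/-! # DET-R1: families of power series with regular coefficients -/

open MvPolynomial

namespace MotMono

/-- all coefficients of the power series are regular functions on `E` -/
def RegSer {σ : Type} (E : Set (σ → ℂ)) (F : (σ → ℂ) → PowerSeries ℂ) : Prop :=
  ∀ l, RegFun E fun x => PowerSeries.coeff l (F x)

variable {σ : Type} {E : Set (σ → ℂ)}

private theorem regFun_sum {α : Type*} (s : Finset α) {f : α → (σ → ℂ) → ℂ}
    (hf : ∀ a ∈ s, RegFun E (f a)) : RegFun E fun x => ∑ a ∈ s, f a x := by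
  classical
  induction s using Finset.induction_on with
  | empty => simpa using regFun_const E 0
  | insert a s ha ih =>
    simp only [Finset.sum_insert ha]
    exact (hf a (Finset.mem_insert_self a s)).add
      (ih fun b hb => hf b (Finset.mem_insert_of_mem hb))

private theorem RegSer.congr' {F G : (σ → ℂ) → PowerSeries ℂ} (hF : RegSer E F)
    (h : ∀ x ∈ E, F x = G x) : RegSer E G := fun l =>
  (hF l).congr fun x hx => by simp only [h x hx]

theorem RegSer.mono {F : (σ → ℂ) → PowerSeries ℂ} (hF : RegSer E F) {E' : Set (σ → ℂ)}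
    (h : E' ⊆ E) : RegSer E' F := fun l => (hF l).mono h

theorem regSer_const (E : Set (σ → ℂ)) (F : PowerSeries ℂ) : RegSer E fun _ => F := fun l =>
  regFun_const E (PowerSeries.coeff l F)

theorem regSer_mser {ι κ : Type} {L : ℕ} (E : Set ((ι × κ) × Fin L → ℂ)) (i : ι) (k : κ) :
    RegSer E fun γ => mser γ i k := by
  intro l
  unfold mser
  simp only [PowerSeries.coeff_mk]
  by_cases h : l < L
  · simp only [h, dif_pos]
    exact regFun_coord E _
  · simp only [h, dif_neg, not_false_eq_true]
    exact regFun_const E 0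

theorem RegSer.add {F G : (σ → ℂ) → PowerSeries ℂ} (hF : RegSer E F) (hG : RegSer E G) :
    RegSer E fun x => F x + G x := by
  intro l
  simp only [map_add]
  exact (hF l).add (hG l)

theorem RegSer.sub {F G : (σ → ℂ) → PowerSeries ℂ} (hF : RegSer E F) (hG : RegSer E G) :
    RegSer E fun x => F x - G x := by
  intro l
  simp only [map_sub]
  exact (hF l).sub (hG l)

theorem RegSer.mul {F G : (σ → ℂ) → PowerSeries ℂ} (hF : RegSer E F) (hG : RegSer E G) :
    RegSer E fun x => F x * G x := by
  intro l
  simp only [PowerSeries.coeff_mul]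
  exact regFun_sum _ fun p _ => (hF p.1).mul (hG p.2)

theorem regSer_sum {α : Type} (s : Finset α) {F : α → (σ → ℂ) → PowerSeries ℂ}
    (hF : ∀ a ∈ s, RegSer E (F a)) : RegSer E fun x => ∑ a ∈ s, F a x := by
  classical
  induction s using Finset.induction_on with
  | empty => simpa using regSer_const E 0
  | insert a s ha ih =>
    simp only [Finset.sum_insert ha]
    exact (hF a (Finset.mem_insert_self a s)).add
      (ih fun b hb => hF b (Finset.mem_insert_of_mem hb))

theorem regSer_prod {α : Type} (s : Finset α) {F : α → (σ → ℂ) → PowerSeries ℂ}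
    (hF : ∀ a ∈ s, RegSer E (F a)) : RegSer E fun x => ∏ a ∈ s, F a x := by
  classical
  induction s using Finset.induction_on with
  | empty => simpa using regSer_const E 1
  | insert a s ha ih =>
    simp only [Finset.prod_insert ha]
    exact (hF a (Finset.mem_insert_self a s)).mul
      (ih fun b hb => hF b (Finset.mem_insert_of_mem hb))

theorem RegSer.inv {F : (σ → ℂ) → PowerSeries ℂ} (hF : RegSer E F)
    (h0 : ∀ x ∈ E, PowerSeries.constantCoeff (F x) ≠ 0) : RegSer E fun x => (F x)⁻¹ := by
  have hc : RegFun E fun x => (PowerSeries.constantCoeff (F x))⁻¹ := by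
    have h1 := hF 0
    simp only [PowerSeries.coeff_zero_eq_constantCoeff] at h1
    exact h1.inv h0
  intro l
  induction l using Nat.strong_induction_on with
  | _ l ih =>
    refine RegFun.congr ?_ fun x _ => (PowerSeries.coeff_inv l (F x)).symm
    by_cases hl : l = 0
    · simp only [hl, if_true]
      exact hc
    · simp only [hl, if_false]
      have h2 : RegFun E fun x => ∑ p ∈ Finset.HasAntidiagonal.antidiagonal l,
          if p.2 < l then PowerSeries.coeff p.1 (F x) * PowerSeries.coeff p.2 (F x)⁻¹ else 0 := by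
        refine regFun_sum _ fun p _ => ?_
        by_cases hp : p.2 < l
        · simp only [hp, if_true]
          exact (hF p.1).mul (ih p.2 hp)
        · simp only [hp, if_false]
          exact regFun_const E 0
      have h3 := ((regFun_const E (-1)).mul hc).mul h2
      simpa using h3

theorem regSer_det {ι : Type} [Fintype ι] [DecidableEq ι]
    {M : (σ → ℂ) → Matrix ι ι (PowerSeries ℂ)} (hM : ∀ i k, RegSer E fun x => M x i k) :
    RegSer E fun x => (M x).det := by
  simp only [Matrix.det_apply']
  refine regSer_sum _ fun τ _ => ?_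
  exact (regSer_const E (((Equiv.Perm.sign τ : ℤ) : PowerSeries ℂ))).mul
    (regSer_prod _ fun i _ => hM (τ i) i)

/-- entries of the inverse matrix -/
theorem regSer_matInv {ι : Type} [Fintype ι] [DecidableEq ι]
    {M : (σ → ℂ) → Matrix ι ι (PowerSeries ℂ)} (hM : ∀ i k, RegSer E fun x => M x i k)
    (h0 : ∀ x ∈ E, IsUnit (M x).det) (i k : ι) : RegSer E fun x => (M x)⁻¹ i k := by
  have hc : ∀ x ∈ E, PowerSeries.constantCoeff (M x).det ≠ 0 := by
    intro x hx
    exact ((h0 x hx).map PowerSeries.constantCoeff).ne_zero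
  have hadj : RegSer E fun x => (M x).adjugate i k := by
    simp only [Matrix.adjugate_apply]
    refine regSer_det fun a b => ?_
    by_cases ha : a = k
    · subst ha
      simp only [Matrix.updateRow_self]
      exact regSer_const E _
    · simp only [Matrix.updateRow_ne ha]
      exact hM a b
  refine RegSer.congr' (((regSer_det hM).inv hc).mul hadj) fun x hx => ?_
  have h1 : Ring.inverse (M x).det = ((M x).det)⁻¹ := by
    rw [← one_mul (Ring.inverse (M x).det), ← PowerSeries.inv_mul_cancel _ (hc x hx), mul_assoc,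
      Ring.mul_inverse_cancel _ (h0 x hx), mul_one]
  rw [Matrix.inv_def, Matrix.smul_apply, smul_eq_mul, h1]

/-- the locus in a constructible set where a regular function vanishes -/
theorem constr_regFun_eq (hE : Constr E) {h : (σ → ℂ) → ℂ} (hh : RegFun E h) (c : ℂ) :
    Constr {x | x ∈ E ∧ h x = c} := by
  obtain ⟨P, Q, hPQ⟩ := hh
  have h1 := hE.inter (constr_eq P (C c * Q))
  have e : E ∩ {x : σ → ℂ | eval x P = eval x (C c * Q)} = {x | x ∈ E ∧ h x = c} := by
    ext x
    rw [Set.mem_inter_iff, Set.mem_ofPred_eq, Set.mem_ofPred_eq]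
    refine and_congr_right fun hx => ?_
    obtain ⟨h2, h3⟩ := hPQ x hx
    rw [h3, map_mul, eval_C, div_eq_iff h2]
  rwa [e] at h1

theorem constr_regSer_coeff (hE : Constr E) {F : (σ → ℂ) → PowerSeries ℂ} (hF : RegSer E F)
    (l : ℕ) (c : ℂ) : Constr {x | x ∈ E ∧ PowerSeries.coeff l (F x) = c} :=
  constr_regFun_eq hE (hF l) c

end MotMono
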