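import Pool.Agent.Lib.MP_4e5fcd_ag.C1
import Pool.Agent.Lib.MP_4e5fcd_ag.Det.A2
import Pool.Agent.Lib.MP_4e5fcd_ag.Det.R1

/-! # DET-C1: constructibility -/

open MvPolynomial

namespace MotMono

theorem constr_dv {ι κ : Type} [Finite ι] [Finite κ] (L j r : ℕ) :
    Constr {γ : (ι × κ) × Fin L → ℂ | Dv j r (mser γ)} := by
  have h1 : Constr (⋂ (S : Fin r → ι), ⋂ (T : Fin r → κ), ⋂ (l : Fin j),
      {γ : (ι × κ) × Fin L → ℂ | γ ∈ Set.univ ∧
        PowerSeries.coeff (l : ℕ) ((mser γ).submatrix S T).det = 0}) := by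
    refine constr_iInter fun S => constr_iInter fun T => constr_iInter fun l => ?_
    refine constr_regSer_coeff constr_univ (regSer_det fun i k => ?_) l 0
    exact regSer_mser Set.univ (S i) (T k)
  have e : (⋂ (S : Fin r → ι), ⋂ (T : Fin r → κ), ⋂ (l : Fin j),
      {γ : (ι × κ) × Fin L → ℂ | γ ∈ Set.univ ∧
        PowerSeries.coeff (l : ℕ) ((mser γ).submatrix S T).det = 0}) =
      {γ : (ι × κ) × Fin L → ℂ | Dv j r (mser γ)} := by
    ext γ
    simp only [Set.mem_iInter, Set.mem_ofPred_eq, Set.mem_univ, true_and]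
    unfold Dv
    constructor
    · intro h S T
      rw [PowerSeries.X_pow_dvd_iff]
      intro l hl
      exact h S T ⟨l, hl⟩
    · intro h S T l
      exact PowerSeries.X_pow_dvd_iff.1 (h S T) l l.2
  rwa [e] at h1

private theorem constr_le_et {ι κ : Type} [Finite ι] [Finite κ] (L c r : ℕ) :
    Constr {γ : (ι × κ) × Fin L → ℂ | c ≤ et L (mser γ) r} := by
  by_cases hc : c ≤ L
  · have e : {γ : (ι × κ) × Fin L → ℂ | c ≤ et L (mser γ) r} =
        {γ : (ι × κ) × Fin L → ℂ | Dv c r (mser γ)} := by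
      ext γ
      rw [Set.mem_ofPred_eq, Set.mem_ofPred_eq, le_et_iff]
      exact ⟨fun h => h.2, fun h => ⟨hc, h⟩⟩
    rw [e]
    exact constr_dv L c r
  · have e : {γ : (ι × κ) × Fin L → ℂ | c ≤ et L (mser γ) r} = ∅ := by
      ext γ
      rw [Set.mem_ofPred_eq, le_et_iff]
      exact ⟨fun h => (hc h.1).elim, fun h => h.elim⟩
    rw [e]
    exact constr_empty

private theorem constr_et_eq {ι κ : Type} [Finite ι] [Finite κ] (L c r : ℕ) :
    Constr {γ : (ι × κ) × Fin L → ℂ | et L (mser γ) r = c} := by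
  have h := (constr_le_et (ι := ι) (κ := κ) L c r).diff (constr_le_et L (c + 1) r)
  have e : {γ : (ι × κ) × Fin L → ℂ | c ≤ et L (mser γ) r} \
      {γ : (ι × κ) × Fin L → ℂ | c + 1 ≤ et L (mser γ) r} =
      {γ : (ι × κ) × Fin L → ℂ | et L (mser γ) r = c} := by
    ext γ
    simp only [Set.mem_sdiff, Set.mem_ofPred_eq]
    omega
  rwa [e] at h

theorem constr_et {ι κ : Type} [Finite ι] [Finite κ] (L : ℕ) (Φ : (ℕ → ℕ) → Prop) :
    Constr {γ : (ι × κ) × Fin L → ℂ | Φ (et L (mser γ))} := by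
  classical
  have := Fintype.ofFinite ι
  set N := Fintype.card ι with hN
  let ex : (Fin (N + 1) → Fin (L + 1)) → ℕ → ℕ := fun E r =>
    if h : r < N + 1 then (E ⟨r, h⟩ : ℕ) else L
  have h1 : Constr (⋃ (E : Fin (N + 1) → Fin (L + 1)),
      if Φ (ex E) then ⋂ (r : Fin (N + 1)),
        {γ : (ι × κ) × Fin L → ℂ | et L (mser γ) r = E r} else ∅) := by
    refine constr_iUnion fun E => ?_
    split_ifs
    · exact constr_iInter fun r => constr_et_eq L (E r) r
    · exact constr_empty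
  have e : (⋃ (E : Fin (N + 1) → Fin (L + 1)),
      if Φ (ex E) then ⋂ (r : Fin (N + 1)),
        {γ : (ι × κ) × Fin L → ℂ | et L (mser γ) r = E r} else ∅) =
      {γ : (ι × κ) × Fin L → ℂ | Φ (et L (mser γ))} := by
    ext γ
    rw [Set.mem_iUnion, Set.mem_ofPred_eq]
    have key : ∀ E : Fin (N + 1) → Fin (L + 1),
        (∀ r : Fin (N + 1), et L (mser γ) r = E r) → et L (mser γ) = ex E := by
      intro E hE
      funext r
      by_cases h : r < N + 1
      · simp only [ex, h, dif_pos]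
        exact hE ⟨r, h⟩
      · simp only [ex, h, dif_neg, not_false_eq_true]
        exact et_of_card_lt L r (mser γ) (by omega)
    constructor
    · rintro ⟨E, hE⟩
      by_cases hΦ : Φ (ex E)
      · rw [if_pos hΦ, Set.mem_iInter] at hE
        rw [key E hE]
        exact hΦ
      · rw [if_neg hΦ] at hE
        exact hE.elim
    · intro h
      let E : Fin (N + 1) → Fin (L + 1) := fun r =>
        ⟨et L (mser γ) r, Nat.lt_succ_of_le (et_le L r (mser γ))⟩
      refine ⟨E, ?_⟩
      have hE : ∀ r : Fin (N + 1), et L (mser γ) r = E r := fun r => rfl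
      rw [if_pos (by rw [← key E hE]; exact h), Set.mem_iInter]
      exact hE
  rwa [e] at h1

theorem constr_SP (m n L : ℕ) (Φ : (ℕ → ℕ) → Prop) : Constr (SP m n L Φ) := constr_et L Φ

private theorem eval_minor {m n r : ℕ} (S : Fin r → Fin m) (T : Fin r → Fin n)
    (A : Fin m × Fin n → ℂ) :
    eval A ((Matrix.of fun i j => (X (S i, T j) : MvPolynomial (Fin m × Fin n) ℂ)).det) =
      (Matrix.of fun i j => A (S i, T j)).det := by
  rw [RingHom.map_det]
  congr 1
  ext i j
  simp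

theorem constr_rankSet (m n ρ : ℕ) : Constr (RankSet m n ρ) := by
  have h1 : Constr (⋃ (S : Fin ρ → Fin m), ⋃ (T : Fin ρ → Fin n),
      {A : Fin m × Fin n → ℂ | eval A
        ((Matrix.of fun i j => (X (S i, T j) : MvPolynomial (Fin m × Fin n) ℂ)).det) ≠ 0}) :=
    constr_iUnion fun S => constr_iUnion fun T => constr_ne _
  have h2 : Constr (⋂ (S : Fin (ρ + 1) → Fin m), ⋂ (T : Fin (ρ + 1) → Fin n),
      {A : Fin m × Fin n → ℂ | eval A
        ((Matrix.of fun i j => (X (S i, T j) : MvPolynomial (Fin m × Fin n) ℂ)).det) = 0}) :=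
    constr_iInter fun S => constr_iInter fun T => Constr.zeroSet _
  have h3 := h1.inter h2
  have e : (⋃ (S : Fin ρ → Fin m), ⋃ (T : Fin ρ → Fin n),
      {A : Fin m × Fin n → ℂ | eval A
        ((Matrix.of fun i j => (X (S i, T j) : MvPolynomial (Fin m × Fin n) ℂ)).det) ≠ 0}) ∩
      (⋂ (S : Fin (ρ + 1) → Fin m), ⋂ (T : Fin (ρ + 1) → Fin n),
      {A : Fin m × Fin n → ℂ | eval A
        ((Matrix.of fun i j => (X (S i, T j) : MvPolynomial (Fin m × Fin n) ℂ)).det) = 0}) =
      RankSet m n ρ := by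
    ext A
    unfold RankSet
    simp only [Set.mem_inter_iff, Set.mem_iUnion, Set.mem_iInter, Set.mem_ofPred_eq, eval_minor]
  rwa [e] at h3

end MotMono
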