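import Pool.Agent.Lib.MP_4e5fcd_ag.Det.A2

/-! # DET-C6: the order of a sum of products of determinantal ideals along a jet -/

open MvPolynomial

namespace MotMono

variable {s N : ℕ} {m n : Fin s → ℕ}

/-- the value along a jet, as a ring homomorphism to power series -/
noncomputable def c6Hom {N L : ℕ} (γ : Fin N × Fin L → ℂ) :
    MvPolynomial (Fin N) ℂ →+* PowerSeries ℂ :=
  (Polynomial.coeToPowerSeries.ringHom (R := ℂ)).comp (aeval (arc γ)).toRingHom

theorem c6Hom_apply {N L : ℕ} (γ : Fin N × Fin L → ℂ) (f : MvPolynomial (Fin N) ℂ) :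
    c6Hom γ f = ((along f γ : Polynomial ℂ) : PowerSeries ℂ) := rfl

theorem c6_coeff_arc {N L : ℕ} (γ : Fin N × Fin L → ℂ) (i : Fin N) (l : ℕ) :
    (arc γ i).coeff l = if h : l < L then γ (i, ⟨l, h⟩) else 0 := by
  rw [arc, Polynomial.finsetSum_coeff]
  simp only [Polynomial.coeff_C_mul_X_pow]
  by_cases h : l < L
  · rw [dif_pos h, Finset.sum_eq_single (⟨l, h⟩ : Fin L)]
    · simp
    · intro b _ hb
      rw [if_neg]
      intro h2
      exact hb (Fin.ext h2.symm)
    · simp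
  · rw [dif_neg h]
    refine Finset.sum_eq_zero fun b _ => ?_
    rw [if_neg]
    intro h2
    exact h (h2 ▸ b.2)

/-- the value of a product of minors along a jet, as a power series -/
theorem along_minor (e : (Σ a, Fin (m a) × Fin (n a)) ≃ Fin N) {L : ℕ} (γ : Fin N × Fin L → ℂ)
    (a : Fin s) {r : ℕ} (S : Fin r → Fin (m a)) (T : Fin r → Fin (n a)) :
    ((along (Matrix.of fun i j =>
      (X (e ⟨a, (S i, T j)⟩) : MvPolynomial (Fin N) ℂ)).det γ : Polynomial ℂ) : PowerSeries ℂ) =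
      ((mser (jetPart e γ a)).submatrix S T).det := by
  rw [← c6Hom_apply, RingHom.map_det]
  congr 1
  ext i j l
  rw [RingHom.mapMatrix_apply, Matrix.map_apply, Matrix.of_apply, c6Hom_apply, along, aeval_X,
    Polynomial.coeff_coe, c6_coeff_arc, Matrix.submatrix_apply, mser, PowerSeries.coeff_mk]
  rfl

/-- `t` is the order of `J` up to `L` -/
def c6P (L : ℕ) (J : Ideal (PowerSeries ℂ)) (t : ℕ) : Prop :=
  ∀ j ≤ L, J ≤ Ideal.span {(PowerSeries.X : PowerSeries ℂ) ^ j} ↔ j ≤ t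

theorem c6_span_le (o j : ℕ) :
    Ideal.span {(PowerSeries.X : PowerSeries ℂ) ^ o} ≤ Ideal.span {PowerSeries.X ^ j} ↔ j ≤ o := by
  rw [Ideal.span_singleton_le_span_singleton]
  exact pow_dvd_pow_iff PowerSeries.X_ne_zero PowerSeries.X_prime.not_isUnit

theorem c6_cases (J : Ideal (PowerSeries ℂ)) :
    J = ⊥ ∨ ∃ o : ℕ, J = Ideal.span {(PowerSeries.X : PowerSeries ℂ) ^ o} := by
  by_cases h : J = ⊥
  · exact Or.inl h
  · exact Or.inr (IsDiscreteValuationRing.ideal_eq_span_pow_irreducible h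
      PowerSeries.X_prime.irreducible)

theorem c6P_mul {L : ℕ} {J J' : Ideal (PowerSeries ℂ)} {t t' : ℕ} (h : c6P L J t)
    (h' : c6P L J' t') : c6P L (J * J') (t + t') := by
  intro j hj
  rcases c6_cases J with rfl | ⟨o, rfl⟩
  · have h1 := (h L le_rfl).mp bot_le
    rw [Ideal.bot_mul]
    exact ⟨fun _ => by omega, fun _ => bot_le⟩
  rcases c6_cases J' with rfl | ⟨o', rfl⟩
  · have h1 := (h' L le_rfl).mp bot_le
    rw [Ideal.mul_bot]
    exact ⟨fun _ => by omega, fun _ => bot_le⟩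
  rw [Ideal.span_singleton_mul_span_singleton, ← pow_add, c6_span_le]
  simp only [c6P, c6_span_le] at h h'
  have e1 : min L o = min L t := by
    apply le_antisymm
    · exact le_min (min_le_left _ _) ((h _ (min_le_left _ _)).mp (min_le_right _ _))
    · exact le_min (min_le_left _ _) ((h _ (min_le_left _ _)).mpr (min_le_right _ _))
  have e2 : min L o' = min L t' := by
    apply le_antisymm
    · exact le_min (min_le_left _ _) ((h' _ (min_le_left _ _)).mp (min_le_right _ _))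
    · exact le_min (min_le_left _ _) ((h' _ (min_le_left _ _)).mpr (min_le_right _ _))
  omega

theorem c6P_one (L : ℕ) : c6P L 1 0 := by
  intro j _
  have := c6_span_le 0 j
  rwa [pow_zero, Ideal.span_singleton_one, ← Ideal.one_eq_top] at this

theorem c6P_pow {L : ℕ} {J : Ideal (PowerSeries ℂ)} {t : ℕ} (h : c6P L J t) (k : ℕ) :
    c6P L (J ^ k) (k * t) := by
  induction k with
  | zero => simpa using c6P_one L
  | succ k ih =>
    rw [pow_succ, Nat.succ_mul]
    exact c6P_mul ih h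

theorem c6P_prod {ι : Type} (s : Finset ι) {L : ℕ} {J : ι → Ideal (PowerSeries ℂ)} {t : ι → ℕ}
    (h : ∀ i, c6P L (J i) (t i)) : c6P L (∏ i ∈ s, J i) (∑ i ∈ s, t i) := by
  classical
  induction s using Finset.induction_on with
  | empty => simpa using c6P_one L
  | insert a s ha ih =>
    rw [Finset.prod_insert ha, Finset.sum_insert ha]
    exact c6P_mul (h a) ih

theorem c6P_detIdeal (e : (Σ a, Fin (m a) × Fin (n a)) ≃ Fin N) {L : ℕ} (γ : Fin N × Fin L → ℂ)
    (a : Fin s) (r : ℕ) :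
    c6P L ((detIdeal e a r).map (c6Hom γ)) (et L (mser (jetPart e γ a)) r) := by
  intro j hj
  rw [le_et_iff, detIdeal, Ideal.map_span, Ideal.span_le]
  constructor
  · intro h
    refine ⟨hj, fun S T => ?_⟩
    have := h ⟨_, ⟨S, T, rfl⟩, rfl⟩
    rw [c6Hom_apply, along_minor] at this
    exact Ideal.mem_span_singleton.mp this
  · rintro ⟨_, h⟩
    rintro _ ⟨_, ⟨S, T, rfl⟩, rfl⟩
    rw [c6Hom_apply, along_minor]
    exact Ideal.mem_span_singleton.mpr (h S T)

theorem c6_map_prod {R S ι : Type} [CommRing R] [CommRing S] (f : R →+* S) (s : Finset ι)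
    (J : ι → Ideal R) (w : ι → ℕ) :
    (∏ i ∈ s, J i ^ w i).map f = ∏ i ∈ s, (J i).map f ^ w i := by
  classical
  induction s using Finset.induction_on with
  | empty => simp only [Finset.prod_empty, Ideal.one_eq_top, Ideal.map_top]
  | insert a s ha ih =>
    rw [Finset.prod_insert ha, Finset.prod_insert ha, Ideal.map_mul, Ideal.map_pow, ih]

theorem c6_map_detProd (e : (Σ a, Fin (m a) × Fin (n a)) ≃ Fin N)
    (w : (Σ a, Fin (m a)) → ℕ) {L : ℕ} (γ : Fin N × Fin L → ℂ) {j : ℕ} (hj : j ≤ L) :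
    (∏ c : (Σ a, Fin (m a)), detIdeal e c.1 (c.2 + 1) ^ w c).map (c6Hom γ) ≤
        Ideal.span {(PowerSeries.X : PowerSeries ℂ) ^ j} ↔
      j ≤ ∑ c : (Σ a, Fin (m a)), w c * et L (mser (jetPart e γ c.1)) (c.2 + 1) := by
  have h := c6P_prod Finset.univ
    (fun c : (Σ a, Fin (m a)) => c6P_pow (c6P_detIdeal e γ c.1 (c.2 + 1)) (w c)) j hj
  rw [← h, c6_map_prod]

theorem c6_map_le (e : (Σ a, Fin (m a) × Fin (n a)) ≃ Fin N)
    (A : Finset ((Σ a, Fin (m a)) → ℕ)) {L : ℕ} (γ : Fin N × Fin L → ℂ) {j : ℕ} (hj : j ≤ L) :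
    (detSum e A).map (c6Hom γ) ≤ Ideal.span {(PowerSeries.X : PowerSeries ℂ) ^ j} ↔
      ∀ w ∈ A, j ≤ ∑ c : (Σ a, Fin (m a)),
          w c * et L (mser (jetPart e γ c.1)) (c.2 + 1) := by
  rw [detSum, Ideal.map_le_iff_le_comap, iSup₂_le_iff]
  refine forall_congr' fun w => forall_congr' fun _ => ?_
  rw [← Ideal.map_le_iff_le_comap]
  exact c6_map_detProd e w γ hj

theorem mem_ordLocus_iff (e : (Σ a, Fin (m a) × Fin (n a)) ≃ Fin N)
    (A : Finset ((Σ a, Fin (m a)) → ℕ)) (hA : A.Nonempty) (k : ℕ)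
    (γ : Fin N × Fin (k + 1) → ℂ) :
    γ ∈ ordLocus (detSum e A) k ↔
      (∀ a, et (k + 1) (mser (jetPart e γ a)) 1 ≠ 0) ∧
        sInf {j | ∃ w ∈ A, ∑ c : (Σ a, Fin (m a)),
          w c * et (k + 1) (mser (jetPart e γ c.1)) (c.2 + 1) = j} = k := by
  have h0 : (∀ i, γ (i, 0) = 0) ↔ ∀ a, et (k + 1) (mser (jetPart e γ a)) 1 ≠ 0 := by
    have h1 : ∀ a, et (k + 1) (mser (jetPart e γ a)) 1 ≠ 0 ↔
        Dv 1 1 (mser (jetPart e γ a)) := fun a => by
      rw [← Nat.one_le_iff_ne_zero, le_et_iff]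
      simp
    have h2 : ∀ a (i : Fin (m a)) (j : Fin (n a)),
        PowerSeries.coeff 0 (mser (jetPart e γ a) i j) = γ (e ⟨a, (i, j)⟩, 0) := by
      intro a i j
      rw [mser, PowerSeries.coeff_mk, dif_pos (Nat.succ_pos k)]
      rfl
    constructor
    · intro h a
      rw [h1]
      intro S T
      rw [Matrix.det_fin_one, Matrix.submatrix_apply, pow_one, PowerSeries.X_dvd_iff,
        ← PowerSeries.coeff_zero_eq_constantCoeff_apply, h2, h]
    · intro h i
      obtain ⟨⟨a, p, q⟩, rfl⟩ := e.surjective i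
      have h3 := (h1 a).mp (h a) (fun _ => p) (fun _ => q)
      rw [Matrix.det_fin_one, Matrix.submatrix_apply, pow_one, PowerSeries.X_dvd_iff,
        ← PowerSeries.coeff_zero_eq_constantCoeff_apply, h2] at h3
      exact h3
  have h1 : ∀ j, (detSum e A).map (c6Hom γ) ≤ Ideal.span {(PowerSeries.X : PowerSeries ℂ) ^ j} ↔
      ∀ f ∈ detSum e A, ∀ l < j, (along f γ).coeff l = 0 := by
    intro j
    rw [Ideal.map_le_iff_le_comap]
    constructor
    · intro h f hf l hl
      have h3 := Ideal.mem_span_singleton.mp (Ideal.mem_comap.mp (h hf))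
      rw [PowerSeries.X_pow_dvd_iff] at h3
      have h4 := h3 l hl
      rwa [c6Hom_apply, Polynomial.coeff_coe] at h4
    · intro h f hf
      refine Ideal.mem_comap.mpr (Ideal.mem_span_singleton.mpr ?_)
      rw [PowerSeries.X_pow_dvd_iff]
      intro l hl
      rw [c6Hom_apply, Polynomial.coeff_coe]
      exact h f hf l hl
  have h2 : (∀ f ∈ detSum e A, ∀ l < k, (along f γ).coeff l = 0) ∧
      (∃ f ∈ detSum e A, (along f γ).coeff k ≠ 0) ↔
      (∀ w ∈ A, k ≤ ∑ c : (Σ a, Fin (m a)),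
          w c * et (k + 1) (mser (jetPart e γ c.1)) (c.2 + 1)) ∧
      ¬ ∀ w ∈ A, k + 1 ≤ ∑ c : (Σ a, Fin (m a)),
          w c * et (k + 1) (mser (jetPart e γ c.1)) (c.2 + 1) := by
    rw [← c6_map_le e A γ (Nat.le_succ k), ← c6_map_le e A γ le_rfl, h1, h1]
    refine and_congr_right fun h3 => ?_
    constructor
    · rintro ⟨f, hf, hk⟩ h4
      exact hk (h4 f hf k (Nat.lt_succ_self k))
    · intro h4
      by_contra h5
      push Not at h5
      refine h4 fun f hf l hl => ?_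
      rcases Nat.lt_succ_iff_lt_or_eq.mp hl with h6 | rfl
      · exact h3 f hf l h6
      · exact h5 f hf
  have h3 : (∀ w ∈ A, k ≤ ∑ c : (Σ a, Fin (m a)),
          w c * et (k + 1) (mser (jetPart e γ c.1)) (c.2 + 1)) ∧
      (¬ ∀ w ∈ A, k + 1 ≤ ∑ c : (Σ a, Fin (m a)),
          w c * et (k + 1) (mser (jetPart e γ c.1)) (c.2 + 1)) ↔
      sInf {j | ∃ w ∈ A, ∑ c : (Σ a, Fin (m a)),
          w c * et (k + 1) (mser (jetPart e γ c.1)) (c.2 + 1) = j} = k := by
    have hne : {j | ∃ w ∈ A, ∑ c : (Σ a, Fin (m a)),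
          w c * et (k + 1) (mser (jetPart e γ c.1)) (c.2 + 1) = j}.Nonempty := by
      obtain ⟨w, hw⟩ := hA
      exact ⟨_, w, hw, rfl⟩
    constructor
    · rintro ⟨h4, h5⟩
      push Not at h5
      obtain ⟨w, hw, h6⟩ := h5
      apply le_antisymm
      · exact le_trans (Nat.sInf_le (⟨w, hw, rfl⟩)) (Nat.lt_succ_iff.mp h6)
      · refine le_csInf hne ?_
        rintro _ ⟨w', hw', rfl⟩
        exact h4 w' hw'
    · intro h4
      have h5 := Nat.sInf_mem hne
      rw [h4] at h5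
      refine ⟨fun w hw => ?_, fun h6 => ?_⟩
      · exact h4.ge.trans (Nat.sInf_le ⟨w, hw, rfl⟩)
      · obtain ⟨w, hw, h7⟩ := h5
        have h8 := h6 w hw
        omega
  rw [← h0, ← h3, ← h2]
  exact Iff.rfl

end MotMono
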