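import Pool.Agent.Lib.MP_4e5fcd_ag.Det.B3
import Pool.Agent.Lib.MP_4e5fcd_ag.Det.C4
import Pool.Agent.Lib.MP_4e5fcd_ag.Det.C5
import Pool.Agent.Lib.MP_4e5fcd_ag.Det.C6

/-! # DET-C7: the coefficients of the motivic zeta function -/

open MvPolynomial

namespace MotMono

variable {s N : ℕ} {m n : Fin s → ℕ}

/-- the vector of orders given by a finite table -/
def c7_toE {L : ℕ} (c : ∀ a : Fin s, Fin (m a + 1) → Fin (L + 1)) (a : Fin s) : ℕ → ℕ :=
  fun r => if h : r < m a + 1 then c a ⟨r, h⟩ else L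

theorem c7_toE_inj {L : ℕ} {c c' : ∀ a : Fin s, Fin (m a + 1) → Fin (L + 1)}
    (h : ∀ a, c7_toE c a = c7_toE c' a) : c = c' := by
  funext a r
  have h1 := congrFun (h a) r
  unfold c7_toE at h1
  rw [dif_pos r.2, dif_pos r.2] at h1
  exact Fin.ext h1

theorem c7_exists_toE {L : ℕ} (E : Fin s → ℕ → ℕ) (h1 : ∀ a r, E a r ≤ L)
    (h2 : ∀ a r, m a < r → E a r = L) :
    ∃ c : ∀ a : Fin s, Fin (m a + 1) → Fin (L + 1), ∀ a, c7_toE c a = E a := by
  refine ⟨fun a r => ⟨E a r, Nat.lt_succ_of_le (h1 a r)⟩, fun a => ?_⟩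
  funext r
  unfold c7_toE
  by_cases h : r < m a + 1
  · rw [dif_pos h]
  · rw [dif_neg h, h2 a r (by omega)]

/-- the condition on the vectors of orders -/
def c7_Good (m : Fin s → ℕ) (A : Finset ((Σ a, Fin (m a)) → ℕ)) (k : ℕ)
    (E : Fin s → ℕ → ℕ) : Prop :=
  (∀ a, E a 1 ≠ 0) ∧
    sInf {j | ∃ w ∈ A, ∑ c : (Σ a, Fin (m a)), w c * E c.1 (c.2 + 1) = j} = k

open Classical in
/-- the finite set of good tables -/
noncomputable def c7_tab (m : Fin s → ℕ) (A : Finset ((Σ a, Fin (m a)) → ℕ)) (k : ℕ) :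
    Finset (∀ a : Fin s, Fin (m a + 1) → Fin (k + 1 + 1)) :=
  Finset.univ.filter fun c => c7_Good m A k (c7_toE c)

theorem c7_mem_tab (A : Finset ((Σ a, Fin (m a)) → ℕ)) (k : ℕ)
    (c : ∀ a : Fin s, Fin (m a + 1) → Fin (k + 1 + 1)) :
    c ∈ c7_tab m A k ↔ c7_Good m A k (c7_toE c) := by
  classical
  unfold c7_tab
  rw [Finset.mem_filter]
  exact ⟨fun h => h.2, fun h => ⟨Finset.mem_univ _, h⟩⟩

theorem c7_mem_iff (A : Finset ((Σ a, Fin (m a)) → ℕ)) (k : ℕ) (E : Fin s → ℕ → ℕ)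
    (h1 : ∀ a r, E a r ≤ k + 1) (h2 : ∀ a r, m a < r → E a r = k + 1) :
    (∃ c ∈ c7_tab m A k, ∀ a, E a = c7_toE c a) ↔ c7_Good m A k E := by
  constructor
  · rintro ⟨c, hc, h⟩
    have h3 : E = c7_toE c := funext h
    rw [h3]
    exact (c7_mem_tab A k c).1 hc
  · intro h
    obtain ⟨c, hc⟩ := c7_exists_toE (m := m) E h1 h2
    refine ⟨c, ?_, fun a => (hc a).symm⟩
    rw [c7_mem_tab]
    have h3 : c7_toE c = E := funext hc
    rw [h3]
    exact h

theorem c7_sInf_iff {α : Type} (A : Set α) (hA : A.Nonempty) (D : α → ℕ) (k : ℕ) :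
    sInf {j | ∃ w ∈ A, D w = j} = k ↔ (∃ w ∈ A, D w = k) ∧ ∀ w ∈ A, k ≤ D w := by
  have hne : {j | ∃ w ∈ A, D w = j}.Nonempty := by
    obtain ⟨w, hw⟩ := hA
    exact ⟨D w, w, hw, rfl⟩
  constructor
  · intro h
    have h1 := Nat.sInf_mem hne
    rw [h] at h1
    refine ⟨h1, fun w hw => ?_⟩
    rw [← h]
    exact Nat.sInf_le ⟨w, hw, rfl⟩
  · rintro ⟨h1, h2⟩
    apply le_antisymm
    · exact Nat.sInf_le h1
    · obtain ⟨w, hw, h3⟩ := Nat.sInf_mem hne
      rw [← h3]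
      exact h2 w hw

theorem c7_trunc {ι : Type} [Fintype ι] (w d : ι → ℕ) (k : ℕ) :
    (∑ c, w c * min (k + 1) (d c)) ≤ ∑ c, w c * d c ∧
    ((∑ c, w c * min (k + 1) (d c)) ≤ k →
      ∑ c, w c * d c = ∑ c, w c * min (k + 1) (d c)) := by
  constructor
  · exact Finset.sum_le_sum fun c _ => Nat.mul_le_mul_left _ (min_le_right _ _)
  · intro h
    apply Finset.sum_congr rfl
    intro c _
    rcases Nat.eq_zero_or_pos (w c) with h0 | h0
    · rw [h0, zero_mul, zero_mul]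
    · have h1 : w c * min (k + 1) (d c) ≤ ∑ c, w c * min (k + 1) (d c) :=
        Finset.single_le_sum (f := fun c => w c * min (k + 1) (d c))
          (fun _ _ => Nat.zero_le _) (Finset.mem_univ c)
      have h2 : min (k + 1) (d c) ≤ w c * min (k + 1) (d c) := Nat.le_mul_of_pos_left _ h0
      have h3 : min (k + 1) (d c) ≤ k := by omega
      have h4 : min (k + 1) (d c) = d c := by
        rcases min_choice (k + 1) (d c) with h5 | h5
        · omega
        · exact h5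
      rw [h4]

theorem c7_sInf_trunc {ι : Type} [Fintype ι] (A : Set (ι → ℕ)) (hA : A.Nonempty) (d : ι → ℕ)
    (k : ℕ) :
    sInf {j | ∃ w ∈ A, ∑ c, w c * min (k + 1) (d c) = j} = k ↔
      sInf {j | ∃ w ∈ A, ∑ c, w c * d c = j} = k := by
  rw [c7_sInf_iff A hA (fun w => ∑ c, w c * min (k + 1) (d c)),
    c7_sInf_iff A hA (fun w => ∑ c, w c * d c)]
  constructor
  · rintro ⟨⟨w, hw, h1⟩, h2⟩
    refine ⟨⟨w, hw, ?_⟩, fun w' hw' => ?_⟩
    · rw [(c7_trunc w d k).2 (le_of_eq h1), h1]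
    · exact le_trans (h2 w' hw') (c7_trunc w' d k).1
  · rintro ⟨⟨w, hw, h1⟩, h2⟩
    refine ⟨⟨w, hw, ?_⟩, fun w' hw' => ?_⟩
    · have h3 := (c7_trunc w d k).1
      rw [h1] at h3
      rw [← (c7_trunc w d k).2 h3, h1]
    · by_contra h3
      push Not at h3
      have h4 := (c7_trunc w' d k).2 h3.le
      have h5 := h2 w' hw'
      omega

theorem c7_prod_Lu {α : Type} (t : Finset α) (x : α → ℕ) :
    ∏ a ∈ t, ((Lu ^ (-((x a : ℕ) : ℤ)) : MCˣ) : MC) =
      ((Lu ^ (-((∑ a ∈ t, x a : ℕ) : ℤ)) : MCˣ) : MC) := by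
  classical
  induction t using Finset.induction_on with
  | empty => simp
  | insert a t ha ih =>
    rw [Finset.prod_insert ha, Finset.sum_insert ha, ih, ← Units.val_mul, ← zpow_add]
    congr 2
    push_cast
    ring

/-- the set of jets with a given table of orders -/
def c7_J (e : (Σ a, Fin (m a) × Fin (n a)) ≃ Fin N) (k : ℕ)
    (c : ∀ a : Fin s, Fin (m a + 1) → Fin (k + 1 + 1)) : Set (Fin N × Fin (k + 1) → ℂ) :=
  {γ | ∀ a, jetPart e γ a ∈ SP (m a) (n a) (k + 1) fun E => E = c7_toE c a}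

theorem c7_card (e : (Σ a, Fin (m a) × Fin (n a)) ≃ Fin N) : ∑ a, m a * n a = N := by
  have h := Fintype.card_congr e
  rw [Fintype.card_sigma, Fintype.card_fin] at h
  rw [← h]
  apply Finset.sum_congr rfl
  intro a _
  rw [Fintype.card_prod, Fintype.card_fin, Fintype.card_fin]

theorem c7_ordLocus (e : (Σ a, Fin (m a) × Fin (n a)) ≃ Fin N)
    (A : Finset ((Σ a, Fin (m a)) → ℕ)) (hA : A.Nonempty) (k : ℕ) :
    ordLocus (detSum e A) k = ⋃ c ∈ c7_tab m A k, c7_J e k c := by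
  ext γ
  rw [mem_ordLocus_iff e A hA k γ]
  have h1 := c7_mem_iff A k (fun a => et (k + 1) (mser (jetPart e γ a)))
    (fun a r => et_le _ _ _)
    (fun a r hr => et_of_card_lt _ _ _ (by rw [Fintype.card_fin]; exact hr))
  rw [Set.mem_iUnion₂]
  have h2 : c7_Good m A k (fun a => et (k + 1) (mser (jetPart e γ a))) ↔
      (∀ a, et (k + 1) (mser (jetPart e γ a)) 1 ≠ 0) ∧
        sInf {j | ∃ w ∈ A, ∑ c : (Σ a, Fin (m a)),
          w c * et (k + 1) (mser (jetPart e γ c.1)) (c.2 + 1) = j} = k := Iff.rfl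
  rw [← h2, ← h1]
  constructor
  · rintro ⟨c, hc, h⟩
    exact ⟨c, hc, h⟩
  · rintro ⟨c, hc, h⟩
    exact ⟨c, hc, h⟩

theorem c7_theta (e : (Σ a, Fin (m a) × Fin (n a)) ≃ Fin N)
    (hmn : ∀ a, m a ≤ n a) (A : Finset ((Σ a, Fin (m a)) → ℕ)) (hA : A.Nonempty) (k : ℕ) :
    PowerSeries.coeff k (Zmot (detSum e A)) =
      theta (∑ c ∈ c7_tab m A k, ∏ a, PP (k + 1) (m a) (n a) fun E => E = c7_toE c a) := by
  have h1 : ∀ c, theta (∏ a, PP (k + 1) (m a) (n a) fun E => E = c7_toE c a) =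
      algebraMap K0 MC (cls (c7_J e k c)) * ((Lu ^ (-(N * (k + 1) : ℤ)) : MCˣ) : MC) := by
    intro c
    have h2 : cls (c7_J e k c) =
        ∏ a, cls (SP (m a) (n a) (k + 1) fun E => E = c7_toE c a) :=
      cls_family e (k + 1) _ fun a => constr_SP _ _ _ _
    rw [map_prod, h2, map_prod]
    have h3 : ((Lu ^ (-(N * (k + 1) : ℤ)) : MCˣ) : MC) =
        ∏ a, ((Lu ^ (-((m a * n a * (k + 1) : ℕ) : ℤ)) : MCˣ) : MC) := by
      rw [c7_prod_Lu, ← Finset.sum_mul, c7_card e]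
      push_cast
      rfl
    rw [h3, ← Finset.prod_mul_distrib]
    exact Finset.prod_congr rfl fun a _ => theta_PP _ _ _ (hmn a) _
  have h4 : cls (ordLocus (detSum e A) k) = ∑ c ∈ c7_tab m A k, cls (c7_J e k c) := by
    rw [c7_ordLocus e A hA k]
    apply cls_biUnion
    · intro c _
      exact constr_family e (k + 1) _ fun a => constr_SP _ _ _ _
    · intro c hc c' hc' hne
      rw [Set.disjoint_left]
      intro γ h h'
      apply hne
      apply c7_toE_inj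
      intro a
      exact (h a).symm.trans (h' a)
  rw [Zmot, PowerSeries.coeff_mk, h4, map_sum, map_sum, Finset.sum_mul]
  exact Finset.sum_congr rfl fun c _ => (h1 c).symm

theorem c7_image (hm : ∀ a, 0 < m a) (A : Finset ((Σ a, Fin (m a)) → ℕ)) (hA : A.Nonempty)
    (k : ℕ) :
    (fun (b : ∀ a, Fin (m a) → ℕ) (c : Σ a, Fin (m a)) => b c.1 c.2) ''
      (⋃ c ∈ c7_tab m A k, {b : ∀ a, Fin (m a) → ℕ |
        ∀ a, b a ∈ {x : Fin (m a) → ℕ | eb (m a) (k + 1) (extb x) = c7_toE c a}}) =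
      {b | (∀ i ∈ {c : (Σ a, Fin (m a)) | (c.2 : ℕ) = 0}, b i ≠ 0) ∧ minF (AW A) b = k} := by
  classical
  have key : ∀ b : ∀ a, Fin (m a) → ℕ,
      (b ∈ ⋃ c ∈ c7_tab m A k, {b : ∀ a, Fin (m a) → ℕ |
        ∀ a, b a ∈ {x : Fin (m a) → ℕ | eb (m a) (k + 1) (extb x) = c7_toE c a}}) ↔
      (∀ i ∈ {c : (Σ a, Fin (m a)) | (c.2 : ℕ) = 0}, b i.1 i.2 ≠ 0) ∧
        minF (AW A) (fun c : (Σ a, Fin (m a)) => b c.1 c.2) = k := by
    intro b
    have h1 := c7_mem_iff A k (fun a => eb (m a) (k + 1) (extb (b a)))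
      (fun a r => by
        unfold eb
        split_ifs
        · exact min_le_left _ _
        · exact le_rfl)
      (fun a r hr => by
        unfold eb
        rw [if_neg (by omega)])
    have h2 : (b ∈ ⋃ c ∈ c7_tab m A k, {b : ∀ a, Fin (m a) → ℕ |
        ∀ a, b a ∈ {x : Fin (m a) → ℕ | eb (m a) (k + 1) (extb x) = c7_toE c a}}) ↔
        c7_Good m A k (fun a => eb (m a) (k + 1) (extb (b a))) := by
      rw [← h1, Set.mem_iUnion₂]
      constructor
      · rintro ⟨c, hc, h⟩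
        exact ⟨c, hc, h⟩
      · rintro ⟨c, hc, h⟩
        exact ⟨c, hc, h⟩
    rw [h2]
    unfold c7_Good
    have h3 : (∀ a, eb (m a) (k + 1) (extb (b a)) 1 ≠ 0) ↔
        ∀ i ∈ {c : (Σ a, Fin (m a)) | (c.2 : ℕ) = 0}, b i.1 i.2 ≠ 0 := by
      have h4 : ∀ a, eb (m a) (k + 1) (extb (b a)) 1 ≠ 0 ↔ b a ⟨0, hm a⟩ ≠ 0 := by
        intro a
        have h5 : eb (m a) (k + 1) (extb (b a)) 1 = min (k + 1) (b a ⟨0, hm a⟩) := by
          unfold eb ev extb
          rw [if_pos (show 1 ≤ m a from hm a), Finset.sum_range_one, dif_pos (hm a)]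
          simp
        rw [h5]
        omega
      constructor
      · rintro h ⟨a, i⟩ hi
        have h5 : i = ⟨0, hm a⟩ := Fin.ext hi
        have h6 := (h4 a).1 (h a)
        rw [← h5] at h6
        exact h6
      · intro h a
        rw [h4]
        exact h ⟨a, ⟨0, hm a⟩⟩ rfl
    have h4 : ∀ w : (Σ a, Fin (m a)) → ℕ,
        ∑ c : (Σ a, Fin (m a)), w c * eb (m c.1) (k + 1) (extb (b c.1)) (c.2 + 1) =
          ∑ c : (Σ a, Fin (m a)), w c * min (k + 1) (ev (extb (b c.1)) (c.2 + 1)) := by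
      intro w
      apply Finset.sum_congr rfl
      intro c _
      unfold eb
      rw [if_pos (show (c.2 : ℕ) + 1 ≤ m c.1 from c.2.2)]
    have h5 : minF (AW A) (fun c : (Σ a, Fin (m a)) => b c.1 c.2) =
        sInf {j | ∃ w ∈ (A : Set ((Σ a, Fin (m a)) → ℕ)),
          ∑ c : (Σ a, Fin (m a)), w c * ev (extb (b c.1)) (c.2 + 1) = j} := by
      unfold minF AW
      congr 1
      ext j
      rw [Set.mem_ofPred_eq, Set.mem_ofPred_eq]
      constructor
      · rintro ⟨W, hW, h⟩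
        obtain ⟨w, hw, rfl⟩ := Finset.mem_image.1 hW
        refine ⟨w, hw, ?_⟩
        rw [← h, pair_Wf]
        rfl
      · rintro ⟨w, hw, h⟩
        refine ⟨Wf w, Finset.mem_image.2 ⟨w, hw, rfl⟩, ?_⟩
        rw [← h, pair_Wf]
        rfl
    rw [h3, h5, ← c7_sInf_trunc (A : Set ((Σ a, Fin (m a)) → ℕ)) hA
      (fun c => ev (extb (b c.1)) (c.2 + 1)) k]
    simp only [h4]
    rfl
  ext b
  constructor
  · rintro ⟨b', hb', rfl⟩
    exact (key b').1 hb'
  · intro hb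
    exact ⟨fun a i => b ⟨a, i⟩, (key _).2 hb, rfl⟩

theorem c7_series (hm : ∀ a, 0 < m a) (hmn : ∀ a, m a ≤ n a)
    (A : Finset ((Σ a, Fin (m a)) → ℕ)) (hA : A.Nonempty) (k : ℕ) :
    ((∑ c ∈ c7_tab m A k, ∏ a, PP (k + 1) (m a) (n a) fun E => E = c7_toE c a : Bq) :
      PowerSeries Bu) =
      SS (muA n) {b | (∀ i ∈ {c : (Σ a, Fin (m a)) | (c.2 : ℕ) = 0}, b i ≠ 0) ∧
        minF (AW A) b = k} := by
  have hloc : ∀ a, LocFin (fun b : Fin (m a) → ℕ => mu (m a) (n a) (extb b)) :=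
    fun a => locFin_mu (m a) (n a) (hmn a)
  have hloc' := locFin_pi (fun a (b : Fin (m a) → ℕ) => mu (m a) (n a) (extb b)) hloc
  have h1 : ((∑ c ∈ c7_tab m A k, ∏ a, PP (k + 1) (m a) (n a) fun E => E = c7_toE c a : Bq) :
      PowerSeries Bu) = ∑ c ∈ c7_tab m A k, ∏ a,
        ((PP (k + 1) (m a) (n a) fun E => E = c7_toE c a : Bq) : PowerSeries Bu) := by
    have := map_sum (Polynomial.coeToPowerSeries.ringHom (R := Bu))
      (fun c => ∏ a, PP (k + 1) (m a) (n a) fun E => E = c7_toE c a) (c7_tab m A k)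
    simp only [map_prod] at this
    exact this
  have h2 : ∀ c : (∀ a : Fin s, Fin (m a + 1) → Fin (k + 1 + 1)),
      ∏ a, ((PP (k + 1) (m a) (n a) fun E => E = c7_toE c a : Bq) : PowerSeries Bu) =
        SS (fun b : ∀ a, Fin (m a) → ℕ => ∏ a, mu (m a) (n a) (extb (b a)))
          {b | ∀ a, b a ∈ {x : Fin (m a) → ℕ | eb (m a) (k + 1) (extb x) = c7_toE c a}} := by
    intro c
    rw [SS_pi (fun a (b : Fin (m a) → ℕ) => mu (m a) (n a) (extb b)) hloc]
    exact Finset.prod_congr rfl fun a _ => PP_eq_SS _ _ _ (hmn a) _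
  rw [h1, Finset.sum_congr rfl fun c _ => h2 c, ← SS_biUnion hloc' (c7_tab m A k)
    (fun c => {b | ∀ a, b a ∈ {x : Fin (m a) → ℕ | eb (m a) (k + 1) (extb x) = c7_toE c a}})]
  · have h3 : Set.InjOn (fun (b : ∀ a, Fin (m a) → ℕ) (c : Σ a, Fin (m a)) => b c.1 c.2)
        (⋃ c ∈ c7_tab m A k, {b : ∀ a, Fin (m a) → ℕ |
          ∀ a, b a ∈ {x : Fin (m a) → ℕ | eb (m a) (k + 1) (extb x) = c7_toE c a}}) := by
      intro b _ b' _ h
      funext a i
      exact congrFun h ⟨a, i⟩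
    have h4 := SS_image (μ' := (muA n : ((Σ a, Fin (m a)) → ℕ) → Bq)) hloc' _ _ h3 1 (by
      intro b _
      rw [one_mul]
      rfl)
    rw [← c7_image hm A hA k, h4, Polynomial.coe_one, one_mul]
  · intro c _ c' _ hne
    rw [Set.disjoint_left]
    intro b h h'
    apply hne
    apply c7_toE_inj
    intro a
    exact (h a).symm.trans (h' a)

theorem exists_P (e : (Σ a, Fin (m a) × Fin (n a)) ≃ Fin N) (hm : ∀ a, 0 < m a)
    (hmn : ∀ a, m a ≤ n a) (A : Finset ((Σ a, Fin (m a)) → ℕ)) (hA : A.Nonempty) (k : ℕ) :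
    ∃ P : Bq, PowerSeries.coeff k (Zmot (detSum e A)) = theta P ∧
      (P : PowerSeries Bu) =
        PowerSeries.coeff k (ZS (muA n) {c : (Σ a, Fin (m a)) | (c.2 : ℕ) = 0} (AW A)) := by
  refine ⟨_, c7_theta e hmn A hA k, ?_⟩
  rw [ZS, PowerSeries.coeff_mk]
  exact c7_series hm hmn A hA k

end MotMono
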