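import Pool.Agent.Lib.MP_4e5fcd_ag.Det.U2

/-! # DET-U2b: the chord lemma, undetected blocks of faces -/

open MvPolynomial

namespace MotMono

variable {s : ℕ} {m : Fin s → ℕ}

theorem u2b_evq_sum {ι : Type} (t : Finset ι) (f : ι → ℚ) (h : ι → (Σ a, Fin (m a)) → ℚ)
    (a : Fin s) (r : ℕ) :
    evq (fun c => ∑ i ∈ t, f i * h i c) a r = ∑ i ∈ t, f i * evq (h i) a r := by
  unfold evq
  simp only [Finset.mul_sum]
  rw [Finset.sum_comm]
  refine Finset.sum_congr rfl fun i _ => Finset.sum_congr rfl fun k _ => ?_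
  ring

/-- the chord lemma: a rational profile in the face of `u` whose breaks lie in the support of `u`
or inside undetected blocks agrees up to a factor with `u` outside the undetected blocks -/
theorem chord (A : Finset ((Σ a, Fin (m a)) → ℕ)) (u : (Σ a, Fin (m a)) → ℕ)
    (hu : Ext (AW A) u) (hN : 0 < minF (AW A) u) (y : (Σ a, Fin (m a)) → ℚ) (hy0 : ∀ c, 0 ≤ y c)
    (hy : ∀ a, ∀ i : Fin (m a), u ⟨a, i⟩ = 0 → ¬ InUndet A u a i → y ⟨a, i⟩ = 0)
    (hW : ∀ W W', InFace (AW A) u W → InFace (AW A) u W' →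
      ∑ c, (W c : ℚ) * y c = ∑ c, (W' c : ℚ) * y c) :
    ∃ τ : ℚ, 0 ≤ τ ∧ (∀ a r, r ≤ m a → ¬ InUndet A u a r →
        evq y a r = τ * evq (fun c => (u c : ℚ)) a r) ∧
      ∀ W, InFace (AW A) u W → ∑ c, (W c : ℚ) * y c = τ * minF (AW A) u := by
  classical
  have hat : ∀ c : (Σ a, Fin (m a)), ∃ h : (Σ a, Fin (m a)) → ℚ, (∀ c, 0 ≤ h c) ∧
      (∀ c, u c = 0 → h c = 0) ∧ ∀ a' r, r ≤ m a' → ¬ InUndet A u a' r →
        y c * evq h a' r = y c * if a' = c.1 then ((r - (c.2 : ℕ) : ℕ) : ℚ) else 0 := by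
    rintro ⟨a, j⟩
    by_cases hj : u ⟨a, j⟩ = 0 ∧ ¬ InUndet A u a j
    · refine ⟨fun _ => 0, fun _ => le_refl _, fun _ _ => rfl, fun a' r _ _ => ?_⟩
      rw [hy a j hj.1 hj.2]; simp
    · have hj' : u ⟨a, j⟩ = 0 → InUndet A u a j := by
        intro h
        by_contra h2
        exact hj ⟨h, h2⟩
      obtain ⟨h, h1, h2, h3⟩ := exists_hat A u a j hj'
      exact ⟨h, h1, h2, fun a' r hr hn => by rw [h3 a' r hr hn]⟩
  choose h h0 hs hev using hat
  set yt : (Σ a, Fin (m a)) → ℚ := fun c => ∑ i, y i * h i c with hyt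
  have hyt0 : ∀ c, 0 ≤ yt c := fun c => Finset.sum_nonneg fun i _ => mul_nonneg (hy0 i) (h0 i c)
  have hyts : ∀ c, u c = 0 → yt c = 0 := fun c hc =>
    Finset.sum_eq_zero fun i _ => by rw [hs i c hc, mul_zero]
  have hevt : ∀ a r, r ≤ m a → ¬ InUndet A u a r → evq yt a r = evq y a r := by
    intro a r hr hn
    rw [hyt, u2b_evq_sum]
    rw [Finset.sum_congr rfl fun i _ => hev i a r hr hn]
    rw [Fintype.sum_sigma, Finset.sum_eq_single a]
    · unfold evq
      refine Finset.sum_congr rfl fun k _ => ?_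
      simp only [if_true]
      ring
    · intro b _ hb
      refine Finset.sum_eq_zero fun k _ => ?_
      rw [if_neg (fun h => hb h.symm), mul_zero]
    · intro hh; exact absurd (Finset.mem_univ _) hh
  have hpair : ∀ W, InFace (AW A) u W → ∑ c, (W c : ℚ) * yt c = ∑ c, (W c : ℚ) * y c := by
    intro W hWf
    have hW' := hWf.1
    unfold AW at hW'
    obtain ⟨w, hw, rfl⟩ := Finset.mem_image.mp hW'
    rw [sum_Wf_mul, sum_Wf_mul]
    refine Finset.sum_congr rfl fun c _ => ?_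
    by_cases hwc : w c = 0
    · simp [hwc]
    · rw [hevt c.1 (c.2 + 1) c.2.2 fun hin =>
        not_vis_of_inUndet A u c.1 _ hin ⟨w, hw, hWf, c.2, rfl, hwc⟩]
  obtain ⟨τ, hτ⟩ := hu.2 yt hyts fun W W' h1 h2 => by
    rw [hpair W h1, hpair W' h2, hW W W' h1 h2]
  have hτ0 : 0 ≤ τ := by
    obtain ⟨c, hc⟩ : ∃ c, u c ≠ 0 := by
      by_contra hcon
      push Not at hcon
      exact hu.1 (funext hcon)
    have h1 := hyt0 c
    rw [hτ c] at h1
    have h2 : (0 : ℚ) < u c := by exact_mod_cast Nat.pos_of_ne_zero hc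
    by_contra hcon
    push Not at hcon
    nlinarith
  refine ⟨τ, hτ0, ?_, ?_⟩
  · intro a r hr hn
    rw [← hevt a r hr hn]
    unfold evq
    rw [Finset.mul_sum]
    refine Finset.sum_congr rfl fun k _ => ?_
    rw [hτ]; ring
  · intro W hWf
    rw [← hpair W hWf]
    obtain ⟨w, hw, hface, hp⟩ := u1_face_nonempty A u hN
    have h1 : pair W u = minF (AW A) u := by
      rw [← hp]
      exact le_antisymm (hWf.2 _ hface.1) (hface.2 _ hWf.1)
    rw [← h1]
    unfold pair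
    push_cast
    rw [Finset.mul_sum]
    refine Finset.sum_congr rfl fun i _ => ?_
    rw [hτ i]; ring

end MotMono
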