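import Pool.Agent.Lib.MP_4e5fcd_ag.Det.U3b
import Pool.Agent.Lib.MP_4e5fcd_ag.Det.U2b

/-! # DET-U3: integrality -/

open MvPolynomial

namespace MotMono

variable {s : ℕ} {m : Fin s → ℕ}

private theorem u3_affine (f : ℕ → ℚ) (i g : ℕ)
    (h : ∀ r, i < r → r < i + g → f (r + 1) + f (r - 1) = 2 * f r) :
    ∀ t, t ≤ g → f (i + t) = f i + t * (f (i + 1) - f i) := by
  intro t
  induction t using Nat.strong_induction_on with
  | _ t ih =>
    intro ht
    rcases Nat.lt_or_ge t 2 with h2 | h2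
    · interval_cases t
      · simp
      · simp
    · obtain ⟨k, rfl⟩ : ∃ k, t = k + 2 := ⟨t - 2, by omega⟩
      have h3 := h (i + (k + 1)) (by omega) (by omega)
      have h4 := ih (k + 1) (by omega) (by omega)
      have h5 := ih k (by omega) (by omega)
      have e1 : i + (k + 1) + 1 = i + (k + 2) := by omega
      have e2 : i + (k + 1) - 1 = i + k := by omega
      rw [e1, e2, h4, h5] at h3
      push_cast at h3 ⊢
      linarith

private theorem u3_affine_sum (f : ℕ → ℚ) (i g : ℕ)
    (h : ∀ r, i < r → r < i + g → f (r + 1) + f (r - 1) = 2 * f r) :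
    ∑ t ∈ Finset.range g, (f (i + t) + f (i + t + 1)) = g * (f i + f (i + g)) := by
  have ha := u3_affine f i g h
  have h1 : ∀ k, k ≤ g → ∑ t ∈ Finset.range k, (f (i + t) + f (i + t + 1)) =
      2 * k * f i + (k : ℚ) ^ 2 * (f (i + 1) - f i) := by
    intro k
    induction k with
    | zero => intro _; simp
    | succ k ih =>
      intro hk
      rw [Finset.sum_range_succ, ih (by omega), ha k (by omega)]
      have := ha (k + 1) hk
      rw [← add_assoc] at this
      rw [this]
      push_cast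
      ring
  rw [h1 g le_rfl, ha g le_rfl]
  ring

/-- twice the sum of the values of a function which is integral on `G` and linear between the
points of `G` is an integer -/
theorem two_sum_int (f : ℕ → ℚ) (G : Set ℕ) (M : ℕ) (h0 : 0 ∈ G) (hM : M ∈ G)
    (hG : ∀ r ∈ G, ∃ z : ℤ, f r = z)
    (hlin : ∀ r, 0 < r → r < M → r ∉ G → f (r + 1) + f (r - 1) = 2 * f r) :
    ∃ z : ℤ, 2 * ∑ r ∈ Finset.range (M + 1), f r = z := by
  classical
  have key : ∀ r, r ∈ G → r ≤ M → ∃ z : ℤ, ∑ k ∈ Finset.range r, (f k + f (k + 1)) = z := by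
    intro r
    induction r using Nat.strong_induction_on with
    | _ r ih =>
      intro hr hrM
      rcases Nat.eq_zero_or_pos r with h1 | h1
      · subst h1
        exact ⟨0, by simp⟩
      · obtain ⟨i, hi⟩ : ∃ i, i = Nat.findGreatest (fun k => k ∈ G) (r - 1) := ⟨_, rfl⟩
        have hi1 : i ∈ G := by
          rw [hi]
          exact Nat.findGreatest_spec (P := fun k => k ∈ G) (Nat.zero_le _) h0
        have hi2 : i ≤ r - 1 := by
          rw [hi]
          exact Nat.findGreatest_le _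
        have hi3 : ∀ k, i < k → k < r → k ∉ G := by
          intro k hk1 hk2 hk3
          have := Nat.le_findGreatest (P := fun k => k ∈ G) (show k ≤ r - 1 by omega) hk3
          omega
        obtain ⟨z1, hz1⟩ := ih i (by omega) hi1 (by omega)
        obtain ⟨z2, hz2⟩ := hG i hi1
        obtain ⟨z3, hz3⟩ := hG r hr
        obtain ⟨g, rfl⟩ : ∃ g, r = i + g := ⟨r - i, by omega⟩
        have h2 := u3_affine_sum f i g (fun k hk1 hk2 =>
          hlin k (by omega) (by omega) (hi3 k hk1 hk2))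
        refine ⟨z1 + g * (z2 + z3), ?_⟩
        rw [Finset.sum_range_add, hz1, h2, hz2, hz3]
        push_cast
        ring
  obtain ⟨z1, hz1⟩ := key M hM le_rfl
  obtain ⟨z2, hz2⟩ := hG 0 h0
  obtain ⟨z3, hz3⟩ := hG M hM
  refine ⟨z1 + z2 + z3, ?_⟩
  have h1 : ∑ k ∈ Finset.range M, (f k + f (k + 1)) + f 0 + f M =
      2 * ∑ r ∈ Finset.range (M + 1), f r := by
    rw [Finset.sum_add_distrib, two_mul]
    nth_rw 2 [Finset.sum_range_succ']
    rw [Finset.sum_range_succ]
    ring
  rw [← h1, hz1, hz2, hz3]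
  push_cast
  ring

private theorem u3_tri (i M : ℕ) (hi : i ≤ M) :
    2 * ∑ r ∈ Finset.range (M + 1), ((r - i : ℕ) : ℚ) = ((M - i : ℕ) : ℚ) * (((M - i : ℕ) : ℚ) + 1) := by
  obtain ⟨t, rfl⟩ : ∃ t, M = i + t := ⟨M - i, by omega⟩
  clear hi
  induction t with
  | zero =>
    have h1 : ∑ r ∈ Finset.range (i + 0 + 1), ((r - i : ℕ) : ℚ) = 0 := by
      refine Finset.sum_eq_zero fun r hr => ?_
      rw [Finset.mem_range] at hr
      have : r - i = 0 := by omega
      rw [this]
      simp
    rw [h1]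
    simp
  | succ t ih =>
    have e1 : i + (t + 1) + 1 = (i + t + 1) + 1 := by omega
    rw [e1, Finset.sum_range_succ, mul_add, ih]
    have e2 : i + t - i = t := by omega
    have e3 : i + (t + 1) - i = t + 1 := by omega
    have e4 : i + t + 1 - i = t + 1 := by omega
    rw [e2, e3, e4]
    push_cast
    ring

theorem pair_nuf (n : Fin s → ℕ) (hmn : ∀ a, m a ≤ n a) (u : (Σ a, Fin (m a)) → ℕ) :
    (pair (nuf n) u : ℚ) = ∑ a, (2 * ∑ r ∈ Finset.range (m a + 1),
      evq (fun c => (u c : ℚ)) a r + ((n a : ℚ) - m a - 1) * evq (fun c => (u c : ℚ)) a (m a)) := by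
  unfold pair nuf
  push_cast
  rw [Fintype.sum_sigma]
  refine Finset.sum_congr rfl fun a _ => ?_
  unfold evq
  rw [Finset.sum_comm, Finset.mul_sum, Finset.mul_sum, ← Finset.sum_add_distrib]
  refine Finset.sum_congr rfl fun i _ => ?_
  have hi := i.2
  have hmna := hmn a
  rw [← Finset.sum_mul, ← mul_assoc, u3_tri i (m a) hi.le]
  have h1 : ((n a - (i : ℕ) : ℕ) : ℚ) = ((m a - (i : ℕ) : ℕ) : ℚ) + ((n a : ℚ) - m a) := by
    have h2 : n a - (i : ℕ) = (m a - (i : ℕ)) + (n a - m a) := by omega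
    rw [h2, Nat.cast_add, Nat.cast_sub hmna]
  simp only
  rw [h1]
  ring

private theorem u3_minF {ι : Type} [Fintype ι] (B : Finset (ι → ℕ)) (u W : ι → ℕ)
    (h : InFace B u W) : minF B u = pair W u := by
  unfold minF
  refine le_antisymm (Nat.sInf_le ⟨W, h.1, rfl⟩) ?_
  refine le_csInf ⟨pair W u, W, h.1, rfl⟩ ?_
  rintro k ⟨W', hW', rfl⟩
  exact h.2 W' hW'

private theorem u3_face {ι : Type} [Fintype ι] (B : Finset (ι → ℕ)) (u : ι → ℕ)
    (h : 0 < minF B u) : ∃ W, InFace B u W := by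
  have hne : B.Nonempty := by
    by_contra hB
    rw [Finset.not_nonempty_iff_eq_empty] at hB
    have h1 : minF B u = 0 := by
      unfold minF
      rw [hB]
      simp
    omega
  obtain ⟨W, hW, hmin⟩ := Finset.exists_min_image B (fun W => pair W u) hne
  exact ⟨W, hW, hmin⟩

theorem exists_detected (n : Fin s → ℕ) (hmn : ∀ a, m a ≤ n a)
    (A : Finset ((Σ a, Fin (m a)) → ℕ)) (u : (Σ a, Fin (m a)) → ℕ)
    (hu : Ext (AW A) u) (hN : 0 < minF (AW A) u) :
    ∃ u' : (Σ a, Fin (m a)) → ℕ, Ext (AW A) u' ∧ Detected A u' ∧ Prim u' ∧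
      0 < minF (AW A) u' ∧
      ∃ z : ℤ, (pair (nuf n) u : ℤ) * minF (AW A) u' = z * minF (AW A) u := by
  classical
  obtain ⟨u0, hE0, hD0, hN0, hZ0, hF0⟩ := exists_detected_ray A u hu hN
  obtain ⟨W0, hW0⟩ := u3_face (AW A) u hN
  -- divide by the greatest common divisor
  obtain ⟨g, hg⟩ : ∃ g, g = Finset.univ.gcd u0 := ⟨_, rfl⟩
  have hg0 : 0 < g := by
    rcases Nat.eq_zero_or_pos g with h | h
    · exfalso
      rw [hg, Finset.gcd_eq_zero_iff] at h
      exact hE0.1 (funext fun c => h c (Finset.mem_univ c))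
    · exact h
  have hdvd : ∀ c, g ∣ u0 c := by
    intro c
    rw [hg]
    exact Finset.gcd_dvd (Finset.mem_univ c)
  obtain ⟨u', hu'⟩ : ∃ u' : (Σ a, Fin (m a)) → ℕ, u' = fun c => u0 c / g := ⟨_, rfl⟩
  have hu0 : ∀ c, u0 c = g * u' c := by
    intro c
    rw [hu']
    exact (Nat.mul_div_cancel' (hdvd c)).symm
  have hz : ∀ c, u0 c = 0 ↔ u' c = 0 := by
    intro c
    rw [hu0 c]
    constructor
    · intro h
      rcases Nat.mul_eq_zero.mp h with h1 | h1
      · omega
      · exact h1
    · intro h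
      rw [h, mul_zero]
  have hpair : ∀ W, pair W u0 = g * pair W u' := by
    intro W
    unfold pair
    rw [Finset.mul_sum]
    refine Finset.sum_congr rfl fun c _ => ?_
    rw [hu0 c]
    ring
  have hface : ∀ W, InFace (AW A) u0 W ↔ InFace (AW A) u' W := by
    intro W
    unfold InFace
    refine and_congr_right fun _ => forall₂_congr fun W' _ => ?_
    rw [hpair, hpair]
    exact Nat.mul_le_mul_left_iff hg0
  have hfun : u0 = fun c => g * u' c := funext hu0
  have hN' : minF (AW A) u0 = g * minF (AW A) u' := by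
    rw [u3_minF _ _ _ (hF0 W0 hW0), u3_minF _ _ _ ((hface W0).mp (hF0 W0 hW0)), hpair]
  have hNpos : 0 < minF (AW A) u' := by
    rcases Nat.eq_zero_or_pos (minF (AW A) u') with h | h
    · rw [h, mul_zero] at hN'
      omega
    · exact h
  have hVis : ∀ a r, Vis A u0 a r ↔ Vis A u' a r := by
    intro a r
    unfold Vis
    constructor
    · rintro ⟨w, hw, h1, h2⟩
      exact ⟨w, hw, (hface _).mp h1, h2⟩
    · rintro ⟨w, hw, h1, h2⟩
      exact ⟨w, hw, (hface _).mpr h1, h2⟩
  refine ⟨u', ⟨?_, ?_⟩, ?_, ?_, hNpos, ?_⟩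
  · intro h
    apply hE0.1
    rw [hfun, h]
    funext c
    simp
  · intro y hy1 hy2
    obtain ⟨c, hc⟩ := hE0.2 y (fun i hi => hy1 i ((hz i).mp hi))
      (fun W W' h1 h2 => hy2 W W' ((hface W).mp h1) ((hface W').mp h2))
    refine ⟨c * g, fun i => ?_⟩
    rw [hc i, hu0 i]
    push_cast
    ring
  · intro a i h1 h h2
    obtain ⟨r, hr1, hr2, hr3, hr4⟩ := hD0 a i (fun h3 => h1 ((hz _).mp h3)) h ((hz _).mpr h2)
    exact ⟨r, (hVis a r).mp hr1, hr2, hr3, fun k hk1 hk2 => (hz _).mp (hr4 k hk1 hk2)⟩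
  · intro d hd
    have h1 : g * d ∣ g := by
      nth_rw 2 [hg]
      refine Finset.dvd_gcd fun c _ => ?_
      rw [hu0 c]
      exact Nat.mul_dvd_mul_left g (hd c)
    have h2 := Nat.le_of_dvd hg0 h1
    have h3 : d ≤ 1 := by
      by_contra h4
      have h5 : g * 2 ≤ g * d := Nat.mul_le_mul_left g (by omega)
      omega
    have h4 : d ≠ 0 := by
      rintro rfl
      rw [mul_zero] at h1
      have := Nat.eq_zero_of_zero_dvd h1
      omega
    omega
  · obtain ⟨τ, hτ0, hτ1, hτ2⟩ := chord A u hu hN (fun c => (u' c : ℚ))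
      (fun c => Nat.cast_nonneg _)
      (fun a i h1 h2 => by
        have h3 := (hz _).mp (hZ0 a i h1 h2)
        rw [h3]
        simp)
      (fun W W' h1 h2 => by
        have h3 := (hface W).mp (hF0 W h1)
        have h4 := (hface W').mp (hF0 W' h2)
        have h5 : pair W u' = pair W' u' := le_antisymm (h3.2 W' h4.1) (h4.2 W h3.1)
        have h6 : ((pair W u' : ℕ) : ℚ) = ((pair W' u' : ℕ) : ℚ) := by rw [h5]
        unfold pair at h6
        push_cast at h6
        exact h6)
    have hτN : (minF (AW A) u' : ℚ) = τ * minF (AW A) u := by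
      rw [← hτ2 W0 hW0, u3_minF _ _ _ ((hface W0).mp (hF0 W0 hW0))]
      unfold pair
      push_cast
      rfl
    -- integrality
    have hint : ∀ a, ∃ z : ℤ, τ * (2 * ∑ r ∈ Finset.range (m a + 1),
        evq (fun c => (u c : ℚ)) a r + ((n a : ℚ) - m a - 1) *
          evq (fun c => (u c : ℚ)) a (m a)) = z := by
      intro a
      obtain ⟨G, hG⟩ : ∃ G : Set ℕ, G = {r | r ≤ m a ∧ ¬ InUndet A u a r} := ⟨_, rfl⟩
      have hG0 : 0 ∈ G := by
        rw [hG]
        refine ⟨Nat.zero_le _, ?_⟩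
        rintro ⟨i, _, h1, _⟩
        omega
      have hGM : m a ∈ G := by
        rw [hG]
        refine ⟨le_rfl, ?_⟩
        rintro ⟨i, _, _, h1, _⟩
        omega
      have hGz : ∀ r ∈ G, ∃ z : ℤ, τ * evq (fun c => (u c : ℚ)) a r = z := by
        intro r hr
        rw [hG] at hr
        rw [← hτ1 a r hr.1 hr.2, evq_cast u' a r hr.1]
        exact ⟨(ev (part u' a) r : ℤ), by push_cast; rfl⟩
      obtain ⟨z1, hz1⟩ := two_sum_int (fun r => τ * evq (fun c => (u c : ℚ)) a r) G (m a) hG0 hGM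
        hGz (by
          intro r hr1 hr2 hr3
          have hin : InUndet A u a r := by
            by_contra h
            apply hr3
            rw [hG]
            exact ⟨hr2.le, h⟩
          have hur : u ⟨a, ⟨r, hr2⟩⟩ = 0 := by
            obtain ⟨i, _, h1, _, h3⟩ := hin
            exact h3 ⟨r, hr2⟩ h1 le_rfl
          have h2 : evq (fun c => (u c : ℚ)) a (r + 1) + evq (fun c => (u c : ℚ)) a (r - 1) =
              2 * evq (fun c => (u c : ℚ)) a r := by
            unfold evq
            rw [Finset.mul_sum, ← Finset.sum_add_distrib]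
            refine Finset.sum_congr rfl fun i _ => ?_
            by_cases hir : (i : ℕ) = r
            · have h4 : i = ⟨r, hr2⟩ := Fin.ext hir
              simp only
              rw [h4, hur]
              simp
            · have h5 : (r + 1 - (i : ℕ)) + (r - 1 - (i : ℕ)) = 2 * (r - (i : ℕ)) := by omega
              have h6 : ((r + 1 - (i : ℕ) : ℕ) : ℚ) + ((r - 1 - (i : ℕ) : ℕ) : ℚ) =
                  2 * ((r - (i : ℕ) : ℕ) : ℚ) := by exact_mod_cast h5
              rw [← add_mul, h6]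
              ring
          rw [← mul_add, h2]
          ring)
      obtain ⟨z2, hz2⟩ := hGz (m a) hGM
      refine ⟨z1 + ((n a : ℤ) - m a - 1) * z2, ?_⟩
      rw [← Finset.mul_sum] at hz1
      push_cast
      rw [← hz1, ← hz2]
      ring
    choose z hz' using hint
    refine ⟨∑ a, z a, ?_⟩
    have h1 : τ * (pair (nuf n) u : ℚ) = ((∑ a, z a : ℤ) : ℚ) := by
      rw [pair_nuf n hmn u, Finset.mul_sum]
      push_cast
      exact Finset.sum_congr rfl fun a _ => hz' a
    have h2 : ((pair (nuf n) u : ℤ) : ℚ) * (minF (AW A) u' : ℚ) =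
        ((∑ a, z a : ℤ) : ℚ) * (minF (AW A) u : ℚ) := by
      rw [← h1, hτN]
      push_cast
      ring
    exact_mod_cast h2

end MotMono
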