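import Pool.Agent.Lib.MP_4e5fcd_ag.Det.C3

/-! # DET-C3b: stratification by the rank of the constant term -/

open MvPolynomial

namespace MotMono

/-- some `r × r` minor does not vanish -/
def c3b_P (m n : ℕ) (A : Fin m × Fin n → ℂ) (r : ℕ) : Prop :=
  ∃ (S : Fin r → Fin m) (T : Fin r → Fin n), (Matrix.of fun i j => A (S i, T j)).det ≠ 0

theorem c3b_P_zero (m n : ℕ) (A : Fin m × Fin n → ℂ) : c3b_P m n A 0 :=
  ⟨Fin.elim0, Fin.elim0, by rw [Matrix.det_isEmpty]; exact one_ne_zero⟩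

theorem c3b_P_succ (m n : ℕ) (A : Fin m × Fin n → ℂ) (r : ℕ) (h : c3b_P m n A (r + 1)) :
    c3b_P m n A r := by
  by_contra hcon
  obtain ⟨S, T, hST⟩ := h
  apply hST
  rw [Matrix.det_succ_row_zero]
  refine Finset.sum_eq_zero fun j _ => ?_
  have h0 : ((Matrix.of fun i j => A (S i, T j)).submatrix Fin.succ j.succAbove).det = 0 := by
    by_contra hne
    exact hcon ⟨fun i => S i.succ, fun k => T (j.succAbove k), hne⟩
  rw [h0, mul_zero]

theorem c3b_P_anti (m n : ℕ) (A : Fin m × Fin n → ℂ) {r r' : ℕ} (hr : r ≤ r')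
    (h : c3b_P m n A r') : c3b_P m n A r := by
  induction r', hr using Nat.le_induction with
  | base => exact h
  | succ k _ ih => exact ih (c3b_P_succ m n A k h)

theorem c3b_P_le (m n : ℕ) (A : Fin m × Fin n → ℂ) (r : ℕ) (h : c3b_P m n A r) : r ≤ m := by
  obtain ⟨S, T, hST⟩ := h
  have hinj : Function.Injective S := by
    intro i j hij
    by_contra hne
    apply hST
    refine Matrix.det_zero_of_row_eq hne ?_
    funext k
    simp only [Matrix.of_apply, hij]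
  simpa using Fintype.card_le_of_injective S hinj

theorem c3b_mem_iff (m n ρ : ℕ) (A : Fin m × Fin n → ℂ) :
    A ∈ RankSet m n ρ ↔ c3b_P m n A ρ ∧ ¬ c3b_P m n A (ρ + 1) := by
  constructor
  · rintro ⟨h1, h2⟩
    refine ⟨h1, ?_⟩
    rintro ⟨S, T, h⟩
    exact h (h2 S T)
  · rintro ⟨h1, h2⟩
    refine ⟨h1, fun S T => ?_⟩
    by_contra hne
    exact h2 ⟨S, T, hne⟩

theorem cls_rankSet_zero (m n : ℕ) : cls (RankSet m n 0) = 1 := by
  have h : RankSet m n 0 = {0} := by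
    ext A
    rw [c3b_mem_iff, Set.mem_singleton_iff]
    constructor
    · rintro ⟨-, h⟩
      funext c
      by_contra hne
      have h' : ¬ c3b_P m n A 1 := h
      refine h' ⟨fun _ => c.1, fun _ => c.2, ?_⟩
      rw [Matrix.det_fin_one]
      exact hne
    · rintro rfl
      refine ⟨c3b_P_zero m n _, ?_⟩
      show ¬ c3b_P m n 0 1
      rintro ⟨S, T, h⟩
      apply h
      rw [Matrix.det_fin_one]
      rfl
  rw [h, cls_singleton]

/-- every matrix has exactly one rank -/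
theorem exists_unique_rankSet (m n : ℕ) (A : Fin m × Fin n → ℂ) :
    ∃! ρ, ρ ≤ m ∧ A ∈ RankSet m n ρ := by
  classical
  refine ⟨Nat.findGreatest (c3b_P m n A) m, ⟨Nat.findGreatest_le m, ?_⟩, ?_⟩
  · rw [c3b_mem_iff]
    refine ⟨Nat.findGreatest_spec (Nat.zero_le m) (c3b_P_zero m n A), fun h => ?_⟩
    have h1 := c3b_P_le m n A _ h
    have h2 := Nat.le_findGreatest h1 h
    omega
  · rintro ρ ⟨h1, h2⟩
    rw [c3b_mem_iff] at h2
    have h3 := Nat.le_findGreatest h1 h2.1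
    rcases Nat.lt_or_ge ρ (Nat.findGreatest (c3b_P m n A) m) with h | h
    · exfalso
      apply h2.2
      exact c3b_P_anti m n A h (Nat.findGreatest_spec (Nat.zero_le m) (c3b_P_zero m n A))
    · omega

theorem sum_rankSet (m n : ℕ) :
    ∑ ρ ∈ Finset.range (m + 1), cls (RankSet m n ρ) = LL ^ (m * n) := by
  rw [← cls_biUnion (Finset.range (m + 1)) (fun ρ _ => constr_rankSet m n ρ)]
  · have h : (⋃ ρ ∈ Finset.range (m + 1), RankSet m n ρ) = Set.univ := by
      refine Set.eq_univ_of_forall fun A => ?_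
      obtain ⟨ρ, ⟨h1, h2⟩, -⟩ := exists_unique_rankSet m n A
      exact Set.mem_biUnion (Finset.mem_coe.2 (Finset.mem_range.2 (by omega))) h2
    rw [h, cls_univ]
    simp
  · intro i hi j hj hij
    rw [Set.disjoint_left]
    intro A h1 h2
    obtain ⟨ρ, -, h3⟩ := exists_unique_rankSet m n A
    have e1 := h3 i ⟨by have := Finset.mem_range.1 hi; omega, h1⟩
    have e2 := h3 j ⟨by have := Finset.mem_range.1 hj; omega, h2⟩
    exact hij (e1.trans e2.symm)

theorem c3b_constr_first {σ : Type} {K : ℕ} (E : Set (σ → ℂ)) (hE : Constr E)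
    (P : Fin K → (σ → ℂ) → Prop) (hP : ∀ p, Constr {x | P p x}) (p : Fin K) :
    Constr {x | x ∈ E ∧ P p x ∧ ∀ p' < p, ¬ P p' x} := by
  classical
  have h1 : ∀ p' : Fin K, Constr (if p' < p then {x : σ → ℂ | P p' x}ᶜ else Set.univ) := by
    intro p'
    by_cases h : p' < p
    · rw [if_pos h]
      exact (hP p').compl
    · rw [if_neg h]
      exact constr_univ
  have h2 := hE.inter ((hP p).inter (constr_iInter h1))
  have e : {x | x ∈ E ∧ P p x ∧ ∀ p' < p, ¬ P p' x}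
      = E ∩ ({x | P p x} ∩ ⋂ p' : Fin K, (if p' < p then {x : σ → ℂ | P p' x}ᶜ else Set.univ)) := by
    ext x
    constructor
    · rintro ⟨h3, h4, h5⟩
      refine ⟨h3, h4, ?_⟩
      rw [Set.mem_iInter]
      intro p'
      by_cases h : p' < p
      · rw [if_pos h]
        exact h5 p' h
      · rw [if_neg h]
        exact Set.mem_univ _
    · rintro ⟨h3, h4, h5⟩
      refine ⟨h3, h4, fun p' h => ?_⟩
      rw [Set.mem_iInter] at h5
      have h6 := h5 p'
      rw [if_pos h] at h6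
      exact h6
  rw [e]
  exact h2

/-- partition of a constructible set by the first non-vanishing member of a family -/
theorem cls_first {σ τ : Type} [Finite σ] [Finite τ] {K : ℕ} (π : (τ → ℂ) → (σ → ℂ))
    (hπ : ∀ E : Set (σ → ℂ), Constr E → Constr (π ⁻¹' E)) (E : Set (σ → ℂ)) (hE : Constr E)
    (P : Fin K → (σ → ℂ) → Prop) (hP : ∀ p, Constr {x | P p x}) (hEP : ∀ x ∈ E, ∃ p, P p x)
    (F : Set (τ → ℂ)) (hF : Constr F) (hFE : ∀ y ∈ F, π y ∈ E) :
    cls F = ∑ p, cls (F ∩ π ⁻¹' {x | x ∈ E ∧ P p x ∧ ∀ p' < p, ¬ P p' x}) := by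
  rw [← cls_biUnion Finset.univ
    (fun p _ => hF.inter (hπ _ (c3b_constr_first E hE P hP p)))]
  · congr 1
    ext y
    constructor
    · intro hy
      obtain ⟨p0, hp0⟩ := hEP _ (hFE y hy)
      obtain ⟨p, hp, hmin⟩ := WellFounded.has_min (wellFounded_lt : WellFounded
        ((· < ·) : Fin K → Fin K → Prop)) {p | P p (π y)} ⟨p0, hp0⟩
      refine Set.mem_biUnion (Finset.mem_coe.2 (Finset.mem_univ p)) ⟨hy, hFE y hy, hp, ?_⟩
      intro p' h1 h2
      exact hmin p' h2 h1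
    · intro hy
      rw [Set.mem_iUnion₂] at hy
      obtain ⟨p, -, h⟩ := hy
      exact h.1
  · intro i _ j _ hij
    rw [Set.disjoint_left]
    rintro y ⟨-, -, h1, h2⟩ ⟨-, -, h3, h4⟩
    rcases lt_or_gt_of_ne hij with h | h
    · exact h4 i h h1
    · exact h2 j h h3

theorem c3b_constr_minor {m n ρ : ℕ} (S : Fin ρ → Fin m) (T : Fin ρ → Fin n) :
    Constr {x : Fin m × Fin n → ℂ | (Matrix.of fun i j => x (S i, T j)).det ≠ 0} := by
  have h := constr_ne ((Matrix.of fun i j => (X (S i, T j) : MvPolynomial (Fin m × Fin n) ℂ)).det)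
  have e : ∀ x : Fin m × Fin n → ℂ,
      eval x ((Matrix.of fun i j => (X (S i, T j) : MvPolynomial (Fin m × Fin n) ℂ)).det)
        = (Matrix.of fun i j => x (S i, T j)).det := by
    intro x
    rw [RingHom.map_det]
    congr 1
    ext i j
    simp
  simpa only [e] using h

theorem cls_SP_succ (m n L : ℕ) (hmn : m ≤ n) (Φ : (ℕ → ℕ) → Prop) :
    cls (SP m n (L + 1) Φ) = ∑ ρ ∈ Finset.range (m + 1),
      cls (RankSet m n ρ) * LL ^ ((m * n - (m - ρ) * (n - ρ)) * L) *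
        cls (SP (m - ρ) (n - ρ) L fun E => Φ (shiftE ρ (L + 1) E)) := by
  set π : ((Fin m × Fin n) × Fin (L + 1) → ℂ) → (Fin m × Fin n → ℂ) :=
    fun γ c => γ (c, 0) with hπdef
  have hπ : ∀ E : Set (Fin m × Fin n → ℂ), Constr E → Constr (π ⁻¹' E) := fun E hE =>
    hE.comp (fun c => (c, (0 : Fin (L + 1))))
  have hcon : ∀ ρ, Constr (SP m n (L + 1) Φ ∩ π ⁻¹' RankSet m n ρ) := fun ρ =>
    (constr_SP m n (L + 1) Φ).inter (hπ _ (constr_rankSet m n ρ))
  have hun : SP m n (L + 1) Φ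
      = ⋃ ρ ∈ Finset.range (m + 1), (SP m n (L + 1) Φ ∩ π ⁻¹' RankSet m n ρ) := by
    ext γ
    constructor
    · intro h
      obtain ⟨ρ, ⟨h1, h2⟩, -⟩ := exists_unique_rankSet m n (π γ)
      exact Set.mem_biUnion (Finset.mem_coe.2 (Finset.mem_range.2 (by omega))) ⟨h, h2⟩
    · intro h
      rw [Set.mem_iUnion₂] at h
      obtain ⟨ρ, -, h⟩ := h
      exact h.1
  have h1 : cls (SP m n (L + 1) Φ)
      = ∑ ρ ∈ Finset.range (m + 1), cls (SP m n (L + 1) Φ ∩ π ⁻¹' RankSet m n ρ) := by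
    conv_lhs => rw [hun]
    refine cls_biUnion (Finset.range (m + 1)) (fun ρ _ => hcon ρ) ?_
    intro i hi j hj hij
    rw [Set.disjoint_left]
    rintro γ ⟨-, h1⟩ ⟨-, h2⟩
    obtain ⟨ρ, -, h3⟩ := exists_unique_rankSet m n (π γ)
    have e1 := h3 i ⟨by have := Finset.mem_range.1 hi; omega, h1⟩
    have e2 := h3 j ⟨by have := Finset.mem_range.1 hj; omega, h2⟩
    exact hij (e1.trans e2.symm)
  rw [h1]
  refine Finset.sum_congr rfl fun ρ hρ => ?_
  have hρm : ρ ≤ m := by have := Finset.mem_range.1 hρ; omega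
  -- enumeration of the minors
  set K : ℕ := Fintype.card ((Fin ρ → Fin m) × (Fin ρ → Fin n)) with hK
  let e : ((Fin ρ → Fin m) × (Fin ρ → Fin n)) ≃ Fin K := Fintype.equivFin _
  set P : Fin K → (Fin m × Fin n → ℂ) → Prop := fun p x =>
    (Matrix.of fun i j => x ((e.symm p).1 i, (e.symm p).2 j)).det ≠ 0 with hP
  have hPc : ∀ p, Constr {x | P p x} := fun p => c3b_constr_minor _ _
  have hEP : ∀ x ∈ RankSet m n ρ, ∃ p, P p x := by
    intro x hx
    rw [c3b_mem_iff] at hx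
    obtain ⟨⟨S, T, h⟩, -⟩ := hx
    refine ⟨e (S, T), ?_⟩
    rw [hP]
    simp only [Equiv.symm_apply_apply]
    exact h
  have hE := constr_rankSet m n ρ
  have h2 := cls_first π hπ (RankSet m n ρ) hE P hPc hEP (SP m n (L + 1) Φ ∩ π ⁻¹' RankSet m n ρ)
    (hcon ρ) (fun y hy => hy.2)
  have h3 := cls_first (fun x : Fin m × Fin n → ℂ => x) (fun E hE => hE) (RankSet m n ρ) hE P hPc
    hEP (RankSet m n ρ) hE (fun y hy => hy)
  rw [h2, h3, Finset.sum_mul, Finset.sum_mul]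
  refine Finset.sum_congr rfl fun p _ => ?_
  have hQ := c3b_constr_first (RankSet m n ρ) hE P hPc p
  have e3 : RankSet m n ρ ∩ (fun x : Fin m × Fin n → ℂ => x) ⁻¹'
      {x | x ∈ RankSet m n ρ ∧ P p x ∧ ∀ p' < p, ¬ P p' x}
        = {x | x ∈ RankSet m n ρ ∧ P p x ∧ ∀ p' < p, ¬ P p' x} := by
    ext x
    exact ⟨fun h => h.2, fun h => ⟨h.1, h⟩⟩
  have e2 : (SP m n (L + 1) Φ ∩ π ⁻¹' RankSet m n ρ) ∩
      π ⁻¹' {x | x ∈ RankSet m n ρ ∧ P p x ∧ ∀ p' < p, ¬ P p' x}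
        = {γ : (Fin m × Fin n) × Fin (L + 1) → ℂ |
            (fun c => γ (c, 0)) ∈ {x | x ∈ RankSet m n ρ ∧ P p x ∧ ∀ p' < p, ¬ P p' x} ∧
              Φ (et (L + 1) (mser γ))} := by
    ext γ
    constructor
    · rintro ⟨⟨h4, -⟩, h5⟩
      exact ⟨h5, h4⟩
    · rintro ⟨h4, h5⟩
      exact ⟨⟨h5, h4.1⟩, h4⟩
  rw [e2, e3]
  exact cls_piece m n ρ L hρm hmn (e.symm p).1 (e.symm p).2 _ hQ (fun x hx => hx.1)
    (fun x hx => hx.2.1) Φ

end MotMono
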