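import Pool.Agent.Lib.MP_4e5fcd_ag.K2
import Pool.Agent.Lib.MP_4e5fcd_ag.Det.C1

/-! # DET-C2: elimination of an invertible block in families -/

open MvPolynomial

namespace MotMono

/-- index type of the coordinates outside of the last block -/
abbrev C2_J (ρ m' n' : ℕ) : Type := (Fin ρ × (Fin ρ ⊕ Fin n')) ⊕ (Fin m' × Fin ρ)

variable {ρ m' n' L : ℕ}

/-- `C A⁻¹ B` -/
noncomputable def c2_S (M : Matrix (Fin ρ ⊕ Fin m') (Fin ρ ⊕ Fin n') (PowerSeries ℂ)) :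
    Matrix (Fin m') (Fin n') (PowerSeries ℂ) :=
  M.toBlocks₂₁ * M.toBlocks₁₁⁻¹ * M.toBlocks₁₂

theorem c2_S_congr (M M' : Matrix (Fin ρ ⊕ Fin m') (Fin ρ ⊕ Fin n') (PowerSeries ℂ))
    (h1 : ∀ i k, M (Sum.inl i) k = M' (Sum.inl i) k)
    (h2 : ∀ i k, M (Sum.inr i) (Sum.inl k) = M' (Sum.inr i) (Sum.inl k)) : c2_S M = c2_S M' := by
  have e1 : M.toBlocks₂₁ = M'.toBlocks₂₁ := by
    ext1 i k
    exact h2 i k
  have e2 : M.toBlocks₁₁ = M'.toBlocks₁₁ := by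
    ext1 i k
    exact h1 i (Sum.inl k)
  have e3 : M.toBlocks₁₂ = M'.toBlocks₁₂ := by
    ext1 i k
    exact h1 i (Sum.inr k)
  unfold c2_S
  rw [e1, e2, e3]

theorem c2_regSer_S {σ : Type} {E : Set (σ → ℂ)}
    {M : (σ → ℂ) → Matrix (Fin ρ ⊕ Fin m') (Fin ρ ⊕ Fin n') (PowerSeries ℂ)}
    (hM : ∀ i k, RegSer E fun x => M x i k) (h0 : ∀ x ∈ E, IsUnit (M x).toBlocks₁₁.det)
    (i : Fin m') (k : Fin n') : RegSer E fun x => c2_S (M x) i k := by
  have hinv : ∀ a b, RegSer E fun x => (M x).toBlocks₁₁⁻¹ a b := fun a b =>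
    regSer_matInv (M := fun x => (M x).toBlocks₁₁) (fun i k => hM (Sum.inl i) (Sum.inl k)) h0 a b
  have e : (fun x => c2_S (M x) i k) = fun x => ∑ b, (∑ a, M x (Sum.inr i) (Sum.inl a) *
      (M x).toBlocks₁₁⁻¹ a b) * M x (Sum.inl b) (Sum.inr k) := by
    funext x
    unfold c2_S
    rw [Matrix.mul_apply]
    refine Finset.sum_congr rfl fun b _ => ?_
    rw [Matrix.mul_apply]
    rfl
  rw [e]
  refine regSer_sum _ fun b _ => RegSer.mul (regSer_sum _ fun a _ => ?_) (hM _ _)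
  exact (hM _ _).mul (hinv a b)

theorem c2_coeff_mser {ι κ : Type} (γ : (ι × κ) × Fin (L + 1) → ℂ) (i : ι) (k : κ) (l : Fin L) :
    PowerSeries.coeff ((l : ℕ) + 1) (mser γ i k) = γ ((i, k), l.succ) := by
  unfold mser
  rw [PowerSeries.coeff_mk, dif_pos (by have := l.2; omega)]
  rfl

theorem c2_coeff0_mser {ι κ : Type} (γ : (ι × κ) × Fin (L + 1) → ℂ) (i : ι) (k : κ) :
    PowerSeries.constantCoeff (mser γ i k) = γ ((i, k), 0) := by
  rw [← PowerSeries.coeff_zero_eq_constantCoeff_apply]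
  unfold mser
  rw [PowerSeries.coeff_mk, dif_pos (Nat.succ_pos L)]
  rfl

/-- the constant term of the first block -/
theorem c2_isUnit (γ : ((Fin ρ ⊕ Fin m') × (Fin ρ ⊕ Fin n')) × Fin (L + 1) → ℂ)
    (h : (Matrix.of fun i k => (fun c => γ (c, 0)) (i, k)).toBlocks₁₁.det ≠ 0) :
    IsUnit (mser γ).toBlocks₁₁.det := by
  rw [PowerSeries.isUnit_iff_constantCoeff, isUnit_iff_ne_zero, RingHom.map_det]
  have e : (PowerSeries.constantCoeff (R := ℂ)).mapMatrix (mser γ).toBlocks₁₁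
      = (Matrix.of fun i k => (fun c => γ (c, 0)) (i, k)).toBlocks₁₁ := by
    ext i k
    rw [RingHom.mapMatrix_apply, Matrix.map_apply]
    exact c2_coeff0_mser γ _ _
  rw [e]
  exact h

/-- constant term of `C A⁻¹ B` -/
theorem c2_S_const (γ : ((Fin ρ ⊕ Fin m') × (Fin ρ ⊕ Fin n')) × Fin (L + 1) → ℂ)
    (h : (Matrix.of fun i k => (fun c => γ (c, 0)) (i, k)).toBlocks₁₁.det ≠ 0) (i : Fin m')
    (k : Fin n') : PowerSeries.constantCoeff (c2_S (mser γ) i k) =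
      ((Matrix.of fun i k => (fun c => γ (c, 0)) (i, k)).toBlocks₂₁ *
        (Matrix.of fun i k => (fun c => γ (c, 0)) (i, k)).toBlocks₁₁⁻¹ *
          (Matrix.of fun i k => (fun c => γ (c, 0)) (i, k)).toBlocks₁₂) i k := by
  set φ := PowerSeries.constantCoeff (R := ℂ) with hφ
  set G := Matrix.of fun i k => (fun c => γ (c, (0 : Fin (L + 1)))) (i, k) with hG
  have e11 : φ.mapMatrix (mser γ).toBlocks₁₁ = G.toBlocks₁₁ := by
    ext i k
    rw [RingHom.mapMatrix_apply, Matrix.map_apply]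
    exact c2_coeff0_mser γ _ _
  have hu := c2_isUnit γ h
  have einv : φ.mapMatrix (mser γ).toBlocks₁₁⁻¹ = G.toBlocks₁₁⁻¹ := by
    refine (Matrix.inv_eq_right_inv ?_).symm
    rw [← e11, ← map_mul, Matrix.mul_nonsing_inv _ hu, map_one]
  unfold c2_S
  rw [Matrix.mul_apply, Matrix.mul_apply, map_sum]
  refine Finset.sum_congr rfl fun b _ => ?_
  rw [map_mul, Matrix.mul_apply, Matrix.mul_apply, map_sum]
  have e12 : φ ((mser γ).toBlocks₁₂ b k) = G.toBlocks₁₂ b k := c2_coeff0_mser γ _ _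
  rw [e12]
  congr 1
  refine Finset.sum_congr rfl fun a _ => ?_
  rw [map_mul]
  have e21 : φ ((mser γ).toBlocks₂₁ i a) = G.toBlocks₂₁ i a := c2_coeff0_mser γ _ _
  have e4 : φ ((mser γ).toBlocks₁₁⁻¹ a b) = G.toBlocks₁₁⁻¹ a b := by
    rw [← einv]
    rfl
  rw [e21, e4]

/-- orders of the minors after elimination -/
theorem c2_et (γ : ((Fin ρ ⊕ Fin m') × (Fin ρ ⊕ Fin n')) × Fin (L + 1) → ℂ)
    (h1 : (Matrix.of fun i k => (fun c => γ (c, 0)) (i, k)).toBlocks₁₁.det ≠ 0)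
    (h2 : (Matrix.of fun i k => (fun c => γ (c, 0)) (i, k)).toBlocks₂₂ -
      (Matrix.of fun i k => (fun c => γ (c, 0)) (i, k)).toBlocks₂₁ *
        (Matrix.of fun i k => (fun c => γ (c, 0)) (i, k)).toBlocks₁₁⁻¹ *
          (Matrix.of fun i k => (fun c => γ (c, 0)) (i, k)).toBlocks₁₂ = 0)
    (d : (Fin m' × Fin n') × Fin L → ℂ)
    (hd : ∀ i k l, d ((i, k), l) = PowerSeries.coeff ((l : ℕ) + 1)
      (mser γ (Sum.inr i) (Sum.inr k) - c2_S (mser γ) i k)) :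
    et (L + 1) (mser γ) = shiftE ρ (L + 1) (et L (mser d)) := by
  set M := mser γ with hM
  set D' : Matrix (Fin m') (Fin n') (PowerSeries ℂ) := fun i k => PowerSeries.mk fun l =>
    PowerSeries.coeff (l + 1) (M (Sum.inr i) (Sum.inr k) - c2_S M i k) with hD'
  have hX : M.toBlocks₂₂ - M.toBlocks₂₁ * M.toBlocks₁₁⁻¹ * M.toBlocks₁₂ =
      (PowerSeries.X : PowerSeries ℂ) • D' := by
    ext1 i k
    have e0 : (M.toBlocks₂₂ - M.toBlocks₂₁ * M.toBlocks₁₁⁻¹ * M.toBlocks₁₂) i k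
        = M (Sum.inr i) (Sum.inr k) - c2_S M i k := rfl
    rw [e0, Matrix.smul_apply, smul_eq_mul]
    ext l
    rcases l with _ | l
    · rw [PowerSeries.coeff_zero_X_mul, PowerSeries.coeff_zero_eq_constantCoeff_apply, map_sub,
        c2_S_const γ h1 i k, hM, c2_coeff0_mser]
      have := congrFun (congrFun h2 i) k
      exact this
    · rw [PowerSeries.coeff_succ_X_mul, hD']
      rw [PowerSeries.coeff_mk]
  rw [et_block M (c2_isUnit γ h1) D' hX L]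
  congr 1
  refine et_congr L D' (mser d) fun i k => ?_
  rw [PowerSeries.X_pow_dvd_iff]
  intro l hl
  rw [map_sub, hD']
  unfold mser
  rw [PowerSeries.coeff_mk, PowerSeries.coeff_mk, dif_pos hl, hd i k ⟨l, hl⟩]
  simp [hM]

/-- assembling a jet -/
def c2_asm (a : (Fin ρ ⊕ Fin m') × (Fin ρ ⊕ Fin n') → ℂ) (b : C2_J ρ m' n' × Fin L → ℂ)
    (d : (Fin m' × Fin n') × Fin L → ℂ) :
    ((Fin ρ ⊕ Fin m') × (Fin ρ ⊕ Fin n')) × Fin (L + 1) → ℂ :=
  fun c => Fin.cases (a c.1) (fun l => match c.1 with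
    | (Sum.inl i, k) => b (Sum.inl (i, k), l)
    | (Sum.inr i, Sum.inl k) => b (Sum.inr (i, k), l)
    | (Sum.inr i, Sum.inr k) => d ((i, k), l)) c.2

/-- the coordinates of a jet outside of the last block -/
def c2_b (γ : ((Fin ρ ⊕ Fin m') × (Fin ρ ⊕ Fin n')) × Fin (L + 1) → ℂ) :
    C2_J ρ m' n' × Fin L → ℂ :=
  fun p => match p.1 with
    | Sum.inl (i, k) => γ ((Sum.inl i, k), p.2.succ)
    | Sum.inr (i, k) => γ ((Sum.inr i, Sum.inl k), p.2.succ)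

theorem c2_asm_zero (a : (Fin ρ ⊕ Fin m') × (Fin ρ ⊕ Fin n') → ℂ) (b : C2_J ρ m' n' × Fin L → ℂ)
    (d : (Fin m' × Fin n') × Fin L → ℂ) (c) : c2_asm a b d (c, 0) = a c := rfl

theorem c2_asm_inl (a : (Fin ρ ⊕ Fin m') × (Fin ρ ⊕ Fin n') → ℂ) (b : C2_J ρ m' n' × Fin L → ℂ)
    (d : (Fin m' × Fin n') × Fin L → ℂ) (i k l) :
    c2_asm a b d ((Sum.inl i, k), l.succ) = b (Sum.inl (i, k), l) := rfl

theorem c2_asm_inrl (a : (Fin ρ ⊕ Fin m') × (Fin ρ ⊕ Fin n') → ℂ) (b : C2_J ρ m' n' × Fin L → ℂ)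
    (d : (Fin m' × Fin n') × Fin L → ℂ) (i k l) :
    c2_asm a b d ((Sum.inr i, Sum.inl k), l.succ) = b (Sum.inr (i, k), l) := rfl

theorem c2_asm_inrr (a : (Fin ρ ⊕ Fin m') × (Fin ρ ⊕ Fin n') → ℂ) (b : C2_J ρ m' n' × Fin L → ℂ)
    (d : (Fin m' × Fin n') × Fin L → ℂ) (i k l) :
    c2_asm a b d ((Sum.inr i, Sum.inr k), l.succ) = d ((i, k), l) := rfl

theorem c2_mser_eq {ι κ : Type} (γ γ' : (ι × κ) × Fin (L + 1) → ℂ) (i : ι) (k : κ)
    (h0 : γ ((i, k), 0) = γ' ((i, k), 0)) (h : ∀ l : Fin L, γ ((i, k), l.succ) = γ' ((i, k), l.succ)) :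
    mser γ i k = mser γ' i k := by
  unfold mser
  ext l
  rw [PowerSeries.coeff_mk, PowerSeries.coeff_mk]
  by_cases hl : l < L + 1
  · rw [dif_pos hl, dif_pos hl]
    rcases l with _ | l
    · exact h0
    · exact h ⟨l, by omega⟩
  · rw [dif_neg hl, dif_neg hl]

/-- `C A⁻¹ B` does not depend on the last block -/
theorem c2_S_asm (a : (Fin ρ ⊕ Fin m') × (Fin ρ ⊕ Fin n') → ℂ) (b : C2_J ρ m' n' × Fin L → ℂ)
    (d d' : (Fin m' × Fin n') × Fin L → ℂ) :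
    c2_S (mser (c2_asm a b d)) = c2_S (mser (c2_asm a b d')) := by
  refine c2_S_congr _ _ (fun i k => c2_mser_eq _ _ _ _ rfl fun l => rfl)
    (fun i k => c2_mser_eq _ _ _ _ rfl fun l => rfl)

theorem c2_asm_self (γ : ((Fin ρ ⊕ Fin m') × (Fin ρ ⊕ Fin n')) × Fin (L + 1) → ℂ)
    (d : (Fin m' × Fin n') × Fin L → ℂ)
    (hd : ∀ i k l, d ((i, k), l) = γ ((Sum.inr i, Sum.inr k), l.succ)) :
    c2_asm (fun c => γ (c, 0)) (c2_b γ) d = γ := by
  funext c
  obtain ⟨⟨i, k⟩, l⟩ := c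
  refine Fin.cases ?_ (fun l => ?_) l
  · rfl
  · rcases i with i | i
    · rfl
    · rcases k with k | k
      · rfl
      · exact hd i k l

theorem cls_block (ρ m' n' L : ℕ) (Q : Set ((Fin ρ ⊕ Fin m') × (Fin ρ ⊕ Fin n') → ℂ))
    (hQ : Constr Q)
    (hQ1 : ∀ A ∈ Q, (Matrix.of fun i k => A (i, k)).toBlocks₁₁.det ≠ 0 ∧
      (Matrix.of fun i k => A (i, k)).toBlocks₂₂ - (Matrix.of fun i k => A (i, k)).toBlocks₂₁ *
        (Matrix.of fun i k => A (i, k)).toBlocks₁₁⁻¹ *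
          (Matrix.of fun i k => A (i, k)).toBlocks₁₂ = 0)
    (Φ : (ℕ → ℕ) → Prop) :
    cls {γ : ((Fin ρ ⊕ Fin m') × (Fin ρ ⊕ Fin n')) × Fin (L + 1) → ℂ |
        (fun c => γ (c, 0)) ∈ Q ∧ Φ (et (L + 1) (mser γ))} =
      cls Q * LL ^ (((ρ + m') * (ρ + n') - m' * n') * L) *
        cls (SP m' n' L fun E => Φ (shiftE ρ (L + 1) E)) := by
  set A : Set (((Fin ρ ⊕ Fin m') × (Fin ρ ⊕ Fin n')) × Fin (L + 1) → ℂ) :=
    {γ | (fun c => γ (c, 0)) ∈ Q ∧ Φ (et (L + 1) (mser γ))} with hA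
  set T := prodSet Q (prodSet (Set.univ : Set (C2_J ρ m' n' × Fin L → ℂ))
    (SP m' n' L fun E => Φ (shiftE ρ (L + 1) E))) with hT
  have cA : Constr A := (hQ.comp (fun c => (c, (0 : Fin (L + 1))))).inter (constr_et (L + 1) Φ)
  have cSP := constr_SP m' n' L fun E => Φ (shiftE ρ (L + 1) E)
  have cT : Constr T := hQ.prodSet (constr_univ.prodSet cSP)
  -- the class of the product
  have hclT : cls T = cls Q * LL ^ (((ρ + m') * (ρ + n') - m' * n') * L) *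
        cls (SP m' n' L fun E => Φ (shiftE ρ (L + 1) E)) := by
    rw [hT, cls_prodSet hQ (constr_univ.prodSet cSP), cls_prodSet constr_univ cSP, cls_univ,
      ← mul_assoc]
    congr 3
    have e1 : (ρ + m') * (ρ + n') - m' * n' = ρ * (ρ + n') + m' * ρ := by
      have : (ρ + m') * (ρ + n') = ρ * (ρ + n') + m' * ρ + m' * n' := by ring
      omega
    rw [e1]
    simp only [Fintype.card_prod, Fintype.card_sum, Fintype.card_fin]
  rw [← hclT]
  refine cls_iso cA cT ?_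
  -- the first block is invertible
  have hunit : ∀ γ : ((Fin ρ ⊕ Fin m') × (Fin ρ ⊕ Fin n')) × Fin (L + 1) → ℂ,
      (fun c => γ (c, 0)) ∈ Q → IsUnit (mser γ).toBlocks₁₁.det := fun γ hγ =>
    c2_isUnit γ (hQ1 _ hγ).1
  -- the maps
  set f : (((Fin ρ ⊕ Fin m') × (Fin ρ ⊕ Fin n')) × Fin (L + 1) → ℂ) →
      ((Fin ρ ⊕ Fin m') × (Fin ρ ⊕ Fin n') ⊕
        (C2_J ρ m' n' × Fin L ⊕ (Fin m' × Fin n') × Fin L) → ℂ) := fun γ =>
    Sum.elim (fun c => γ (c, 0)) (Sum.elim (c2_b γ) fun p => PowerSeries.coeff ((p.2 : ℕ) + 1)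
      (mser γ (Sum.inr p.1.1) (Sum.inr p.1.2) - c2_S (mser γ) p.1.1 p.1.2)) with hf
  set g0 : ((Fin ρ ⊕ Fin m') × (Fin ρ ⊕ Fin n') ⊕
        (C2_J ρ m' n' × Fin L ⊕ (Fin m' × Fin n') × Fin L) → ℂ) →
      (((Fin ρ ⊕ Fin m') × (Fin ρ ⊕ Fin n')) × Fin (L + 1) → ℂ) := fun z =>
    c2_asm (fun c => z (Sum.inl c)) (fun p => z (Sum.inr (Sum.inl p))) fun _ => 0 with hg0
  set g : ((Fin ρ ⊕ Fin m') × (Fin ρ ⊕ Fin n') ⊕
        (C2_J ρ m' n' × Fin L ⊕ (Fin m' × Fin n') × Fin L) → ℂ) →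
      (((Fin ρ ⊕ Fin m') × (Fin ρ ⊕ Fin n')) × Fin (L + 1) → ℂ) := fun z =>
    c2_asm (fun c => z (Sum.inl c)) (fun p => z (Sum.inr (Sum.inl p))) fun p =>
      z (Sum.inr (Sum.inr p)) +
        PowerSeries.coeff ((p.2 : ℕ) + 1) (c2_S (mser (g0 z)) p.1.1 p.1.2) with hg
  have hSg : ∀ z, c2_S (mser (g z)) = c2_S (mser (g0 z)) := fun z => c2_S_asm _ _ _ _
  -- the last block of `g z`
  have hschur : ∀ z i k (l : Fin L), z (Sum.inr (Sum.inr ((i, k), l)))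
      = PowerSeries.coeff ((l : ℕ) + 1)
        (mser (g z) (Sum.inr i) (Sum.inr k) - c2_S (mser (g z)) i k) := by
    intro z i k l
    rw [map_sub, c2_coeff_mser, hSg z]
    have : g z ((Sum.inr i, Sum.inr k), l.succ) = z (Sum.inr (Sum.inr ((i, k), l))) +
        PowerSeries.coeff ((l : ℕ) + 1) (c2_S (mser (g0 z)) i k) := rfl
    rw [this]
    ring
  refine ⟨f, g, ?_, ?_, ?_, ?_, ?_, ?_⟩
  · -- `f` is regular
    have hreg := fun i k => c2_regSer_S (E := A) (M := fun γ => mser γ)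
      (fun i k => regSer_mser A i k) (fun γ hγ => hunit γ hγ.1) i k
    intro j
    rcases j with c | p | p
    · exact regFun_coord A (c, 0)
    · obtain ⟨c, l⟩ := p
      rcases c with ⟨i, k⟩ | ⟨i, k⟩
      · exact regFun_coord A ((Sum.inl i, k), l.succ)
      · exact regFun_coord A ((Sum.inr i, Sum.inl k), l.succ)
    · obtain ⟨⟨i, k⟩, l⟩ := p
      exact ((regSer_mser A (Sum.inr i) (Sum.inr k)).sub (hreg i k)) ((l : ℕ) + 1)
  · -- `g` is regular
    have hg0r : ∀ c, RegFun T fun z => g0 z c := by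
      rintro ⟨⟨i, k⟩, l⟩
      refine Fin.cases ?_ (fun l => ?_) l
      · exact regFun_coord T (Sum.inl (i, k))
      · rcases i with i | i
        · exact regFun_coord T (Sum.inr (Sum.inl (Sum.inl (i, k), l)))
        · rcases k with k | k
          · exact regFun_coord T (Sum.inr (Sum.inl (Sum.inr (i, k), l)))
          · exact regFun_const T 0
    have hg0s : ∀ i k, RegSer T fun z => mser (g0 z) i k := by
      intro i k l
      unfold mser
      simp only [PowerSeries.coeff_mk]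
      by_cases hl : l < L + 1
      · simp only [dif_pos hl]
        exact hg0r _
      · simp only [dif_neg hl]
        exact regFun_const T 0
    have hreg := fun i k => c2_regSer_S (E := T) (M := fun z => mser (g0 z)) hg0s
      (fun z hz => hunit (g0 z) hz.1) i k
    rintro ⟨⟨i, k⟩, l⟩
    refine Fin.cases ?_ (fun l => ?_) l
    · exact regFun_coord T (Sum.inl (i, k))
    · rcases i with i | i
      · exact regFun_coord T (Sum.inr (Sum.inl (Sum.inl (i, k), l)))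
      · rcases k with k | k
        · exact regFun_coord T (Sum.inr (Sum.inl (Sum.inr (i, k), l)))
        · exact (regFun_coord T (Sum.inr (Sum.inr ((i, k), l)))).add (hreg i k ((l : ℕ) + 1))
  · -- `f` maps `A` to `T`
    intro γ hγ
    refine ⟨hγ.1, Set.mem_univ _, ?_⟩
    have h3 := c2_et γ (hQ1 _ hγ.1).1 (hQ1 _ hγ.1).2 (fun j => f γ (Sum.inr (Sum.inr j)))
      (fun i k l => rfl)
    show Φ (shiftE ρ (L + 1) (et L (mser fun j => f γ (Sum.inr (Sum.inr j)))))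
    rw [← h3]
    exact hγ.2
  · -- `g` maps `T` to `A`
    intro z hz
    have h4 : (fun c => g z (c, 0)) ∈ Q := hz.1
    refine ⟨h4, ?_⟩
    have h3 := c2_et (g z) (hQ1 _ h4).1 (hQ1 _ h4).2 (fun j => z (Sum.inr (Sum.inr j)))
      (fun i k l => hschur z i k l)
    rw [h3]
    exact hz.2.2
  · -- `g (f γ) = γ`
    intro γ hγ
    have e0 : g0 (f γ) = c2_asm (fun c => γ (c, 0)) (c2_b γ) fun _ => 0 := rfl
    have e1 : c2_S (mser (g0 (f γ))) = c2_S (mser γ) := by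
      rw [e0]
      conv_rhs => rw [← c2_asm_self γ (fun p => γ ((Sum.inr p.1.1, Sum.inr p.1.2), p.2.succ))
        (fun _ _ _ => rfl)]
      exact c2_S_asm _ _ _ _
    show c2_asm (fun c => γ (c, 0)) (c2_b γ) (fun p => f γ (Sum.inr (Sum.inr p)) +
        PowerSeries.coeff ((p.2 : ℕ) + 1) (c2_S (mser (g0 (f γ))) p.1.1 p.1.2)) = γ
    refine c2_asm_self γ _ fun i k l => ?_
    rw [e1]
    have e2 : f γ (Sum.inr (Sum.inr ((i, k), l))) = PowerSeries.coeff ((l : ℕ) + 1)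
      (mser γ (Sum.inr i) (Sum.inr k) - c2_S (mser γ) i k) := rfl
    simp only []
    rw [e2, map_sub, c2_coeff_mser]
    ring
  · -- `f (g z) = z`
    intro z hz
    funext j
    rcases j with c | p | p
    · rfl
    · obtain ⟨c, l⟩ := p
      rcases c with ⟨i, k⟩ | ⟨i, k⟩
      · rfl
      · rfl
    · obtain ⟨⟨i, k⟩, l⟩ := p
      exact (hschur z i k l).symm

end MotMono
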