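import Pool.Agent.Lib.MP_4e5fcd_ag.Det.Base

/-! # DET-G1: a rational cone in the positive orthant is generated by its extreme rays -/

namespace MotMono

variable {ι : Type} [Fintype ι]

/-- `U` contains a generator of every extreme ray of the cone of the nonnegative vectors which
vanish on `Z` and on which the forms in `Ls` are nonnegative, and nothing else -/
structure IsRays (Z : Set ι) (Ls : Finset (ι → ℤ)) (U : Finset (ι → ℕ)) : Prop where
  ne : ∀ u ∈ U, u ≠ 0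
  zero : ∀ u ∈ U, ∀ i ∈ Z, u i = 0
  nonneg : ∀ u ∈ U, ∀ l ∈ Ls, 0 ≤ ∑ i, l i * (u i : ℤ)
  ext : ∀ u ∈ U, ∀ y : ι → ℚ, (∀ i, u i = 0 → y i = 0) →
    (∀ l ∈ Ls, ∑ i, l i * (u i : ℤ) = 0 → ∑ i, (l i : ℚ) * y i = 0) → ∃ c : ℚ, ∀ i, y i = c * u i
  gen : ∀ x : ι → ℚ, (∀ i, 0 ≤ x i) → (∀ i ∈ Z, x i = 0) →
    (∀ l ∈ Ls, 0 ≤ ∑ i, (l i : ℚ) * x i) →
    ∃ α : (ι → ℕ) → ℚ, (∀ u, 0 ≤ α u) ∧ ∀ i, x i = ∑ u ∈ U, α u * u i

/-- an abstract form of the theorem of Minkowski and Weyl -/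
theorem g1_cone {V K : Type} [AddCommGroup V] [Module ℚ V] [Fintype K] (φ : K → V →ₗ[ℚ] ℚ)
    (hinj : ∀ x : V, (∀ k, φ k x = 0) → x = 0) (Q : Set K) (P : V → Prop)
    (h0 : P 0) (hadd : ∀ x y, P x → P y → P (x + y))
    (hsmul : ∀ (c : ℚ) (x : V), 0 ≤ c → P x → P (c • x))
    (hext : ∀ x : V, x ≠ 0 → (∀ k, 0 ≤ φ k x) → (∀ k ∈ Q, φ k x = 0) →
      (∀ y : V, (∀ k, φ k x = 0 → φ k y = 0) → ∃ c : ℚ, y = c • x) → P x) :
    ∀ x : V, (∀ k, 0 ≤ φ k x) → (∀ k ∈ Q, φ k x = 0) → P x := by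
  classical
  suffices H : ∀ (n : ℕ) (x : V), (Finset.univ.filter fun k => φ k x ≠ 0).card = n →
      (∀ k, 0 ≤ φ k x) → (∀ k ∈ Q, φ k x = 0) → P x from fun x => H _ x rfl
  intro n
  induction n using Nat.strong_induction_on with
  | _ n ih =>
  intro x hn hx hQ
  by_cases hx0 : x = 0
  · rw [hx0]; exact h0
  by_cases he : ∀ y : V, (∀ k, φ k x = 0 → φ k y = 0) → ∃ c : ℚ, y = c • x
  · exact hext x hx0 hx hQ he
  push Not at he
  obtain ⟨y, hy, hyx⟩ := he
  set S := Finset.univ.filter fun k => φ k x ≠ 0 with hS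
  have hSne : S.Nonempty := by
    by_contra hne
    rw [Finset.not_nonempty_iff_eq_empty] at hne
    apply hx0
    apply hinj
    intro k
    by_contra hk
    have : k ∈ S := by simp [hS, hk]
    rw [hne] at this
    simp at this
  obtain ⟨k₁, hk₁, hmax⟩ := S.exists_max_image (fun k => φ k y / φ k x) hSne
  obtain ⟨k₂, hk₂, hmin⟩ := S.exists_min_image (fun k => φ k y / φ k x) hSne
  set c₁ := φ k₁ y / φ k₁ x with hc₁
  set c₂ := φ k₂ y / φ k₂ x with hc₂
  have hpos : ∀ k ∈ S, 0 < φ k x := by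
    intro k hk
    have hk' : φ k x ≠ 0 := by simpa [hS] using hk
    exact lt_of_le_of_ne (hx k) (Ne.symm hk')
  have hnS : ∀ k, k ∉ S → φ k x = 0 := by
    intro k hk
    by_contra h
    exact hk (by simp [hS, h])
  have hz₁ : ∀ k, 0 ≤ φ k (c₁ • x - y) := by
    intro k
    rw [map_sub, map_smul, smul_eq_mul]
    by_cases hk : k ∈ S
    · have h1 := hmax k hk
      rw [div_le_iff₀ (hpos k hk)] at h1
      linarith
    · rw [hnS k hk, hy k (hnS k hk)]
      simp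
  have hz₂ : ∀ k, 0 ≤ φ k (y - c₂ • x) := by
    intro k
    rw [map_sub, map_smul, smul_eq_mul]
    by_cases hk : k ∈ S
    · have h1 := hmin k hk
      rw [le_div_iff₀ (hpos k hk)] at h1
      linarith
    · rw [hnS k hk, hy k (hnS k hk)]
      simp
  have hz₁0 : φ k₁ (c₁ • x - y) = 0 := by
    rw [map_sub, map_smul, smul_eq_mul, hc₁, div_mul_cancel₀ _ (hpos k₁ hk₁).ne', sub_self]
  have hz₂0 : φ k₂ (y - c₂ • x) = 0 := by
    rw [map_sub, map_smul, smul_eq_mul, hc₂, div_mul_cancel₀ _ (hpos k₂ hk₂).ne', sub_self]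
  have hle : c₂ ≤ c₁ := hmax k₂ hk₂
  rcases hle.lt_or_eq with hlt | heq
  · have hlt' : 0 < c₁ - c₂ := sub_pos.2 hlt
    have hP : ∀ z : V, (∀ k, 0 ≤ φ k z) → (∀ k, k ∉ S → φ k z = 0) → (∃ k ∈ S, φ k z = 0) →
        P z := by
      intro z hz hzS hzk
      obtain ⟨k₀, hk₀, hk₀'⟩ := hzk
      refine ih _ ?_ z rfl hz ?_
      · rw [← hn]
        apply Finset.card_lt_card
        rw [Finset.ssubset_iff_of_subset]
        · exact ⟨k₀, hk₀, by simp [hk₀']⟩
        · intro k hk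
          have hk' : φ k z ≠ 0 := by simpa using hk
          by_contra h
          exact hk' (hzS k h)
      · intro k hk
        apply hzS
        intro h
        have := hpos k h
        rw [hQ k hk] at this
        exact lt_irrefl _ this
    have hP₁ : P (c₁ • x - y) := hP _ hz₁ (by
      intro k hk
      rw [map_sub, map_smul, smul_eq_mul, hnS k hk, hy k (hnS k hk)]
      simp) ⟨k₁, hk₁, hz₁0⟩
    have hP₂ : P (y - c₂ • x) := hP _ hz₂ (by
      intro k hk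
      rw [map_sub, map_smul, smul_eq_mul, hnS k hk, hy k (hnS k hk)]
      simp) ⟨k₂, hk₂, hz₂0⟩
    have hx' : x = (c₁ - c₂)⁻¹ • ((c₁ • x - y) + (y - c₂ • x)) := by
      have : (c₁ • x - y) + (y - c₂ • x) = (c₁ - c₂) • x := by
        rw [sub_smul]
        abel
      rw [this, smul_smul, inv_mul_cancel₀ hlt'.ne', one_smul]
    rw [hx']
    exact hsmul _ _ (inv_nonneg.2 hlt'.le) (hadd _ _ hP₁ hP₂)
  · exfalso
    apply hyx c₁
    have : c₁ • x - y = 0 := by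
      apply hinj
      intro k
      apply le_antisymm _ (hz₁ k)
      have h2 := hz₂ k
      rw [heq] at h2
      rw [map_sub] at h2 ⊢
      linarith
    rw [sub_eq_zero] at this
    exact this.symm

theorem g1_clear (x : ι → ℚ) (hx : ∀ i, 0 ≤ x i) :
    ∃ (d : ℕ) (u : ι → ℕ), 0 < d ∧ ∀ i, (u i : ℚ) = d * x i := by
  classical
  refine ⟨∏ i, (x i).den, fun i => (∏ j ∈ Finset.univ.erase i, (x j).den) * (x i).num.toNat,
    Finset.prod_pos fun i _ => (x i).den_pos, ?_⟩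
  intro i
  have h1 : (((x i).num.toNat : ℕ) : ℚ) = (x i).num := by
    have : (((x i).num.toNat : ℕ) : ℤ) = (x i).num :=
      Int.toNat_of_nonneg (Rat.num_nonneg.2 (hx i))
    exact_mod_cast this
  have h2 : (∏ j, (x j).den) = (x i).den * ∏ j ∈ Finset.univ.erase i, (x j).den :=
    (Finset.mul_prod_erase _ _ (Finset.mem_univ i)).symm
  rw [h2]
  push_cast
  rw [h1]
  have h3 : ((x i).den : ℚ) * x i = (x i).num := by
    rw [mul_comm]
    exact Rat.mul_den_eq_num (x i)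
  calc (∏ j ∈ Finset.univ.erase i, ((x j).den : ℚ)) * ((x i).num : ℚ)
      = (∏ j ∈ Finset.univ.erase i, ((x j).den : ℚ)) * (((x i).den : ℚ) * x i) := by rw [h3]
    _ = _ := by ring

theorem exists_isRays (Z : Set ι) (Ls : Finset (ι → ℤ)) : ∃ U, IsRays Z Ls U := by
  classical
  let EV : Set (ι → ℕ) := {u | u ≠ 0 ∧ (∀ i ∈ Z, u i = 0) ∧
    (∀ l ∈ Ls, 0 ≤ ∑ i, l i * (u i : ℤ)) ∧
    ∀ y : ι → ℚ, (∀ i, u i = 0 → y i = 0) →
    (∀ l ∈ Ls, ∑ i, l i * (u i : ℤ) = 0 → ∑ i, (l i : ℚ) * y i = 0) →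
      ∃ c : ℚ, ∀ i, y i = c * u i}
  let T : (ι → ℕ) → (ι → Prop) × (Ls → Prop) := fun u =>
    (fun i => u i = 0, fun l => ∑ i, l.1 i * (u i : ℤ) = 0)
  have hfin : (T '' EV).Finite := Set.toFinite _
  have hrep : ∀ t ∈ T '' EV, ∃ u ∈ EV, T u = t := fun t ht => ht
  choose! rep hrep1 hrep2 using hrep
  let U : Finset (ι → ℕ) := hfin.toFinset.image rep
  have hUEV : ∀ u ∈ U, u ∈ EV := by
    intro u hu
    obtain ⟨t, ht, rfl⟩ := Finset.mem_image.1 hu
    exact hrep1 t (hfin.mem_toFinset.1 ht)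
  refine ⟨U, fun u hu => (hUEV u hu).1, fun u hu => (hUEV u hu).2.1,
    fun u hu => (hUEV u hu).2.2.1, fun u hu => (hUEV u hu).2.2.2, ?_⟩
  intro x hx hxZ hxL
  let φ : ι ⊕ Ls → (ι → ℚ) →ₗ[ℚ] ℚ := Sum.elim (fun i => LinearMap.proj i)
    (fun l => ∑ i, (l.1 i : ℚ) • (LinearMap.proj i : (ι → ℚ) →ₗ[ℚ] ℚ))
  have hφl : ∀ (i : ι) (x : ι → ℚ), φ (Sum.inl i) x = x i := fun i x => rfl
  have hφr : ∀ (l : Ls) (x : ι → ℚ), φ (Sum.inr l) x = ∑ i, (l.1 i : ℚ) * x i := by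
    intro l x
    simp [φ, LinearMap.sum_apply]
  refine g1_cone φ ?_ (Sum.inl '' Z) (fun x => ∃ α : (ι → ℕ) → ℚ, (∀ u, 0 ≤ α u) ∧
    ∀ i, x i = ∑ u ∈ U, α u * u i) ?_ ?_ ?_ ?_ x ?_ ?_
  · intro x hx
    ext i
    exact hx (Sum.inl i)
  · exact ⟨fun _ => 0, fun _ => le_refl _, by simp⟩
  · rintro x y ⟨α, hα, hαx⟩ ⟨α', hα', hαy⟩
    refine ⟨fun u => α u + α' u, fun u => add_nonneg (hα u) (hα' u), fun i => ?_⟩
    rw [Pi.add_apply, hαx, hαy, ← Finset.sum_add_distrib]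
    exact Finset.sum_congr rfl fun u _ => by ring
  · rintro c x hc ⟨α, hα, hαx⟩
    refine ⟨fun u => c * α u, fun u => mul_nonneg hc (hα u), fun i => ?_⟩
    rw [Pi.smul_apply, smul_eq_mul, hαx, Finset.mul_sum]
    exact Finset.sum_congr rfl fun u _ => by ring
  · intro x hx0 hx hxQ hxe
    have hx' : ∀ i, 0 ≤ x i := fun i => hx (Sum.inl i)
    obtain ⟨d, u, hd, hu⟩ := g1_clear x hx'
    have hd' : (0 : ℚ) < d := by exact_mod_cast hd
    have hui : ∀ i, u i = 0 ↔ x i = 0 := by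
      intro i
      rw [← Nat.cast_eq_zero (R := ℚ), hu i]
      simp [hd.ne']
    have hul : ∀ l : Ls, ((∑ i, l.1 i * (u i : ℤ) : ℤ) : ℚ) = d * φ (Sum.inr l) x := by
      intro l
      rw [hφr]
      push_cast
      rw [Finset.mul_sum]
      exact Finset.sum_congr rfl fun i _ => by rw [hu i]; ring
    have hul0 : ∀ l : Ls, ∑ i, l.1 i * (u i : ℤ) = 0 ↔ φ (Sum.inr l) x = 0 := by
      intro l
      rw [← Int.cast_eq_zero (α := ℚ), hul l]
      simp [hd.ne']
    have huEV : u ∈ EV := by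
      refine ⟨?_, ?_, ?_, ?_⟩
      · intro h
        apply hx0
        ext i
        have := (hui i).1 (by rw [h]; rfl)
        simpa using this
      · intro i hi
        rw [hui]
        exact hxQ (Sum.inl i) ⟨i, hi, rfl⟩
      · intro l hl
        have h1 := hul ⟨l, hl⟩
        have h2 : (0 : ℚ) ≤ ((∑ i, l i * (u i : ℤ) : ℤ) : ℚ) := by
          rw [h1]
          exact mul_nonneg hd'.le (hx _)
        exact_mod_cast h2
      · intro y hy1 hy2
        obtain ⟨c, hc⟩ := hxe y (by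
          rintro (i | l) hk
          · exact hy1 i ((hui i).2 hk)
          · rw [hφr]
            exact hy2 l.1 l.2 ((hul0 l).2 hk))
        refine ⟨c / d, fun i => ?_⟩
        rw [hc, Pi.smul_apply, smul_eq_mul, hu i]
        field_simp
    have hTu : T u ∈ T '' EV := ⟨u, huEV, rfl⟩
    set v := rep (T u) with hv
    have hvEV : v ∈ EV := hrep1 _ hTu
    have hvU : v ∈ U := Finset.mem_image.2 ⟨T u, hfin.mem_toFinset.2 hTu, rfl⟩
    have hTv : T v = T u := hrep2 _ hTu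
    have hvi : ∀ i, v i = 0 ↔ u i = 0 := by
      intro i
      have := congrFun (congrArg Prod.fst hTv) i
      exact iff_of_eq this
    have hvl : ∀ l : Ls, ∑ i, l.1 i * (v i : ℤ) = 0 ↔ ∑ i, l.1 i * (u i : ℤ) = 0 := by
      intro l
      have := congrFun (congrArg Prod.snd hTv) l
      exact iff_of_eq this
    obtain ⟨c, hc⟩ := hvEV.2.2.2 x (fun i hi => (hui i).1 ((hvi i).1 hi)) (fun l hl h => by
      have := (hul0 ⟨l, hl⟩).1 ((hvl ⟨l, hl⟩).1 h)
      rwa [hφr] at this)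
    have hc0 : 0 ≤ c := by
      obtain ⟨i, hi⟩ := Function.ne_iff.1 hvEV.1
      have hvi0 : (0 : ℚ) < v i := by
        exact_mod_cast Nat.pos_of_ne_zero hi
      have h1 := hx' i
      rw [hc i] at h1
      exact nonneg_of_mul_nonneg_left h1 hvi0
    refine ⟨fun w => if w = v then c else 0, fun w => ?_, fun i => ?_⟩
    · dsimp only
      split_ifs
      · exact hc0
      · exact le_refl _
    · simp only [ite_mul, zero_mul]
      rw [Finset.sum_ite_eq' U v, if_pos hvU]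
      exact hc i
  · rintro (i | l)
    · exact hx i
    · rw [hφr]
      exact hxL l.1 l.2
  · rintro k ⟨i, hi, rfl⟩
    exact hxZ i hi

end MotMono
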