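import Pool.Agent.Lib.MP_4e5fcd_ag.Det.U2

/-! # DET-U3a: undetected blocks of a vector with a bigger face -/

open MvPolynomial

namespace MotMono

variable {s : ℕ} {m : Fin s → ℕ}

/-- the last support index before `j` -/
theorem u3a_prev (u : (Σ a, Fin (m a)) → ℕ) (a : Fin s) (j p₀ : Fin (m a)) (h0 : p₀ < j)
    (hp : u ⟨a, p₀⟩ ≠ 0) :
    ∃ p : Fin (m a), p₀ ≤ p ∧ p < j ∧ u ⟨a, p⟩ ≠ 0 ∧ ∀ k, p < k → k < j → u ⟨a, k⟩ = 0 := by
  classical
  have hne : (Finset.univ.filter fun k : Fin (m a) => k < j ∧ u ⟨a, k⟩ ≠ 0).Nonempty :=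
    ⟨p₀, by simp [h0, hp]⟩
  refine ⟨Finset.max' _ hne, ?_, ?_, ?_, ?_⟩
  · exact Finset.le_max' _ _ (by simp [h0, hp])
  · have := Finset.max'_mem _ hne
    simp only [Finset.mem_filter, Finset.mem_univ, true_and] at this
    exact this.1
  · have := Finset.max'_mem _ hne
    simp only [Finset.mem_filter, Finset.mem_univ, true_and] at this
    exact this.2
  · intro k h1 h2
    by_contra h3
    exact absurd (Finset.le_max' _ k (by simp [h2, h3])) (not_le.mpr h1)

theorem inUndet_of_inUndet (A : Finset ((Σ a, Fin (m a)) → ℕ)) (u u' : (Σ a, Fin (m a)) → ℕ)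
    (hu : Ext (AW A) u) (hN : 0 < minF (AW A) u)
    (hs : ∀ a, ∀ i : Fin (m a), u ⟨a, i⟩ = 0 → ¬ InUndet A u a i → u' ⟨a, i⟩ = 0)
    (hf : ∀ W, InFace (AW A) u W → InFace (AW A) u' W) (a : Fin s) (r : ℕ)
    (hr : InUndet A u' a r) : InUndet A u a r := by
  obtain ⟨i, hi, hir, hrm, hz'⟩ := hr
  -- visible minors of `u` are visible for `u'`
  have hvis : ∀ ρ, Vis A u a ρ → Vis A u' a ρ := by
    rintro ρ ⟨w, hw, h1, h2⟩
    exact ⟨w, hw, hf _ h1, h2⟩
  -- support of `u'`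
  have hsup : ∀ k : Fin (m a), u' ⟨a, k⟩ ≠ 0 → u ⟨a, k⟩ = 0 → InUndet A u a k := by
    intro k h1 h2
    by_contra h3
    exact h1 (hs a k h2 h3)
  -- step 1
  have step1 : ∀ j : Fin (m a), i < j → (j : ℕ) ≤ r → u ⟨a, j⟩ = 0 := by
    intro j hij hjr
    by_contra huj
    obtain ⟨p₀, hp₀i, hp₀⟩ : ∃ p₀ : Fin (m a), p₀ ≤ i ∧ u ⟨a, p₀⟩ ≠ 0 := by
      by_cases hui : u ⟨a, i⟩ = 0
      · obtain ⟨i0, h1, h2, _, _⟩ := hsup i hi.1 hui
        exact ⟨i0, le_of_lt h2, h1.1⟩
      · exact ⟨i, le_refl _, hui⟩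
    obtain ⟨p, hp0, hpj, hup, hpz⟩ := u3a_prev u a j p₀ (lt_of_le_of_lt hp₀i hij) hp₀
    obtain ⟨ρ, hρv, hpρ, hρm, hρz⟩ := vis_boundary A u hu hN a p j hpj hup huj hpz
    by_cases c1 : ρ ≤ i
    · -- (a)
      have hpi : p < i := by
        have : (p : ℕ) < i := lt_of_lt_of_le hpρ c1
        exact this
      have hui : u ⟨a, i⟩ = 0 := hpz i hpi hij
      obtain ⟨i0, h1, h2, _, h4⟩ := hsup i hi.1 hui
      have e1 : i0 ≤ p := by
        by_contra hcon
        push Not at hcon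
        have h2' : i0 < i := h2
        exact h1.1 (hpz i0 hcon (lt_trans h2' hij))
      have e2 : p ≤ i0 := by
        by_contra hcon
        push Not at hcon
        exact hup (h4 p hcon (le_of_lt hpi))
      have e : i0 = p := le_antisymm e1 e2
      subst e
      obtain ⟨k, hk1, hk2, hk3⟩ := h1.2.2 ρ hρv hpρ hρm
      exact hk3 (h4 k hk1 (le_trans hk2 c1))
    · push Not at c1
      by_cases c2 : ∀ k : Fin (m a), i < k → (k : ℕ) ≤ ρ → u' ⟨a, k⟩ = 0
      · obtain ⟨k, hk1, hk2, hk3⟩ := hi.2.2 ρ (hvis ρ hρv) c1 hρm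
        exact hk3 (c2 k hk1 hk2)
      · push Not at c2
        obtain ⟨k, hk1, hk2, hk3⟩ := c2
        have hkr : r < (k : ℕ) := by
          by_contra hcon
          push Not at hcon
          exact hk3 (hz' k hk1 hcon)
        have hjk : j < k := by
          have : (j : ℕ) < k := lt_of_le_of_lt hjr hkr
          exact this
        have huk : u ⟨a, k⟩ = 0 := hρz k hjk hk2
        obtain ⟨i0, h1, h2, _, h4⟩ := hsup k hk3 huk
        have h2' : i0 < k := h2
        have e1 : j ≤ i0 := by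
          by_contra hcon
          push Not at hcon
          exact huj (h4 j hcon (le_of_lt hjk))
        have e2 : i0 ≤ j := by
          by_contra hcon
          push Not at hcon
          exact h1.1 (hρz i0 hcon (le_trans (le_of_lt h2) hk2))
        have e : i0 = j := le_antisymm e2 e1
        subst e
        have hjρ : (i0 : ℕ) < ρ := lt_of_lt_of_le h2 hk2
        obtain ⟨k', hk1', hk2', hk3'⟩ := h1.2.2 ρ hρv hjρ hρm
        exact hk3' (hρz k' hk1' hk2')
  -- step 2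
  by_cases hui : u ⟨a, i⟩ = 0
  · obtain ⟨i0, h1, h2, h3, h4⟩ := hsup i hi.1 hui
    refine ⟨i0, h1, lt_trans h2 hir, hrm, fun k hk1 hk2 => ?_⟩
    by_cases hki : (k : ℕ) ≤ i
    · exact h4 k hk1 hki
    · push Not at hki
      exact step1 k hki hk2
  · refine ⟨i, ⟨hui, ⟨by omega, step1 ⟨i + 1, by omega⟩ ?_ ?_⟩, ?_⟩, hir, hrm, step1⟩
    · change (i : ℕ) < i + 1
      omega
    · change (i : ℕ) + 1 ≤ r
      omega
    · intro ρ hρv h1 h2
      by_contra hcon
      push Not at hcon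
      obtain ⟨k, hk1, hk2, hk3⟩ := hi.2.2 ρ (hvis ρ hρv) h1 h2
      have huk : u ⟨a, k⟩ = 0 := hcon k hk1 hk2
      obtain ⟨i0, g1, g2, _, g4⟩ := hsup k hk3 huk
      have e1 : i ≤ i0 := by
        by_contra hc
        push Not at hc
        exact hui (g4 i hc (le_of_lt hk1))
      have e2 : i0 ≤ i := by
        by_contra hc
        push Not at hc
        exact g1.1 (hcon i0 hc (le_trans (le_of_lt g2) hk2))
      have e : i0 = i := le_antisymm e2 e1
      subst e
      obtain ⟨k', hk1', hk2', hk3'⟩ := g1.2.2 ρ hρv h1 h2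
      exact hk3' (hcon k' hk1' hk2')

end MotMono
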