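import Pool.Agent.Lib.MP_4e5fcd_ag.Det.G4a

/-! # DET-G4: the zeta function of a fan -/

namespace MotMono

variable {ι B : Type} [Fintype ι] [CommRing B]

theorem g4_minF (A : Finset (ι → ℕ)) (b W : ι → ℕ) (h : InFace A b W) :
    minF A b = pair W b := by
  apply le_antisymm
  · exact Nat.sInf_le ⟨W, h.1, rfl⟩
  · have hne : {k | ∃ W ∈ A, pair W b = k}.Nonempty := ⟨pair W b, W, h.1, rfl⟩
    refine le_csInf hne ?_
    rintro k ⟨W', hW', rfl⟩
    exact h.2 W' hW'

/-- decomposition of `ZS` by the support `Zᶜ` of the profile and the first minimal functional -/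
theorem ZS_decomp (μ : (ι → ℕ) → Polynomial B) (hμ : LocFin μ) (I₀ : Set ι) (A : Finset (ι → ℕ))
    (hA : A.Nonempty) :
    ∃ (J : Type) (_ : Fintype J) (Z : J → Set ι) (W : J → ι → ℕ) (β : J → (ι → ℤ) → ℤ),
      (∀ j, W j ∈ A) ∧
      ZS μ I₀ A = ∑ j, HS μ {b | (∀ i ∈ Z j, b i = 0) ∧ (∀ i ∉ Z j, 1 ≤ b i) ∧
        ∀ l ∈ dW A (W j), β j l ≤ ∑ i, l i * (b i : ℤ)} (W j) := by
  classical
  let e := A.equivFin
  let J := {Z : Set ι // ∀ i ∈ I₀, i ∉ Z} × A
  have : Fintype J := Fintype.ofFinite _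
  refine ⟨J, this, fun j => j.1.1, fun j => j.2.1, fun j l =>
    if ∃ W' : A, e W' < e j.2 ∧ l = (fun i => (W'.1 i : ℤ) - j.2.1 i) then 1 else 0,
    fun j => j.2.2, ?_⟩
  let First : (ι → ℕ) → A → Prop := fun b W =>
    ∀ W' : A, pair W.1 b ≤ pair W'.1 b ∧ (e W' < e W → pair W.1 b < pair W'.1 b)
  have hsum : ∀ (W W' : A) (b : ι → ℕ), ∑ i, ((W'.1 i : ℤ) - W.1 i) * (b i : ℤ) =
      (pair W'.1 b : ℤ) - pair W.1 b := by
    intro W W' b
    rw [pair, pair]
    push_cast
    rw [← Finset.sum_sub_distrib]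
    exact Finset.sum_congr rfl fun i _ => by ring
  have hmem : ∀ (j : J) (b : ι → ℕ), ((∀ i ∈ j.1.1, b i = 0) ∧ (∀ i ∉ j.1.1, 1 ≤ b i) ∧
      ∀ l ∈ dW A j.2.1, (if ∃ W' : A, e W' < e j.2 ∧ l = (fun i => (W'.1 i : ℤ) - j.2.1 i)
        then (1 : ℤ) else 0) ≤ ∑ i, l i * (b i : ℤ)) ↔
      ((∀ i, i ∈ j.1.1 ↔ b i = 0) ∧ First b j.2) := by
    intro j b
    constructor
    · rintro ⟨h1, h2, h3⟩
      refine ⟨fun i => ⟨h1 i, fun hi => ?_⟩, fun W' => ?_⟩
      · by_contra h
        have := h2 i h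
        omega
      · have h4 := h3 (fun i => (W'.1 i : ℤ) - j.2.1 i) (Finset.mem_image.2 ⟨W'.1, W'.2, rfl⟩)
        rw [hsum j.2 W' b] at h4
        constructor
        · have h5 : (0 : ℤ) ≤ (if ∃ W'' : A, e W'' < e j.2 ∧
              (fun i => (W'.1 i : ℤ) - j.2.1 i) = (fun i => (W''.1 i : ℤ) - j.2.1 i)
              then (1 : ℤ) else 0) := by
            split_ifs <;> norm_num
          omega
        · intro hlt
          rw [if_pos ⟨W', hlt, rfl⟩] at h4
          omega
    · rintro ⟨h1, h2⟩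
      refine ⟨fun i => (h1 i).1, fun i hi => ?_, ?_⟩
      · rw [h1 i] at hi
        omega
      · intro l hl
        split_ifs with hlt
        · obtain ⟨W', hW', rfl⟩ := hlt
          rw [hsum j.2 W' b]
          have := (h2 W').2 hW'
          omega
        · obtain ⟨W', hW', rfl⟩ := Finset.mem_image.1 hl
          rw [hsum j.2 ⟨W', hW'⟩ b]
          have := (h2 ⟨W', hW'⟩).1
          omega
  have hface : ∀ (b : ι → ℕ) (W : A), First b W → minF A b = pair W.1 b := by
    intro b W h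
    exact g4_minF A b W.1 ⟨W.2, fun W' hW' => (h ⟨W', hW'⟩).1⟩
  have hexists : ∀ b : ι → ℕ, ∃ W : A, First b W := by
    intro b
    have : Nonempty A := hA.to_subtype
    obtain ⟨W, -, hW⟩ := Finset.exists_min_image (Finset.univ : Finset A)
      (fun W => toLex (pair W.1 b, e W)) Finset.univ_nonempty
    refine ⟨W, fun W' => ?_⟩
    have h1 := hW W' (Finset.mem_univ _)
    rw [Prod.Lex.toLex_le_toLex] at h1
    dsimp only at h1
    rcases h1 with h1 | ⟨h1, h2⟩
    · exact ⟨h1.le, fun _ => h1⟩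
    · exact ⟨h1.le, fun h3 => absurd h3 (not_lt.2 h2)⟩
  ext1 k
  rw [map_sum, ZS, PowerSeries.coeff_mk]
  simp only [g3_HS_coeff]
  rw [← SS_biUnion hμ Finset.univ (fun j : J => {b | b ∈ {b : ι → ℕ | (∀ i ∈ j.1.1, b i = 0) ∧
    (∀ i ∉ j.1.1, 1 ≤ b i) ∧
      ∀ l ∈ dW A j.2.1, (if ∃ W' : A, e W' < e j.2 ∧ l = (fun i => (W'.1 i : ℤ) - j.2.1 i)
        then (1 : ℤ) else 0) ≤ ∑ i, l i * (b i : ℤ)} ∧ pair j.2.1 b = k})]
  · congr 1
    ext b
    simp only [Set.mem_iUnion, Set.mem_ofPred_eq, Finset.mem_univ, exists_true_left, hmem]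
    constructor
    · rintro ⟨h1, h2⟩
      obtain ⟨W, hW⟩ := hexists b
      refine ⟨(⟨{i | b i = 0}, fun i hi h => h1 i hi h⟩, W), ⟨fun i => Iff.rfl, hW⟩, ?_⟩
      rw [← hface b W hW]
      exact h2
    · rintro ⟨j, ⟨h1, h2⟩, h3⟩
      refine ⟨fun i hi h => j.1.2 i hi ((h1 i).2 h), ?_⟩
      rw [hface b j.2 h2]
      exact h3
  · intro j _ j' _ hjj'
    rw [Set.disjoint_left]
    rintro b ⟨hb, _⟩ ⟨hb', _⟩
    apply hjj'
    rw [Set.mem_ofPred_eq, hmem] at hb hb'
    apply Prod.ext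
    · apply Subtype.ext
      ext i
      rw [hb.1 i, hb'.1 i]
    · apply e.injective
      have h1 := hb.2 j'.2
      have h2 := hb'.2 j.2
      rcases lt_trichotomy (e j.2) (e j'.2) with h | h | h
      · have := h2.2 h
        omega
      · exact h
      · have := h1.2 h
        omega

theorem ZS_rational (μ : (ι → ℕ) → Polynomial B) (hμ : LocFin μ) (ν : ι → ℕ) (hν : ∀ i, 0 < ν i)
    (hμν : ∀ b u : ι → ℕ, (∀ i, u i ≠ 0 → b i ≠ 0) →
      μ (b + u) = Polynomial.X ^ pair ν u * μ b)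
    (I₀ : Set ι) (A : Finset (ι → ℕ)) (hA : A.Nonempty) :
    ∃ U : Finset (ι → ℕ), (∀ u ∈ U, Ext A u ∧ 0 < minF A u) ∧
      IsPolyT ((∏ u ∈ U, rayFactor B (pair ν u) (minF A u)) * ZS μ I₀ A) := by
  classical
  obtain ⟨J, _, Z, W, β, hW, hZS⟩ := ZS_decomp μ hμ I₀ A hA
  choose Uj hUj using fun j => exists_isRays (Z j) (dW A (W j))
  have hext : ∀ j, ∀ u ∈ Uj j, Ext A u ∧ InFace A u (W j) ∧ pair (W j) u = minF A u :=
    fun j u hu => IsRays.ext_fan A (W j) (hW j) (Z j) (Uj j) (hUj j) u hu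
  let U' : Finset (ι → ℕ) := Finset.univ.biUnion Uj
  have hU' : ∀ u ∈ U', Ext A u := by
    intro u hu
    obtain ⟨j, _, hj⟩ := Finset.mem_biUnion.1 hu
    exact (hext j u hj).1
  have hpoly : IsPolyT ((∏ u ∈ U', rayFactor B (pair ν u) (minF A u)) * ZS μ I₀ A) := by
    rw [hZS, Finset.mul_sum]
    have hsum : ∀ (t : Finset J) (F : J → PowerSeries (PowerSeries B)), (∀ j ∈ t, IsPolyT (F j)) →
        IsPolyT (∑ j ∈ t, F j) := by
      intro t F hF
      induction t using Finset.induction_on with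
      | empty => exact ⟨0, fun k _ => by simp⟩
      | insert j t hj ih =>
        rw [Finset.sum_insert hj]
        exact isPolyT_add (hF j (Finset.mem_insert_self _ _))
          (ih fun j' hj' => hF j' (Finset.mem_insert_of_mem hj'))
    have hprod : ∀ (t : Finset (ι → ℕ)),
        IsPolyT (∏ u ∈ t, rayFactor B (pair ν u) (minF A u)) := by
      intro t
      induction t using Finset.induction_on with
      | empty => exact ⟨1, fun k hk => by
          rw [Finset.prod_empty, PowerSeries.coeff_one, if_neg (by omega)]⟩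
      | insert u t hu ih =>
        rw [Finset.prod_insert hu]
        exact isPolyT_mul (isPolyT_rayFactor _ _) ih
    apply hsum
    intro j _
    have hsub : Uj j ⊆ U' := Finset.subset_biUnion_of_mem Uj (Finset.mem_univ j)
    rw [← Finset.prod_sdiff hsub, mul_assoc]
    apply isPolyT_mul (hprod _)
    have h1 : ∏ u ∈ Uj j, rayFactor B (pair ν u) (minF A u) =
        ∏ u ∈ Uj j, rayFactor B (pair ν u) (pair (W j) u) :=
      Finset.prod_congr rfl fun u hu => by rw [(hext j u hu).2.2]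
    rw [h1]
    exact HS_polyhedron μ hμ ν hμν (Z j) (dW A (W j)) (Uj j) (hUj j) (β j) (W j)
  refine ⟨U'.filter fun u => 0 < minF A u, fun u hu => ?_, ?_⟩
  · rw [Finset.mem_filter] at hu
    exact ⟨hU' u hu.1, hu.2⟩
  · -- the factors with `minF A u = 0` are units
    have hunit : ∀ t : Finset (ι → ℕ), (∀ u ∈ t, u ≠ 0 ∧ minF A u = 0) → ∃ c c' : PowerSeries B,
        c' * c = 1 ∧ ∏ u ∈ t, rayFactor B (pair ν u) (minF A u) = PowerSeries.C c := by
      intro t ht
      induction t using Finset.induction_on with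
      | empty => exact ⟨1, 1, by simp, by simp⟩
      | insert u t hu ih =>
        obtain ⟨c, c', hc, hc'⟩ := ih fun u' hu' => ht u' (Finset.mem_insert_of_mem hu')
        obtain ⟨hu0, hu1⟩ := ht u (Finset.mem_insert_self _ _)
        have hpos : 0 < pair ν u := by
          obtain ⟨i, hi⟩ := Function.ne_iff.1 hu0
          have h1 : 0 < ν i * u i := Nat.mul_pos (hν i) (Nat.pos_of_ne_zero hi)
          exact lt_of_lt_of_le h1
            (Finset.single_le_sum (f := fun i => ν i * u i) (fun _ _ => Nat.zero_le _)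
              (Finset.mem_univ i))
        have hun : IsUnit (1 - (PowerSeries.X : PowerSeries B) ^ pair ν u) := by
          rw [PowerSeries.isUnit_iff_constantCoeff]
          rw [map_sub, map_pow, PowerSeries.constantCoeff_X, zero_pow hpos.ne', map_one, sub_zero]
          exact isUnit_one
        obtain ⟨d, hd⟩ := hun.exists_left_inv
        refine ⟨(1 - (PowerSeries.X : PowerSeries B) ^ pair ν u) * c, c' * d, ?_, ?_⟩
        · calc c' * d * ((1 - (PowerSeries.X : PowerSeries B) ^ pair ν u) * c)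
              = (d * (1 - (PowerSeries.X : PowerSeries B) ^ pair ν u)) * (c' * c) := by ring
            _ = 1 := by rw [hd, hc, one_mul]
        · rw [Finset.prod_insert hu, hc', hu1, rayFactor, pow_zero, mul_one, map_mul, map_sub,
            map_one]
    obtain ⟨c, c', hc, hc'⟩ := hunit (U'.filter fun u => ¬ 0 < minF A u) (by
      intro u hu
      rw [Finset.mem_filter] at hu
      exact ⟨(hU' u hu.1).1, by omega⟩)
    rw [← Finset.prod_filter_mul_prod_filter_not U' (fun u => 0 < minF A u), hc'] at hpoly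
    have h1 : (∏ u ∈ U' with 0 < minF A u, rayFactor B (pair ν u) (minF A u)) * ZS μ I₀ A =
        PowerSeries.C c' * ((∏ u ∈ U' with 0 < minF A u, rayFactor B (pair ν u) (minF A u)) *
          PowerSeries.C c * ZS μ I₀ A) := by
      have h2 : (PowerSeries.C c' * PowerSeries.C c : PowerSeries (PowerSeries B)) = 1 := by
        rw [← map_mul, hc, map_one]
      linear_combination (-(∏ u ∈ U' with 0 < minF A u, rayFactor B (pair ν u) (minF A u)) *
        ZS μ I₀ A) * h2
    rw [h1]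
    refine isPolyT_mul ⟨1, fun k hk => ?_⟩ hpoly
    rw [PowerSeries.coeff_C, if_neg (by omega)]

end MotMono
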