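import Pool.Agent.Lib.MP_4e5fcd_ag.Det.C7
import Pool.Agent.Lib.MP_4e5fcd_ag.Det.G4

/-! # DET-ZF: every pole comes from a ray -/

open MvPolynomial

namespace MotMono

variable {s N : ℕ} {m n : Fin s → ℕ}

theorem zf_theta_X_pow (a : ℕ) :
    theta ((Polynomial.X : Bq) ^ a) = ((Lu ^ (-(a : ℤ)) : MCˣ) : MC) := by
  rw [map_pow, zpow_neg, zpow_natCast, ← inv_pow, Units.val_pow_eq_pow_val]
  congr 1
  unfold theta
  rw [Polynomial.coe_eval₂RingHom, Polynomial.eval₂_X]

theorem zf_isPolyT {F : PowerSeries MC} (K : ℕ) (h : ∀ k, K ≤ k → PowerSeries.coeff k F = 0) :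
    ∃ P : Polynomial MC, F = (P : PowerSeries MC) := by
  refine ⟨PowerSeries.trunc K F, ?_⟩
  ext k
  rw [Polynomial.coeff_coe, PowerSeries.coeff_trunc]
  split_ifs with h1
  · rfl
  · exact h k (not_lt.1 h1)

theorem exists_ray_of_pole (e : (Σ a, Fin (m a) × Fin (n a)) ≃ Fin N) (hm : ∀ a, 0 < m a)
    (hmn : ∀ a, m a ≤ n a) (A : Finset ((Σ a, Fin (m a)) → ℕ)) (hA : A.Nonempty) (s₀ : ℚ)
    (hs : IsPole (Zmot (detSum e A)) s₀) :
    ∃ u, Ext (AW A) u ∧ 0 < minF (AW A) u ∧
      s₀ = -(pair (nuf n) u : ℚ) / (minF (AW A) u : ℚ) := by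
  classical
  by_contra hcon
  push Not at hcon
  apply hs
  have hA' : (AW A).Nonempty := by
    unfold AW
    exact hA.image _
  have hν : ∀ c : (Σ a, Fin (m a)), 0 < nuf n c := by
    intro c
    unfold nuf
    have h1 : (c.2 : ℕ) < m c.1 := c.2.2
    have h2 := hmn c.1
    exact Nat.mul_pos (by omega) (by omega)
  obtain ⟨U, hU, K, hK⟩ := ZS_rational (muA n : ((Σ a, Fin (m a)) → ℕ) → Bq)
    (locFin_muA n hmn) (nuf n) hν (fun b u h => muA_add n b u h)
    {c : (Σ a, Fin (m a)) | (c.2 : ℕ) = 0} (AW A) hA'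
  choose P hP1 hP2 using fun k => exists_P e hm hmn A hA k
  set Z' : PowerSeries Bq := PowerSeries.mk P with hZ'
  set D' : PowerSeries Bq := ∏ u ∈ U, (1 - PowerSeries.C ((Polynomial.X : Bq) ^ pair (nuf n) u) *
    PowerSeries.X ^ minF (AW A) u) with hD'
  have hmapZ : PowerSeries.map (Polynomial.coeToPowerSeries.ringHom (R := Bu)) Z' =
      ZS (muA n) {c : (Σ a, Fin (m a)) | (c.2 : ℕ) = 0} (AW A) := by
    ext1 k
    rw [PowerSeries.coeff_map, hZ', PowerSeries.coeff_mk, ← hP2 k]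
    rfl
  have hmapD : PowerSeries.map (Polynomial.coeToPowerSeries.ringHom (R := Bu)) D' =
      ∏ u ∈ U, rayFactor Bu (pair (nuf n) u) (minF (AW A) u) := by
    rw [hD', map_prod]
    apply Finset.prod_congr rfl
    intro u _
    unfold rayFactor
    rw [map_sub, map_one, map_mul, PowerSeries.map_C, map_pow (PowerSeries.map _),
      PowerSeries.map_X, map_pow, Polynomial.coeToPowerSeries.ringHom_apply, Polynomial.coe_X]
  have hDZ : ∀ k, K ≤ k → PowerSeries.coeff k (D' * Z') = 0 := by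
    intro k hk
    have h1 := hK k hk
    rw [← hmapZ, ← hmapD, ← map_mul, PowerSeries.coeff_map] at h1
    apply Polynomial.coe_injective Bu
    rw [Polynomial.coe_zero]
    exact h1
  have hthZ : PowerSeries.map theta Z' = Zmot (detSum e A) := by
    ext1 k
    rw [PowerSeries.coeff_map, hZ', PowerSeries.coeff_mk, ← hP1 k]
  have hthD : PowerSeries.map theta D' = ∏ u ∈ U,
      (1 - PowerSeries.C ((Lu ^ (-(pair (nuf n) u : ℤ)) : MCˣ) : MC) *
        PowerSeries.X ^ minF (AW A) u) := by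
    rw [hD', map_prod]
    apply Finset.prod_congr rfl
    intro u _
    rw [map_sub, map_one, map_mul, PowerSeries.map_C, map_pow (PowerSeries.map _),
      PowerSeries.map_X, zf_theta_X_pow]
  obtain ⟨Q, hQ⟩ := zf_isPolyT (F := PowerSeries.map theta (D' * Z')) K (by
    intro k hk
    rw [PowerSeries.coeff_map, hDZ k hk, map_zero])
  rw [map_mul, hthZ, hthD] at hQ
  have hinv : ∀ u ∈ U, ∃ g ∈ polarRing s₀,
      g * (1 - PowerSeries.C ((Lu ^ (-(pair (nuf n) u : ℤ)) : MCˣ) : MC) *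
        PowerSeries.X ^ minF (AW A) u) = 1 := by
    intro u hu
    have hpos := (hU u hu).2
    have h1 : IsUnit (1 - PowerSeries.C ((Lu ^ (-(pair (nuf n) u : ℤ)) : MCˣ) : MC) *
        PowerSeries.X ^ minF (AW A) u) := by
      rw [PowerSeries.isUnit_iff_constantCoeff]
      have h2 : PowerSeries.constantCoeff
          (1 - PowerSeries.C ((Lu ^ (-(pair (nuf n) u : ℤ)) : MCˣ) : MC) *
            PowerSeries.X ^ minF (AW A) u) = 1 := by
        rw [map_sub, map_one, map_mul, map_pow, PowerSeries.constantCoeff_X, zero_pow hpos.ne',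
          mul_zero, sub_zero]
      rw [h2]
      exact isUnit_one
    obtain ⟨g, hg⟩ := h1.exists_left_inv
    refine ⟨g, Subring.subset_closure (Or.inr ⟨(pair (nuf n) u : ℤ), minF (AW A) u, hpos, ?_,
      hg⟩), hg⟩
    intro h3
    exact hcon u (hU u hu).1 hpos (by rw [← h3]; push_cast; rfl)
  choose! g hg1 hg2 using hinv
  have hfin : Zmot (detSum e A) = (∏ u ∈ U, g u) * (Q : PowerSeries MC) := by
    rw [← hQ, ← mul_assoc, ← Finset.prod_mul_distrib, Finset.prod_congr rfl hg2,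
      Finset.prod_const_one, one_mul]
  rw [hfin]
  exact (polarRing s₀).mul_mem (Subring.prod_mem _ hg1) (Subring.subset_closure (Or.inl ⟨Q, rfl⟩))

end MotMono
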