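import Pool.Agent.Lib.MP_4e5fcd_ag.Det.Base

/-! # DET-M7: the point of the normal cone given by a curve -/

open MvPolynomial

namespace MotMono

theorem m7_dvd {N : ℕ} (I : Ideal (MvPolynomial (Fin N) ℂ))
    (c : Fin N → Polynomial ℂ) (n₀ : ℕ) (h : ∀ f ∈ I, ∀ l < n₀, (aeval c f).coeff l = 0) (k : ℕ)
    (f : MvPolynomial (Fin N) ℂ) (hf : f ∈ I ^ k) :
    (Polynomial.X : Polynomial ℂ) ^ (n₀ * k) ∣ aeval c f := by
  set φ : MvPolynomial (Fin N) ℂ →+* Polynomial ℂ := (aeval c).toRingHom with hφ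
  have h1 : I.map φ ≤ Ideal.span {(Polynomial.X : Polynomial ℂ) ^ n₀} := by
    rw [Ideal.map_le_iff_le_comap]
    intro g hg
    rw [Ideal.mem_comap, Ideal.mem_span_singleton, Polynomial.X_pow_dvd_iff]
    exact h g hg
  have h2 : (I ^ k).map φ ≤ Ideal.span {(Polynomial.X : Polynomial ℂ) ^ (n₀ * k)} := by
    rw [Ideal.map_pow, pow_mul, ← Ideal.span_singleton_pow]
    exact Ideal.pow_right_mono h1 k
  have h3 := h2 (Ideal.mem_map_of_mem φ hf)
  rw [Ideal.mem_span_singleton] at h3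
  exact h3

theorem m7_coeff {F G : Polynomial ℂ} {a b : ℕ} (hF : (Polynomial.X : Polynomial ℂ) ^ a ∣ F)
    (hG : (Polynomial.X : Polynomial ℂ) ^ b ∣ G) :
    (F * G).coeff (a + b) = F.coeff a * G.coeff b := by
  obtain ⟨F', rfl⟩ := hF
  obtain ⟨G', rfl⟩ := hG
  have h1 : (Polynomial.X : Polynomial ℂ) ^ a * F' * (Polynomial.X ^ b * G') =
      Polynomial.X ^ (a + b) * (F' * G') := by
    rw [pow_add]
    ring
  rw [h1]
  have h2 : ∀ (n : ℕ) (H : Polynomial ℂ), (Polynomial.X ^ n * H).coeff n = H.coeff 0 := by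
    intro n H
    have := Polynomial.coeff_X_pow_mul H n 0
    rwa [zero_add] at this
  rw [h2, h2, h2, Polynomial.mul_coeff_zero]

theorem exists_conePoint_curve {N : ℕ} (I : Ideal (MvPolynomial (Fin N) ℂ))
    (c : Fin N → Polynomial ℂ) (n₀ : ℕ) (h : ∀ f ∈ I, ∀ l < n₀, (aeval c f).coeff l = 0) :
    ∃ y : ConePoint I (fun i => (c i).eval 0), ∀ f ∈ I, y.φ 1 f = (aeval c f).coeff n₀ := by
  refine ⟨⟨fun k f => (aeval c f).coeff (n₀ * k), ?_, ?_, ?_⟩, ?_⟩
  · intro f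
    rw [mul_zero, Polynomial.coeff_zero_eq_eval_zero, aeval_def, ← Polynomial.coe_evalRingHom,
      eval₂_comp_left]
    rw [← eval₂_id]
    congr 1
    ext a
    simp
  · intro k f _ g _
    rw [map_add, Polynomial.coeff_add]
  · intro k l f hf g hg
    rw [map_mul, mul_add]
    exact m7_coeff (m7_dvd I c n₀ h k f hf) (m7_dvd I c n₀ h l g hg)
  · intro f _
    simp only [mul_one]

end MotMono
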