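import Pool.Agent.Lib.MP_4e5fcd_ag.Det.U1

/-! # DET-M11a: the exponents of a detected vector are bounded by its order -/

open MvPolynomial

namespace MotMono

variable {s : ℕ} {m : Fin s → ℕ}

private theorem m11a_minF {ι : Type} [Fintype ι] (B : Finset (ι → ℕ)) (u W : ι → ℕ)
    (h : InFace B u W) : minF B u = pair W u := by
  unfold minF
  refine le_antisymm (Nat.sInf_le ⟨W, h.1, rfl⟩) ?_
  refine le_csInf ⟨pair W u, W, h.1, rfl⟩ ?_
  rintro k ⟨W', hW', rfl⟩
  exact h.2 W' hW'

theorem mue_le_minF (A : Finset ((Σ a, Fin (m a)) → ℕ)) (u : (Σ a, Fin (m a)) → ℕ)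
    (hu : Ext (AW A) u) (hN : 0 < minF (AW A) u) (hdet : Detected A u) (a : Fin s) (i : ℕ)
    (hi : i < m a) : mue (part u a) i ≤ minF (AW A) u := by
  classical
  by_cases hz : ∀ k : Fin (m a), u ⟨a, k⟩ = 0
  · have h1 : mue (part u a) i = 0 := by
      unfold mue
      refine Finset.sum_eq_zero fun k hk => ?_
      rw [Finset.mem_range] at hk
      unfold part extb
      rw [dif_pos (show k < m a by omega)]
      exact hz _
    omega
  · push Not at hz
    -- the last support index
    obtain ⟨j, hj, hmax⟩ := Finset.exists_max_image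
      (Finset.univ.filter fun k : Fin (m a) => u ⟨a, k⟩ ≠ 0) (fun k => (k : ℕ))
      (by
        obtain ⟨k, hk⟩ := hz
        exact ⟨k, Finset.mem_filter.mpr ⟨Finset.mem_univ k, hk⟩⟩)
    have hj1 : u ⟨a, j⟩ ≠ 0 := (Finset.mem_filter.mp hj).2
    have hj2 : ∀ k : Fin (m a), j < k → u ⟨a, k⟩ = 0 := by
      intro k hk
      by_contra h
      have h1 := hmax k (Finset.mem_filter.mpr ⟨Finset.mem_univ k, h⟩)
      have h2 : (j : ℕ) < k := hk
      omega
    obtain ⟨r, hr1, hr2, hr3⟩ : ∃ r, Vis A u a r ∧ (j : ℕ) < r ∧ r ≤ m a := by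
      by_cases hjm : (j : ℕ) + 1 = m a
      · exact ⟨m a, vis_last A u hu hN a j hjm hj1, j.2, le_rfl⟩
      · have hj3 : (j : ℕ) + 1 < m a := by
          have := j.2
          omega
        obtain ⟨r, h1, h2, h3, _⟩ := hdet a j hj1 hj3 (hj2 _ (Fin.lt_def.mpr (Nat.lt_succ_self _)))
        exact ⟨r, h1, h2, h3.le⟩
    obtain ⟨w, hw, hface, k, hk, hwk⟩ := hr1
    have h1 : mue (part u a) i ≤ ∑ l ∈ Finset.range r, part u a l := by
      unfold mue
      have h2 : ∑ l ∈ Finset.range (i + 1), part u a l =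
          ∑ l ∈ (Finset.range (i + 1)).filter (fun l => l < r), part u a l := by
        rw [Finset.sum_filter_of_ne]
        intro l hl hne
        by_contra hlr
        apply hne
        rw [Finset.mem_range] at hl
        unfold part extb
        rw [dif_pos (show l < m a by omega)]
        exact hj2 _ (Fin.lt_def.mpr (by simp only; omega))
      rw [h2]
      refine Finset.sum_le_sum_of_subset fun l hl => ?_
      rw [Finset.mem_filter] at hl
      exact Finset.mem_range.mpr hl.2
    have h2 : ∑ l ∈ Finset.range r, part u a l ≤ ev (part u a) r := by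
      unfold ev
      refine Finset.sum_le_sum fun l hl => ?_
      rw [Finset.mem_range] at hl
      exact Nat.le_mul_of_pos_left _ (by omega)
    have h3 : ev (part u a) r ≤ minF (AW A) u := by
      have h4 := sum_Wf_mul w (fun c => (u c : ℚ))
      have h5 : ∑ c, (Wf w c : ℚ) * (u c : ℚ) = (minF (AW A) u : ℚ) := by
        rw [m11a_minF _ _ _ hface]
        unfold pair
        push_cast
        rfl
      rw [h5] at h4
      have h6 : ∀ c : (Σ a, Fin (m a)), 0 ≤ (w c : ℚ) * evq (fun c => (u c : ℚ)) c.1 (c.2 + 1) := by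
        intro c
        rw [evq_cast u c.1 (c.2 + 1) (by have := c.2.2; omega)]
        positivity
      have h7 := Finset.single_le_sum (f := fun c : (Σ a, Fin (m a)) =>
        (w c : ℚ) * evq (fun c => (u c : ℚ)) c.1 (c.2 + 1)) (fun c _ => h6 c)
        (Finset.mem_univ (⟨a, k⟩ : Σ a, Fin (m a)))
      simp only at h7
      rw [← h4, hk, evq_cast u a r hr3] at h7
      have h8 : (1 : ℚ) ≤ (w ⟨a, k⟩ : ℚ) := by
        exact_mod_cast Nat.one_le_iff_ne_zero.mpr hwk
      have h9 : (0 : ℚ) ≤ (ev (part u a) r : ℚ) := Nat.cast_nonneg _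
      have h10 : (ev (part u a) r : ℚ) ≤ (minF (AW A) u : ℚ) := by
        calc (ev (part u a) r : ℚ) = 1 * (ev (part u a) r : ℚ) := (one_mul _).symm
          _ ≤ (w ⟨a, k⟩ : ℚ) * (ev (part u a) r : ℚ) := by gcongr
          _ ≤ _ := h7
      exact_mod_cast h10
    exact h1.trans (h2.trans h3)

end MotMono
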