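import Pool.Agent.Lib.MP_4e5fcd_ag.Det.M5

/-! # DET-M5b: the set of the jets with given structure has Euler characteristic one -/

open MvPolynomial

namespace MotMono

/-- the subtracted term of the elimination -/
noncomputable def m5b_X {m n : ℕ} (c : ℕ) (M : Matrix (Fin (m + 1)) (Fin (n + 1)) (PowerSeries ℂ))
    (i : Fin m) (k : Fin n) : PowerSeries ℂ :=
  divX c M i.succ 0 * (divX c M 0 0)⁻¹ * divX c M 0 k.succ

theorem m5b_elim {m n : ℕ} (c : ℕ) (M : Matrix (Fin (m + 1)) (Fin (n + 1)) (PowerSeries ℂ))
    (i : Fin m) (k : Fin n) :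
    elim1 (divX c M) i k = divX c M i.succ k.succ - m5b_X c M i k := rfl

theorem m5b_X_congr {m n : ℕ} (c : ℕ) (M M' : Matrix (Fin (m + 1)) (Fin (n + 1)) (PowerSeries ℂ))
    (h1 : ∀ k, M 0 k = M' 0 k) (h2 : ∀ i : Fin m, M i.succ 0 = M' i.succ 0) :
    m5b_X c M = m5b_X c M' := by
  funext i k
  unfold m5b_X divX
  rw [h1, h1, h2]

theorem m5b_regSer_divX {σ ι κ : Type} {E : Set (σ → ℂ)} {M : (σ → ℂ) → Matrix ι κ (PowerSeries ℂ)}
    (c : ℕ) (hM : ∀ i k, RegSer E fun x => M x i k) (i : ι) (k : κ) :
    RegSer E fun x => divX c (M x) i k := by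
  intro l
  have e : (fun x => PowerSeries.coeff l (divX c (M x) i k))
      = fun x => PowerSeries.coeff (l + c) (M x i k) := by
    funext x
    unfold divX
    rw [PowerSeries.coeff_mk]
  rw [e]
  exact hM i k (l + c)

theorem m5b_regSer_X {σ : Type} {m n : ℕ} {E : Set (σ → ℂ)}
    {M : (σ → ℂ) → Matrix (Fin (m + 1)) (Fin (n + 1)) (PowerSeries ℂ)} (c : ℕ)
    (hM : ∀ i k, RegSer E fun x => M x i k)
    (h0 : ∀ x ∈ E, PowerSeries.coeff c (M x 0 0) ≠ 0) (i : Fin m) (k : Fin n) :
    RegSer E fun x => m5b_X c (M x) i k := by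
  have h := fun i k => m5b_regSer_divX c hM i k
  refine ((h _ _).mul (RegSer.inv (h 0 0) fun x hx => ?_)).mul (h _ _)
  rw [← PowerSeries.coeff_zero_eq_constantCoeff_apply]
  unfold divX
  rw [PowerSeries.coeff_mk, zero_add]
  exact h0 x hx

theorem m5b_coeff {ι κ : Type} {L : ℕ} (γ : (ι × κ) × Fin L → ℂ) (i : ι) (k : κ) (l : ℕ)
    (h : l < L) : PowerSeries.coeff l (mser γ i k) = γ ((i, k), ⟨l, h⟩) := by
  unfold mser
  rw [PowerSeries.coeff_mk, dif_pos h]

theorem m5b_mser_eq {ι κ : Type} {L : ℕ} (γ γ' : (ι × κ) × Fin L → ℂ) (i : ι) (k : κ)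
    (h : ∀ l : Fin L, γ ((i, k), l) = γ' ((i, k), l)) : mser γ i k = mser γ' i k := by
  unfold mser
  ext l
  rw [PowerSeries.coeff_mk, PowerSeries.coeff_mk]
  by_cases hl : l < L
  · rw [dif_pos hl, dif_pos hl, h]
  · rw [dif_neg hl, dif_neg hl]

theorem m5b_mue (b : ℕ → ℕ) (i : ℕ) : mue b (i + 1) = b 0 + mue (fun j => b (j + 1)) i := by
  unfold mue
  rw [Finset.sum_range_succ']
  ring

theorem m5b_ref_shift {m n : ℕ} (b : ℕ → ℕ) (z : ℕ → ℂ) (i : Fin m) (k : Fin n) (l : ℕ) :
    PowerSeries.coeff (l + b 0) (refM (m + 1) (n + 1) b z i.succ k.succ) =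
      PowerSeries.coeff l (refM m n (fun j => b (j + 1)) (fun j => z (j + 1)) i k) := by
  unfold refM
  by_cases h : (i : ℕ) = k
  · rw [if_pos h, if_pos (by simp [h]), Fin.val_succ, m5b_mue, PowerSeries.coeff_C_mul,
      PowerSeries.coeff_C_mul, PowerSeries.coeff_X_pow, PowerSeries.coeff_X_pow]
    congr 1
    by_cases h2 : l = mue (fun j => b (j + 1)) i
    · rw [if_pos h2, if_pos (by omega)]
    · rw [if_neg h2, if_neg (by omega)]
  · rw [if_neg h, if_neg (by simpa using h), map_zero, map_zero]

theorem m5b_ref_low {m n : ℕ} (b : ℕ → ℕ) (z : ℕ → ℂ) (i : Fin m) (k : Fin n) (l : ℕ)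
    (hl : l < b 0) : PowerSeries.coeff l (refM (m + 1) (n + 1) b z i.succ k.succ) = 0 := by
  unfold refM
  by_cases h : ((i.succ : Fin (m + 1)) : ℕ) = (k.succ : Fin (n + 1))
  · rw [if_pos h, Fin.val_succ, m5b_mue, PowerSeries.coeff_C_mul, PowerSeries.coeff_X_pow,
      if_neg (by omega), mul_zero]
  · rw [if_neg h, map_zero]

theorem m5b_ref_zero {m n : ℕ} (b : ℕ → ℕ) (z : ℕ → ℂ) :
    PowerSeries.coeff (b 0) (refM (m + 1) (n + 1) b z 0 0) = z 0 := by
  unfold refM
  have : mue b ((0 : Fin (m + 1)) : ℕ) = b 0 := by simp [mue]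
  rw [if_pos (by simp), this, PowerSeries.coeff_C_mul, PowerSeries.coeff_X_pow, if_pos rfl, mul_one]
  rfl

theorem m5b_ref_col {m n : ℕ} (b : ℕ → ℕ) (z : ℕ → ℂ) (i : Fin m) (l : ℕ) :
    PowerSeries.coeff l (refM (m + 1) (n + 1) b z i.succ 0) = 0 := by
  unfold refM
  rw [if_neg (by simp), map_zero]

/-- assembling a jet -/
noncomputable def m5b_asm {m n : ℕ} (b : ℕ → ℕ) (z : ℕ → ℂ) {L : ℕ}
    (a : (Fin (n + 1) ⊕ Fin m) × Fin L → ℂ) (d : (Fin m × Fin n) × Fin (L + 1) → ℂ) :
    (Fin (m + 1) × Fin (n + 1)) × Fin (b 0 + 1 + L) → ℂ :=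
  fun c => Fin.cases
    (if h : b 0 + 1 ≤ c.2 then a (Sum.inl c.1.2, ⟨c.2 - (b 0 + 1), by have := c.2.2; omega⟩)
      else PowerSeries.coeff c.2 (refM (m + 1) (n + 1) b z 0 c.1.2))
    (fun i => Fin.cases
      (if h : b 0 + 1 ≤ c.2 then a (Sum.inr i, ⟨c.2 - (b 0 + 1), by have := c.2.2; omega⟩)
        else PowerSeries.coeff c.2 (refM (m + 1) (n + 1) b z i.succ 0))
      (fun k => if h : b 0 ≤ c.2 then d ((i, k), ⟨c.2 - b 0, by have := c.2.2; omega⟩) else 0)
      c.1.2) c.1.1

section
variable {m n : ℕ} (b : ℕ → ℕ) (z : ℕ → ℂ) {L : ℕ}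
  (a : (Fin (n + 1) ⊕ Fin m) × Fin L → ℂ) (d : (Fin m × Fin n) × Fin (L + 1) → ℂ)

theorem m5b_asm_row (k : Fin (n + 1)) (l : Fin (b 0 + 1 + L)) :
    m5b_asm b z a d ((0, k), l) =
      if h : b 0 + 1 ≤ l then a (Sum.inl k, ⟨l - (b 0 + 1), by have := l.2; omega⟩)
      else PowerSeries.coeff l (refM (m + 1) (n + 1) b z 0 k) := rfl

theorem m5b_asm_col (i : Fin m) (l : Fin (b 0 + 1 + L)) :
    m5b_asm b z a d ((i.succ, 0), l) =
      if h : b 0 + 1 ≤ l then a (Sum.inr i, ⟨l - (b 0 + 1), by have := l.2; omega⟩)
        else PowerSeries.coeff l (refM (m + 1) (n + 1) b z i.succ 0) := rfl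

theorem m5b_asm_D (i : Fin m) (k : Fin n) (l : Fin (b 0 + 1 + L)) :
    m5b_asm b z a d ((i.succ, k.succ), l) =
      if h : b 0 ≤ l then d ((i, k), ⟨l - b 0, by have := l.2; omega⟩) else 0 := rfl

theorem m5b_X_asm (d' : (Fin m × Fin n) × Fin (L + 1) → ℂ) :
    m5b_X (b 0) (mser (m5b_asm b z a d)) = m5b_X (b 0) (mser (m5b_asm b z a d')) :=
  m5b_X_congr _ _ _ (fun k => m5b_mser_eq _ _ _ _ fun l => rfl)
    (fun i => m5b_mser_eq _ _ _ _ fun l => rfl)

end

theorem chi_str (χ : K0 →+* ℤ) (hχ : IsEulerChar χ) (m n L : ℕ) (hmn : m ≤ n) (b : ℕ → ℕ)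
    (z : ℕ → ℂ) (hz : ∀ i < m, z i ≠ 0) (hL : ∀ i < m, mue b i < L) :
    χ (cls {γ : (Fin m × Fin n) × Fin L → ℂ | Str m n b z (mser γ)}) = 1 := by
  induction m generalizing n L b z with
  | zero =>
    have e : {γ : (Fin 0 × Fin n) × Fin L → ℂ | Str 0 n b z (mser γ)} = Set.univ := by
      ext γ
      simp [Str]
    rw [e, cls_univ]
    simp
  | succ m ih =>
    obtain ⟨n, rfl⟩ : ∃ n', n = n' + 1 := ⟨n - 1, by omega⟩
    have hb0 : b 0 < L := by
      have := hL 0 (Nat.succ_pos m)
      simpa [mue] using this
    obtain ⟨L, rfl⟩ : ∃ L2, L = b 0 + 1 + L2 := ⟨L - (b 0 + 1), by omega⟩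
    set b' : ℕ → ℕ := fun j => b (j + 1) with hb'
    set z' : ℕ → ℂ := fun j => z (j + 1) with hz'
    have hz1 : ∀ i < m, z' i ≠ 0 := fun i hi => hz (i + 1) (by omega)
    have hL1 : ∀ i < m, mue b' i < L + 1 := by
      intro i hi
      have := hL (i + 1) (by omega)
      rw [m5b_mue] at this
      simp only [hb']
      omega
    have hIH := ih n (L + 1) (by omega) b' z' hz1 hL1
    set S' : Set ((Fin m × Fin n) × Fin (L + 1) → ℂ) := {γ | Str m n b' z' (mser γ)} with hS'
    set A : Set ((Fin (m + 1) × Fin (n + 1)) × Fin (b 0 + 1 + L) → ℂ) :=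
      {γ | Str (m + 1) (n + 1) b z (mser γ)} with hA
    have cS' : Constr S' := constr_str m n (L + 1) b' z' hz1
    have cA : Constr A := constr_str (m + 1) (n + 1) (b 0 + 1 + L) b z hz
    set T := prodSet (Set.univ : Set ((Fin (n + 1) ⊕ Fin m) × Fin L → ℂ)) S' with hT
    have cT : Constr T := constr_univ.prodSet cS'
    have hχT : χ (cls T) = 1 := by
      rw [hT, cls_prodSet constr_univ cS', cls_univ, map_mul, map_pow, hχ.line, hIH]
      simp
    rw [← hχT]
    congr 1
    refine cls_iso cA cT ?_
    -- facts about elements of `A`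
    have hAlow : ∀ γ ∈ A, ∀ i k (l : ℕ) (h : l ≤ b 0),
        γ ((i, k), ⟨l, by omega⟩) = PowerSeries.coeff l (refM (m + 1) (n + 1) b z i k) := by
      intro γ hγ i k l h
      rw [← hγ.1 i k l h, m5b_coeff γ i k l (by omega)]
    have hA0 : ∀ γ ∈ A, PowerSeries.coeff (b 0) (mser γ 0 0) ≠ 0 := by
      intro γ hγ
      rw [hγ.1 0 0 (b 0) le_rfl, m5b_ref_zero]
      exact hz 0 (Nat.succ_pos m)
    set f : ((Fin (m + 1) × Fin (n + 1)) × Fin (b 0 + 1 + L) → ℂ) →
        ((Fin (n + 1) ⊕ Fin m) × Fin L ⊕ (Fin m × Fin n) × Fin (L + 1) → ℂ) := fun γ =>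
      Sum.elim (fun p => Sum.elim (fun k => γ ((0, k), ⟨b 0 + 1 + p.2, by have := p.2.2; omega⟩))
        (fun i => γ ((i.succ, 0), ⟨b 0 + 1 + p.2, by have := p.2.2; omega⟩)) p.1)
        (fun p => PowerSeries.coeff (p.2 : ℕ) (elim1 (divX (b 0) (mser γ)) p.1.1 p.1.2)) with hf
    set g0 : ((Fin (n + 1) ⊕ Fin m) × Fin L ⊕ (Fin m × Fin n) × Fin (L + 1) → ℂ) →
        ((Fin (m + 1) × Fin (n + 1)) × Fin (b 0 + 1 + L) → ℂ) := fun y =>
      m5b_asm b z (fun p => y (Sum.inl p)) fun _ => 0 with hg0
    set g : ((Fin (n + 1) ⊕ Fin m) × Fin L ⊕ (Fin m × Fin n) × Fin (L + 1) → ℂ) →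
        ((Fin (m + 1) × Fin (n + 1)) × Fin (b 0 + 1 + L) → ℂ) := fun y =>
      m5b_asm b z (fun p => y (Sum.inl p)) fun p => y (Sum.inr p) +
        PowerSeries.coeff (p.2 : ℕ) (m5b_X (b 0) (mser (g0 y)) p.1.1 p.1.2) with hg
    have hXg : ∀ y, m5b_X (b 0) (mser (g y)) = m5b_X (b 0) (mser (g0 y)) := fun y =>
      m5b_X_asm b z _ _ _
    have hg00 : ∀ y, PowerSeries.coeff (b 0) (mser (g0 y) 0 0) = z 0 := by
      intro y
      rw [m5b_coeff _ _ _ _ (by omega), hg0]
      simp only []
      rw [m5b_asm_row, dif_neg (by simp), m5b_ref_zero]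
    -- the last block of `g y`
    have hel : ∀ y i k (l : Fin (L + 1)), PowerSeries.coeff (l : ℕ)
        (elim1 (divX (b 0) (mser (g y))) i k) = y (Sum.inr ((i, k), l)) := by
      intro y i k l
      have hl := l.2
      rw [m5b_elim, map_sub, hXg]
      have e1 : PowerSeries.coeff (l : ℕ) (divX (b 0) (mser (g y)) i.succ k.succ)
          = y (Sum.inr ((i, k), l)) +
            PowerSeries.coeff (l : ℕ) (m5b_X (b 0) (mser (g0 y)) i k) := by
        unfold divX
        rw [PowerSeries.coeff_mk, m5b_coeff _ _ _ _ (by omega : (l : ℕ) + b 0 < b 0 + 1 + L)]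
        have e2 : g y ((i.succ, k.succ), ⟨(l : ℕ) + b 0, by omega⟩) =
            if h : b 0 ≤ ((⟨(l : ℕ) + b 0, by omega⟩ : Fin (b 0 + 1 + L)) : ℕ) then
              (fun p : (Fin m × Fin n) × Fin (L + 1) => y (Sum.inr p) +
                PowerSeries.coeff (p.2 : ℕ) (m5b_X (b 0) (mser (g0 y)) p.1.1 p.1.2))
                ((i, k), ⟨((⟨(l : ℕ) + b 0, by omega⟩ : Fin (b 0 + 1 + L)) : ℕ) - b 0, by
                  simp only []; omega⟩)
            else 0 := m5b_asm_D b z _ _ i k _
        rw [e2, dif_pos (by simp only []; omega)]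
        have e3 : (⟨((⟨(l : ℕ) + b 0, by omega⟩ : Fin (b 0 + 1 + L)) : ℕ) - b 0, by
                  simp only []; omega⟩ : Fin (L + 1)) = l := by
          apply Fin.ext
          simp only []
          omega
        rw [e3]
      rw [e1]
      ring
    -- `g y` has the right coefficients up to `b 0`
    have hglow : ∀ y ∈ T, ∀ i k, ∀ l ≤ b 0, PowerSeries.coeff l (mser (g y) i k) =
        PowerSeries.coeff l (refM (m + 1) (n + 1) b z i k) := by
      intro y hy i k l hl
      rw [m5b_coeff _ _ _ _ (by omega : l < b 0 + 1 + L)]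
      refine Fin.cases ?_ (fun i => ?_) i
      · rw [hg]
        simp only []
        rw [m5b_asm_row, dif_neg (by simp only []; omega)]
      · refine Fin.cases ?_ (fun k => ?_) k
        · rw [hg]
          simp only []
          rw [m5b_asm_col, dif_neg (by simp only []; omega)]
        · rcases Nat.lt_or_ge l (b 0) with h | h
          · rw [m5b_ref_low b z i k l h, hg]
            simp only []
            rw [m5b_asm_D, dif_neg (by simp only []; omega)]
          · have hlb : l = b 0 := le_antisymm hl h
            subst hlb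
            have e1 := hel y i k 0
            rw [m5b_elim, map_sub] at e1
            have e2 : PowerSeries.coeff ((0 : Fin (L + 1)) : ℕ)
                (divX (b 0) (mser (g y)) i.succ k.succ)
                = g y ((i.succ, k.succ), ⟨b 0, by omega⟩) := by
              unfold divX
              rw [PowerSeries.coeff_mk]
              have : ((0 : Fin (L + 1)) : ℕ) + b 0 = b 0 := by simp
              rw [this, m5b_coeff]
            have e3 : PowerSeries.coeff ((0 : Fin (L + 1)) : ℕ) (m5b_X (b 0) (mser (g y)) i k)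
                = 0 := by
              have h0 : ((0 : Fin (L + 1)) : ℕ) = 0 := rfl
              rw [h0, PowerSeries.coeff_zero_eq_constantCoeff_apply]
              unfold m5b_X
              rw [map_mul, map_mul]
              have e4 : PowerSeries.constantCoeff (divX (b 0) (mser (g y)) i.succ 0) = 0 := by
                rw [← PowerSeries.coeff_zero_eq_constantCoeff_apply]
                unfold divX
                rw [PowerSeries.coeff_mk, zero_add, m5b_coeff _ _ _ _ (by omega), hg]
                simp only []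
                rw [m5b_asm_col, dif_neg (by simp), m5b_ref_col]
              rw [e4, zero_mul, zero_mul]
            rw [e2, e3, sub_zero] at e1
            rw [e1]
            -- the constant term of the last block is prescribed
            have hm : ∃ m2 n2, m = m2 + 1 ∧ n = n2 + 1 := by
              have hi := i.2
              have hk := k.2
              exact ⟨m - 1, n - 1, by omega, by omega⟩
            have hstr : Str m n b' z' (mser fun j => y (Sum.inr j)) := hy.2
            have e5 : PowerSeries.coeff 0 (mser (fun j => y (Sum.inr j)) i k) =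
                PowerSeries.coeff 0 (refM m n b' z' i k) := by
              obtain ⟨m2, n2, rfl, rfl⟩ := hm
              exact hstr.1 i k 0 (Nat.zero_le _)
            rw [m5b_coeff _ _ _ _ (Nat.succ_pos L)] at e5
            have e6 := m5b_ref_shift (m := m) (n := n) b z i k 0
            rw [zero_add] at e6
            rw [e6]
            exact e5
    refine ⟨f, g, ?_, ?_, ?_, ?_, ?_, ?_⟩
    · -- `f` is regular
      have hreg := fun i k => m5b_regSer_X (E := A) (M := fun γ => mser γ) (b 0)
        (fun i k => regSer_mser A i k) hA0 i k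
      intro j
      rcases j with p | p
      · obtain ⟨c, l⟩ := p
        rcases c with k | i
        · exact regFun_coord A _
        · exact regFun_coord A _
      · obtain ⟨⟨i, k⟩, l⟩ := p
        exact ((m5b_regSer_divX (b 0) (fun i k => regSer_mser A i k) i.succ k.succ).sub
          (hreg i k)) (l : ℕ)
    · -- `g` is regular
      have hg0r : ∀ c, RegFun T fun y => g0 y c := by
        rintro ⟨⟨i, k⟩, l⟩
        refine Fin.cases ?_ (fun i => ?_) i
        · by_cases h : b 0 + 1 ≤ (l : ℕ)
          · have e : (fun y => g0 y ((0, k), l)) = fun y => y (Sum.inl (Sum.inl k,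
                ⟨l - (b 0 + 1), by have := l.2; omega⟩)) := by
              funext y
              rw [hg0]
              simp only []
              rw [m5b_asm_row, dif_pos h]
            rw [e]
            exact regFun_coord T _
          · have e : (fun y => g0 y ((0, k), l)) = fun _ =>
                PowerSeries.coeff l (refM (m + 1) (n + 1) b z 0 k) := by
              funext y
              rw [hg0]
              simp only []
              rw [m5b_asm_row, dif_neg h]
            rw [e]
            exact regFun_const T _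
        · refine Fin.cases ?_ (fun k => ?_) k
          · by_cases h : b 0 + 1 ≤ (l : ℕ)
            · have e : (fun y => g0 y ((i.succ, 0), l)) = fun y => y (Sum.inl (Sum.inr i,
                  ⟨l - (b 0 + 1), by have := l.2; omega⟩)) := by
                funext y
                rw [hg0]
                simp only []
                rw [m5b_asm_col, dif_pos h]
              rw [e]
              exact regFun_coord T _
            · have e : (fun y => g0 y ((i.succ, 0), l)) = fun _ =>
                  PowerSeries.coeff l (refM (m + 1) (n + 1) b z i.succ 0) := by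
                funext y
                rw [hg0]
                simp only []
                rw [m5b_asm_col, dif_neg h]
              rw [e]
              exact regFun_const T _
          · have e : (fun y => g0 y ((i.succ, k.succ), l)) = fun _ => 0 := by
              funext y
              rw [hg0]
              simp only []
              rw [m5b_asm_D]
              split_ifs <;> rfl
            rw [e]
            exact regFun_const T _
      have hg0s : ∀ i k, RegSer T fun y => mser (g0 y) i k := by
        intro i k l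
        unfold mser
        simp only [PowerSeries.coeff_mk]
        by_cases hl : l < b 0 + 1 + L
        · simp only [dif_pos hl]
          exact hg0r _
        · simp only [dif_neg hl]
          exact regFun_const T 0
      have hreg := fun i k => m5b_regSer_X (E := T) (M := fun y => mser (g0 y)) (b 0) hg0s
        (fun y _ => by rw [hg00]; exact hz 0 (Nat.succ_pos m)) i k
      rintro ⟨⟨i, k⟩, l⟩
      refine Fin.cases ?_ (fun i => ?_) i
      · have e : (fun y => g y ((0, k), l)) = fun y => g0 y ((0, k), l) := rfl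
        rw [e]
        exact hg0r _
      · refine Fin.cases ?_ (fun k => ?_) k
        · have e : (fun y => g y ((i.succ, 0), l)) = fun y => g0 y ((i.succ, 0), l) := rfl
          rw [e]
          exact hg0r _
        · by_cases h : b 0 ≤ (l : ℕ)
          · have e : (fun y => g y ((i.succ, k.succ), l)) = fun y =>
                y (Sum.inr ((i, k), ⟨l - b 0, by have := l.2; omega⟩)) +
                  PowerSeries.coeff ((l : ℕ) - b 0) (m5b_X (b 0) (mser (g0 y)) i k) := by
              funext y
              rw [hg]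
              simp only []
              rw [m5b_asm_D, dif_pos h]
            rw [e]
            exact (regFun_coord T _).add (hreg i k _)
          · have e : (fun y => g y ((i.succ, k.succ), l)) = fun _ => 0 := by
              funext y
              rw [hg]
              simp only []
              rw [m5b_asm_D, dif_neg h]
            rw [e]
            exact regFun_const T _
    · -- `f` maps `A` to `T`
      intro γ hγ
      refine ⟨Set.mem_univ _, ?_⟩
      show Str m n b' z' (mser fun j => f γ (Sum.inr j))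
      refine (str_congr m n (L + 1) b' z' hz1 hL1 _ _ fun i k l hl => ?_).1 hγ.2
      rw [m5b_coeff _ _ _ _ hl]
      rfl
    · -- `g` maps `T` to `A`
      intro y hy
      refine ⟨hglow y hy, ?_⟩
      refine (str_congr m n (L + 1) b' z' hz1 hL1 _ _ fun i k l hl => ?_).1 hy.2
      rw [m5b_coeff _ _ _ _ hl, hel y i k ⟨l, hl⟩]
    · -- `g (f γ) = γ`
      intro γ hγ
      have erow : ∀ (d : (Fin m × Fin n) × Fin (L + 1) → ℂ) k l,
          m5b_asm b z (fun p => f γ (Sum.inl p)) d ((0, k), l) = γ ((0, k), l) := by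
        intro d k l
        rw [m5b_asm_row]
        by_cases h : b 0 + 1 ≤ (l : ℕ)
        · rw [dif_pos h]
          show γ ((0, k), ⟨b 0 + 1 + (l - (b 0 + 1)), _⟩) = γ ((0, k), l)
          congr 2
          apply Fin.ext
          simp only []
          omega
        · rw [dif_neg h]
          exact (hAlow γ hγ 0 k l (by omega)).symm
      have ecol : ∀ (d : (Fin m × Fin n) × Fin (L + 1) → ℂ) (i : Fin m) l,
          m5b_asm b z (fun p => f γ (Sum.inl p)) d ((i.succ, 0), l) = γ ((i.succ, 0), l) := by
        intro d i l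
        rw [m5b_asm_col]
        by_cases h : b 0 + 1 ≤ (l : ℕ)
        · rw [dif_pos h]
          show γ ((i.succ, 0), ⟨b 0 + 1 + (l - (b 0 + 1)), _⟩) = γ ((i.succ, 0), l)
          congr 2
          apply Fin.ext
          simp only []
          omega
        · rw [dif_neg h]
          exact (hAlow γ hγ i.succ 0 l (by omega)).symm
      have eX : m5b_X (b 0) (mser (g0 (f γ))) = m5b_X (b 0) (mser γ) :=
        m5b_X_congr _ _ _ (fun k => m5b_mser_eq _ _ _ _ fun l => erow _ k l)
          (fun i => m5b_mser_eq _ _ _ _ fun l => ecol _ i l)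
      funext c
      obtain ⟨⟨i, k⟩, l⟩ := c
      refine Fin.cases ?_ (fun i => ?_) i
      · exact erow _ k l
      · refine Fin.cases ?_ (fun k => ?_) k
        · exact ecol _ i l
        · by_cases h : b 0 ≤ (l : ℕ)
          · have e : g (f γ) ((i.succ, k.succ), l) =
                f γ (Sum.inr ((i, k), ⟨l - b 0, by have := l.2; omega⟩)) +
                  PowerSeries.coeff ((l : ℕ) - b 0) (m5b_X (b 0) (mser (g0 (f γ))) i k) := by
              rw [hg]
              simp only []
              rw [m5b_asm_D, dif_pos h]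
            rw [e, eX]
            have e2 : f γ (Sum.inr ((i, k), ⟨l - b 0, by have := l.2; omega⟩)) =
                PowerSeries.coeff ((l : ℕ) - b 0) (elim1 (divX (b 0) (mser γ)) i k) := rfl
            rw [e2, m5b_elim, map_sub]
            have e3 : PowerSeries.coeff ((l : ℕ) - b 0) (divX (b 0) (mser γ) i.succ k.succ)
                = γ ((i.succ, k.succ), l) := by
              unfold divX
              rw [PowerSeries.coeff_mk]
              have e4 : (l : ℕ) - b 0 + b 0 = l := by omega
              rw [e4, m5b_coeff _ _ _ _ l.2]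
            rw [e3]
            ring
          · have e : g (f γ) ((i.succ, k.succ), l) = 0 := by
              rw [hg]
              simp only []
              rw [m5b_asm_D, dif_neg h]
            rw [e]
            have e2 := hAlow γ hγ i.succ k.succ l (by omega)
            rw [m5b_ref_low b z i k l (by omega)] at e2
            exact e2.symm
    · -- `f (g y) = y`
      intro y hy
      funext j
      rcases j with p | p
      · obtain ⟨c, l⟩ := p
        have hl := l.2
        rcases c with k | i
        · show g y ((0, k), ⟨b 0 + 1 + l, _⟩) = y (Sum.inl (Sum.inl k, l))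
          rw [hg]
          simp only []
          rw [m5b_asm_row, dif_pos (by simp only []; omega)]
          congr 3
          apply Fin.ext
          simp only []
          omega
        · show g y ((i.succ, 0), ⟨b 0 + 1 + l, _⟩) = y (Sum.inl (Sum.inr i, l))
          rw [hg]
          simp only []
          rw [m5b_asm_col, dif_pos (by simp only []; omega)]
          congr 3
          apply Fin.ext
          simp only []
          omega
      · obtain ⟨⟨i, k⟩, l⟩ := p
        exact hel y i k l

end MotMono
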