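import Pool.Agent.Lib.MP_4e5fcd_ag.Det.M6a
import Pool.Agent.Lib.MP_4e5fcd_ag.Det.U1

/-! # DET-M6: the group of leading coefficients -/

open MvPolynomial

namespace MotMono

variable {s : ℕ} {m : Fin s → ℕ}

theorem m6_zero {n : ℕ} {M : Type} [CommMonoid M] (g : Fin n → M) (h : 0 < n) :
    ∏ k : Fin n, (if k ≤ ⟨0, h⟩ then g k else 1) = g ⟨0, h⟩ := by
  rw [Finset.prod_eq_single (⟨0, h⟩ : Fin n)]
  · simp
  · intro k _ hk
    rw [if_neg]
    intro h1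
    apply hk
    ext
    have h2 : (k : ℕ) ≤ 0 := h1
    simp only
    omega
  · intro h1
    exact absurd (Finset.mem_univ _) h1

theorem m6_succ {n : ℕ} {M : Type} [CommMonoid M] (g : Fin n → M) (i : ℕ) (h : i + 1 < n) :
    ∏ k : Fin n, (if k ≤ ⟨i + 1, h⟩ then g k else 1) =
      (∏ k : Fin n, (if k ≤ ⟨i, by omega⟩ then g k else 1)) * g ⟨i + 1, h⟩ := by
  have h1 : ∀ k : Fin n, (if k ≤ ⟨i + 1, h⟩ then g k else 1) =
      (if k ≤ ⟨i, by omega⟩ then g k else 1) * (if k = ⟨i + 1, h⟩ then g k else 1) := by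
    intro k
    by_cases hk : k = ⟨i + 1, h⟩
    · subst hk
      rw [if_pos le_rfl, if_pos rfl, if_neg, one_mul]
      intro h2
      have h3 : i + 1 ≤ i := h2
      omega
    · have hk' : (k : ℕ) ≠ i + 1 := fun h2 => hk (Fin.ext h2)
      rw [if_neg hk, mul_one]
      by_cases h2 : k ≤ ⟨i, by omega⟩
      · have h3 : (k : ℕ) ≤ i := h2
        have h4 : k ≤ ⟨i + 1, h⟩ := by
          change (k : ℕ) ≤ i + 1
          omega
        rw [if_pos h2, if_pos h4]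
      · have h4 : ¬ k ≤ ⟨i + 1, h⟩ := by
          intro h5
          apply h2
          have h6 : (k : ℕ) ≤ i + 1 := h5
          change (k : ℕ) ≤ i
          omega
        rw [if_neg h2, if_neg h4]
  simp only [h1]
  rw [Finset.prod_mul_distrib, Finset.prod_ite_eq' Finset.univ, if_pos (Finset.mem_univ _)]

theorem m6_double {n : ℕ} {M : Type} [CommMonoid M] (g : Fin n → M) (i : Fin n) :
    ∏ i' : Fin n, (if i' ≤ i then ∏ k : Fin n, (if k ≤ i' then g k else 1) else 1) =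
      ∏ k : Fin n, g k ^ ((i : ℕ) + 1 - k) := by
  have h1 : ∀ i' : Fin n, (if i' ≤ i then ∏ k : Fin n, (if k ≤ i' then g k else 1) else 1) =
      ∏ k : Fin n, (if i' ∈ Finset.Icc k i then g k else 1) := by
    intro i'
    split_ifs with h
    · refine Finset.prod_congr rfl fun k _ => ?_
      simp [Finset.mem_Icc, h]
    · symm
      refine Finset.prod_eq_one fun k _ => ?_
      rw [if_neg]
      rw [Finset.mem_Icc]
      exact fun h2 => h h2.2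
  simp only [h1]
  rw [Finset.prod_comm]
  refine Finset.prod_congr rfl fun k _ => ?_
  rw [Finset.prod_ite_mem, Finset.univ_inter, Finset.prod_const, Fin.card_Icc]

theorem m6_face {s : ℕ} {m : Fin s → ℕ} (w : (Σ a, Fin (m a)) → ℕ)
    (η : (Σ a, Fin (m a)) → ℂˣ) :
    ∏ c : (Σ a, Fin (m a)), (∏ i : Fin (m c.1), if i ≤ c.2 then
      ((∏ k : Fin (m c.1), (if k ≤ i then η ⟨c.1, k⟩ else 1) : ℂˣ) : ℂ) else 1) ^ w c =
      ((∏ c, η c ^ Wf w c : ℂˣ) : ℂ) := by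
  have h1 : ∀ c : (Σ a, Fin (m a)), (∏ i : Fin (m c.1), if i ≤ c.2 then
      ((∏ k : Fin (m c.1), (if k ≤ i then η ⟨c.1, k⟩ else 1) : ℂˣ) : ℂ) else 1) =
      ((∏ k : Fin (m c.1), η ⟨c.1, k⟩ ^ ((c.2 : ℕ) + 1 - k) : ℂˣ) : ℂ) := by
    intro c
    rw [← m6_double (fun k => η ⟨c.1, k⟩) c.2, Units.coe_prod]
    refine Finset.prod_congr rfl fun i _ => ?_
    split_ifs <;> simp
  simp only [h1]
  have h2 : ∏ c : (Σ a, Fin (m a)),
      ((∏ k : Fin (m c.1), η ⟨c.1, k⟩ ^ ((c.2 : ℕ) + 1 - k) : ℂˣ) : ℂ) ^ w c =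
      ((∏ c : (Σ a, Fin (m a)),
        (∏ k : Fin (m c.1), η ⟨c.1, k⟩ ^ ((c.2 : ℕ) + 1 - k)) ^ w c : ℂˣ) : ℂ) := by
    rw [Units.coe_prod]
    refine Finset.prod_congr rfl fun c _ => ?_
    rw [Units.val_pow_eq_pow_val]
  rw [h2]
  congr 1
  rw [Fintype.prod_sigma, Fintype.prod_sigma]
  refine Finset.prod_congr rfl fun a _ => ?_
  have h3 : ∀ i : Fin (m a), (∏ k : Fin (m a), η ⟨a, k⟩ ^ ((i : ℕ) + 1 - k)) ^ w ⟨a, i⟩ =
      ∏ k : Fin (m a), η ⟨a, k⟩ ^ (w ⟨a, i⟩ * ((i : ℕ) + 1 - k)) := by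
    intro i
    rw [← Finset.prod_pow]
    refine Finset.prod_congr rfl fun k _ => ?_
    rw [← pow_mul, mul_comm]
  simp only [h3]
  rw [Finset.prod_comm]
  refine Finset.prod_congr rfl fun k _ => ?_
  rw [Finset.prod_pow_eq_pow_sum]
  rfl

/-- `z i = δ * ∏ k ≤ i, η k` -/
theorem gz_equiv (A : Finset ((Σ a, Fin (m a)) → ℕ)) (u : (Σ a, Fin (m a)) → ℕ) (δ : ℂ)
    (hδ : δ ≠ 0) : Nonempty (Hu (AW A) u ≃ Gz A u δ) := by
  set P : ((Σ a, Fin (m a)) → ℂˣ) → (Σ a, Fin (m a)) → ℂˣ := fun η c =>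
    ∏ k : Fin (m c.1), (if k ≤ c.2 then η ⟨c.1, k⟩ else 1) with hP
  have hPz : ∀ (η : (Σ a, Fin (m a)) → ℂˣ) (a : Fin s) (h : 0 < m a),
      P η ⟨a, ⟨0, h⟩⟩ = η ⟨a, ⟨0, h⟩⟩ := by
    intro η a h
    exact m6_zero (fun k => η ⟨a, k⟩) h
  have hPs : ∀ (η : (Σ a, Fin (m a)) → ℂˣ) (a : Fin s) (i : ℕ) (h : i + 1 < m a),
      P η ⟨a, ⟨i + 1, h⟩⟩ = P η ⟨a, ⟨i, by omega⟩⟩ * η ⟨a, ⟨i + 1, h⟩⟩ := by
    intro η a i h
    exact m6_succ (fun k => η ⟨a, k⟩) i h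
  have hmem : ∀ η : Hu (AW A) u, (fun c => δ * ((P η.1 c : ℂˣ) : ℂ)) ∈ Gz A u δ := by
    rintro ⟨η, hη1, hη2⟩
    refine ⟨fun c => mul_ne_zero hδ (Units.ne_zero _), ?_, ?_, ?_⟩
    · intro a i hi
      have h1 : P η ⟨a, i⟩ = 1 := by
        refine Finset.prod_eq_one fun k _ => ?_
        split_ifs with hk
        · exact hη1 _ (hi k hk)
        · rfl
      simp [h1]
    · intro a i h hi
      have h1 := hPs η a i h
      rw [hη1 _ hi, mul_one] at h1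
      change δ * ((P η ⟨a, ⟨i + 1, h⟩⟩ : ℂˣ) : ℂ) = δ * ((P η ⟨a, i⟩ : ℂˣ) : ℂ)
      rw [h1]
    · intro w _ hw
      have h1 := m6_face w η
      rw [hη2 _ hw] at h1
      rw [Units.val_one] at h1
      refine Eq.trans ?_ h1
      refine Finset.prod_congr rfl fun c _ => ?_
      congr 1
      refine Finset.prod_congr rfl fun i _ => ?_
      split_ifs with hi
      · change δ * ((P η ⟨c.1, i⟩ : ℂˣ) : ℂ) / δ = _
        rw [mul_div_cancel_left₀ _ hδ]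
      · rfl
  refine ⟨Equiv.ofBijective (fun η => ⟨_, hmem η⟩) ⟨?_, ?_⟩⟩
  · rintro ⟨η, hη⟩ ⟨η', hη'⟩ h
    have h1 : ∀ c, P η c = P η' c := by
      intro c
      have h2 := congrFun (congrArg Subtype.val h) c
      have h3 : δ * ((P η c : ℂˣ) : ℂ) = δ * ((P η' c : ℂˣ) : ℂ) := h2
      exact Units.ext (mul_left_cancel₀ hδ h3)
    refine Subtype.ext ?_
    funext c
    obtain ⟨a, ⟨i, hi⟩⟩ := c
    change η ⟨a, ⟨i, hi⟩⟩ = η' ⟨a, ⟨i, hi⟩⟩
    cases i with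
    | zero =>
      have h2 := h1 ⟨a, ⟨0, hi⟩⟩
      rwa [hPz, hPz] at h2
    | succ i =>
      have h2 := h1 ⟨a, ⟨i + 1, hi⟩⟩
      rw [hPs, hPs, h1 ⟨a, ⟨i, by omega⟩⟩] at h2
      exact mul_left_cancel h2
  · rintro ⟨z, hz1, hz2, hz3, hz4⟩
    set η : (Σ a, Fin (m a)) → ℂˣ := fun c =>
      if h : (c.2 : ℕ) = 0 then Units.mk0 (z c) (hz1 c) * (Units.mk0 δ hδ)⁻¹
      else Units.mk0 (z c) (hz1 c) *
        (Units.mk0 (z ⟨c.1, ⟨(c.2 : ℕ) - 1, by omega⟩⟩) (hz1 _))⁻¹ with hη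
    have hη0 : ∀ (a : Fin s) (h : 0 < m a), η ⟨a, ⟨0, h⟩⟩ =
        Units.mk0 (z ⟨a, ⟨0, h⟩⟩) (hz1 _) * (Units.mk0 δ hδ)⁻¹ := by
      intro a h
      simp only [hη]
      exact dif_pos trivial
    have hηs : ∀ (a : Fin s) (i : ℕ) (h : i + 1 < m a), η ⟨a, ⟨i + 1, h⟩⟩ =
        Units.mk0 (z ⟨a, ⟨i + 1, h⟩⟩) (hz1 _) *
          (Units.mk0 (z ⟨a, ⟨i, by omega⟩⟩) (hz1 _))⁻¹ := by
      intro a i h
      simp only [hη]
      rw [dif_neg (by simp)]
      rfl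
    have hPη : ∀ (a : Fin s) (i : ℕ) (h : i < m a), P η ⟨a, ⟨i, h⟩⟩ =
        Units.mk0 (z ⟨a, ⟨i, h⟩⟩) (hz1 _) * (Units.mk0 δ hδ)⁻¹ := by
      intro a i
      induction i with
      | zero =>
        intro h
        rw [hPz, hη0]
      | succ i ih =>
        intro h
        rw [hPs, ih (by omega), hηs]
        have h1 : ∀ B C D : ℂˣ, B * C⁻¹ * (D * B⁻¹) = D * C⁻¹ := by
          intro B C D
          have h2 : B * C⁻¹ * (D * B⁻¹) = D * C⁻¹ * (B * B⁻¹) := by ac_rfl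
          rw [h2, mul_inv_cancel, mul_one]
        exact h1 _ _ _
    have hηmem : η ∈ Hu (AW A) u := by
      refine ⟨?_, ?_⟩
      · rintro ⟨a, ⟨i, hi⟩⟩ hc
        cases i with
        | zero =>
          rw [hη0]
          have h1 : z ⟨a, ⟨0, hi⟩⟩ = δ := by
            refine hz2 a _ fun k hk => ?_
            have h2 : k = ⟨0, hi⟩ := by
              ext
              have h3 : (k : ℕ) ≤ 0 := hk
              simp only
              omega
            rw [h2]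
            exact hc
          rw [mul_inv_eq_one]
          exact Units.ext h1
        | succ i =>
          rw [hηs]
          have h1 := hz3 a ⟨i, by omega⟩ hi hc
          rw [mul_inv_eq_one]
          exact Units.ext h1
      · intro W hW
        obtain ⟨w, hw, rfl⟩ := Finset.mem_image.mp hW.1
        have h1 := hz4 w hw hW
        have h2 := m6_face w η
        apply Units.ext
        rw [← h2, Units.val_one]
        refine Eq.trans ?_ h1
        refine Finset.prod_congr rfl fun c _ => ?_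
        congr 1
        refine Finset.prod_congr rfl fun i _ => ?_
        split_ifs with hi
        · have h3 := hPη c.1 i i.2
          change ((P η ⟨c.1, i⟩ : ℂˣ) : ℂ) = _
          rw [h3]
          simp [div_eq_mul_inv]
        · rfl
    refine ⟨⟨η, hηmem⟩, Subtype.ext ?_⟩
    funext c
    change δ * ((P η c : ℂˣ) : ℂ) = z c
    have h3 := hPη c.1 c.2 c.2.2
    have h4 : P η c = Units.mk0 (z c) (hz1 _) * (Units.mk0 δ hδ)⁻¹ := h3
    rw [h4]
    simp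
    field_simp

theorem finite_Gz (A : Finset ((Σ a, Fin (m a)) → ℕ)) (u : (Σ a, Fin (m a)) → ℕ)
    (hu : Ext (AW A) u) (hN : 0 < minF (AW A) u) (δ : ℂ) (hδ : δ ≠ 0) :
    (Gz A u δ).Finite := by
  obtain ⟨e⟩ := gz_equiv A u δ hδ
  have := finite_Hu (AW A) u hu hN
  have : Finite (Gz A u δ) := Finite.of_equiv _ e
  exact Set.toFinite _

theorem card_Gz (A : Finset ((Σ a, Fin (m a)) → ℕ)) (u : (Σ a, Fin (m a)) → ℕ)
    (hu : Ext (AW A) u) (hN : 0 < minF (AW A) u) (hp : Prim u) (δ : ℂ) (hδ : δ ≠ 0) :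
    0 < (Gz A u δ).ncard ∧ minF (AW A) u ∣ (Gz A u δ).ncard := by
  obtain ⟨e⟩ := gz_equiv A u δ hδ
  have := finite_Hu (AW A) u hu hN
  have h1 : (Gz A u δ).ncard = Nat.card (Hu (AW A) u) := (Nat.card_congr e).symm
  rw [h1]
  exact ⟨Nat.card_pos, dvd_card_Hu (AW A) u hu hN hp⟩

end MotMono
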