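import Pool.Agent.Lib.MP_4e5fcd_ag.Det.M8a

/-! # DET-M8b: the contact jets -/

open MvPolynomial

namespace MotMono

variable {s N : ℕ} {m n : Fin s → ℕ}

theorem m8b_aeval_coeff_zero (c : Fin N → Polynomial ℂ) (f : MvPolynomial (Fin N) ℂ) :
    (aeval c f).coeff 0 = eval (fun i => (c i).eval 0) f := by
  rw [Polynomial.coeff_zero_eq_eval_zero]
  induction f using MvPolynomial.induction_on with
  | C a => simp
  | add f g hf hg => rw [map_add, Polynomial.eval_add, hf, hg, map_add]
  | mul_X f i hf => rw [map_mul, Polynomial.eval_mul, hf, map_mul, aeval_X, eval_X]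

theorem m8b_arc_eval_zero {L : ℕ} (γ : Fin N × Fin (L + 1) → ℂ) (i : Fin N) :
    (arc γ i).eval 0 = γ (i, 0) := by
  unfold arc
  rw [Polynomial.eval_finsetSum, Finset.sum_eq_single (0 : Fin (L + 1))]
  · simp
  · intro l _ hl
    rw [Polynomial.eval_mul, Polynomial.eval_pow, Polynomial.eval_X, zero_pow, mul_zero]
    intro h
    exact hl (Fin.ext h)
  · intro h
    exact absurd (Finset.mem_univ _) h

theorem m8b_along_coeff_zero {L : ℕ} (γ : Fin N × Fin (L + 1) → ℂ)
    (f : MvPolynomial (Fin N) ℂ) : (along f γ).coeff 0 = eval (fun i => γ (i, 0)) f := by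
  unfold along
  rw [m8b_aeval_coeff_zero]
  simp only [m8b_arc_eval_zero]

theorem m8b_curveU_coe (e : (Σ a, Fin (m a) × Fin (n a)) ≃ Fin N)
    (u : (Σ a, Fin (m a)) → ℕ) (δ : ℂ) (a : Fin s) (i : Fin (m a)) (k : Fin (n a)) :
    ((curveU e u δ (e ⟨a, (i, k)⟩) : Polynomial ℂ) : PowerSeries ℂ) = refU n u δ a i k := by
  unfold curveU refU refM
  rw [Equiv.symm_apply_apply]
  split_ifs
  · rw [Polynomial.coe_mul, Polynomial.coe_C, Polynomial.coe_pow, Polynomial.coe_X]
  · exact Polynomial.coe_zero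

theorem m8b_base (e : (Σ a, Fin (m a) × Fin (n a)) ≃ Fin N)
    (u : (Σ a, Fin (m a)) → ℕ) (δ : ℂ) (d : ℕ) (γ : Fin N × Fin (d + 1) → ℂ) :
    (∀ i, γ (i, 0) = (curveU e u δ i).eval 0) ↔
      ∀ a i k, PowerSeries.coeff 0 (mser (jetPart e γ a) i k) =
        PowerSeries.coeff 0 (refU n u δ a i k) := by
  have h1 : ∀ a i k, PowerSeries.coeff 0 (mser (jetPart e γ a) i k) = γ (e ⟨a, (i, k)⟩, 0) := by
    intro a i k
    unfold mser jetPart
    rw [PowerSeries.coeff_mk, dif_pos (Nat.succ_pos d)]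
    rfl
  have h2 : ∀ a i k, PowerSeries.coeff 0 (refU n u δ a i k) =
      (curveU e u δ (e ⟨a, (i, k)⟩)).eval 0 := by
    intro a i k
    rw [← m8b_curveU_coe e u δ a i k, Polynomial.coeff_coe, Polynomial.coeff_zero_eq_eval_zero]
  constructor
  · intro h a i k
    rw [h1, h2, h]
  · intro h x
    have h3 := h (e.symm x).1 (e.symm x).2.1 (e.symm x).2.2
    rw [h1, h2] at h3
    have h4 : e ⟨(e.symm x).1, ((e.symm x).2.1, (e.symm x).2.2)⟩ = x := e.apply_symm_apply x
    rw [h4] at h3
    exact h3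

theorem mem_contact_iff (e : (Σ a, Fin (m a) × Fin (n a)) ≃ Fin N)
    (A : Finset ((Σ a, Fin (m a)) → ℕ)) (u : (Σ a, Fin (m a)) → ℕ) (δ : ℂ)
    (hN : 0 < minF (AW A) u)
    (y : ConePoint (detSum e A) (fun i => (curveU e u δ i).eval 0))
    (hy : ∀ f ∈ detSum e A, y.φ 1 f = (aeval (curveU e u δ) f).coeff (minF (AW A) u)) (d : ℕ)
    (hd : 0 < d) (γ : Fin N × Fin (d + 1) → ℂ) :
    γ ∈ contactArcs (detSum e A) _ y d ↔
      (∀ a i k, PowerSeries.coeff 0 (mser (jetPart e γ a) i k) =
        PowerSeries.coeff 0 (refU n u δ a i k)) ∧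
      ∀ w ∈ A, ∀ C : Choice m n w,
        (∀ l < d, PowerSeries.coeff l (prodMinor (fun a => mser (jetPart e γ a)) C) = 0) ∧
        PowerSeries.coeff d (prodMinor (fun a => mser (jetPart e γ a)) C) =
          PowerSeries.coeff (minF (AW A) u) (prodMinor (refU n u δ) C) := by
  have hgen : ∀ w ∈ A, ∀ C : Choice m n w, genMinor e C ∈ detSum e A := by
    intro w hw C
    rw [detSum_eq_span]
    exact Ideal.subset_span ⟨w, hw, C, rfl⟩
  have hco : ∀ (w : (Σ a, Fin (m a)) → ℕ) (C : Choice m n w) (l : ℕ),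
      PowerSeries.coeff l (prodMinor (fun a => mser (jetPart e γ a)) C) =
        (along (genMinor e C) γ).coeff l := by
    intro w C l
    rw [← along_genMinor, Polynomial.coeff_coe]
  have hcu : ∀ w ∈ A, ∀ C : Choice m n w,
      PowerSeries.coeff (minF (AW A) u) (prodMinor (refU n u δ) C) = y.φ 1 (genMinor e C) := by
    intro w hw C
    rw [hy _ (hgen w hw C), ← aeval_curveU_genMinor e, Polynomial.coeff_coe]
  rw [← m8b_base e u δ d γ]
  constructor
  · rintro ⟨h1, h2⟩
    refine ⟨h1, fun w hw C => ?_⟩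
    obtain ⟨h3, h4⟩ := h2 _ (hgen w hw C)
    refine ⟨fun l hl => ?_, ?_⟩
    · rw [hco, h3 l hl]
    · rw [hco, h4, hcu w hw C]
  · rintro ⟨h1, h2⟩
    refine ⟨h1, fun f hf => ?_⟩
    have hf' := hf
    rw [detSum_eq_span] at hf'
    refine Submodule.span_induction
      (p := fun f _ => (∀ l < d, (along f γ).coeff l = 0) ∧ (along f γ).coeff d = y.φ 1 f)
      ?_ ?_ ?_ ?_ hf'
    · rintro f ⟨w, hw, C, rfl⟩
      obtain ⟨h3, h4⟩ := h2 w hw C
      refine ⟨fun l hl => ?_, ?_⟩
      · rw [← hco, h3 l hl]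
      · rw [← hco, h4, hcu w hw C]
    · have h0 : along (0 : MvPolynomial (Fin N) ℂ) γ = 0 := by
        unfold along
        rw [map_zero]
      rw [hy 0 (Ideal.zero_mem _), h0, map_zero]
      exact ⟨fun l _ => Polynomial.coeff_zero _, by rw [Polynomial.coeff_zero,
        Polynomial.coeff_zero]⟩
    · rintro f g hf hg ⟨h3, h4⟩ ⟨h5, h6⟩
      have hadd : along (f + g) γ = along f γ + along g γ := by
        unfold along
        rw [map_add]
      rw [← Ideal.span, ← detSum_eq_span] at hf hg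
      refine ⟨fun l hl => ?_, ?_⟩
      · rw [hadd, Polynomial.coeff_add, h3 l hl, h5 l hl, add_zero]
      · rw [hadd, Polynomial.coeff_add, h4, h6, y.add 1 f (by rwa [pow_one]) g (by rwa [pow_one])]
    · rintro g f hf ⟨h3, h4⟩
      rw [← Ideal.span, ← detSum_eq_span] at hf
      have hmul : along (g • f) γ = along g γ * along f γ := by
        unfold along
        rw [smul_eq_mul, map_mul]
      refine ⟨fun l hl => ?_, ?_⟩
      · rw [hmul, Polynomial.coeff_mul]
        apply Finset.sum_eq_zero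
        intro x hx
        rw [Finset.HasAntidiagonal.mem_antidiagonal] at hx
        rw [h3 x.2 (by omega), mul_zero]
      · rw [hmul, Polynomial.coeff_mul, Finset.sum_eq_single (0, d)]
        · have h5 := y.mul 0 1 g (by rw [pow_zero, Ideal.one_eq_top]; trivial) f (by rwa [pow_one])
          rw [zero_add, y.base] at h5
          rw [smul_eq_mul, h5, h4, m8b_along_coeff_zero]
          have h6 : (fun i => γ (i, 0)) = fun i => (curveU e u δ i).eval 0 := funext h1
          rw [h6]
        · intro x hx hne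
          rw [Finset.HasAntidiagonal.mem_antidiagonal] at hx
          rw [h3 x.2 ?_, mul_zero]
          by_contra h5
          apply hne
          ext
          · show x.1 = 0
            omega
          · show x.2 = d
            omega
        · intro h5
          exact absurd (Finset.HasAntidiagonal.mem_antidiagonal.2 (zero_add d)) h5

end MotMono
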