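import Pool.Agent.Lib.MP_4e5fcd_ag.Det.M10
import Pool.Agent.Lib.MP_4e5fcd_ag.Det.M8b
import Pool.Agent.Lib.MP_4e5fcd_ag.Det.M5b
import Pool.Agent.Lib.MP_4e5fcd_ag.Det.M6
import Pool.Agent.Lib.MP_4e5fcd_ag.Det.M11a
import Pool.Agent.Lib.MP_4e5fcd_ag.Det.C5

/-! # DET-M11: the Lefschetz numbers -/

open MvPolynomial

namespace MotMono

variable {s N : ℕ} {m n : Fin s → ℕ}

theorem m11_extz_ne {m : ℕ} (z : Fin m → ℂ) (hz : ∀ i, z i ≠ 0) (i : ℕ) : extz z i ≠ 0 := by
  unfold extz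
  split_ifs
  · exact hz _
  · exact one_ne_zero

theorem m11_mue_smul (τ : ℕ) (u : (Σ a, Fin (m a)) → ℕ) (a : Fin s) (i : ℕ) :
    mue (part (τ • u) a) i = τ * mue (part u a) i := by
  unfold mue
  rw [Finset.mul_sum]
  apply Finset.sum_congr rfl
  intro k _
  unfold part extb
  split_ifs
  · rfl
  · rfl

/-- the jets with the given structure -/
def m11_G (n : Fin s → ℕ) (b : (Σ a, Fin (m a)) → ℕ) (L : ℕ) (z : (Σ a, Fin (m a)) → ℂ)
    (a : Fin s) : Set ((Fin (m a) × Fin (n a)) × Fin L → ℂ) :=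
  {γ | Str (m a) (n a) (part b a) (extz fun i => z ⟨a, i⟩) (mser γ)}

theorem chi_contactArcs (χ : K0 →+* ℤ) (hχ : IsEulerChar χ)
    (e : (Σ a, Fin (m a) × Fin (n a)) ≃ Fin N) (hmn : ∀ a, m a ≤ n a)
    (A : Finset ((Σ a, Fin (m a)) → ℕ)) (u : (Σ a, Fin (m a)) → ℕ)
    (hu : Ext (AW A) u) (hN : 0 < minF (AW A) u) (hdet : Detected A u) (hp : Prim u) (δ : ℂ)
    (hδ : δ ≠ 0) (y : ConePoint (detSum e A) (fun i => (curveU e u δ i).eval 0))
    (hy : ∀ f ∈ detSum e A, y.φ 1 f = (aeval (curveU e u δ) f).coeff (minF (AW A) u)) (d : ℕ)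
    (hd : 0 < d) :
    χ (cls (contactArcs (detSum e A) _ y d)) =
      if minF (AW A) u ∣ d then ((Gz A u δ).ncard : ℤ) else 0 := by
  have key : ∀ γ : Fin N × Fin (d + 1) → ℂ, γ ∈ contactArcs (detSum e A) _ y d ↔
      ∃ τ : ℕ, d = τ * minF (AW A) u ∧ ∃ z ∈ Gz A u δ,
        ∀ a, Str (m a) (n a) (part (τ • u) a) (extz fun i => z ⟨a, i⟩)
          (mser (jetPart e γ a)) := by
    intro γ
    rw [mem_contact_iff e A u δ hN y hy d hd γ]
    exact contact_iff hmn A u hu hN hdet hp δ hδ d hd (fun a => mser (jetPart e γ a))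
  split_ifs with hdvd
  · obtain ⟨τ, hτ⟩ := hdvd
    rw [mul_comm] at hτ
    have hfin := finite_Gz A u hu hN δ hδ
    have hz0 : ∀ z ∈ Gz A u δ, ∀ a : Fin s, ∀ i : ℕ,
        extz (fun i : Fin (m a) => z ⟨a, i⟩) i ≠ 0 :=
      fun z hz a i => m11_extz_ne _ (fun i => hz.1 ⟨a, i⟩) i
    have hset : contactArcs (detSum e A) _ y d = ⋃ z ∈ hfin.toFinset,
        {γ : Fin N × Fin (d + 1) → ℂ | ∀ a, jetPart e γ a ∈ m11_G n (τ • u) (d + 1) z a} := by
      ext γ
      rw [key γ, Set.mem_iUnion₂]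
      constructor
      · rintro ⟨τ', hτ', z, hz, h⟩
        have h1 : τ' = τ := by
          rw [hτ] at hτ'
          exact (Nat.eq_of_mul_eq_mul_right hN hτ').symm
        subst h1
        exact ⟨z, hfin.mem_toFinset.2 hz, h⟩
      · rintro ⟨z, hz, h⟩
        exact ⟨τ, hτ, z, hfin.mem_toFinset.1 hz, h⟩
    have hconstr : ∀ z ∈ Gz A u δ, ∀ a, Constr (m11_G n (τ • u) (d + 1) z a) := by
      intro z hz a
      exact constr_str (m a) (n a) (d + 1) _ _ fun i _ => hz0 z hz a i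
    rw [hset, cls_biUnion, map_sum]
    · have h1 : ∀ z ∈ hfin.toFinset, χ (cls {γ : Fin N × Fin (d + 1) → ℂ |
          ∀ a, jetPart e γ a ∈ m11_G n (τ • u) (d + 1) z a}) = 1 := by
        intro z hz
        rw [hfin.mem_toFinset] at hz
        rw [cls_family e (d + 1) (m11_G n (τ • u) (d + 1) z) (hconstr z hz), map_prod]
        apply Finset.prod_eq_one
        intro a _
        apply chi_str χ hχ (m a) (n a) (d + 1) (hmn a) _ _ (fun i _ => hz0 z hz a i)
        intro i hi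
        rw [m11_mue_smul, hτ, Nat.lt_succ_iff]
        exact Nat.mul_le_mul_left _ (mue_le_minF A u hu hN hdet a i hi)
      rw [Finset.sum_congr rfl h1, Finset.sum_const, Set.ncard_eq_toFinset_card _ hfin]
      simp
    · intro z hz
      exact constr_family e (d + 1) _ (hconstr z (hfin.mem_toFinset.1 hz))
    · intro z hz z' hz' hne
      rw [Set.disjoint_left]
      intro γ h h'
      apply hne
      funext c
      obtain ⟨a, i⟩ := c
      have h1 := str_unique (m a) (n a) _ _ _ _ (h a) (h' a) i i.2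
      unfold extz at h1
      rw [dif_pos i.2, dif_pos i.2] at h1
      exact h1
  · have hset : contactArcs (detSum e A) _ y d = ∅ := by
      rw [Set.eq_empty_iff_forall_notMem]
      intro γ hγ
      obtain ⟨τ, hτ, -⟩ := (key γ).1 hγ
      exact hdvd ⟨τ, by rw [hτ, mul_comm]⟩
    rw [hset, cls_empty, map_zero]

end MotMono
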