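import Pool.Agent.Lib.MP_4e5fcd_ag.Det.M1

/-! # DET-M4: minors of a structured matrix -/

open MvPolynomial

namespace MotMono

/-- the block diagonal matrix with blocks `a` and `G` -/
noncomputable def m4_dg {m n : ℕ} (a : PowerSeries ℂ) (G : Matrix (Fin m) (Fin n) (PowerSeries ℂ)) :
    Matrix (Fin (m + 1)) (Fin (n + 1)) (PowerSeries ℂ) :=
  fun i k => Fin.cases (Fin.cases a (fun _ => 0) k)
    (fun i' => Fin.cases 0 (fun k' => G i' k') k) i

theorem m4_dg_zz {m n : ℕ} (a : PowerSeries ℂ) (G : Matrix (Fin m) (Fin n) (PowerSeries ℂ)) :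
    m4_dg a G 0 0 = a := rfl

theorem m4_dg_zs {m n : ℕ} (a : PowerSeries ℂ) (G : Matrix (Fin m) (Fin n) (PowerSeries ℂ))
    (k : Fin n) : m4_dg a G 0 k.succ = 0 := rfl

theorem m4_dg_sz {m n : ℕ} (a : PowerSeries ℂ) (G : Matrix (Fin m) (Fin n) (PowerSeries ℂ))
    (i : Fin m) : m4_dg a G i.succ 0 = 0 := rfl

theorem m4_dg_ss {m n : ℕ} (a : PowerSeries ℂ) (G : Matrix (Fin m) (Fin n) (PowerSeries ℂ))
    (i : Fin m) (k : Fin n) : m4_dg a G i.succ k.succ = G i k := rfl

/-- the minors of a block diagonal matrix -/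
theorem m4_tri {m n r : ℕ} (S : Fin r → Fin (m + 1)) (T : Fin r → Fin (n + 1)) :
    (∀ (a : PowerSeries ℂ) (G : Matrix (Fin m) (Fin n) (PowerSeries ℂ)),
      ((m4_dg a G).submatrix S T).det = 0) ∨
    (∃ (S' : Fin r → Fin m) (T' : Fin r → Fin n),
      ∀ (a : PowerSeries ℂ) (G : Matrix (Fin m) (Fin n) (PowerSeries ℂ)),
      ((m4_dg a G).submatrix S T).det = (G.submatrix S' T').det) ∨
    (∃ (r' : ℕ) (_ : r = r' + 1) (S' : Fin r' → Fin m) (T' : Fin r' → Fin n) (ε : PowerSeries ℂ),
      ∀ (a : PowerSeries ℂ) (G : Matrix (Fin m) (Fin n) (PowerSeries ℂ)),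
      ((m4_dg a G).submatrix S T).det = ε * (a * (G.submatrix S' T').det)) := by
  by_cases hS : ∃ i0, S i0 = 0
  · obtain ⟨i0, hi0⟩ := hS
    by_cases hT : ∃ j0, T j0 = 0
    · obtain ⟨j0, hj0⟩ := hT
      by_cases hS1 : ∃ i1, i1 ≠ i0 ∧ S i1 = 0
      · obtain ⟨i1, hne, hi1⟩ := hS1
        left
        intro a G
        refine Matrix.det_zero_of_row_eq hne ?_
        funext j
        simp only [Matrix.submatrix_apply, hi0, hi1]
      by_cases hT1 : ∃ j1, j1 ≠ j0 ∧ T j1 = 0
      · obtain ⟨j1, hne, hj1⟩ := hT1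
        left
        intro a G
        refine Matrix.det_zero_of_column_eq hne fun i => ?_
        simp only [Matrix.submatrix_apply, hj0, hj1]
      push Not at hS1 hT1
      right
      right
      obtain ⟨r', rfl⟩ : ∃ r', r = r' + 1 := by
        cases r with
        | zero => exact i0.elim0
        | succ r' => exact ⟨r', rfl⟩
      have hSs : ∀ i : Fin r', ∃ i' : Fin m, S (i0.succAbove i) = i'.succ := fun i => by
        obtain ⟨i', hi'⟩ := Fin.exists_succ_eq.2 (hS1 _ (Fin.succAbove_ne i0 i))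
        exact ⟨i', hi'.symm⟩
      have hTs : ∀ j : Fin r', ∃ j' : Fin n, T (j0.succAbove j) = j'.succ := fun j => by
        obtain ⟨j', hj'⟩ := Fin.exists_succ_eq.2 (hT1 _ (Fin.succAbove_ne j0 j))
        exact ⟨j', hj'.symm⟩
      choose S' hS' using hSs
      choose T' hT' using hTs
      refine ⟨r', rfl, S', T', (-1) ^ ((i0 : ℕ) + (j0 : ℕ)), fun a G => ?_⟩
      rw [Matrix.det_succ_row _ i0, Finset.sum_eq_single j0]
      · have h1 : (m4_dg a G).submatrix S T i0 j0 = a := by
          rw [Matrix.submatrix_apply, hi0, hj0]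
          rfl
        have h2 : ((m4_dg a G).submatrix S T).submatrix i0.succAbove j0.succAbove =
            G.submatrix S' T' := by
          ext1 i j
          simp only [Matrix.submatrix_apply, hS', hT']
          rfl
        rw [h1, h2, mul_assoc]
      · intro j _ hj
        have h1 : (m4_dg a G).submatrix S T i0 j = 0 := by
          rw [Matrix.submatrix_apply, hi0]
          obtain ⟨j', hj'⟩ := Fin.exists_succ_eq.2 (hT1 j hj)
          rw [← hj']
          rfl
        rw [h1, mul_zero, zero_mul]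
      · intro h
        exact absurd (Finset.mem_univ _) h
    · push Not at hT
      left
      intro a G
      refine Matrix.det_eq_zero_of_row_eq_zero i0 fun j => ?_
      rw [Matrix.submatrix_apply, hi0]
      obtain ⟨j', hj'⟩ := Fin.exists_succ_eq.2 (hT j)
      rw [← hj']
      rfl
  · push Not at hS
    by_cases hT : ∃ j0, T j0 = 0
    · obtain ⟨j0, hj0⟩ := hT
      left
      intro a G
      refine Matrix.det_eq_zero_of_column_eq_zero j0 fun i => ?_
      rw [Matrix.submatrix_apply, hj0]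
      obtain ⟨i', hi'⟩ := Fin.exists_succ_eq.2 (hS i)
      rw [← hi']
      rfl
    · push Not at hT
      right
      left
      have hSs : ∀ i, ∃ i' : Fin m, S i = i'.succ := fun i => by
        obtain ⟨i', hi'⟩ := Fin.exists_succ_eq.2 (hS i)
        exact ⟨i', hi'.symm⟩
      have hTs : ∀ j, ∃ j' : Fin n, T j = j'.succ := fun j => by
        obtain ⟨j', hj'⟩ := Fin.exists_succ_eq.2 (hT j)
        exact ⟨j', hj'.symm⟩
      choose S' hS' using hSs
      choose T' hT' using hTs
      refine ⟨S', T', fun a G => ?_⟩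
      congr 1
      ext1 i j
      simp only [Matrix.submatrix_apply, hS', hT']
      rfl

theorem m4_dvd_iff (N : ℕ) (x y : PowerSeries ℂ) :
    PowerSeries.X ^ (N + 1) ∣ x - y ↔ ∀ l ≤ N, PowerSeries.coeff l x = PowerSeries.coeff l y := by
  rw [PowerSeries.X_pow_dvd_iff]
  constructor
  · intro h l hl
    have h1 := h l (by omega)
    rw [map_sub, sub_eq_zero] at h1
    exact h1
  · intro h l hl
    rw [map_sub, sub_eq_zero]
    exact h l (by omega)

/-- comparison of the minors of two block diagonal matrices -/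
theorem m4_cmp {m n r N : ℕ} (a a' : PowerSeries ℂ) (G G' : Matrix (Fin m) (Fin n) (PowerSeries ℂ))
    (ha : PowerSeries.X ∣ a - a')
    (h1 : ∀ (S : Fin (r + 1) → Fin m) (T : Fin (r + 1) → Fin n),
      PowerSeries.X ^ (N + 1) ∣ (G.submatrix S T).det - (G'.submatrix S T).det)
    (h2 : ∀ (S : Fin r → Fin m) (T : Fin r → Fin n),
      PowerSeries.X ^ (N + 1) ∣ (G.submatrix S T).det - (G'.submatrix S T).det)
    (h3 : ∀ (S : Fin r → Fin m) (T : Fin r → Fin n), PowerSeries.X ^ N ∣ (G.submatrix S T).det)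
    (S : Fin (r + 1) → Fin (m + 1)) (T : Fin (r + 1) → Fin (n + 1)) :
    PowerSeries.X ^ (N + 1) ∣
      ((m4_dg a G).submatrix S T).det - ((m4_dg a' G').submatrix S T).det := by
  rcases m4_tri S T with h | ⟨S', T', h⟩ | ⟨r', hr', S', T', ε, h⟩
  · rw [h, h, sub_self]
    exact dvd_zero _
  · rw [h, h]
    exact h1 S' T'
  · obtain rfl : r = r' := by omega
    rw [h, h]
    have e : ε * (a * (G.submatrix S' T').det) - ε * (a' * (G'.submatrix S' T').det) =
        ε * ((a - a') * (G.submatrix S' T').det +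
          a' * ((G.submatrix S' T').det - (G'.submatrix S' T').det)) := by ring
    rw [e]
    refine Dvd.dvd.mul_left (dvd_add ?_ (Dvd.dvd.mul_left (h2 S' T') _)) _
    rw [pow_succ, mul_comm]
    exact mul_dvd_mul ha (h3 S' T')

theorem m4_dvd {m n r N : ℕ} (a : PowerSeries ℂ) (G : Matrix (Fin m) (Fin n) (PowerSeries ℂ))
    (h1 : ∀ (S : Fin (r + 1) → Fin m) (T : Fin (r + 1) → Fin n),
      PowerSeries.X ^ N ∣ (G.submatrix S T).det)
    (h3 : ∀ (S : Fin r → Fin m) (T : Fin r → Fin n), PowerSeries.X ^ N ∣ (G.submatrix S T).det)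
    (S : Fin (r + 1) → Fin (m + 1)) (T : Fin (r + 1) → Fin (n + 1)) :
    PowerSeries.X ^ N ∣ ((m4_dg a G).submatrix S T).det := by
  rcases m4_tri S T with h | ⟨S', T', h⟩ | ⟨r', hr', S', T', ε, h⟩
  · rw [h]
    exact dvd_zero _
  · rw [h]
    exact h1 S' T'
  · obtain rfl : r = r' := by omega
    rw [h]
    exact Dvd.dvd.mul_left (Dvd.dvd.mul_left (h3 S' T') _) _

/-- multiplication by a matrix which is the identity modulo `t` -/
theorem m4_left {ι κ : Type} [Fintype ι] [DecidableEq ι] {r N : ℕ}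
    (P : Matrix ι ι (PowerSeries ℂ)) (A : Matrix ι κ (PowerSeries ℂ))
    (hP : ∀ i k, PowerSeries.X ∣ P i k - (1 : Matrix ι ι (PowerSeries ℂ)) i k)
    (hA : ∀ (S : Fin r → ι) (T : Fin r → κ), PowerSeries.X ^ N ∣ (A.submatrix S T).det)
    (S : Fin r → ι) (T : Fin r → κ) :
    PowerSeries.X ^ (N + 1) ∣ ((P * A).submatrix S T).det - (A.submatrix S T).det := by
  classical
  have h1 : (P * A).submatrix S T = (P.submatrix S id) * (A.submatrix id T) := by
    ext1 i j
    rfl
  have h2 : ((P * A).submatrix S T).det =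
      ∑ f : Fin r → ι, (∏ i, P (S i) (f i)) * (A.submatrix f T).det := by
    rw [h1, det_mul_sum]
    rfl
  have h3 : (A.submatrix S T).det =
      ∑ f : Fin r → ι, (if f = S then 1 else 0) * (A.submatrix f T).det := by
    simp
  rw [h2, h3, ← Finset.sum_sub_distrib]
  refine Finset.dvd_sum fun f _ => ?_
  rw [← sub_mul, pow_succ, mul_comm]
  refine mul_dvd_mul ?_ (hA f T)
  have h4 : (if f = S then (1 : PowerSeries ℂ) else 0) =
      ∏ i, (1 : Matrix ι ι (PowerSeries ℂ)) (S i) (f i) := by
    by_cases hf : f = S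
    · rw [if_pos hf, hf]
      simp
    · rw [if_neg hf]
      obtain ⟨i, hi⟩ := Function.ne_iff.1 hf
      symm
      exact Finset.prod_eq_zero (Finset.mem_univ i) (Matrix.one_apply_ne (Ne.symm hi))
  rw [h4, ← Ideal.mem_span_singleton, ← Ideal.Quotient.mk_eq_mk_iff_sub_mem, map_prod, map_prod]
  refine Finset.prod_congr rfl fun i _ => ?_
  rw [Ideal.Quotient.mk_eq_mk_iff_sub_mem, Ideal.mem_span_singleton]
  exact hP _ _

theorem m4_right {ι κ : Type} [Fintype κ] [DecidableEq κ] {r N : ℕ}
    (Q : Matrix κ κ (PowerSeries ℂ)) (A : Matrix ι κ (PowerSeries ℂ))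
    (hQ : ∀ i k, PowerSeries.X ∣ Q i k - (1 : Matrix κ κ (PowerSeries ℂ)) i k)
    (hA : ∀ (S : Fin r → ι) (T : Fin r → κ), PowerSeries.X ^ N ∣ (A.submatrix S T).det)
    (S : Fin r → ι) (T : Fin r → κ) :
    PowerSeries.X ^ (N + 1) ∣ ((A * Q).submatrix S T).det - (A.submatrix S T).det := by
  have h1 : ((A * Q).submatrix S T).det = ((Q.transpose * A.transpose).submatrix T S).det := by
    rw [← Matrix.transpose_mul, ← Matrix.det_transpose]
    rfl
  have h2 : (A.submatrix S T).det = (A.transpose.submatrix T S).det := by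
    rw [← Matrix.det_transpose]
    rfl
  rw [h1, h2]
  refine m4_left Q.transpose A.transpose (fun i k => ?_) (fun S' T' => ?_) T S
  · rw [Matrix.transpose_apply]
    have h3 : (1 : Matrix κ κ (PowerSeries ℂ)) i k = (1 : Matrix κ κ (PowerSeries ℂ)) k i := by
      rw [← Matrix.transpose_apply (1 : Matrix κ κ (PowerSeries ℂ)), Matrix.transpose_one]
    rw [h3]
    exact hQ k i
  · have h3 : (A.transpose.submatrix S' T').det = (A.submatrix T' S').det := by
      rw [← Matrix.det_transpose]
      rfl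
    rw [h3]
    exact hA T' S'

theorem m4_ev (u : ℕ → ℕ) (r : ℕ) :
    ev u (r + 1) = (r + 1) * u 0 + ev (fun i => u (i + 1)) r := by
  rw [ev, Finset.sum_range_succ', ev, add_comm]
  congr 1
  refine Finset.sum_congr rfl fun i _ => ?_
  congr 1
  omega

theorem m4_ev_mono (u : ℕ → ℕ) (r : ℕ) : ev u r ≤ ev u (r + 1) := by
  rw [m1_ev_eq, m1_ev_eq, Finset.sum_range_succ]
  exact Nat.le_add_right _ _

theorem m4_mue (u : ℕ → ℕ) (i : ℕ) :
    mue u (i + 1) = u 0 + mue (fun i => u (i + 1)) i := by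
  rw [mue, Finset.sum_range_succ', mue, add_comm]

theorem m4_divX {ι κ : Type} (q : ℕ) (M : Matrix ι κ (PowerSeries ℂ))
    (hq : ∀ i k, ∀ l < q, PowerSeries.coeff l (M i k) = 0) (i : ι) (k : κ) :
    M i k = PowerSeries.X ^ q * divX q M i k := by
  ext l
  rw [PowerSeries.coeff_X_pow_mul']
  split_ifs with h
  · rw [divX, PowerSeries.coeff_mk, Nat.sub_add_cancel h]
  · exact hq i k l (not_le.1 h)

theorem m4_smul_det {ι κ : Type} {r : ℕ} (q : ℕ) (M E : Matrix ι κ (PowerSeries ℂ))
    (h : ∀ i k, M i k = PowerSeries.X ^ q * E i k) (S : Fin r → ι) (T : Fin r → κ) :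
    (M.submatrix S T).det = PowerSeries.X ^ (r * q) * (E.submatrix S T).det := by
  have h1 : M.submatrix S T = (PowerSeries.X ^ q : PowerSeries ℂ) • E.submatrix S T := by
    ext1 i j
    rw [Matrix.smul_apply, smul_eq_mul]
    exact h _ _
  rw [h1, Matrix.det_smul, Fintype.card_fin, ← pow_mul, mul_comm q r]

theorem m4_ref {m n : ℕ} (b : ℕ → ℕ) (z : ℕ → ℂ) (i : Fin (m + 1)) (k : Fin (n + 1)) :
    refM (m + 1) (n + 1) b z i k = PowerSeries.X ^ b 0 *
      m4_dg (PowerSeries.C (z 0)) (refM m n (fun i => b (i + 1)) fun i => z (i + 1)) i k := by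
  refine Fin.cases ?_ (fun i' => ?_) i
  · refine Fin.cases ?_ (fun k' => ?_) k
    · rw [m4_dg_zz]
      simp [refM, mue, mul_comm]
    · rw [m4_dg_zs, mul_zero]
      have : ¬ (((0 : Fin (m + 1)) : ℕ) = ((k'.succ : Fin (n + 1)) : ℕ)) := by simp
      rw [refM, if_neg this]
  · refine Fin.cases ?_ (fun k' => ?_) k
    · rw [m4_dg_sz, mul_zero]
      have : ¬ (((i'.succ : Fin (m + 1)) : ℕ) = ((0 : Fin (n + 1)) : ℕ)) := by simp
      rw [refM, if_neg this]
    · rw [m4_dg_ss, refM, refM]
      simp only [Fin.val_succ, add_left_inj]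
      split_ifs
      · rw [m4_mue, pow_add]
        ring
      · rw [mul_zero]

/-- the factorisation of a matrix with invertible pivot -/
theorem m4_factor {m n : ℕ} (E : Matrix (Fin (m + 1)) (Fin (n + 1)) (PowerSeries ℂ))
    (hE : PowerSeries.constantCoeff (E 0 0) ≠ 0)
    (h1 : ∀ i : Fin m, PowerSeries.X ∣ E i.succ 0) (h2 : ∀ k : Fin n, PowerSeries.X ∣ E 0 k.succ) :
    ∃ (P : Matrix (Fin (m + 1)) (Fin (m + 1)) (PowerSeries ℂ))
      (Q : Matrix (Fin (n + 1)) (Fin (n + 1)) (PowerSeries ℂ)),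
      (∀ i k, PowerSeries.X ∣ P i k - (1 : Matrix _ _ (PowerSeries ℂ)) i k) ∧
      (∀ i k, PowerSeries.X ∣ Q i k - (1 : Matrix _ _ (PowerSeries ℂ)) i k) ∧
      E = P * m4_dg (E 0 0) (elim1 E) * Q := by
  have hinv : (E 0 0)⁻¹ * E 0 0 = 1 := PowerSeries.inv_mul_cancel _ hE
  have hinv' : E 0 0 * (E 0 0)⁻¹ = 1 := PowerSeries.mul_inv_cancel _ hE
  set P : Matrix (Fin (m + 1)) (Fin (m + 1)) (PowerSeries ℂ) := Matrix.of fun i k =>
    Fin.cases (Fin.cases 1 (fun _ => 0) k)
      (fun i' => Fin.cases (E i'.succ 0 * (E 0 0)⁻¹) (fun k' => if i' = k' then 1 else 0) k) i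
    with hP
  set Q : Matrix (Fin (n + 1)) (Fin (n + 1)) (PowerSeries ℂ) := Matrix.of fun i k =>
    Fin.cases (Fin.cases 1 (fun k' => (E 0 0)⁻¹ * E 0 k'.succ) k)
      (fun i' => Fin.cases 0 (fun k' => if i' = k' then 1 else 0) k) i
    with hQ
  refine ⟨P, Q, ?_, ?_, ?_⟩
  · intro i k
    refine Fin.cases ?_ (fun i' => ?_) i
    · refine Fin.cases ?_ (fun k' => ?_) k
      · simp [hP]
      · have : (0 : Fin (m + 1)) ≠ k'.succ := (Fin.succ_ne_zero k').symm
        simp [hP, Matrix.one_apply_ne this]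
    · refine Fin.cases ?_ (fun k' => ?_) k
      · have : i'.succ ≠ (0 : Fin (m + 1)) := Fin.succ_ne_zero i'
        rw [Matrix.one_apply_ne this, sub_zero]
        exact Dvd.dvd.mul_right (h1 i') _
      · simp [hP, Matrix.one_apply]
  · intro i k
    refine Fin.cases ?_ (fun i' => ?_) i
    · refine Fin.cases ?_ (fun k' => ?_) k
      · simp [hQ]
      · have : (0 : Fin (n + 1)) ≠ k'.succ := (Fin.succ_ne_zero k').symm
        rw [Matrix.one_apply_ne this, sub_zero]
        exact Dvd.dvd.mul_left (h2 k') _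
    · refine Fin.cases ?_ (fun k' => ?_) k
      · have : i'.succ ≠ (0 : Fin (n + 1)) := Fin.succ_ne_zero i'
        simp [hQ, Matrix.one_apply_ne this]
      · simp [hQ, Matrix.one_apply]
  · ext1 i k
    refine Fin.cases ?_ (fun i' => ?_) i
    · refine Fin.cases ?_ (fun k' => ?_) k
      · simp [hP, hQ, Matrix.mul_apply, Fin.sum_univ_succ, m4_dg_zz, m4_dg_zs]
      · simp [hP, hQ, Matrix.mul_apply, Fin.sum_univ_succ, m4_dg_zz, m4_dg_zs]
        rw [← mul_assoc, hinv', one_mul]
    · refine Fin.cases ?_ (fun k' => ?_) k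
      · simp [hP, hQ, Matrix.mul_apply, Fin.sum_univ_succ, m4_dg_zz, m4_dg_zs, m4_dg_sz]
        rw [mul_assoc, hinv, mul_one]
      · simp [hP, hQ, Matrix.mul_apply, Fin.sum_univ_succ, m4_dg_zz, m4_dg_zs, m4_dg_sz,
          m4_dg_ss, elim1]
        have e : E i'.succ 0 * (E 0 0)⁻¹ * E 0 0 * ((E 0 0)⁻¹ * E 0 k'.succ) =
            E i'.succ 0 * (E 0 0)⁻¹ * E 0 k'.succ := by
          calc _ = E i'.succ 0 * (E 0 0)⁻¹ * (E 0 0 * (E 0 0)⁻¹) * E 0 k'.succ := by ring
            _ = _ := by rw [hinv', mul_one]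
        rw [e]
        ring

theorem coeff_minor_of_str (m n : ℕ) (hmn : m ≤ n) (b : ℕ → ℕ) (z : ℕ → ℂ)
    (hz : ∀ i < m, z i ≠ 0) (hbc : BlockConst m b z)
    (M : Matrix (Fin m) (Fin n) (PowerSeries ℂ)) (h : Str m n b z M) {r : ℕ} (hr : r ≤ m)
    (S : Fin r → Fin m) (T : Fin r → Fin n) (l : ℕ) (hl : l ≤ ev b r) :
    PowerSeries.coeff l (M.submatrix S T).det =
      PowerSeries.coeff l ((refM m n b z).submatrix S T).det := by
  induction m generalizing n b z r l with
  | zero =>
    obtain rfl : r = 0 := by omega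
    rw [Matrix.det_fin_zero, Matrix.det_fin_zero]
  | succ m ih =>
    obtain ⟨n, rfl⟩ : ∃ n', n = n' + 1 := ⟨n - 1, by omega⟩
    obtain ⟨h1, h2⟩ := h
    cases r with
    | zero => rw [Matrix.det_fin_zero, Matrix.det_fin_zero]
    | succ r =>
      set b' : ℕ → ℕ := fun i => b (i + 1) with hb'
      set z' : ℕ → ℂ := fun i => z (i + 1) with hz'
      set E := divX (b 0) M with hE
      set G' := refM m n b' z' with hG'
      have hz0 : z 0 ≠ 0 := hz 0 (by omega)
      have hcoef : ∀ i k, ∀ l ≤ b 0, PowerSeries.coeff l (M i k) =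
          PowerSeries.coeff l (PowerSeries.X ^ b 0 * m4_dg (PowerSeries.C (z 0)) G' i k) := by
        intro i k l hl
        rw [h1 i k l hl, m4_ref]
      have hq : ∀ i k, ∀ l < b 0, PowerSeries.coeff l (M i k) = 0 := by
        intro i k l hl
        rw [hcoef i k l hl.le, PowerSeries.coeff_X_pow_mul', if_neg (not_le.2 hl)]
      have hE0 : ∀ i k, PowerSeries.X ∣ E i k - m4_dg (PowerSeries.C (z 0)) G' i k := by
        intro i k
        rw [PowerSeries.X_dvd_iff, ← PowerSeries.coeff_zero_eq_constantCoeff_apply, map_sub,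
          sub_eq_zero, hE, divX, PowerSeries.coeff_mk, zero_add, hcoef i k (b 0) le_rfl,
          PowerSeries.coeff_X_pow_mul', if_pos le_rfl, Nat.sub_self]
      have hE00 : PowerSeries.constantCoeff (E 0 0) = z 0 := by
        have h3 := hE0 0 0
        rw [m4_dg_zz, PowerSeries.X_dvd_iff, map_sub, sub_eq_zero, PowerSeries.constantCoeff_C]
          at h3
        exact h3
      obtain ⟨P, Q, hP, hQ, hfac⟩ := m4_factor E (by rw [hE00]; exact hz0)
        (fun i => by
          have h3 := hE0 i.succ 0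
          rwa [m4_dg_sz, sub_zero] at h3)
        (fun k => by
          have h3 := hE0 0 k.succ
          rwa [m4_dg_zs, sub_zero] at h3)
      set N := ev b' r with hN
      have hzb' : ∀ i < m, z' i ≠ 0 := fun i hi => hz (i + 1) (by omega)
      have hbc' : BlockConst m b' z' := fun i hi hb => hbc (i + 1) (by omega) hb
      -- induction hypothesis
      have g2 : ∀ (S : Fin r → Fin m) (T : Fin r → Fin n), PowerSeries.X ^ (N + 1) ∣
          ((elim1 E).submatrix S T).det - (G'.submatrix S T).det := by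
        intro S T
        rw [m4_dvd_iff]
        intro l hl
        exact ih n (by omega) b' z' hzb' hbc' (elim1 E) h2 (by omega) S T l hl
      have g3 : ∀ (S : Fin r → Fin m) (T : Fin r → Fin n), PowerSeries.X ^ N ∣
          ((elim1 E).submatrix S T).det := by
        intro S T
        rw [PowerSeries.X_pow_dvd_iff]
        intro l hl
        rw [ih n (by omega) b' z' hzb' hbc' (elim1 E) h2 (by omega) S T l hl.le]
        exact coeff_ref_minor_lt b' z' S T l hl
      have g1 : ∀ (S : Fin (r + 1) → Fin m) (T : Fin (r + 1) → Fin n), PowerSeries.X ^ (N + 1) ∣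
          ((elim1 E).submatrix S T).det - (G'.submatrix S T).det := by
        intro S T
        rw [m4_dvd_iff]
        intro l hl
        by_cases hrm : r + 1 ≤ m
        · exact ih n (by omega) b' z' hzb' hbc' (elim1 E) h2 hrm S T l
            (hl.trans (m4_ev_mono b' r))
        · obtain ⟨i, i', hne, hi⟩ : ∃ i i', i ≠ i' ∧ S i = S i' := by
            by_contra hcon
            push Not at hcon
            have hinj : Function.Injective S := by
              intro j j' h
              by_contra hne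
              exact hcon j j' hne h
            have := Fintype.card_le_of_injective S hinj
            simp at this
            omega
          rw [Matrix.det_zero_of_row_eq hne (by
            funext j
            simp only [Matrix.submatrix_apply, hi]), Matrix.det_zero_of_row_eq hne (by
            funext j
            simp only [Matrix.submatrix_apply, hi])]
      have g0 : ∀ (S : Fin (r + 1) → Fin m) (T : Fin (r + 1) → Fin n), PowerSeries.X ^ N ∣
          ((elim1 E).submatrix S T).det := by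
        intro S T
        have h3 : PowerSeries.X ^ N ∣ (G'.submatrix S T).det := by
          rw [PowerSeries.X_pow_dvd_iff]
          intro l hl
          exact coeff_ref_minor_lt b' z' S T l (lt_of_lt_of_le hl (m4_ev_mono b' r))
        have h4 : PowerSeries.X ^ N ∣ ((elim1 E).submatrix S T).det - (G'.submatrix S T).det :=
          (pow_dvd_pow _ (Nat.le_succ N)).trans (g1 S T)
        have h5 := dvd_add h4 h3
        rwa [sub_add_cancel] at h5
      -- the chain of congruences
      have k0 : ∀ (S : Fin (r + 1) → Fin (m + 1)) (T : Fin (r + 1) → Fin (n + 1)),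
          PowerSeries.X ^ N ∣ ((m4_dg (E 0 0) (elim1 E)).submatrix S T).det :=
        m4_dvd (E 0 0) (elim1 E) g0 g3
      have k1 := m4_left P (m4_dg (E 0 0) (elim1 E)) hP k0
      have k2 : ∀ (S : Fin (r + 1) → Fin (m + 1)) (T : Fin (r + 1) → Fin (n + 1)),
          PowerSeries.X ^ N ∣ ((P * m4_dg (E 0 0) (elim1 E)).submatrix S T).det := by
        intro S T
        have h4 := (pow_dvd_pow (PowerSeries.X : PowerSeries ℂ) (Nat.le_succ N)).trans (k1 S T)
        have h5 := dvd_add h4 (k0 S T)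
        rwa [sub_add_cancel] at h5
      have k3 := m4_right Q (P * m4_dg (E 0 0) (elim1 E)) hQ k2
      have k4 := m4_cmp (E 0 0) (PowerSeries.C (z 0)) (elim1 E) G' (by
        have h3 := hE0 0 0
        rwa [m4_dg_zz] at h3) g1 g2 g3 S T
      have k5 : PowerSeries.X ^ (N + 1) ∣ (E.submatrix S T).det -
          ((m4_dg (PowerSeries.C (z 0)) G').submatrix S T).det := by
        have h3 : (E.submatrix S T).det =
            ((P * m4_dg (E 0 0) (elim1 E) * Q).submatrix S T).det := by rw [← hfac]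
        rw [h3]
        have h4 := dvd_add (dvd_add (k3 S T) (k1 S T)) k4
        have h5 : ((P * m4_dg (E 0 0) (elim1 E) * Q).submatrix S T).det -
            ((P * m4_dg (E 0 0) (elim1 E)).submatrix S T).det +
            (((P * m4_dg (E 0 0) (elim1 E)).submatrix S T).det -
              ((m4_dg (E 0 0) (elim1 E)).submatrix S T).det) +
            (((m4_dg (E 0 0) (elim1 E)).submatrix S T).det -
              ((m4_dg (PowerSeries.C (z 0)) G').submatrix S T).det) =
            ((P * m4_dg (E 0 0) (elim1 E) * Q).submatrix S T).det -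
              ((m4_dg (PowerSeries.C (z 0)) G').submatrix S T).det := by ring
        rwa [h5] at h4
      rw [m4_dvd_iff] at k5
      rw [m4_smul_det (b 0) M E (m4_divX (b 0) M hq), m4_smul_det (b 0) _ _ (m4_ref b z),
        PowerSeries.coeff_X_pow_mul', PowerSeries.coeff_X_pow_mul']
      split_ifs with h5
      · exact k5 _ (by
          rw [m4_ev] at hl
          show l - (r + 1) * b 0 ≤ ev (fun i => b (i + 1)) r
          omega)
      · rfl

end MotMono
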