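import Pool.Agent.Lib.MP_4e5fcd_ag.Det.Base

/-! # DET-A1: divisibility of minors -/

open MvPolynomial

namespace MotMono

variable {ι κ ι' κ' : Type} {j r : ℕ}

/-- a weak form of the Cauchy-Binet formula -/
theorem det_mul_sum {R : Type} [CommRing R] [Fintype ι] (P : Matrix (Fin r) ι R)
    (M : Matrix ι (Fin r) R) :
    (P * M).det = ∑ f : Fin r → ι, (∏ i, P i (f i)) * (M.submatrix f id).det := by
  classical
  have h1 : (P * M).det = Matrix.detRowAlternating (fun i => ∑ k, P i k • M k) := by
    unfold Matrix.det
    congr 1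
    funext i c
    rw [Matrix.mul_apply, Finset.sum_apply]
    rfl
  have h2 := (Matrix.detRowAlternating (R := R) (n := Fin r)).toMultilinearMap.map_sum
    (fun i k => P i k • M k)
  rw [h1]
  refine Eq.trans h2 (Finset.sum_congr rfl fun f _ => ?_)
  exact (Matrix.detRowAlternating (R := R) (n := Fin r)).toMultilinearMap.map_smul_univ
    (fun i => P i (f i)) (fun i => M (f i))

theorem dv_zero (M : Matrix ι κ (PowerSeries ℂ)) : Dv j 0 M ↔ j = 0 := by
  constructor
  · intro h
    have h1 := h Fin.elim0 Fin.elim0
    rw [Matrix.det_fin_zero] at h1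
    by_contra hj
    have h2 : (PowerSeries.X : PowerSeries ℂ) ∣ 1 := (dvd_pow_self _ hj).trans h1
    rw [PowerSeries.X_dvd_iff] at h2
    simp at h2
  · rintro rfl S T
    rw [pow_zero]
    exact one_dvd _

theorem Dv.mono {M : Matrix ι κ (PowerSeries ℂ)} (h : Dv j r M) {j' : ℕ} (hj : j' ≤ j) :
    Dv j' r M := fun S T => (pow_dvd_pow _ hj).trans (h S T)

theorem a1_add_one {M : Matrix ι κ (PowerSeries ℂ)} (h : Dv j r M) : Dv j (r + 1) M := by
  intro S T
  rw [Matrix.det_succ_row_zero]
  refine Finset.dvd_sum fun k _ => ?_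
  refine Dvd.dvd.mul_left ?_ _
  rw [Matrix.submatrix_submatrix]
  exact h _ _

theorem Dv.add {M : Matrix ι κ (PowerSeries ℂ)} (h : Dv j r M) (k : ℕ) : Dv j (r + k) M := by
  induction k with
  | zero => exact h
  | succ k ih => exact a1_add_one ih

theorem dv_of_card_lt [Fintype ι] (M : Matrix ι κ (PowerSeries ℂ)) (h : Fintype.card ι < r) :
    Dv j r M := by
  intro S T
  have h1 : ¬ Function.Injective S := by
    intro hi
    have := Fintype.card_le_of_injective S hi
    rw [Fintype.card_fin] at this
    omega
  rw [Function.not_injective_iff] at h1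
  obtain ⟨a, b, hab, hne⟩ := h1
  rw [Matrix.det_zero_of_row_eq hne (by funext c; simp [Matrix.submatrix_apply, hab])]
  exact dvd_zero _

theorem Dv.mul_left [Fintype ι] {M : Matrix ι κ (PowerSeries ℂ)} (h : Dv j r M)
    (P : Matrix ι' ι (PowerSeries ℂ)) : Dv j r (P * M) := by
  intro S T
  have h1 : (P * M).submatrix S T = (P.submatrix S id) * (M.submatrix id T) := by
    rw [Matrix.submatrix_mul _ _ _ id _ Function.bijective_id]
  rw [h1, det_mul_sum]
  refine Finset.dvd_sum fun f _ => Dvd.dvd.mul_left ?_ _
  rw [Matrix.submatrix_submatrix]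
  exact h _ _

theorem a1_transpose {M : Matrix ι κ (PowerSeries ℂ)} (h : Dv j r M) : Dv j r M.transpose := by
  intro S T
  have h1 : M.transpose.submatrix S T = (M.submatrix T S).transpose := rfl
  rw [h1, Matrix.det_transpose]
  exact h _ _

theorem Dv.mul_right [Fintype κ] {M : Matrix ι κ (PowerSeries ℂ)} (h : Dv j r M)
    (P : Matrix κ κ' (PowerSeries ℂ)) : Dv j r (M * P) := by
  have h1 := a1_transpose ((a1_transpose h).mul_left P.transpose)
  rwa [Matrix.transpose_mul, Matrix.transpose_transpose, Matrix.transpose_transpose] at h1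

theorem dv_mul_left_iff [Fintype ι] [DecidableEq ι] (M : Matrix ι κ (PowerSeries ℂ))
    (P : Matrix ι ι (PowerSeries ℂ)) (hP : IsUnit P.det) : Dv j r (P * M) ↔ Dv j r M := by
  constructor
  · intro h
    have h1 := h.mul_left P⁻¹
    rwa [← Matrix.mul_assoc, Matrix.nonsing_inv_mul _ hP, Matrix.one_mul] at h1
  · intro h
    exact h.mul_left P

theorem dv_mul_right_iff [Fintype κ] [DecidableEq κ] (M : Matrix ι κ (PowerSeries ℂ))
    (P : Matrix κ κ (PowerSeries ℂ)) (hP : IsUnit P.det) : Dv j r (M * P) ↔ Dv j r M := by
  constructor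
  · intro h
    have h1 := h.mul_right P⁻¹
    rwa [Matrix.mul_assoc, Matrix.mul_nonsing_inv _ hP, Matrix.mul_one] at h1
  · intro h
    exact h.mul_right P

theorem dv_smul_X (M : Matrix ι κ (PowerSeries ℂ)) :
    Dv j r ((PowerSeries.X : PowerSeries ℂ) • M) ↔ Dv (j - r) r M := by
  refine forall_congr' fun S => forall_congr' fun T => ?_
  have h1 : ((PowerSeries.X : PowerSeries ℂ) • M).submatrix S T =
      (PowerSeries.X : PowerSeries ℂ) • M.submatrix S T := rfl
  rw [h1, Matrix.det_smul, Fintype.card_fin]
  rcases le_total j r with h | h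
  · rw [Nat.sub_eq_zero_of_le h, pow_zero]
    exact ⟨fun _ => one_dvd _, fun _ => Dvd.dvd.mul_right (pow_dvd_pow _ h) _⟩
  · obtain ⟨k, rfl⟩ := Nat.exists_eq_add_of_le h
    rw [Nat.add_sub_cancel_left, pow_add]
    exact mul_dvd_mul_iff_left (pow_ne_zero _ PowerSeries.X_ne_zero)

theorem dv_submatrix (M : Matrix ι κ (PowerSeries ℂ)) (e : ι' ≃ ι) (f : κ' ≃ κ) :
    Dv j r (M.submatrix e f) ↔ Dv j r M := by
  constructor
  · intro h S T
    have h1 := h (fun i => e.symm (S i)) (fun i => f.symm (T i))
    rw [Matrix.submatrix_submatrix] at h1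
    have h2 : (e ∘ fun i => e.symm (S i)) = S := by
      funext i
      simp
    have h3 : (f ∘ fun i => f.symm (T i)) = T := by
      funext i
      simp
    rwa [h2, h3] at h1
  · intro h S T
    rw [Matrix.submatrix_submatrix]
    exact h _ _

theorem a1_blocks (ρ : ℕ) (D : Matrix ι κ (PowerSeries ℂ)) (h : Dv j r D) (k : ℕ) :
    ∀ (S : Fin k → Fin ρ ⊕ ι) (T : Fin k → Fin ρ ⊕ κ),
      r ≤ (Finset.univ.filter fun i => (S i).isRight = true).card →
      (PowerSeries.X : PowerSeries ℂ) ^ j ∣ ((Matrix.fromBlocks
        (1 : Matrix (Fin ρ) (Fin ρ) (PowerSeries ℂ)) 0 0 D).submatrix S T).det := by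
  classical
  induction k with
  | zero =>
    intro S T hr
    have hr0 : r = 0 := by
      have : (Finset.univ.filter fun i : Fin 0 => (S i).isRight = true).card = 0 := by
        simp
      omega
    subst hr0
    rw [dv_zero] at h
    subst h
    rw [pow_zero]
    exact one_dvd _
  | succ k ih =>
    intro S T hr
    by_cases hS : ∃ i, (S i).isRight = false
    · obtain ⟨i, hi⟩ := hS
      rw [Matrix.det_succ_row _ i]
      refine Finset.dvd_sum fun c _ => Dvd.dvd.mul_left ?_ _
      rw [Matrix.submatrix_submatrix]
      refine ih _ _ ?_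
      refine hr.trans (le_of_eq ?_)
      symm
      refine Finset.card_bij (fun x _ => i.succAbove x) ?_ ?_ ?_
      · intro x hx
        simpa using hx
      · intro x _ y _ hxy
        exact Fin.succAbove_right_injective hxy
      · intro y hy
        rw [Finset.mem_filter] at hy
        have hne : y ≠ i := by
          rintro rfl
          rw [hi] at hy
          exact absurd hy.2 (by simp)
        obtain ⟨x, hx⟩ := Fin.exists_succAbove_eq hne
        refine ⟨x, ?_, hx⟩
        simp only [Finset.mem_filter, Finset.mem_univ, true_and, Function.comp]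
        rw [hx]
        exact hy.2
    · push Not at hS
      have hS' : ∀ i, ∃ s, S i = Sum.inr s := by
        intro i
        have h1 := hS i
        cases hSi : S i with
        | inl a => rw [hSi] at h1; simp at h1
        | inr s => exact ⟨s, rfl⟩
      choose s hs using hS'
      by_cases hT : ∃ c q, T c = Sum.inl q
      · obtain ⟨c, q, hc⟩ := hT
        rw [Matrix.det_eq_zero_of_column_eq_zero c]
        · exact dvd_zero _
        · intro i
          rw [Matrix.submatrix_apply, hs, hc]
          rfl
      · push Not at hT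
        have hT' : ∀ c, ∃ t, T c = Sum.inr t := by
          intro c
          cases hTc : T c with
          | inl a => exact absurd hTc (hT c a)
          | inr t => exact ⟨t, rfl⟩
        choose t ht using hT'
        have h1 : (Matrix.fromBlocks (1 : Matrix (Fin ρ) (Fin ρ) (PowerSeries ℂ)) 0 0 D).submatrix
            S T = D.submatrix s t := by
          ext1 a b
          rw [Matrix.submatrix_apply, hs, ht]
          rfl
        rw [h1]
        have h2 : r ≤ k + 1 := by
          refine hr.trans ?_
          refine (Finset.card_filter_le _ _).trans ?_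
          rw [Finset.card_univ, Fintype.card_fin]
        obtain ⟨l, hl⟩ := Nat.exists_eq_add_of_le h2
        have h3 := h.add l
        rw [← hl] at h3
        exact h3 s t

theorem dv_fromBlocks_one (ρ : ℕ) (D : Matrix ι κ (PowerSeries ℂ)) :
    Dv j (ρ + r) (Matrix.fromBlocks (1 : Matrix (Fin ρ) (Fin ρ) (PowerSeries ℂ)) 0 0 D) ↔
      Dv j r D := by
  classical
  constructor
  · intro h S T
    have h1 := h (fun i => Sum.map id S (finSumFinEquiv.symm i))
      (fun i => Sum.map id T (finSumFinEquiv.symm i))
    have h2 : (Matrix.fromBlocks (1 : Matrix (Fin ρ) (Fin ρ) (PowerSeries ℂ)) 0 0 D).submatrix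
        (fun i => Sum.map id S (finSumFinEquiv.symm i))
        (fun i => Sum.map id T (finSumFinEquiv.symm i)) =
        (Matrix.fromBlocks (1 : Matrix (Fin ρ) (Fin ρ) (PowerSeries ℂ)) 0 0
          (D.submatrix S T)).submatrix finSumFinEquiv.symm finSumFinEquiv.symm := by
      ext1 a b
      rw [Matrix.submatrix_apply, Matrix.submatrix_apply]
      rcases finSumFinEquiv.symm a with x | x <;> rcases finSumFinEquiv.symm b with y | y <;> rfl
    rw [h2, Matrix.det_submatrix_equiv_self, Matrix.det_fromBlocks_zero₂₁, Matrix.det_one,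
      one_mul] at h1
    exact h1
  · intro h S T
    by_cases hS : Function.Injective S
    · refine a1_blocks ρ D h (ρ + r) S T ?_
      have h1 : (Finset.univ.filter fun i => (S i).isRight = true).card +
          (Finset.univ.filter fun i => ¬ (S i).isRight = true).card = ρ + r := by
        rw [Finset.card_filter_add_card_filter_not, Finset.card_univ, Fintype.card_fin]
      have h2 : (Finset.univ.filter fun i => ¬ (S i).isRight = true).card ≤ ρ := by
        have h3 : ((Finset.univ.filter fun i => ¬ (S i).isRight = true).image S).card ≤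
            ((Finset.univ : Finset (Fin ρ)).map ⟨(Sum.inl : Fin ρ → Fin ρ ⊕ ι),
              Sum.inl_injective⟩).card := by
          refine Finset.card_le_card fun y hy => ?_
          rw [Finset.mem_image] at hy
          obtain ⟨i, hi, rfl⟩ := hy
          rw [Finset.mem_filter] at hi
          rw [Finset.mem_map]
          cases hSi : S i with
          | inl a => exact ⟨a, Finset.mem_univ _, rfl⟩
          | inr s =>
            rw [hSi] at hi
            exact absurd rfl hi.2
        rw [Finset.card_image_of_injective _ hS, Finset.card_map, Finset.card_univ,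
          Fintype.card_fin] at h3
        exact h3
      omega
    · rw [Function.not_injective_iff] at hS
      obtain ⟨a, b, hab, hne⟩ := hS
      rw [Matrix.det_zero_of_row_eq hne (by funext c; simp [Matrix.submatrix_apply, hab])]
      exact dvd_zero _

end MotMono
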