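import Pool.Agent.Lib.MP_4e5fcd_ag.Det.Base

/-! # DET-B1: the measure of the profiles -/

open MvPolynomial

namespace MotMono

theorem sum_Rp (m n : ℕ) : ∑ ρ ∈ Finset.range (m + 1), Rp m n ρ = 1 := by
  rcases Nat.eq_zero_or_pos m with rfl | hm
  · simp [Rp]
  · rw [Finset.sum_range_succ]
    have h1 : Finset.range m = insert 0 (Finset.Ioo 0 m) := by
      ext i
      simp only [Finset.mem_range, Finset.mem_insert, Finset.mem_Ioo]
      omega
    rw [h1, Finset.sum_insert (by simp)]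
    have h2 : Rp m n 0 = Polynomial.X ^ (m * n) := by simp [Rp]
    have h3 : Rp m n m = 1 - Polynomial.X ^ (m * n) -
        ∑ ρ' ∈ Finset.Ioo 0 m, Polynomial.C (MvPolynomial.X (m, n, ρ')) := by
      unfold Rp
      rw [if_neg (by omega), if_neg (by omega)]
    have h4 : ∑ ρ ∈ Finset.Ioo 0 m, Rp m n ρ =
        ∑ ρ' ∈ Finset.Ioo 0 m, (Polynomial.C (MvPolynomial.X (m, n, ρ')) : Bq) := by
      refine Finset.sum_congr rfl fun ρ hρ => ?_
      rw [Finset.mem_Ioo] at hρ
      unfold Rp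
      rw [if_neg (by omega), if_pos hρ.2]
    rw [h2, h3, h4]
    ring

private theorem b1_fg_congr (P P' : ℕ → Prop) [DecidablePred P] [DecidablePred P'] (k : ℕ)
    (h : ∀ j, 0 < j → j ≤ k → (P j ↔ P' j)) : Nat.findGreatest P k = Nat.findGreatest P' k := by
  induction k with
  | zero => rfl
  | succ k ih =>
    rw [Nat.findGreatest_succ, Nat.findGreatest_succ, ih fun j h1 h2 => h j h1 (by omega)]
    have h2 := h (k + 1) (by omega) le_rfl
    by_cases h3 : P (k + 1)
    · rw [if_pos h3, if_pos (h2.1 h3)]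
    · rw [if_neg h3, if_neg fun h4 => h3 (h2.2 h4)]

private theorem b1_prevS_congr (b b' : ℕ → ℕ) (i : ℕ) (h : ∀ j < i, (b j ≠ 0 ↔ b' j ≠ 0)) :
    prevS b i = prevS b' i :=
  b1_fg_congr _ _ _ fun j h1 h2 => h j (by omega)

theorem mu_congr (m n : ℕ) (b b' : ℕ → ℕ) (h : ∀ i < m, b i = b' i) : mu m n b = mu m n b' := by
  have hp : ∀ i ≤ m, prevS b i = prevS b' i := fun i hi =>
    b1_prevS_congr b b' i fun j hj => by rw [h j (by omega)]
  unfold mu
  rw [hp m le_rfl]
  congr 1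
  refine Finset.prod_congr rfl fun i hi => ?_
  rw [Finset.mem_range] at hi
  rw [h i hi, hp i hi.le]

theorem mu_of_zero (m n : ℕ) (b : ℕ → ℕ) (h : ∀ i < m, b i = 0) : mu m n b = Rp m n m := by
  have hp : prevS b m = 0 := by
    unfold prevS
    rw [Nat.findGreatest_eq_zero_iff]
    intro j h1 h2 h3
    exact h3 (h j (by omega))
  unfold mu
  rw [hp, Finset.prod_eq_one, one_mul, Nat.sub_zero, Nat.sub_zero]
  intro i hi
  rw [Finset.mem_range] at hi
  rw [if_pos (h i hi)]

private theorem b1_prevS_shift (b : ℕ → ℕ) (ρ : ℕ) (hb : b ρ ≠ 0) (i : ℕ) (hi : 1 ≤ i) :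
    prevS b (ρ + i) = ρ + prevS (fun i => b (ρ + i) - if i = 0 then 1 else 0) i := by
  obtain ⟨k, rfl⟩ : ∃ k, i = k + 1 := ⟨i - 1, by omega⟩
  have h1 : ρ + (k + 1) - 1 = ρ + k := by omega
  have h2 : k + 1 - 1 = k := by omega
  unfold prevS
  rw [h1, h2]
  clear h1 h2 hi
  induction k with
  | zero =>
    rw [Nat.findGreatest_zero, Nat.add_zero]
    rcases Nat.eq_zero_or_pos ρ with rfl | hρ
    · rfl
    · exact Nat.findGreatest_eq hb
  | succ k ih =>
    have h3 : ρ + (k + 1) = (ρ + k) + 1 := by omega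
    have h5 : (b (ρ + k + 1) ≠ 0) ↔ (b (ρ + (k + 1)) - (if k + 1 = 0 then 1 else 0) ≠ 0) := by
      rw [if_neg (by omega), Nat.sub_zero, h3]
    rw [h3, Nat.findGreatest_succ, Nat.findGreatest_succ, ih]
    by_cases h4 : b (ρ + k + 1) ≠ 0
    · rw [if_pos h4, if_pos (h5.1 h4)]
      omega
    · rw [if_neg h4, if_neg fun h6 => h4 (h5.2 h6)]

theorem mu_first (m n : ℕ) (b : ℕ → ℕ) (ρ : ℕ) (hρ : ρ < m) (hb : b ρ ≠ 0)
    (h : ∀ i < ρ, b i = 0) :
    mu m n b = Rp m n ρ * mu (m - ρ) (n - ρ) (fun i => b (ρ + i) - if i = 0 then 1 else 0) := by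
  have hs := b1_prevS_shift b ρ hb
  have hp0 : prevS b ρ = 0 := by
    unfold prevS
    rw [Nat.findGreatest_eq_zero_iff]
    intro j h1 h2 h3
    exact h3 (h j (by omega))
  set b' : ℕ → ℕ := fun i => b (ρ + i) - if i = 0 then 1 else 0 with hb'
  have hb'0 : b' 0 = b ρ - 1 := by simp [hb']
  have hb's : ∀ i, 1 ≤ i → b' i = b (ρ + i) := by
    intro i hi
    simp only [hb']
    rw [if_neg (by omega), Nat.sub_zero]
  obtain ⟨q, hq⟩ : ∃ q, m = ρ + (q + 1) := ⟨m - ρ - 1, by omega⟩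
  have hmρ : m - ρ = q + 1 := by omega
  unfold mu
  rw [hmρ]
  have hlast : prevS b m = ρ + prevS b' (q + 1) := by
    rw [hq]
    exact hs (q + 1) (by omega)
  have e1 : m - prevS b m = q + 1 - prevS b' (q + 1) := by rw [hlast]; omega
  have e2 : n - prevS b m = n - ρ - prevS b' (q + 1) := by rw [hlast]; omega
  rw [e1, e2]
  have hprod : (∏ i ∈ Finset.range m, if b i = 0 then (1 : Bq) else
      Rp (m - prevS b i) (n - prevS b i) (i - prevS b i) *
        Polynomial.X ^ ((m - i) * (n - i) * (b i - 1))) =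
      Rp m n ρ * ∏ i ∈ Finset.range (q + 1), if b' i = 0 then (1 : Bq) else
        Rp (q + 1 - prevS b' i) (n - ρ - prevS b' i) (i - prevS b' i) *
          Polynomial.X ^ ((q + 1 - i) * (n - ρ - i) * (b' i - 1)) := by
    have hr : Finset.range m = Finset.range (ρ + (q + 1)) := by rw [hq]
    rw [hr, Finset.prod_range_add, Finset.prod_eq_one (s := Finset.range ρ), one_mul,
      Finset.prod_range_succ', Finset.prod_range_succ']
    · have hF0 : (if b (ρ + 0) = 0 then (1 : Bq) else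
          Rp (m - prevS b (ρ + 0)) (n - prevS b (ρ + 0)) (ρ + 0 - prevS b (ρ + 0)) *
            Polynomial.X ^ ((m - (ρ + 0)) * (n - (ρ + 0)) * (b (ρ + 0) - 1))) =
          Rp m n ρ * (if b' 0 = 0 then (1 : Bq) else
            Rp (q + 1 - prevS b' 0) (n - ρ - prevS b' 0) (0 - prevS b' 0) *
              Polynomial.X ^ ((q + 1 - 0) * (n - ρ - 0) * (b' 0 - 1))) := by
        rw [Nat.add_zero, if_neg hb, hp0, hmρ, hb'0, Nat.sub_zero, Nat.sub_zero, Nat.sub_zero]
        have hp'0 : prevS b' 0 = 0 := rfl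
        rw [hp'0]
        by_cases h1 : b ρ - 1 = 0
        · rw [if_pos h1, h1, Nat.mul_zero, pow_zero]
        · rw [if_neg h1]
          have h2 : Rp (q + 1 - 0) (n - ρ - 0) (0 - 0) =
              (Polynomial.X : Bq) ^ ((q + 1) * (n - ρ)) := by
            simp [Rp]
          rw [h2, ← pow_add]
          congr 2
          obtain ⟨t, ht⟩ : ∃ t, b ρ - 1 = t + 1 := ⟨b ρ - 1 - 1, by omega⟩
          rw [ht, Nat.add_sub_cancel, Nat.sub_zero, Nat.sub_zero]
          ring
      rw [hF0]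
      have hrest : ∀ k ∈ Finset.range q, (if b (ρ + (k + 1)) = 0 then (1 : Bq) else
          Rp (m - prevS b (ρ + (k + 1))) (n - prevS b (ρ + (k + 1)))
            (ρ + (k + 1) - prevS b (ρ + (k + 1))) *
            Polynomial.X ^ ((m - (ρ + (k + 1))) * (n - (ρ + (k + 1))) * (b (ρ + (k + 1)) - 1))) =
          (if b' (k + 1) = 0 then (1 : Bq) else
            Rp (q + 1 - prevS b' (k + 1)) (n - ρ - prevS b' (k + 1)) (k + 1 - prevS b' (k + 1)) *
              Polynomial.X ^ ((q + 1 - (k + 1)) * (n - ρ - (k + 1)) * (b' (k + 1) - 1))) := by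
        intro k _
        rw [hb's (k + 1) (by omega), hs (k + 1) (by omega)]
        have f1 : m - (ρ + prevS b' (k + 1)) = q + 1 - prevS b' (k + 1) := by omega
        have f2 : n - (ρ + prevS b' (k + 1)) = n - ρ - prevS b' (k + 1) := by omega
        have f3 : ρ + (k + 1) - (ρ + prevS b' (k + 1)) = k + 1 - prevS b' (k + 1) := by omega
        have f4 : m - (ρ + (k + 1)) = q + 1 - (k + 1) := by omega
        have f5 : n - (ρ + (k + 1)) = n - ρ - (k + 1) := by omega
        rw [f1, f2, f3, f4, f5]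
      rw [Finset.prod_congr rfl hrest]
      ring
    · intro i hi
      rw [Finset.mem_range] at hi
      rw [if_pos (h i hi)]
  rw [hprod, mul_assoc]

theorem mu_add (m n : ℕ) (b u : ℕ → ℕ) (hu : ∀ i < m, u i ≠ 0 → b i ≠ 0) :
    mu m n (fun i => b i + u i) =
      Polynomial.X ^ (∑ i ∈ Finset.range m, (m - i) * (n - i) * u i) * mu m n b := by
  have hp : ∀ i ≤ m, prevS (fun i => b i + u i) i = prevS b i := fun i hi =>
    b1_prevS_congr _ _ i fun j hj => by
      have h1 := hu j (by omega)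
      constructor
      · intro h2 h3
        by_cases h4 : u j = 0
        · exact h2 (by rw [h3, h4])
        · exact h1 h4 h3
      · intro h2 h3
        exact h2 (by omega)
  unfold mu
  rw [hp m le_rfl, ← Finset.prod_pow_eq_pow_sum, ← mul_assoc, ← Finset.prod_mul_distrib]
  congr 1
  refine Finset.prod_congr rfl fun i hi => ?_
  rw [Finset.mem_range] at hi
  rw [hp i hi.le]
  by_cases h1 : b i = 0
  · have h2 : u i = 0 := by
      by_contra h3
      exact hu i hi h3 h1
    have h3 : b i + u i = 0 := by omega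
    rw [if_pos h1, if_pos h3, h2, Nat.mul_zero, pow_zero, one_mul]
  · have h3 : ¬ b i + u i = 0 := by omega
    rw [if_neg h1, if_neg h3]
    have h2 : b i + u i - 1 = (b i - 1) + u i := by omega
    rw [h2, Nat.mul_add, pow_add]
    ring

theorem mu_dvd (m n : ℕ) (hmn : m ≤ n) (b : ℕ → ℕ) :
    (Polynomial.X : Bq) ^ (∑ i ∈ Finset.range m, (b i - 1)) ∣ mu m n b := by
  unfold mu
  rw [← Finset.prod_pow_eq_pow_sum]
  refine Dvd.dvd.mul_right (Finset.prod_dvd_prod_of_dvd _ _ fun i hi => ?_) _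
  rw [Finset.mem_range] at hi
  by_cases h1 : b i = 0
  · rw [if_pos h1, h1]
    simp
  · rw [if_neg h1]
    refine Dvd.dvd.mul_left (pow_dvd_pow _ ?_) _
    refine Nat.le_mul_of_pos_left _ ?_
    exact Nat.mul_pos (by omega) (by omega)

end MotMono
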