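import Pool.Agent.Lib.MP_4e5fcd_ag.Det.C2

/-! # DET-C3: the pieces of the stratification by the rank of the constant term -/

open MvPolynomial

namespace MotMono

/-- an injective selection of rows extends to a numbering -/
theorem exists_extend {m ρ : ℕ} (S : Fin ρ → Fin m) (hS : Function.Injective S) :
    ∃ σ : Fin ρ ⊕ Fin (m - ρ) ≃ Fin m, ∀ i, σ (Sum.inl i) = S i := by
  classical
  have hcard : Fintype.card ((Set.range S)ᶜ : Set (Fin m)) = m - ρ := by
    rw [Fintype.card_compl_set, Fintype.card_fin]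
    congr 1
    rw [Set.card_range_of_injective hS, Fintype.card_fin]
  let e2 : Fin (m - ρ) ≃ ((Set.range S)ᶜ : Set (Fin m)) := (Fintype.equivFinOfCardEq hcard).symm
  let e1 : Fin ρ ≃ Set.range S := Equiv.ofInjective S hS
  refine ⟨(Equiv.sumCongr e1 e2).trans (Equiv.Set.sumCompl (Set.range S)), fun i => ?_⟩
  simp [e1]

/-- if a `ρ × ρ` minor does not vanish and all `(ρ + 1) × (ρ + 1)` minors vanish, then the Schur
complement vanishes -/
theorem schur_zero {ρ m' n' : ℕ} (A : Matrix (Fin ρ ⊕ Fin m') (Fin ρ ⊕ Fin n') ℂ)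
    (hA : A.toBlocks₁₁.det ≠ 0)
    (h : ∀ (S : Fin (ρ + 1) → Fin ρ ⊕ Fin m') (T : Fin (ρ + 1) → Fin ρ ⊕ Fin n'),
      (A.submatrix S T).det = 0) :
    A.toBlocks₂₂ - A.toBlocks₂₁ * A.toBlocks₁₁⁻¹ * A.toBlocks₁₂ = 0 := by
  classical
  have hu : IsUnit A.toBlocks₁₁.det := isUnit_iff_ne_zero.2 hA
  letI : Invertible A.toBlocks₁₁ := Matrix.invertibleOfIsUnitDet _ hu
  ext i k
  have h1 := h (fun x => Sum.elim Sum.inl (fun _ : Fin 1 => Sum.inr i) (finSumFinEquiv.symm x))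
    (fun x => Sum.elim Sum.inl (fun _ : Fin 1 => Sum.inr k) (finSumFinEquiv.symm x))
  have h2 : A.submatrix
      (fun x => Sum.elim Sum.inl (fun _ : Fin 1 => Sum.inr i) (finSumFinEquiv.symm x))
      (fun x => Sum.elim Sum.inl (fun _ : Fin 1 => Sum.inr k) (finSumFinEquiv.symm x)) =
      (Matrix.fromBlocks A.toBlocks₁₁ (A.toBlocks₁₂.submatrix id fun _ : Fin 1 => k)
        (A.toBlocks₂₁.submatrix (fun _ : Fin 1 => i) id)
        (A.toBlocks₂₂.submatrix (fun _ : Fin 1 => i) fun _ : Fin 1 => k)).submatrix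
        finSumFinEquiv.symm finSumFinEquiv.symm := by
    ext1 a b
    rw [Matrix.submatrix_apply, Matrix.submatrix_apply]
    rcases finSumFinEquiv.symm a with x | x <;> rcases finSumFinEquiv.symm b with y | y <;> rfl
  rw [h2, Matrix.det_submatrix_equiv_self, Matrix.det_fromBlocks₁₁] at h1
  have h3 := (mul_eq_zero.1 h1).resolve_left hA
  rw [Matrix.det_fin_one, Matrix.invOf_eq_nonsing_inv] at h3
  have h4 : (A.toBlocks₂₂.submatrix (fun _ : Fin 1 => i) (fun _ : Fin 1 => k) -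
      A.toBlocks₂₁.submatrix (fun _ : Fin 1 => i) id * A.toBlocks₁₁⁻¹ *
        A.toBlocks₁₂.submatrix id (fun _ : Fin 1 => k)) 0 0 =
      (A.toBlocks₂₂ - A.toBlocks₂₁ * A.toBlocks₁₁⁻¹ * A.toBlocks₁₂) i k := rfl
  rw [h4] at h3
  exact h3

theorem cls_piece (m n ρ L : ℕ) (hρ : ρ ≤ m) (hmn : m ≤ n) (S : Fin ρ → Fin m)
    (T : Fin ρ → Fin n) (Q : Set (Fin m × Fin n → ℂ)) (hQ : Constr Q) (hQR : Q ⊆ RankSet m n ρ)
    (hQ1 : ∀ A ∈ Q, (Matrix.of fun i j => A (S i, T j)).det ≠ 0) (Φ : (ℕ → ℕ) → Prop) :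
    cls {γ : (Fin m × Fin n) × Fin (L + 1) → ℂ |
        (fun c => γ (c, 0)) ∈ Q ∧ Φ (et (L + 1) (mser γ))} =
      cls Q * LL ^ ((m * n - (m - ρ) * (n - ρ)) * L) *
        cls (SP (m - ρ) (n - ρ) L fun E => Φ (shiftE ρ (L + 1) E)) := by
  classical
  rcases Set.eq_empty_or_nonempty Q with hQe | ⟨A₀, hA₀⟩
  · have h1 : {γ : (Fin m × Fin n) × Fin (L + 1) → ℂ |
        (fun c => γ (c, 0)) ∈ Q ∧ Φ (et (L + 1) (mser γ))} = ∅ := by
      ext γ
      simp [hQe]
    rw [h1, hQe, cls_empty, cls_empty]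
    ring
  have hdet := hQ1 A₀ hA₀
  have hS : Function.Injective S := by
    intro a b hab
    by_contra hne
    exact hdet (Matrix.det_zero_of_row_eq hne (by funext c; simp [hab]))
  have hT : Function.Injective T := by
    intro a b hab
    by_contra hne
    exact hdet (Matrix.det_zero_of_column_eq hne (by intro c; simp [hab]))
  obtain ⟨σ, hσ⟩ := exists_extend S hS
  obtain ⟨τ, hτ⟩ := exists_extend T hT
  -- the reindexed set
  set Q' : Set ((Fin ρ ⊕ Fin (m - ρ)) × (Fin ρ ⊕ Fin (n - ρ)) → ℂ) :=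
    {x | (fun c : Fin m × Fin n => x (σ.symm c.1, τ.symm c.2)) ∈ Q} with hQ'
  have hQ'c : Constr Q' := hQ.comp fun c : Fin m × Fin n => (σ.symm c.1, τ.symm c.2)
  have hQQ' : cls Q = cls Q' := by
    refine cls_iso hQ hQ'c ?_
    exact RegIso.reindex (Equiv.prodCongr σ.symm τ.symm) Q
  have hQ'1 : ∀ A ∈ Q', (Matrix.of fun i k => A (i, k)).toBlocks₁₁.det ≠ 0 ∧
      (Matrix.of fun i k => A (i, k)).toBlocks₂₂ - (Matrix.of fun i k => A (i, k)).toBlocks₂₁ *
        (Matrix.of fun i k => A (i, k)).toBlocks₁₁⁻¹ *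
          (Matrix.of fun i k => A (i, k)).toBlocks₁₂ = 0 := by
    intro A hA
    have h1 := hQ1 _ hA
    have h2 : (Matrix.of fun i j => (fun c : Fin m × Fin n => A (σ.symm c.1, τ.symm c.2))
        (S i, T j)) = (Matrix.of fun i k => A (i, k)).toBlocks₁₁ := by
      ext i j
      simp only [Matrix.of_apply, Matrix.toBlocks₁₁]
      rw [← hσ, ← hτ, Equiv.symm_apply_apply, Equiv.symm_apply_apply]
    rw [h2] at h1
    refine ⟨h1, schur_zero _ h1 fun S' T' => ?_⟩
    have h3 := (hQR hA).2 (fun i => σ (S' i)) (fun j => τ (T' j))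
    have h4 : (Matrix.of fun i j => (fun c : Fin m × Fin n => A (σ.symm c.1, τ.symm c.2))
        (σ (S' i), τ (T' j))) = (Matrix.of fun i k => A (i, k)).submatrix S' T' := by
      ext i j
      simp only [Matrix.of_apply, Matrix.submatrix_apply, Equiv.symm_apply_apply]
    rw [h4] at h3
    exact h3
  have hb := cls_block ρ (m - ρ) (n - ρ) L Q' hQ'c hQ'1 Φ
  have e1 : ρ + (m - ρ) = m := by omega
  have e2 : ρ + (n - ρ) = n := by omega
  rw [e1, e2] at hb
  rw [hQQ', ← hb]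
  refine cls_iso ((hQ.comp fun c : Fin m × Fin n => (c, (0 : Fin (L + 1)))).inter
    (constr_et (L + 1) Φ)) ((hQ'c.comp fun c => (c, (0 : Fin (L + 1)))).inter
    (constr_et (L + 1) Φ)) ?_
  have hr := RegIso.reindex (Equiv.prodCongr (Equiv.prodCongr σ.symm τ.symm)
    (Equiv.refl (Fin (L + 1)))) {γ : (Fin m × Fin n) × Fin (L + 1) → ℂ |
        (fun c => γ (c, 0)) ∈ Q ∧ Φ (et (L + 1) (mser γ))}
  convert hr using 1
  ext y
  simp only [Set.mem_inter_iff, Set.mem_ofPred_eq]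
  refine and_congr Iff.rfl ?_
  have h5 : mser (fun i => y ((Equiv.prodCongr (Equiv.prodCongr σ.symm τ.symm)
      (Equiv.refl (Fin (L + 1)))) i)) = (mser y).submatrix σ.symm τ.symm := rfl
  rw [h5, et_submatrix]

end MotMono
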