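import Pool.Agent.Lib.MP_4e5fcd_ag.Defs

/-!
# Sums of products of determinantal ideals: definition

The affine space is a product of matrix spaces `∏ a, Mat (m a × n a)`, its coordinates are
numbered by an equivalence `e`.
-/

open MvPolynomial

namespace MotMono

variable {s N : ℕ} {m n : Fin s → ℕ}

/-- The ideal generated by the `r × r` minors of the `a`-th matrix of variables. -/
noncomputable def detIdeal (e : (Σ a, Fin (m a) × Fin (n a)) ≃ Fin N) (a : Fin s) (r : ℕ) :
    Ideal (MvPolynomial (Fin N) ℂ) :=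
  Ideal.span {f | ∃ (S : Fin r → Fin (m a)) (T : Fin r → Fin (n a)),
    f = (Matrix.of fun i j => (X (e ⟨a, (S i, T j)⟩) : MvPolynomial (Fin N) ℂ)).det}

/-- The sum over `w ∈ A` of the products over all `a` and all `r ≤ m a` of the `w (a, r)`-th powers
of the ideals of the `r × r` minors of the `a`-th matrix (the index `i : Fin (m a)` stands for
`r = i + 1`). -/
noncomputable def detSum (e : (Σ a, Fin (m a) × Fin (n a)) ≃ Fin N)
    (A : Finset ((Σ a, Fin (m a)) → ℕ)) : Ideal (MvPolynomial (Fin N) ℂ) :=
  ⨆ w ∈ A, ∏ c : (Σ a, Fin (m a)), detIdeal e c.1 (c.2 + 1) ^ w c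

end MotMono
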