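import Pool.Agent.Lib.MP_4e5fcd_ag.Det.G1

/-! # DET-G2: lattice points of polyhedra are finitely generated over the rays -/

namespace MotMono

variable {ι : Type} [Fintype ι]

theorem g2_dickson {α X : Type} [PartialOrder X] [WellQuasiOrderedLE X] (P : Set α) (v : α → X) :
    ∃ F : Finset α, (∀ f ∈ F, f ∈ P) ∧ ∀ b ∈ P, ∃ f ∈ F, v f ≤ v b := by
  classical
  have hfin : {x | Minimal (fun x => x ∈ v '' P) x}.Finite :=
    WellQuasiOrderedLE.finite_of_isAntichain (setOfPred_minimal_antichain _)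
  have hrep : ∀ x : {x | Minimal (fun x => x ∈ v '' P) x}, ∃ f ∈ P, v f = x.1 :=
    fun x => x.2.1
  choose rep hrep1 hrep2 using hrep
  have := hfin.fintype
  refine ⟨Finset.univ.image rep, ?_, ?_⟩
  · intro f hf
    obtain ⟨x, hx, rfl⟩ := Finset.mem_image.1 hf
    exact hrep1 x
  · intro b hb
    obtain ⟨x, hxb, hx⟩ := exists_minimal_le_of_wellFoundedLT (fun x => x ∈ v '' P) (v b)
      ⟨b, hb, rfl⟩
    refine ⟨rep ⟨x, hx⟩, Finset.mem_image.2 ⟨_, Finset.mem_univ _, rfl⟩, ?_⟩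
    rw [hrep2 ⟨x, hx⟩]
    exact hxb

theorem exists_gens (Z : Set ι) (Ls : Finset (ι → ℤ)) (U : Finset (ι → ℕ)) (hU : IsRays Z Ls U)
    (β : (ι → ℤ) → ℤ) (c₀ : ι → ℕ) :
    ∃ F : Finset (ι → ℕ),
      (∀ f ∈ F, (∀ i ∈ Z, f i = 0) ∧ (∀ i, c₀ i ≤ f i) ∧ ∀ l ∈ Ls, β l ≤ ∑ i, l i * (f i : ℤ)) ∧
      ∀ b : ι → ℕ, (∀ i ∈ Z, b i = 0) → (∀ i, c₀ i ≤ b i) →
        (∀ l ∈ Ls, β l ≤ ∑ i, l i * (b i : ℤ)) →
        ∃ f ∈ F, ∃ α : (ι → ℕ) → ℕ, b = f + ∑ u ∈ U, α u • u := by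
  classical
  let P : Set (ι → ℕ) := {f | (∀ i ∈ Z, f i = 0) ∧ (∀ i, c₀ i ≤ f i) ∧
    ∀ l ∈ Ls, β l ≤ ∑ i, l i * (f i : ℤ)}
  obtain ⟨F₀, hF₀, hF₀'⟩ := g2_dickson P
    (fun b => ((b, fun l : Ls => (∑ i, l.1 i * (b i : ℤ) - β l.1).toNat) : (ι → ℕ) × (Ls → ℕ)))
  let R : ι → ℕ := ∑ u ∈ U, u
  refine ⟨(Finset.image₂ (fun f r => f + r) F₀ (Finset.Iic R)).filter (fun f => f ∈ P), ?_, ?_⟩
  · intro f hf
    exact (Finset.mem_filter.1 hf).2
  · intro b hb1 hb2 hb3
    obtain ⟨f, hf, hfb⟩ := hF₀' b ⟨hb1, hb2, hb3⟩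
    have hfP := hF₀ f hf
    have hfb1 : ∀ i, f i ≤ b i := hfb.1
    have hfb2 : ∀ l ∈ Ls, ∑ i, l i * (f i : ℤ) ≤ ∑ i, l i * (b i : ℤ) := by
      intro l hl
      have h1 := hfb.2 ⟨l, hl⟩
      have h2 := hfP.2.2 l hl
      have h3 := hb3 l hl
      dsimp only at h1
      omega
    obtain ⟨α, hα, hαx⟩ := hU.gen (fun i => (b i : ℚ) - f i)
      (fun i => sub_nonneg.2 (by exact_mod_cast hfb1 i))
      (fun i hi => by simp [hb1 i hi, hfP.1 i hi])
      (fun l hl => by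
        have h1 : (0 : ℤ) ≤ ∑ i, l i * (b i : ℤ) - ∑ i, l i * (f i : ℤ) :=
          sub_nonneg.2 (hfb2 l hl)
        have h2 : ∑ i, (l i : ℚ) * ((b i : ℚ) - f i) =
            ((∑ i, l i * (b i : ℤ) - ∑ i, l i * (f i : ℤ) : ℤ) : ℚ) := by
          push_cast
          rw [← Finset.sum_sub_distrib]
          exact Finset.sum_congr rfl fun i _ => by ring
        rw [h2]
        exact_mod_cast h1)
    let n : (ι → ℕ) → ℕ := fun u => ⌊α u⌋₊
    have hn1 : ∀ u, (n u : ℚ) ≤ α u := fun u => Nat.floor_le (hα u)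
    have hn2 : ∀ u, α u ≤ n u + 1 := fun u => (Nat.lt_floor_add_one (α u)).le
    -- the remainder
    have hsum : ∀ i, ((∑ u ∈ U, n u • u) i : ℚ) = ∑ u ∈ U, (n u : ℚ) * u i := by
      intro i
      rw [Finset.sum_apply]
      push_cast
      exact Finset.sum_congr rfl fun u _ => by simp
    have hle : ∀ i, f i + (∑ u ∈ U, n u • u) i ≤ b i := by
      intro i
      have h1 : ((f i : ℚ)) + ((∑ u ∈ U, n u • u) i : ℕ) ≤ b i := by
        rw [hsum i]
        have h2 := hαx i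
        have h3 : ∑ u ∈ U, (n u : ℚ) * u i ≤ ∑ u ∈ U, α u * u i :=
          Finset.sum_le_sum fun u _ => mul_le_mul_of_nonneg_right (hn1 u) (Nat.cast_nonneg _)
        linarith
      exact_mod_cast h1
    let r : ι → ℕ := fun i => b i - (f i + (∑ u ∈ U, n u • u) i)
    have hr : ∀ i, (r i : ℚ) = ∑ u ∈ U, (α u - n u) * u i := by
      intro i
      have h1 : (r i : ℚ) = (b i : ℚ) - ((f i : ℚ) + ((∑ u ∈ U, n u • u) i : ℕ)) := by
        simp only [r]
        rw [Nat.cast_sub (hle i)]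
        push_cast
        ring
      rw [h1, hsum i]
      have h2 := hαx i
      have h3 : ∑ u ∈ U, (α u - n u) * (u i : ℚ) =
          ∑ u ∈ U, α u * (u i : ℚ) - ∑ u ∈ U, (n u : ℚ) * u i := by
        rw [← Finset.sum_sub_distrib]
        exact Finset.sum_congr rfl fun u _ => by ring
      rw [h3, ← h2]
      ring
    have hrR : r ≤ R := by
      intro i
      have h1 : (r i : ℚ) ≤ (R i : ℕ) := by
        rw [hr i]
        simp only [R]
        rw [Finset.sum_apply]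
        push_cast
        refine Finset.sum_le_sum fun u _ => ?_
        have h2 := hn2 u
        have h3 : (0 : ℚ) ≤ u i := Nat.cast_nonneg _
        nlinarith
      exact_mod_cast h1
    have hbr : b = (f + r) + ∑ u ∈ U, n u • u := by
      ext i
      have := hle i
      simp only [Pi.add_apply, r]
      omega
    refine ⟨f + r, ?_, n, hbr⟩
    rw [Finset.mem_filter]
    refine ⟨Finset.mem_image₂_of_mem hf (Finset.mem_Iic.2 hrR), ?_, ?_, ?_⟩
    · intro i hi
      have h1 := hb1 i hi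
      have h2 := hfP.1 i hi
      simp only [Pi.add_apply, r]
      omega
    · intro i
      have h2 := hfP.2.1 i
      simp only [Pi.add_apply]
      omega
    · intro l hl
      have h1 := hfP.2.2 l hl
      have h2 : (0 : ℤ) ≤ ∑ i, l i * (r i : ℤ) := by
        have h3 : ((∑ i, l i * (r i : ℤ) : ℤ) : ℚ) =
            ∑ u ∈ U, (α u - n u) * ((∑ i, l i * (u i : ℤ) : ℤ) : ℚ) := by
          push_cast
          simp only [hr, Finset.mul_sum]
          rw [Finset.sum_comm]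
          exact Finset.sum_congr rfl fun u _ => Finset.sum_congr rfl fun i _ => by ring
        have h4 : (0 : ℚ) ≤ ((∑ i, l i * (r i : ℤ) : ℤ) : ℚ) := by
          rw [h3]
          refine Finset.sum_nonneg fun u hu => mul_nonneg (sub_nonneg.2 (hn1 u)) ?_
          exact_mod_cast hU.nonneg u hu l hl
        exact_mod_cast h4
      have h5 : ∑ i, l i * (((f + r) i : ℕ) : ℤ) = ∑ i, l i * (f i : ℤ) + ∑ i, l i * (r i : ℤ) := by
        rw [← Finset.sum_add_distrib]
        refine Finset.sum_congr rfl fun i _ => ?_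
        rw [Pi.add_apply]
        push_cast
        ring
      rw [h5]
      linarith

end MotMono
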