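import Pool.Agent.Lib.MP_4e5fcd_ag.Det.S1
import Pool.Agent.Lib.MP_4e5fcd_ag.Det.S2

/-! # DET-G3: rationality of generating functions (monomial Hilbert-Serre theorem) -/

namespace MotMono

variable {ι B : Type} [Fintype ι] [CommRing B]

/-- the factor of the vector `u` -/
noncomputable def rayFactor (B : Type) [CommRing B] (a b : ℕ) : PowerSeries (PowerSeries B) :=
  1 - PowerSeries.C ((PowerSeries.X : PowerSeries B) ^ a) * PowerSeries.X ^ b

theorem isPolyT_add {F G : PowerSeries B} (hF : IsPolyT F) (hG : IsPolyT G) : IsPolyT (F + G) := by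
  obtain ⟨K, hK⟩ := hF
  obtain ⟨L, hL⟩ := hG
  refine ⟨max K L, fun k hk => ?_⟩
  rw [map_add, hK k (le_trans (le_max_left _ _) hk), hL k (le_trans (le_max_right _ _) hk),
    add_zero]

theorem isPolyT_mul {F G : PowerSeries B} (hF : IsPolyT F) (hG : IsPolyT G) :
    IsPolyT (F * G) := by
  obtain ⟨K, hK⟩ := hF
  obtain ⟨L, hL⟩ := hG
  refine ⟨K + L, fun k hk => ?_⟩
  rw [PowerSeries.coeff_mul]
  refine Finset.sum_eq_zero fun p hp => ?_
  rw [Finset.HasAntidiagonal.mem_antidiagonal] at hp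
  by_cases h : K ≤ p.1
  · rw [hK _ h, zero_mul]
  · rw [hL p.2 (by omega), mul_zero]

theorem isPolyT_rayFactor (a b : ℕ) : IsPolyT (rayFactor B a b) := by
  refine ⟨b + 1, fun k hk => ?_⟩
  rw [rayFactor, map_sub, PowerSeries.coeff_C_mul, PowerSeries.coeff_X_pow,
    if_neg (by omega), PowerSeries.coeff_one, if_neg (by omega)]
  simp

theorem g3_dickson {α X : Type} [PartialOrder X] [WellQuasiOrderedLE X] (P : Set α) (v : α → X) :
    ∃ F : Finset α, (∀ f ∈ F, f ∈ P) ∧ ∀ b ∈ P, ∃ f ∈ F, v f ≤ v b := by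
  classical
  have hfin : {x | Minimal (fun x => x ∈ v '' P) x}.Finite :=
    WellQuasiOrderedLE.finite_of_isAntichain (setOfPred_minimal_antichain _)
  have hrep : ∀ x : {x | Minimal (fun x => x ∈ v '' P) x}, ∃ f ∈ P, v f = x.1 :=
    fun x => x.2.1
  choose rep hrep1 hrep2 using hrep
  have := hfin.fintype
  refine ⟨Finset.univ.image rep, ?_, ?_⟩
  · intro f hf
    obtain ⟨x, hx, rfl⟩ := Finset.mem_image.1 hf
    exact hrep1 x
  · intro b hb
    obtain ⟨x, hxb, hx⟩ := exists_minimal_le_of_wellFoundedLT (fun x => x ∈ v '' P) (v b)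
      ⟨b, hb, rfl⟩
    refine ⟨rep ⟨x, hx⟩, Finset.mem_image.2 ⟨_, Finset.mem_univ _, rfl⟩, ?_⟩
    rw [hrep2 ⟨x, hx⟩]
    exact hxb

theorem g3_pair_add (W b u : ι → ℕ) : pair W (b + u) = pair W b + pair W u := by
  simp [pair, mul_add, Finset.sum_add_distrib]

theorem g3_HS_coeff (μ : (ι → ℕ) → Polynomial B) (V : Set (ι → ℕ)) (W : ι → ℕ) (k : ℕ) :
    PowerSeries.coeff k (HS μ V W) = SS μ {b | b ∈ V ∧ pair W b = k} := by
  simp [HS]

theorem g3_HS_union {μ : (ι → ℕ) → Polynomial B} (hμ : LocFin μ) {V V' : Set (ι → ℕ)}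
    (h : Disjoint V V') (W : ι → ℕ) : HS μ (V ∪ V') W = HS μ V W + HS μ V' W := by
  ext1 k
  rw [map_add, g3_HS_coeff, g3_HS_coeff, g3_HS_coeff, ← SS_union hμ]
  · congr 1
    ext b
    simp only [Set.mem_union, Set.mem_ofPred_eq]
    tauto
  · rw [Set.disjoint_left] at h ⊢
    rintro b ⟨hb, _⟩ ⟨hb', _⟩
    exact h hb hb'

theorem g3_HS_diff {μ : (ι → ℕ) → Polynomial B} (hμ : LocFin μ) {V V' : Set (ι → ℕ)}
    (h : V' ⊆ V) (W : ι → ℕ) : HS μ (V \ V') W = HS μ V W - HS μ V' W := by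
  have h1 := g3_HS_union hμ (V := V \ V') (V' := V') Set.disjoint_sdiff_left W
  rw [Set.sdiff_union_of_subset h] at h1
  rw [h1]
  abel

theorem g3_HS_shift {μ : (ι → ℕ) → Polynomial B} (hμ : LocFin μ) (ν W : ι → ℕ)
    (V : Set (ι → ℕ)) (u : ι → ℕ)
    (h : ∀ b ∈ V, μ (b + u) = Polynomial.X ^ pair ν u * μ b) :
    HS μ ((fun b => b + u) '' V) W =
      PowerSeries.C ((PowerSeries.X : PowerSeries B) ^ pair ν u) * PowerSeries.X ^ pair W u *
        HS μ V W := by
  ext1 k
  rw [mul_assoc, PowerSeries.coeff_C_mul, PowerSeries.coeff_X_pow_mul', g3_HS_coeff]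
  split_ifs with hk
  · rw [g3_HS_coeff]
    have h1 : {b | b ∈ (fun b => b + u) '' V ∧ pair W b = k} =
        (fun b => b + u) '' {b | b ∈ V ∧ pair W b = k - pair W u} := by
      ext b
      constructor
      · rintro ⟨⟨b', hb', rfl⟩, hb2⟩
        refine ⟨b', ⟨hb', ?_⟩, rfl⟩
        dsimp only at hb2
        rw [g3_pair_add] at hb2
        omega
      · rintro ⟨b', ⟨hb', hb2⟩, rfl⟩
        refine ⟨⟨b', hb', rfl⟩, ?_⟩
        dsimp only
        rw [g3_pair_add]
        omega
    rw [h1, SS_image hμ _ (fun b => b + u) (fun a _ b _ hab => add_right_cancel hab)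
      (Polynomial.X ^ pair ν u) (fun b hb => h b hb.1)]
    congr 1
    simp
  · rw [mul_zero]
    have h1 : {b | b ∈ (fun b => b + u) '' V ∧ pair W b = k} = ∅ := by
      ext b
      simp only [Set.mem_ofPred_eq, Set.mem_empty_iff_false, iff_false]
      rintro ⟨⟨b', hb', rfl⟩, hb2⟩
      dsimp only at hb2
      rw [g3_pair_add] at hb2
      omega
    rw [h1, SS_empty]

/-- a stable set is stable under the monoid -/
theorem g3_stable {U : Finset (ι → ℕ)} {M : Set (ι → ℕ)} (hM : ∀ u ∈ U, ∀ b ∈ M, b + u ∈ M)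
    (α : (ι → ℕ) → ℕ) (b : ι → ℕ) (hb : b ∈ M) : b + ∑ u ∈ U, α u • u ∈ M := by
  classical
  induction U using Finset.induction_on with
  | empty => simpa using hb
  | insert u U hu ih =>
    rw [Finset.sum_insert hu]
    have h1 := ih fun u' hu' => hM u' (Finset.mem_insert_of_mem hu')
    have h2 : ∀ n : ℕ, ∀ b ∈ M, b + n • u ∈ M := by
      intro n
      induction n with
      | zero => intro b hb; simpa using hb
      | succ n ihn =>
        intro b hb
        have := hM u (Finset.mem_insert_self _ _) _ (ihn b hb)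
        rw [add_smul, one_smul, ← add_assoc]
        exact this
    have h3 := h2 (α u) _ h1
    rwa [show b + (α u • u + ∑ u ∈ U, α u • u) = b + ∑ u ∈ U, α u • u + α u • u by abel]

/-- finite generation of submodules -/
theorem g3_fg (U : Finset (ι → ℕ)) (M M' N : Set (ι → ℕ)) (hNM : N ⊆ M)
    (F : Finset (ι → ℕ))
    (hgen : ∀ b ∈ M \ M', ∃ f ∈ F, ∃ α : (ι → ℕ) → ℕ, b = f + ∑ u ∈ U, α u • u) :
    ∃ G : Finset (ι → ℕ), (∀ g ∈ G, g ∈ N \ M') ∧
      ∀ b ∈ N \ M', ∃ g ∈ G, ∃ α : (ι → ℕ) → ℕ, b = g + ∑ u ∈ U, α u • u := by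
  classical
  have h1 : ∀ f : ι → ℕ, ∃ G : Finset ((ι → ℕ) → ℕ),
      (∀ α ∈ G, f + ∑ u ∈ U, α u • u ∈ N \ M') ∧
      ∀ β : (ι → ℕ) → ℕ, f + ∑ u ∈ U, β u • u ∈ N \ M' →
        ∃ α ∈ G, ∀ u ∈ U, α u ≤ β u := by
    intro f
    obtain ⟨G, hG, hG'⟩ := g3_dickson {α : (ι → ℕ) → ℕ | f + ∑ u ∈ U, α u • u ∈ N \ M'}
      (fun α => (fun u : U => α u.1))
    refine ⟨G, hG, fun β hβ => ?_⟩
    obtain ⟨α, hα, hαβ⟩ := hG' β hβ
    exact ⟨α, hα, fun u hu => hαβ ⟨u, hu⟩⟩
  choose G hG hG' using h1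
  refine ⟨F.biUnion fun f => (G f).image fun α => f + ∑ u ∈ U, α u • u, ?_, ?_⟩
  · intro g hg
    obtain ⟨f, hf, hg⟩ := Finset.mem_biUnion.1 hg
    obtain ⟨α, hα, rfl⟩ := Finset.mem_image.1 hg
    exact hG f α hα
  · intro b hb
    obtain ⟨f, hf, β, hβ⟩ := hgen b ⟨hNM hb.1, hb.2⟩
    obtain ⟨α, hα, hαβ⟩ := hG' f β (hβ ▸ hb)
    refine ⟨f + ∑ u ∈ U, α u • u, Finset.mem_biUnion.2 ⟨f, hf, Finset.mem_image.2 ⟨α, hα, rfl⟩⟩,
      fun u => β u - α u, ?_⟩
    rw [hβ, add_assoc, ← Finset.sum_add_distrib]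
    congr 1
    refine Finset.sum_congr rfl fun u hu => ?_
    rw [← add_smul]
    congr 1
    have := hαβ u hu
    show β u = α u + (β u - α u)
    omega

theorem isPolyT_HS (μ : (ι → ℕ) → Polynomial B) (hμ : LocFin μ) (ν W : ι → ℕ)
    (U : Finset (ι → ℕ)) (M M' : Set (ι → ℕ)) (hM'M : M' ⊆ M)
    (hM : ∀ u ∈ U, ∀ b ∈ M, b + u ∈ M) (hM' : ∀ u ∈ U, ∀ b ∈ M', b + u ∈ M')
    (hμu : ∀ u ∈ U, ∀ b ∈ M, μ (b + u) = Polynomial.X ^ pair ν u * μ b)
    (F : Finset (ι → ℕ)) (hF : ∀ f ∈ F, f ∈ M \ M')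
    (hgen : ∀ b ∈ M \ M', ∃ f ∈ F, ∃ α : (ι → ℕ) → ℕ, b = f + ∑ u ∈ U, α u • u) :
    IsPolyT ((∏ u ∈ U, rayFactor B (pair ν u) (pair W u)) * HS μ (M \ M') W) := by
  classical
  induction U using Finset.induction_on generalizing M M' F with
  | empty =>
    rw [Finset.prod_empty, one_mul]
    refine ⟨F.sup (pair W) + 1, fun k hk => ?_⟩
    rw [g3_HS_coeff]
    have h1 : {b | b ∈ M \ M' ∧ pair W b = k} = ∅ := by
      ext b
      simp only [Set.mem_ofPred_eq, Set.mem_empty_iff_false, iff_false]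
      rintro ⟨hb, hb2⟩
      obtain ⟨f, hf, α, hα⟩ := hgen b hb
      rw [Finset.sum_empty, add_zero] at hα
      rw [hα] at hb2
      have : pair W f ≤ F.sup (pair W) := Finset.le_sup hf
      omega
    rw [h1, SS_empty]
  | insert u U hu ih =>
    have hMu := hM u (Finset.mem_insert_self _ _)
    have hM'u := hM' u (Finset.mem_insert_self _ _)
    have hMU : ∀ u ∈ U, ∀ b ∈ M, b + u ∈ M := fun u' hu' => hM u' (Finset.mem_insert_of_mem hu')
    have hM'U : ∀ u ∈ U, ∀ b ∈ M', b + u ∈ M' :=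
      fun u' hu' => hM' u' (Finset.mem_insert_of_mem hu')
    let S : Set (ι → ℕ) := (fun b => b + u) '' M
    let N : Set (ι → ℕ) := {b | b ∈ M ∧ b + u ∈ M'}
    have hSM : S ⊆ M := by
      rintro _ ⟨b, hb, rfl⟩
      exact hMu b hb
    have hM'N : M' ⊆ N := fun b hb => ⟨hM'M hb, hM'u b hb⟩
    have hNM : N ⊆ M := fun b hb => hb.1
    have hSU : ∀ u ∈ U, ∀ b ∈ S, b + u ∈ S := by
      rintro u' hu' _ ⟨b, hb, rfl⟩
      exact ⟨b + u', hMU u' hu' b hb, by dsimp only; abel⟩
    have hNU : ∀ u ∈ U, ∀ b ∈ N, b + u ∈ N := by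
      rintro u' hu' b ⟨hb, hb'⟩
      refine ⟨hMU u' hu' b hb, ?_⟩
      rw [show b + u' + u = b + u + u' by abel]
      exact hM'U u' hu' _ hb'
    -- the decomposition
    have hdec : rayFactor B (pair ν u) (pair W u) * HS μ (M \ M') W =
        HS μ (M \ (M' ∪ S)) W - PowerSeries.C ((PowerSeries.X : PowerSeries B) ^ pair ν u) *
          PowerSeries.X ^ pair W u * HS μ (N \ M') W := by
      have h1 : M \ M' = (M \ (M' ∪ S)) ∪ ((fun b => b + u) '' (M \ N)) := by
        ext b
        constructor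
        · rintro ⟨hb, hb'⟩
          by_cases hbS : b ∈ S
          · right
            obtain ⟨c, hc, rfl⟩ := hbS
            exact ⟨c, ⟨hc, fun h => hb' h.2⟩, rfl⟩
          · left
            exact ⟨hb, fun h => h.elim hb' hbS⟩
        · rintro (⟨hb, hb'⟩ | ⟨c, ⟨hc, hc'⟩, rfl⟩)
          · exact ⟨hb, fun h => hb' (Or.inl h)⟩
          · exact ⟨hMu c hc, fun h => hc' ⟨hc, h⟩⟩
      have h2 : Disjoint (M \ (M' ∪ S)) ((fun b => b + u) '' (M \ N)) := by
        rw [Set.disjoint_left]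
        rintro _ ⟨_, hb'⟩ ⟨c, ⟨hc, _⟩, rfl⟩
        exact hb' (Or.inr ⟨c, hc, rfl⟩)
      have h3 : HS μ (M \ M') W = HS μ (M \ (M' ∪ S)) W +
          PowerSeries.C ((PowerSeries.X : PowerSeries B) ^ pair ν u) *
          PowerSeries.X ^ pair W u * HS μ (M \ N) W := by
        rw [← g3_HS_shift hμ ν W (M \ N) u
          (fun b hb => hμu u (Finset.mem_insert_self _ _) b hb.1), ← g3_HS_union hμ h2 W, ← h1]
      have h4 : HS μ (M \ N) W = HS μ (M \ M') W - HS μ (N \ M') W := by
        rw [g3_HS_diff hμ hNM, g3_HS_diff hμ hM'M, g3_HS_diff hμ hM'N]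
        abel
      rw [h4] at h3
      rw [rayFactor]
      linear_combination h3
    have hsplit : (∏ u ∈ insert u U, rayFactor B (pair ν u) (pair W u)) * HS μ (M \ M') W =
        (∏ u ∈ U, rayFactor B (pair ν u) (pair W u)) * HS μ (M \ (M' ∪ S)) W +
        (-(PowerSeries.C ((PowerSeries.X : PowerSeries B) ^ pair ν u) *
          PowerSeries.X ^ pair W u)) *
          ((∏ u ∈ U, rayFactor B (pair ν u) (pair W u)) * HS μ (N \ M') W) := by
      rw [Finset.prod_insert hu, mul_right_comm, hdec]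
      ring
    rw [hsplit]
    apply isPolyT_add
    · refine ih M (M' ∪ S) (Set.union_subset hM'M hSM) hMU ?_
        (fun u' hu' => hμu u' (Finset.mem_insert_of_mem hu'))
        (F.filter fun f => f ∈ M \ (M' ∪ S)) (fun f hf => (Finset.mem_filter.1 hf).2) ?_
      · rintro u' hu' b (hb | hb)
        · exact Or.inl (hM'U u' hu' b hb)
        · exact Or.inr (hSU u' hu' b hb)
      · rintro b ⟨hb, hb'⟩
        obtain ⟨f, hf, α, hα⟩ := hgen b ⟨hb, fun h => hb' (Or.inl h)⟩
        have hfM := hF f hf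
        rw [Finset.sum_insert hu] at hα
        have hα0 : α u = 0 := by
          by_contra h
          apply hb'
          right
          refine ⟨f + (∑ u' ∈ U, α u' • u' + (α u - 1) • u), ?_, ?_⟩
          · have h1 := g3_stable hMU α f hfM.1
            have h2 := g3_stable (U := {u}) (M := M) (by
              intro u' hu'
              rw [Finset.mem_singleton] at hu'
              rw [hu']
              exact hMu) (fun _ => α u - 1) _ h1
            rw [Finset.sum_singleton] at h2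
            rwa [← add_assoc]
          · dsimp only
            rw [hα]
            have h3 : α u • u = (α u - 1) • u + u := by
              conv_lhs => rw [show α u = (α u - 1) + 1 by omega]
              rw [add_smul, one_smul]
            rw [h3]
            abel
        rw [hα0, zero_smul, zero_add] at hα
        refine ⟨f, Finset.mem_filter.2 ⟨hf, hfM.1, ?_⟩, α, hα⟩
        rintro (h | h)
        · exact hfM.2 h
        · apply hb'
          right
          rw [hα]
          exact g3_stable hSU α f h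
    · apply isPolyT_mul
      · refine ⟨pair W u + 1, fun k hk => ?_⟩
        rw [map_neg, PowerSeries.coeff_C_mul, PowerSeries.coeff_X_pow, if_neg (by omega)]
        simp
      · obtain ⟨G, hG, hG'⟩ := g3_fg (insert u U) M M' N hNM F hgen
        refine ih N M' hM'N hNU hM'U
          (fun u' hu' b hb => hμu u' (Finset.mem_insert_of_mem hu') b (hNM hb)) G hG ?_
        intro b hb
        obtain ⟨g, hg, α, hα⟩ := hG' b hb
        have hgN := hG g hg
        rw [Finset.sum_insert hu] at hα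
        have hα0 : α u = 0 := by
          by_contra h
          apply hb.2
          have h1 := g3_stable hM'U α _ hgN.1.2
          have h2 := g3_stable (U := {u}) (M := M') (by
            intro u' hu'
            rw [Finset.mem_singleton] at hu'
            rw [hu']
            exact hM'u) (fun _ => α u - 1) _ h1
          rw [Finset.sum_singleton] at h2
          have h3 : α u • u = (α u - 1) • u + u := by
            conv_lhs => rw [show α u = (α u - 1) + 1 by omega]
            rw [add_smul, one_smul]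
          have h4 : b = g + u + ∑ u' ∈ U, α u' • u' + (α u - 1) • u := by
            rw [hα, h3]
            abel
          rw [h4]
          exact h2
        rw [hα0, zero_smul, zero_add] at hα
        exact ⟨g, hg, α, hα⟩

end MotMono
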