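import Pool.Agent.Lib.MP_4e5fcd_ag.Det.G2
import Pool.Agent.Lib.MP_4e5fcd_ag.Det.G3

/-! # DET-G4a: the zeta function of a polyhedron -/

namespace MotMono

variable {ι B : Type} [Fintype ι] [CommRing B]

theorem HS_polyhedron (μ : (ι → ℕ) → Polynomial B) (hμ : LocFin μ) (ν : ι → ℕ)
    (hμν : ∀ b u : ι → ℕ, (∀ i, u i ≠ 0 → b i ≠ 0) →
      μ (b + u) = Polynomial.X ^ pair ν u * μ b)
    (Z : Set ι) (Ls : Finset (ι → ℤ)) (U : Finset (ι → ℕ)) (hU : IsRays Z Ls U)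
    (β : (ι → ℤ) → ℤ) (W : ι → ℕ) :
    IsPolyT ((∏ u ∈ U, rayFactor B (pair ν u) (pair W u)) *
      HS μ {b | (∀ i ∈ Z, b i = 0) ∧ (∀ i ∉ Z, 1 ≤ b i) ∧
        ∀ l ∈ Ls, β l ≤ ∑ i, l i * (b i : ℤ)} W) := by
  classical
  obtain ⟨F, hF, hF'⟩ := exists_gens Z Ls U hU β (fun i => if i ∈ Z then 0 else 1)
  have hmem : ∀ b : ι → ℕ, b ∈ {b : ι → ℕ | (∀ i ∈ Z, b i = 0) ∧ (∀ i ∉ Z, 1 ≤ b i) ∧
      ∀ l ∈ Ls, β l ≤ ∑ i, l i * (b i : ℤ)} ↔ ((∀ i ∈ Z, b i = 0) ∧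
      (∀ i, (if i ∈ Z then 0 else 1) ≤ b i) ∧ ∀ l ∈ Ls, β l ≤ ∑ i, l i * (b i : ℤ)) := by
    intro b
    constructor
    · rintro ⟨h1, h2, h3⟩
      refine ⟨h1, fun i => ?_, h3⟩
      split_ifs with h
      · exact Nat.zero_le _
      · exact h2 i h
    · rintro ⟨h1, h2, h3⟩
      refine ⟨h1, fun i hi => ?_, h3⟩
      have := h2 i
      rwa [if_neg hi] at this
  have key := isPolyT_HS μ hμ ν W U {b : ι → ℕ | (∀ i ∈ Z, b i = 0) ∧ (∀ i ∉ Z, 1 ≤ b i) ∧
      ∀ l ∈ Ls, β l ≤ ∑ i, l i * (b i : ℤ)} ∅ (Set.empty_subset _) ?_ ?_ ?_ F ?_ ?_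
  · rwa [Set.sdiff_empty] at key
  · rintro u hu b ⟨h1, h2, h3⟩
    refine ⟨fun i hi => ?_, fun i hi => ?_, fun l hl => ?_⟩
    · rw [Pi.add_apply, h1 i hi, hU.zero u hu i hi]
    · exact le_trans (h2 i hi) (Nat.le_add_right _ _)
    · have h4 := hU.nonneg u hu l hl
      have h5 := h3 l hl
      have h6 : ∑ i, l i * (((b + u) i : ℕ) : ℤ) =
          ∑ i, l i * (b i : ℤ) + ∑ i, l i * (u i : ℤ) := by
        rw [← Finset.sum_add_distrib]
        refine Finset.sum_congr rfl fun i _ => ?_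
        rw [Pi.add_apply]
        push_cast
        ring
      rw [h6]
      linarith
  · intro u _ b hb
    exact absurd hb (Set.notMem_empty b)
  · rintro u hu b ⟨h1, h2, h3⟩
    apply hμν
    intro i hi
    have : i ∉ Z := fun h => hi (hU.zero u hu i h)
    have := h2 i this
    omega
  · intro f hf
    rw [Set.sdiff_empty, hmem]
    exact hF f hf
  · intro b hb
    rw [Set.sdiff_empty, hmem] at hb
    exact hF' b hb.1 hb.2.1 hb.2.2

open Classical in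
/-- the differences of the functionals with `W` -/
noncomputable def dW (A : Finset (ι → ℕ)) (W : ι → ℕ) : Finset (ι → ℤ) :=
  A.image fun W' i => (W' i : ℤ) - W i

/-- the rays of the cone of `W` are rays of the fan -/
theorem IsRays.ext_fan (A : Finset (ι → ℕ)) (W : ι → ℕ) (hW : W ∈ A) (Z : Set ι)
    (U : Finset (ι → ℕ)) (hU : IsRays Z (dW A W) U) (u : ι → ℕ) (hu : u ∈ U) :
    Ext A u ∧ InFace A u W ∧ pair W u = minF A u := by
  classical
  have hl : ∀ W' ∈ A, (fun i => (W' i : ℤ) - W i) ∈ dW A W := fun W' hW' =>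
    Finset.mem_image.2 ⟨W', hW', rfl⟩
  have hsum : ∀ W' : ι → ℕ, ∑ i, ((W' i : ℤ) - W i) * (u i : ℤ) =
      (pair W' u : ℤ) - pair W u := by
    intro W'
    rw [pair, pair]
    push_cast
    rw [← Finset.sum_sub_distrib]
    exact Finset.sum_congr rfl fun i _ => by ring
  have hface : InFace A u W := by
    refine ⟨hW, fun W' hW' => ?_⟩
    have h1 := hU.nonneg u hu _ (hl W' hW')
    rw [hsum W'] at h1
    omega
  refine ⟨⟨hU.ne u hu, fun y hy1 hy2 => ?_⟩, hface, ?_⟩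
  · apply hU.ext u hu y hy1
    intro l hl' hl0
    obtain ⟨W', hW', rfl⟩ := Finset.mem_image.1 hl'
    rw [hsum W'] at hl0
    have hface' : InFace A u W' := by
      refine ⟨hW', fun W'' hW'' => ?_⟩
      have := hface.2 W'' hW''
      omega
    have h1 := hy2 W' W hface' hface
    push_cast
    rw [← sub_eq_zero, ← Finset.sum_sub_distrib] at h1
    rw [← h1]
    exact Finset.sum_congr rfl fun i _ => by ring
  · apply le_antisymm
    · have hne : {k | ∃ W ∈ A, pair W u = k}.Nonempty := ⟨pair W u, W, hW, rfl⟩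
      refine le_csInf hne ?_
      rintro k ⟨W', hW', rfl⟩
      exact hface.2 W' hW'
    · exact Nat.sInf_le ⟨W, hW, rfl⟩

end MotMono
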