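import Pool.Agent.Lib.MP_4e5fcd_ag.Det.A2

/-! # DET-M1: the minors of the reference matrix -/

open MvPolynomial

namespace MotMono

variable {m n : ℕ}

/-- the constant determinant -/
noncomputable def m1_d {r : ℕ} (S : Fin r → Fin m) (T : Fin r → Fin n) : ℂ :=
  (Matrix.of fun i j : Fin r => if (S i : ℕ) = T j then (1 : ℂ) else 0).det

theorem m1_det (b : ℕ → ℕ) (z : ℕ → ℂ) {r : ℕ} (S : Fin r → Fin m) (T : Fin r → Fin n) :
    ((refM m n b z).submatrix S T).det =
      PowerSeries.C ((∏ i, z (S i)) * m1_d S T) * PowerSeries.X ^ (∑ i, mue b (S i)) := by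
  have h1 : (refM m n b z).submatrix S T = Matrix.of fun i j =>
      (PowerSeries.C (z (S i)) * PowerSeries.X ^ mue b (S i)) *
        ((PowerSeries.C : ℂ →+* PowerSeries ℂ).mapMatrix
          (Matrix.of fun i j : Fin r => if (S i : ℕ) = T j then (1 : ℂ) else 0)) i j := by
    ext1 i j
    simp only [Matrix.submatrix_apply, refM, RingHom.mapMatrix_apply, Matrix.map_apply,
      Matrix.of_apply]
    by_cases h : (S i : ℕ) = T j
    · simp [h]
    · simp [h]
  rw [h1, Matrix.det_mul_column, ← RingHom.map_det, Finset.prod_mul_distrib,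
    Finset.prod_pow_eq_pow_sum, map_mul, map_prod, m1_d]
  ring

theorem m1_coeff (b : ℕ → ℕ) (z : ℕ → ℂ) {r : ℕ} (S : Fin r → Fin m) (T : Fin r → Fin n)
    (l : ℕ) : PowerSeries.coeff l ((refM m n b z).submatrix S T).det =
      if l = ∑ i, mue b (S i) then (∏ i, z (S i)) * m1_d S T else 0 := by
  rw [m1_det, PowerSeries.coeff_C_mul_X_pow]

theorem m1_d_ne_zero_iff {r : ℕ} (S : Fin r → Fin m) (T : Fin r → Fin n) :
    m1_d S T ≠ 0 ↔ Function.Injective S ∧ ∀ i, ∃ j, (T j : ℕ) = S i := by
  constructor
  · intro h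
    constructor
    · intro i i' hi
      by_contra hne
      apply h
      refine Matrix.det_zero_of_row_eq hne ?_
      funext j
      simp only [Matrix.of_apply, hi]
    · intro i
      by_contra hcon
      push Not at hcon
      apply h
      refine Matrix.det_eq_zero_of_row_eq_zero i fun j => ?_
      simp only [Matrix.of_apply]
      rw [if_neg fun h' => hcon j h'.symm]
  · rintro ⟨hS, hT⟩
    choose τ hτ using hT
    have hinj : Function.Injective τ := by
      intro i i' h
      apply hS
      apply Fin.ext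
      rw [← hτ i, ← hτ i', h]
    have hbij : Function.Bijective τ := Finite.injective_iff_bijective.1 hinj
    set σ : Equiv.Perm (Fin r) := Equiv.ofBijective τ hbij with hσ
    have hTinj : Function.Injective T := by
      intro j j' h
      obtain ⟨i, rfl⟩ := hbij.2 j
      obtain ⟨i', rfl⟩ := hbij.2 j'
      have h1 : S i = S i' := by
        apply Fin.ext
        rw [← hτ i, ← hτ i', h]
      rw [hS h1]
    have h1 : (Matrix.of fun i j : Fin r => if (S i : ℕ) = T j then (1 : ℂ) else 0) =
        (1 : Matrix (Fin r) (Fin r) ℂ).submatrix σ id := by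
      ext i j
      simp only [Matrix.of_apply, Matrix.submatrix_apply, id_eq, Matrix.one_apply]
      have h2 : ((S i : ℕ) = T j) ↔ σ i = j := by
        rw [← hτ i]
        constructor
        · intro h3
          exact hTinj (Fin.ext h3)
        · intro h3
          have h4 : τ i = j := h3
          rw [h4]
      simp only [h2]
    rw [m1_d, h1, Matrix.det_permute, Matrix.det_one, mul_one]
    intro h2
    have h3 : ((Equiv.Perm.sign σ : ℤ) : ℂ) ≠ 0 := by
      rcases Int.units_eq_one_or (Equiv.Perm.sign σ) with h | h <;> simp [h]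
    exact h3 (by exact_mod_cast h2)

/-- the number of rows after `k` -/
def m1_N {r : ℕ} (S : Fin r → Fin m) (k : ℕ) : ℕ :=
  (Finset.univ.filter fun i : Fin r => k ≤ (S i : ℕ)).card

theorem m1_lt_card {r : ℕ} (S : Fin r → Fin m) (hS : Function.Injective S) (k : ℕ) :
    (Finset.univ.filter fun i : Fin r => (S i : ℕ) < k).card ≤ k := by
  calc (Finset.univ.filter fun i : Fin r => (S i : ℕ) < k).card
      ≤ (Finset.range k).card := by
        refine Finset.card_le_card_of_injOn (fun i => (S i : ℕ)) ?_ ?_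
        · intro i hi
          simpa using hi
        · intro i _ j _ h
          exact hS (Fin.ext h)
    _ = k := Finset.card_range k

theorem m1_card_add {r : ℕ} (S : Fin r → Fin m) (k : ℕ) :
    (Finset.univ.filter fun i : Fin r => (S i : ℕ) < k).card + m1_N S k = r := by
  have h := Finset.card_filter_add_card_filter_not (s := (Finset.univ : Finset (Fin r)))
    (fun i : Fin r => (S i : ℕ) < k)
  simp only [not_lt, Finset.card_univ, Fintype.card_fin] at h
  exact h

theorem m1_N_ge {r : ℕ} (S : Fin r → Fin m) (hS : Function.Injective S) (k : ℕ) :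
    r - k ≤ m1_N S k := by
  have h1 := m1_lt_card S hS k
  have h2 := m1_card_add S k
  omega

theorem m1_mue (b : ℕ → ℕ) (x : ℕ) (hx : x < m) :
    mue b x = ∑ k ∈ Finset.range m, if k ≤ x then b k else 0 := by
  rw [mue, ← Finset.sum_filter]
  refine Finset.sum_congr ?_ fun _ _ => rfl
  ext k
  simp only [Finset.mem_range, Finset.mem_filter]
  omega

theorem m1_sum (b : ℕ → ℕ) {r : ℕ} (S : Fin r → Fin m) :
    ∑ i, mue b (S i) = ∑ k ∈ Finset.range m, m1_N S k * b k := by
  have h1 : ∀ i : Fin r, mue b (S i) = ∑ k ∈ Finset.range m, if k ≤ (S i : ℕ) then b k else 0 :=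
    fun i => m1_mue b _ (S i).2
  simp_rw [h1]
  rw [Finset.sum_comm]
  refine Finset.sum_congr rfl fun k _ => ?_
  rw [← Finset.sum_filter, Finset.sum_const, smul_eq_mul]
  rfl

theorem m1_ev (b : ℕ → ℕ) {r : ℕ} (hr : r ≤ m) :
    ev b r = ∑ k ∈ Finset.range m, (r - k) * b k := by
  rw [ev]
  refine Finset.sum_subset (Finset.range_mono hr) fun k _ hk => ?_
  rw [Finset.mem_range, not_lt] at hk
  rw [Nat.sub_eq_zero_of_le hk, zero_mul]

theorem m1_le (b : ℕ → ℕ) {r : ℕ} (S : Fin r → Fin m) (hS : Function.Injective S) :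
    ev b r ≤ ∑ i, mue b (S i) := by
  have hr : r ≤ m := by
    have := Fintype.card_le_of_injective S hS
    simpa using this
  rw [m1_sum, m1_ev b hr]
  exact Finset.sum_le_sum fun k _ => Nat.mul_le_mul_right _ (m1_N_ge S hS k)

theorem m1_eq_iff (b : ℕ → ℕ) {r : ℕ} (S : Fin r → Fin m) (hS : Function.Injective S) :
    (∑ i, mue b (S i)) = ev b r ↔ ∀ k < m, b k ≠ 0 → m1_N S k = r - k := by
  have hr : r ≤ m := by
    have := Fintype.card_le_of_injective S hS
    simpa using this
  rw [m1_sum, m1_ev b hr, eq_comm, Finset.sum_eq_sum_iff_of_le fun k _ =>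
    Nat.mul_le_mul_right _ (m1_N_ge S hS k)]
  constructor
  · intro h k hk hb
    have h1 := h k (Finset.mem_range.2 hk)
    exact (Nat.eq_of_mul_eq_mul_right (Nat.pos_of_ne_zero hb) h1).symm
  · intro h k hk
    by_cases hb : b k = 0
    · rw [hb, mul_zero, mul_zero]
    · rw [h k (Finset.mem_range.1 hk) hb]

theorem coeff_ref_minor_lt (b : ℕ → ℕ) (z : ℕ → ℂ) {r : ℕ} (S : Fin r → Fin m)
    (T : Fin r → Fin n) (l : ℕ) (hl : l < ev b r) :
    PowerSeries.coeff l ((refM m n b z).submatrix S T).det = 0 := by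
  rw [m1_coeff]
  split_ifs with h
  · by_cases hd : m1_d S T = 0
    · rw [hd, mul_zero]
    · have h1 := ((m1_d_ne_zero_iff S T).1 hd).1
      have h2 := m1_le b S h1
      omega
  · rfl

theorem m1_zconst (b : ℕ → ℕ) (z : ℕ → ℂ) (hz : BlockConst m b z) (p x : ℕ) (hpx : p ≤ x)
    (hx : x < m) (hb : ∀ k, p < k → k ≤ x → b k = 0) : z x = z p := by
  induction x, hpx using Nat.le_induction with
  | base => rfl
  | succ x hpx ih =>
    rw [hz x hx (hb (x + 1) (by omega) le_rfl)]
    exact ih (by omega) fun k h1 h2 => hb k h1 (by omega)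

theorem m1_prod (b : ℕ → ℕ) (z : ℕ → ℂ) (hz : BlockConst m b z) {r : ℕ} (S : Fin r → Fin m)
    (hS : Function.Injective S) (hN : ∀ k < m, b k ≠ 0 → m1_N S k = r - k) :
    ∏ i, z (S i) = ∏ i ∈ Finset.range r, z i := by
  classical
  have hr : r ≤ m := by
    have := Fintype.card_le_of_injective S hS
    simpa using this
  rcases Nat.eq_zero_or_pos r with rfl | hr0
  · simp
  set s : Finset ℕ := Finset.univ.image fun i => (S i : ℕ) with hs
  have hinj : Function.Injective fun i => (S i : ℕ) := fun i j h => hS (Fin.ext h)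
  have h1 : ∏ i, z (S i) = ∏ x ∈ s, z x := by
    rw [hs, Finset.prod_image fun i _ j _ h => hinj h]
  have hcs : s.card = r := by
    rw [hs, Finset.card_image_of_injective _ hinj, Finset.card_univ, Fintype.card_fin]
  obtain ⟨p, hp1, hp2, hp3⟩ : ∃ p, p ≤ r - 1 ∧ (p ≠ 0 → b p ≠ 0) ∧
      ∀ k, p < k → k ≤ r - 1 → b k = 0 := by
    refine ⟨Nat.findGreatest (fun k => b k ≠ 0) (r - 1), Nat.findGreatest_le _, fun h => ?_,
      fun k h2 h3 => ?_⟩
    · exact Nat.findGreatest_of_ne_zero (P := fun k => b k ≠ 0) (n := r - 1) rfl h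
    · by_contra h4
      exact Nat.findGreatest_is_greatest h2 h3 h4
  have hsub : Finset.range p ⊆ s := by
    rcases Nat.eq_zero_or_pos p with h0 | h0
    · rw [h0]
      simp
    · have h2 := hN p (by omega) (hp2 (by omega))
      have h3 := m1_card_add S p
      have h4 : ((Finset.univ.filter fun i : Fin r => (S i : ℕ) < p).image
          fun i => (S i : ℕ)) = Finset.range p := by
        refine Finset.eq_of_subset_of_card_le (fun x hx => ?_) ?_
        · obtain ⟨i, hi, rfl⟩ := Finset.mem_image.1 hx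
          simpa using hi
        · rw [Finset.card_image_of_injective _ hinj, Finset.card_range]
          omega
      rw [← h4, hs]
      exact Finset.image_subset_image (Finset.filter_subset _ _)
  have hzs : ∀ x ∈ s, p ≤ x → z x = z p := by
    intro x hx hpx
    obtain ⟨i, -, rfl⟩ := Finset.mem_image.1 hx
    refine m1_zconst b z hz p _ hpx (S i).2 fun k h2 h3 => ?_
    by_cases hk : k ≤ r - 1
    · exact hp3 k h2 hk
    · by_contra hb
      have h4 := hN k (lt_of_le_of_lt h3 (S i).2) hb
      have h5 : 0 < m1_N S k := by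
        rw [m1_N, Finset.card_pos]
        exact ⟨i, by simp [h3]⟩
      omega
  have hzr : ∀ x ∈ Finset.range r, p ≤ x → z x = z p := by
    intro x hx hpx
    rw [Finset.mem_range] at hx
    exact m1_zconst b z hz p x hpx (by omega) fun k h2 h3 => hp3 k h2 (by omega)
  have key : ∀ t : Finset ℕ, Finset.range p ⊆ t → t.card = r → (∀ x ∈ t, p ≤ x → z x = z p) →
      ∏ x ∈ t, z x = (∏ x ∈ Finset.range p, z x) * z p ^ (r - p) := by
    intro t ht htc hzt
    rw [← Finset.prod_sdiff ht, mul_comm]
    congr 1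
    rw [Finset.prod_congr rfl (g := fun _ => z p) fun x hx => ?_, Finset.prod_const,
      Finset.card_sdiff_of_subset ht, htc, Finset.card_range]
    rw [Finset.mem_sdiff, Finset.mem_range, not_lt] at hx
    exact hzt x hx.1 hx.2
  rw [h1, key s hsub hcs hzs, key (Finset.range r) (Finset.range_mono (by omega))
    (Finset.card_range r) hzr]

/-- profiles with the same support have proportional leading minors -/
theorem coeff_ref_minor (b u : ℕ → ℕ) (hbu : ∀ i < m, b i = 0 ↔ u i = 0) (z : ℕ → ℂ)
    (hz : BlockConst m b z) {r : ℕ} (hr : r ≤ m) (S : Fin r → Fin m) (T : Fin r → Fin n) :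
    PowerSeries.coeff (ev b r) ((refM m n b z).submatrix S T).det =
      (∏ i ∈ Finset.range r, z i) *
        PowerSeries.coeff (ev u r) ((refM m n u fun _ => 1).submatrix S T).det := by
  rw [m1_coeff, m1_coeff]
  by_cases hd : m1_d S T = 0
  · rw [hd]
    simp
  · have h1 := ((m1_d_ne_zero_iff S T).1 hd).1
    have h2 : (ev b r = ∑ i, mue b (S i)) ↔ (ev u r = ∑ i, mue u (S i)) := by
      rw [eq_comm, m1_eq_iff b S h1, eq_comm, m1_eq_iff u S h1]
      constructor
      · intro h k hk hu
        exact h k hk fun hb => hu ((hbu k hk).1 hb)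
      · intro h k hk hb
        exact h k hk fun hu => hb ((hbu k hk).2 hu)
    by_cases h3 : ev b r = ∑ i, mue b (S i)
    · rw [if_pos h3, if_pos (h2.1 h3), Finset.prod_const_one, one_mul,
        m1_prod b z hz S h1 ((m1_eq_iff b S h1).1 h3.symm)]
    · rw [if_neg h3, if_neg fun h => h3 (h2.2 h), mul_zero]

theorem m1_ev_eq (u : ℕ → ℕ) (r : ℕ) : ev u r = ∑ i ∈ Finset.range r, mue u i := by
  rw [m1_ev (m := r) u le_rfl]
  have h1 := m1_sum (m := r) u (id : Fin r → Fin r)
  have h2 : ∀ k, k < r → m1_N (id : Fin r → Fin r) k = r - k := by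
    intro k hk
    have h3 := m1_N_ge (id : Fin r → Fin r) Function.injective_id k
    have h4 : (Finset.range k).card ≤
        (Finset.univ.filter fun i : Fin r => ((id i : Fin r) : ℕ) < k).card := by
      refine Finset.card_le_card_of_surjOn (fun i : Fin r => (i : ℕ)) ?_
      intro x hx
      rw [Finset.mem_coe, Finset.mem_range] at hx
      exact ⟨⟨x, by omega⟩, by simpa using hx, rfl⟩
    rw [Finset.card_range] at h4
    have h5 := m1_card_add (id : Fin r → Fin r) k
    omega
  rw [Finset.sum_range fun i => mue u i]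
  refine Eq.trans (Finset.sum_congr rfl fun k hk => ?_) h1.symm
  rw [h2 k (Finset.mem_range.1 hk)]

theorem coeff_ref_minor_id (u : ℕ → ℕ) {r : ℕ} (hr : r ≤ m) (hn : r ≤ n) :
    PowerSeries.coeff (ev u r)
      ((refM m n u fun _ => 1).submatrix (Fin.castLE hr) (Fin.castLE hn)).det = 1 := by
  rw [m1_coeff]
  have h1 : m1_d (Fin.castLE hr) (Fin.castLE hn) = 1 := by
    have h2 : (Matrix.of fun i j : Fin r => if ((Fin.castLE hr i : Fin m) : ℕ) =
        ((Fin.castLE hn j : Fin n) : ℕ) then (1 : ℂ) else 0) = 1 := by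
      ext i j
      simp only [Matrix.of_apply, Fin.val_castLE, Matrix.one_apply, Fin.ext_iff]
    rw [m1_d, h2, Matrix.det_one]
  have h3 : ev u r = ∑ i : Fin r, mue u ((Fin.castLE hr i : Fin m) : ℕ) := by
    rw [m1_ev_eq, Finset.sum_range fun i => mue u i]
    rfl
  rw [if_pos h3, h1]
  simp

/-- the leading coefficient of a minor of the reference matrix: `S` and `T` are injective with the
same image, which contains all indices before the block of `r` and lies before its end -/
theorem coeff_ref_minor_ne_zero_iff (u : ℕ → ℕ) {r : ℕ} (hr : r ≤ m) (S : Fin r → Fin m)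
    (T : Fin r → Fin n) :
    PowerSeries.coeff (ev u r) ((refM m n u fun _ => 1).submatrix S T).det ≠ 0 ↔
      Function.Injective S ∧ (∀ i, ∃ j, (T j : ℕ) = S i) ∧ (∑ i, mue u (S i)) = ev u r := by
  rw [m1_coeff, ← and_assoc, ← m1_d_ne_zero_iff]
  by_cases h : ev u r = ∑ i, mue u (S i)
  · simp [h]
  · have h' : ¬ (∑ i, mue u (S i)) = ev u r := fun h' => h h'.symm
    simp [h, h']

end MotMono
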