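import Pool.Agent.Lib.MP_4e5fcd_ag.Det.M2a

/-! # DET-M2: the leading coefficient matrix is determined by the leading minors -/

open MvPolynomial

namespace MotMono

theorem m2_mue_zero (u : ℕ → ℕ) : mue u 0 = u 0 := by
  simp [mue]

theorem m2_mue_succ (u : ℕ → ℕ) (i : ℕ) : mue u (i + 1) = mue u i + u (i + 1) := by
  rw [mue, Finset.sum_range_succ]
  rfl

theorem m2_mue_mono (u : ℕ → ℕ) {i j : ℕ} (h : i ≤ j) : mue u i ≤ mue u j := by
  induction j, h using Nat.le_induction with
  | base => exact le_rfl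
  | succ j _ ih =>
    rw [m2_mue_succ]
    omega

theorem m2_mue_const (u : ℕ → ℕ) {i j : ℕ} (h : i ≤ j) (hc : ∀ k, i < k → k ≤ j → u k = 0) :
    mue u j = mue u i := by
  induction j, h using Nat.le_induction with
  | base => rfl
  | succ j hij ih =>
    rw [m2_mue_succ, hc (j + 1) (by omega) le_rfl, add_zero]
    exact ih fun k h1 h2 => hc k h1 (by omega)

theorem m2_mue_lt (u : ℕ → ℕ) {i j k : ℕ} (hik : i < k) (hkj : k ≤ j) (hk : u k ≠ 0) :
    mue u i < mue u j := by
  obtain ⟨l, rfl⟩ : ∃ l, k = l + 1 := ⟨k - 1, by omega⟩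
  have h1 := m2_mue_mono u (show i ≤ l by omega)
  have h2 := m2_mue_mono u hkj
  rw [m2_mue_succ] at h2
  omega

theorem m2_good_iff (m : ℕ) (u : ℕ → ℕ) (r : ℕ) (hr0 : 0 < r)
    (hr : ∀ k, 0 < k → k ≤ r → u k = 0) (S : Finset ℕ) :
    GoodSet m u r S ↔ S.card = r ∧ ∀ i ∈ S, i < m ∧ ∀ j, 0 < j → j ≤ i → u j = 0 := by
  have hev : ev u r = ∑ i ∈ Finset.range r, mue u 0 := by
    rw [m1_ev_eq]
    refine Finset.sum_congr rfl fun i hi => ?_
    rw [Finset.mem_range] at hi
    exact m2_mue_const u (Nat.zero_le i) fun k h1 h2 => hr k h1 (by omega)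
  rw [Finset.sum_const, Finset.card_range, smul_eq_mul] at hev
  constructor
  · rintro ⟨h1, h2, h3⟩
    refine ⟨h1, fun i hi => ⟨h2 i hi, ?_⟩⟩
    by_contra hcon
    push Not at hcon
    obtain ⟨j, hj0, hji, hj⟩ := hcon
    have h4 : ∑ i ∈ S, mue u 0 < ∑ i ∈ S, mue u i :=
      Finset.sum_lt_sum (fun i _ => m2_mue_mono u (Nat.zero_le i))
        ⟨i, hi, m2_mue_lt u hj0 hji hj⟩
    rw [Finset.sum_const, h1, smul_eq_mul, h3, hev] at h4
    exact lt_irrefl _ h4
  · rintro ⟨h1, h2⟩
    refine ⟨h1, fun i hi => (h2 i hi).1, ?_⟩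
    rw [hev, Finset.sum_congr rfl fun i hi => m2_mue_const u (Nat.zero_le i) (h2 i hi).2,
      Finset.sum_const, h1, smul_eq_mul]

theorem m2_choose (m : ℕ) (u : ℕ → ℕ) (r : ℕ) (hr0 : 0 < r) (hrm : r < m)
    (hr : ∀ k, 0 < k → k ≤ r → u k = 0) (a b : ℕ) (ha : a < m)
    (haJ : ∀ j, 0 < j → j ≤ a → u j = 0) (hab : a ≠ b) :
    ∃ S, GoodSet m u r S ∧ a ∈ S ∧ b ∉ S := by
  classical
  set T : Finset ℕ := insert a ((Finset.range (r + 1)).erase b) with hT
  have h1 : r ≤ T.card := by
    have h2 : ((Finset.range (r + 1)).erase b).card ≤ T.card :=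
      Finset.card_le_card (Finset.subset_insert _ _)
    have h3 := Finset.pred_card_le_card_erase (s := Finset.range (r + 1)) (a := b)
    rw [Finset.card_range] at h3
    omega
  obtain ⟨S, hS1, hS2, hS3⟩ := Finset.exists_subsuperset_card_eq (s := {a}) (t := T) (n := r)
    (by rw [Finset.singleton_subset_iff, hT]; exact Finset.mem_insert_self _ _)
    (by rw [Finset.card_singleton]; exact hr0) h1
  refine ⟨S, (m2_good_iff m u r hr0 hr S).2 ⟨hS3, fun i hi => ?_⟩,
    Finset.singleton_subset_iff.1 hS1, fun hb => ?_⟩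
  · have h2 := hS2 hi
    rw [hT, Finset.mem_insert, Finset.mem_erase, Finset.mem_range] at h2
    rcases h2 with rfl | h2
    · exact ⟨ha, haJ⟩
    · exact ⟨by omega, fun j h3 h4 => hr j h3 (by omega)⟩
  · have h2 := hS2 hb
    rw [hT, Finset.mem_insert, Finset.mem_erase] at h2
    rcases h2 with h2 | h2
    · exact hab h2.symm
    · exact h2.1 rfl

open Classical in
/-- interior minors of the first block -/
theorem lead_interior (m n : ℕ) (hmn : m ≤ n) (u : ℕ → ℕ) (r : ℕ) (hr0 : 0 < r) (hrm : r < m)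
    (hr : ∀ k, 0 < k → k ≤ r → u k = 0) (M : Matrix (Fin m) (Fin n) (PowerSeries ℂ))
    (hM : PatR m n u r M) (q : ℕ) (hq : ∀ i k, ∀ l < q, PowerSeries.coeff l (M i k) = 0) :
    ∃ ζ : ℂ, ∀ (i : Fin m) (k : Fin n), PowerSeries.coeff q (M i k) =
      if (i : ℕ) = k ∧ ∀ j, 0 < j → j ≤ (i : ℕ) → u j = 0 then ζ else 0 := by
  have hrel := fun S hS => lead_rel hmn u r hr0 (le_of_lt hrm) M hM q hq S hS
  have hR : GoodSet m u r (Finset.range r) := by
    rw [m2_good_iff m u r hr0 hr]
    refine ⟨Finset.card_range r, fun i hi => ?_⟩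
    rw [Finset.mem_range] at hi
    exact ⟨by omega, fun j h1 h2 => hr j h1 (by omega)⟩
  refine ⟨PowerSeries.coeff q (M ⟨0, by omega⟩ ⟨0, by omega⟩), fun i k => ?_⟩
  by_cases hik : (i : ℕ) = k
  · by_cases hi : ∀ j, 0 < j → j ≤ (i : ℕ) → u j = 0
    · rw [if_pos ⟨hik, hi⟩]
      by_cases hi0 : (i : ℕ) = 0
      · have h1 : i = ⟨0, by omega⟩ := Fin.ext hi0
        have h2 : k = ⟨0, by omega⟩ := Fin.ext (by simp only; omega)
        rw [h1, h2]
      · obtain ⟨S, hS, h0, hiS⟩ := m2_choose m u r hr0 hrm hr 0 i (by omega)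
          (fun j h1 h2 => by omega) (Ne.symm hi0)
        refine (hrel S hS).2.2.2.1 i ⟨0, by omega⟩ k ⟨0, by omega⟩ hik rfl hiS h0 ?_
        rw [m2_good_iff m u r hr0 hr] at hS ⊢
        refine ⟨?_, fun x hx => ?_⟩
        · rw [Finset.card_insert_of_notMem fun h => hiS (Finset.mem_of_mem_erase h),
            Finset.card_erase_of_mem h0, hS.1]
          omega
        · rw [Finset.mem_insert, Finset.mem_erase] at hx
          rcases hx with rfl | hx
          · exact ⟨i.2, hi⟩
          · exact hS.2 x hx.2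
    · rw [if_neg fun h => hi h.2]
      have hiS : (i : ℕ) ∉ Finset.range r := by
        rw [Finset.mem_range]
        intro h
        exact hi fun j h1 h2 => hr j h1 (by omega)
      refine (hrel _ hR).2.2.2.2 i ⟨0, by omega⟩ k hik hiS (Finset.mem_range.2 hr0) ?_
      rw [m2_good_iff m u r hr0 hr]
      intro h
      exact hi (h.2 i (Finset.mem_insert_self _ _)).2
  · rw [if_neg fun h => hik h.1]
    by_cases hi : ∀ j, 0 < j → j ≤ (i : ℕ) → u j = 0
    · obtain ⟨S, hS, h1, h2⟩ := m2_choose m u r hr0 hrm hr i k i.2 hi hik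
      exact (hrel S hS).1 i k h1 h2
    · by_cases hk : (k : ℕ) < m ∧ ∀ j, 0 < j → j ≤ (k : ℕ) → u j = 0
      · obtain ⟨S, hS, h1, h2⟩ := m2_choose m u r hr0 hrm hr k i hk.1 hk.2 (Ne.symm hik)
        exact (hrel S hS).2.1 i k h2 h1
      · refine (hrel _ hR).2.2.1 i k ?_ ?_ hik
        · rw [Finset.mem_range]
          intro h
          exact hi fun j h1 h2 => hr j h1 (by omega)
        · rw [Finset.mem_range]
          intro h
          exact hk ⟨by omega, fun j h1 h2 => hr j h1 (by omega)⟩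

theorem m2_single_good (m : ℕ) (u : ℕ → ℕ) (r : ℕ) (hr0 : 0 < r) (hrm : r ≤ m)
    (hu : ∀ k, 1 < k → k ≤ r → u k = 0) (S : Finset ℕ) (hS : S ⊆ Finset.range (r + 1))
    (hSm : ∀ i ∈ S, i < m) (h0 : 0 ∈ S) (hc : S.card = r) : GoodSet m u r S := by
  classical
  refine ⟨hc, hSm, ?_⟩
  have h1 : ∀ i, i ≤ r → 0 < i → mue u i = mue u 1 := fun i hi hi0 =>
    m2_mue_const u hi0 fun k h1 h2 => hu k (by omega) (by omega)
  have h2 : ∀ T : Finset ℕ, T ⊆ Finset.range (r + 1) → 0 ∈ T → T.card = r →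
      ∑ i ∈ T, mue u i = (r - 1) * mue u 1 + mue u 0 := by
    intro T hT hT0 hTc
    rw [← Finset.sum_erase_add T _ hT0, Finset.sum_congr rfl (g := fun _ => mue u 1) fun i hi => ?_,
      Finset.sum_const, Finset.card_erase_of_mem hT0, hTc, smul_eq_mul]
    rw [Finset.mem_erase] at hi
    have h3 := Finset.mem_range.1 (hT hi.2)
    exact h1 i (by omega) (by omega)
  rw [m1_ev_eq, h2 S hS h0 hc, h2 (Finset.range r) (Finset.range_mono (by omega))
    (Finset.mem_range.2 hr0) (Finset.card_range r)]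

theorem m2_single_bad (m : ℕ) (u : ℕ → ℕ) (r : ℕ) (hr0 : 0 < r) (hu1 : u 1 ≠ 0)
    (hu : ∀ k, 1 < k → k ≤ r → u k = 0) (S : Finset ℕ) (h0 : 0 ∉ S) : ¬ GoodSet m u r S := by
  classical
  rintro ⟨hc, -, hs⟩
  have h1 : ∀ i ∈ S, mue u 1 ≤ mue u i := by
    intro i hi
    refine m2_mue_mono u (Nat.pos_of_ne_zero ?_)
    rintro rfl
    exact h0 hi
  have h2 : r * mue u 1 ≤ ∑ i ∈ S, mue u i := by
    have h3 := Finset.card_nsmul_le_sum S (fun i => mue u i) (mue u 1) h1
    rwa [hc, smul_eq_mul] at h3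
  have h4 : ∑ i ∈ Finset.range r, mue u i < ∑ i ∈ Finset.range r, mue u 1 := by
    refine Finset.sum_lt_sum (fun i hi => ?_) ⟨0, Finset.mem_range.2 hr0, ?_⟩
    · rw [Finset.mem_range] at hi
      rcases Nat.eq_zero_or_pos i with rfl | hi0
      · exact m2_mue_mono u (Nat.zero_le 1)
      · exact le_of_eq (m2_mue_const u hi0 fun k h5 h6 => hu k (by omega) (by omega))
    · exact m2_mue_lt u Nat.zero_lt_one le_rfl hu1
  rw [Finset.sum_const, Finset.card_range, smul_eq_mul, ← m1_ev_eq, ← hs] at h4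
  omega

theorem m2_single_choose (m : ℕ) (u : ℕ → ℕ) (r : ℕ) (hr1 : 1 < r) (hrm : r < m)
    (hu : ∀ k, 1 < k → k ≤ r → u k = 0) (a b : ℕ) (ha : a ≤ r) (hb0 : b ≠ 0) (hab : a ≠ b) :
    ∃ S, GoodSet m u r S ∧ 0 ∈ S ∧ a ∈ S ∧ b ∉ S := by
  classical
  have h1 : r ≤ ((Finset.range (r + 1)).erase b).card := by
    have h3 := Finset.pred_card_le_card_erase (s := Finset.range (r + 1)) (a := b)
    rw [Finset.card_range] at h3
    omega
  have h2 : ({0, a} : Finset ℕ).card ≤ r := by
    have := Finset.card_le_two (a := 0) (b := a)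
    omega
  obtain ⟨S, hS1, hS2, hS3⟩ := Finset.exists_subsuperset_card_eq (s := ({0, a} : Finset ℕ))
    (t := (Finset.range (r + 1)).erase b) (n := r)
    (by
      intro x hx
      rw [Finset.mem_insert, Finset.mem_singleton] at hx
      rw [Finset.mem_erase, Finset.mem_range]
      rcases hx with rfl | rfl
      · exact ⟨Ne.symm hb0, by omega⟩
      · exact ⟨hab, by omega⟩) h2 h1
  have h0 : 0 ∈ S := hS1 (by simp)
  refine ⟨S, m2_single_good m u r (by omega) (le_of_lt hrm) hu S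
    (fun x hx => Finset.mem_of_mem_erase (hS2 hx)) (fun x hx => ?_) h0 hS3, h0,
    hS1 (by simp), fun hb => Finset.notMem_erase b _ (hS2 hb)⟩
  have h3 := Finset.mem_range.1 (Finset.mem_of_mem_erase (hS2 hx))
  omega

/-- the first block has length one -/
theorem lead_single (m n : ℕ) (hmn : m ≤ n) (u : ℕ → ℕ) (r : ℕ) (hr0 : 0 < r)
    (h : (r = 1 ∧ (m = 1 ∨ u 1 ≠ 0)) ∨ (1 < r ∧ r < m ∧ u 1 ≠ 0 ∧ ∀ k, 1 < k → k ≤ r → u k = 0))
    (M : Matrix (Fin m) (Fin n) (PowerSeries ℂ)) (hM : PatR m n u r M) (q : ℕ)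
    (hq : ∀ i k, ∀ l < q, PowerSeries.coeff l (M i k) = 0) :
    ∀ (i : Fin m) (k : Fin n), ¬ ((i : ℕ) = 0 ∧ (k : ℕ) = 0) →
      PowerSeries.coeff q (M i k) = 0 := by
  intro i k hik
  have him := i.2
  have hrm : r ≤ m := by
    rcases h with ⟨h1, -⟩ | ⟨-, h1, -⟩ <;> omega
  have hrel := fun S hS => lead_rel hmn u r hr0 hrm M hM q hq S hS
  rcases h with ⟨rfl, h1⟩ | ⟨hr1, hrm', hu1, hu⟩
  · have hG : GoodSet m u 1 {0} := by
      refine m2_single_good m u 1 one_pos hrm (fun k h2 h3 => by omega) _ ?_ ?_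
        (Finset.mem_singleton_self 0) (Finset.card_singleton 0)
      · intro x hx
        rw [Finset.mem_singleton] at hx
        rw [Finset.mem_range]
        omega
      · intro x hx
        rw [Finset.mem_singleton] at hx
        omega
    by_cases hi : (i : ℕ) = 0
    · exact (hrel _ hG).1 i k (by simp [hi]) (by simp only [Finset.mem_singleton]; tauto)
    · by_cases hk : (k : ℕ) = 0
      · exact (hrel _ hG).2.1 i k (by simpa using hi) (by simp [hk])
      · by_cases hne : (i : ℕ) = k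
        · refine (hrel _ hG).2.2.2.2 i ⟨0, by omega⟩ k hne (by simpa using hi) (by simp) ?_
          refine m2_single_bad m u 1 one_pos (by omega) (fun k h2 h3 => by omega) _ ?_
          intro h2
          rw [Finset.mem_insert, Finset.mem_erase] at h2
          rcases h2 with h2 | h2
          · exact hi h2.symm
          · exact h2.1 rfl
        · exact (hrel _ hG).2.2.1 i k (by simpa using hi) (by simpa using hk) hne
  · by_cases hi : (i : ℕ) = 0
    · obtain ⟨S, hS, h0, -, hb⟩ := m2_single_choose m u r hr1 hrm' hu 0 k (by omega)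
        (fun h2 => hik ⟨hi, h2⟩) (fun h2 => hik ⟨hi, h2.symm⟩)
      exact (hrel S hS).1 i k (by rw [hi]; exact h0) hb
    · by_cases hk : (k : ℕ) = 0
      · obtain ⟨S, hS, h0, -, hb⟩ := m2_single_choose m u r hr1 hrm' hu 0 i (by omega)
          hi (Ne.symm hi)
        exact (hrel S hS).2.1 i k hb (by rw [hk]; exact h0)
      · by_cases hne : (i : ℕ) = k
        · obtain ⟨S, hS, h0, -, hb⟩ := m2_single_choose m u r hr1 hrm' hu 0 i (by omega)
            hi (Ne.symm hi)
          refine (hrel S hS).2.2.2.2 i ⟨0, by omega⟩ k hne hb h0 ?_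
          refine m2_single_bad m u r hr0 hu1 hu _ ?_
          intro h2
          rw [Finset.mem_insert, Finset.mem_erase] at h2
          rcases h2 with h2 | h2
          · exact hi h2.symm
          · exact h2.1 rfl
        · by_cases hir : (i : ℕ) ≤ r
          · obtain ⟨S, hS, h0, ha, hb⟩ := m2_single_choose m u r hr1 hrm' hu i k hir hk hne
            exact (hrel S hS).1 i k ha hb
          · by_cases hkr : (k : ℕ) ≤ r
            · obtain ⟨S, hS, h0, ha, hb⟩ := m2_single_choose m u r hr1 hrm' hu k i hkr hi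
                (Ne.symm hne)
              exact (hrel S hS).2.1 i k hb ha
            · obtain ⟨S, hS, h0, ha, hb⟩ := m2_single_choose m u r hr1 hrm' hu 0 i (by omega)
                hi (Ne.symm hi)
              have hG : GoodSet m u r (Finset.range r) :=
                m2_single_good m u r hr0 hrm hu _ (Finset.range_mono (by omega))
                  (fun x hx => by rw [Finset.mem_range] at hx; omega)
                  (Finset.mem_range.2 hr0) (Finset.card_range r)
              exact (hrel _ hG).2.2.1 i k (by rw [Finset.mem_range]; omega)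
                (by rw [Finset.mem_range]; omega) hne

end MotMono
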