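import Pool.Agent.Lib.MP_4e5fcd_ag.Det.M1

/-! # DET-M2a: relations between the leading matrix and the leading minors -/

open MvPolynomial

namespace MotMono

/-- the index sets of the leading minors -/
def GoodSet (m : ℕ) (u : ℕ → ℕ) (r : ℕ) (S : Finset ℕ) : Prop :=
  S.card = r ∧ (∀ i ∈ S, i < m) ∧ ∑ i ∈ S, mue u i = ev u r

/-- Laplace expansion of the leading coefficients -/
theorem coeff_laplace {m n r q e' : ℕ} (M : Matrix (Fin m) (Fin n) (PowerSeries ℂ))
    (hq : ∀ i k, ∀ l < q, PowerSeries.coeff l (M i k) = 0)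
    (hM : ∀ (S : Fin r → Fin m) (T : Fin r → Fin n), ∀ l < e',
      PowerSeries.coeff l (M.submatrix S T).det = 0)
    (k : Fin m) (S : Fin r → Fin m) (T : Fin (r + 1) → Fin n) :
    PowerSeries.coeff (q + e') (M.submatrix (Fin.cons k S : Fin (r + 1) → Fin m) T).det =
      ∑ j : Fin (r + 1), (-1) ^ (j : ℕ) * PowerSeries.coeff q (M k (T j)) *
        PowerSeries.coeff e' (M.submatrix S (T ∘ j.succAbove)).det := by
  rw [Matrix.det_succ_row_zero, map_sum]
  refine Finset.sum_congr rfl fun j _ => ?_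
  have h1 : (M.submatrix (Fin.cons k S : Fin (r + 1) → Fin m) T).submatrix Fin.succ j.succAbove =
      M.submatrix S (T ∘ j.succAbove) := rfl
  have h2 : (M.submatrix (Fin.cons k S : Fin (r + 1) → Fin m) T) 0 j = M k (T j) := rfl
  rw [h1, h2]
  have h3 : ((-1 : PowerSeries ℂ)) ^ (j : ℕ) = PowerSeries.C ((-1 : ℂ) ^ (j : ℕ)) := by
    rw [map_pow, map_neg, map_one]
  rw [h3, mul_assoc, PowerSeries.coeff_C_mul, PowerSeries.coeff_mul, mul_assoc]
  congr 1
  rw [Finset.sum_eq_single (q, e')]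
  · rintro ⟨a, b⟩ hab hne
    rw [Finset.HasAntidiagonal.mem_antidiagonal] at hab
    simp only at hab
    rcases lt_or_ge a q with h | h
    · rw [hq _ _ a h, zero_mul]
    · rcases lt_or_ge b e' with h' | h'
      · rw [hM _ _ b h', mul_zero]
      · exfalso
        apply hne
        have : a = q := by omega
        have : b = e' := by omega
        simp_all
  · intro h
    exact absurd (Finset.HasAntidiagonal.mem_antidiagonal.mpr (show q + e' = q + e' from rfl)) h

section core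
variable {m n r : ℕ}

private theorem m2a_Z {u : ℕ → ℕ} (hrm : r ≤ m)
    {M : Matrix (Fin m) (Fin n) (PowerSeries ℂ)} {e' : ℕ} {c : ℂ}
    (hP : ∀ (S : Fin r → Fin m) (T : Fin r → Fin n),
      PowerSeries.coeff e' (M.submatrix S T).det =
      c * PowerSeries.coeff (ev u r) ((refM m n u fun _ => 1).submatrix S T).det)
    (f : Fin r → Fin m) (g : Fin r → Fin n) (i : Fin r) (hi : ∀ j, (g j : ℕ) ≠ f i) :
    PowerSeries.coeff e' (M.submatrix f g).det = 0 := by
  rw [hP f g]
  have : PowerSeries.coeff (ev u r) ((refM m n u fun _ => 1).submatrix f g).det = 0 := by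
    by_contra hne
    obtain ⟨-, h2, -⟩ := (coeff_ref_minor_ne_zero_iff u hrm f g).mp hne
    obtain ⟨j, hj⟩ := h2 i
    exact hi j hj
  rw [this, mul_zero]

private theorem m2a_Z2 {u : ℕ → ℕ} (hrm : r ≤ m)
    {M : Matrix (Fin m) (Fin n) (PowerSeries ℂ)} {e' : ℕ} {c : ℂ}
    (hP : ∀ (S : Fin r → Fin m) (T : Fin r → Fin n),
      PowerSeries.coeff e' (M.submatrix S T).det =
      c * PowerSeries.coeff (ev u r) ((refM m n u fun _ => 1).submatrix S T).det)
    (f : Fin r → Fin m) (T : Fin (r + 1) → Fin n) (hT : Function.Injective T) (j : Fin (r + 1))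
    (i : Fin r) (hi : (f i : ℕ) = T j) :
    PowerSeries.coeff e' (M.submatrix f (T ∘ j.succAbove)).det = 0 := by
  refine m2a_Z hrm hP f _ i fun j' h => ?_
  rw [hi] at h
  have h2 := hT (Fin.ext h)
  exact Fin.succAbove_ne j j' h2

private theorem m2a_D {u : ℕ → ℕ}
    {M : Matrix (Fin m) (Fin n) (PowerSeries ℂ)} {e' : ℕ} {c : ℂ}
    (hP : ∀ (S : Fin r → Fin m) (T : Fin r → Fin n),
      PowerSeries.coeff e' (M.submatrix S T).det =
      c * PowerSeries.coeff (ev u r) ((refM m n u fun _ => 1).submatrix S T).det)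
    (f : Fin r → Fin m) (g : Fin r → Fin n) (hf : Function.Injective f)
    (hfg : ∀ i, (g i : ℕ) = f i) :
    PowerSeries.coeff e' (M.submatrix f g).det =
      c * if ev u r = ∑ i, mue u (f i) then 1 else 0 := by
  rw [hP f g]
  have h1 : (refM m n u fun _ => 1).submatrix f g =
      Matrix.diagonal fun i => (PowerSeries.X : PowerSeries ℂ) ^ mue u (f i) := by
    ext1 i j
    rw [Matrix.submatrix_apply, Matrix.diagonal_apply]
    unfold refM
    by_cases hij : i = j
    · subst hij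
      rw [if_pos (hfg i).symm, if_pos rfl, map_one, one_mul]
    · rw [if_neg, if_neg hij]
      intro h
      rw [hfg j] at h
      exact hij (hf (Fin.ext h))
  rw [h1, Matrix.det_diagonal, Finset.prod_pow_eq_pow_sum, PowerSeries.coeff_X_pow]

/-- the data of an enumeration of a good set starting with a given element -/
private theorem m2a_enum {u : ℕ → ℕ} (hmn : m ≤ n) {S : Finset ℕ} (hS : GoodSet m u (r + 1) S)
    {k₁ : ℕ} (hk : k₁ ∈ S) :
    ∃ (f : Fin r → Fin m) (g : Fin r → Fin n), Function.Injective f ∧ (∀ i, (g i : ℕ) = f i) ∧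
      (∀ i, (f i : ℕ) ∈ S) ∧ (∀ i, (f i : ℕ) ≠ k₁) ∧
      ∑ i, mue u (f i) = ∑ i ∈ S.erase k₁, mue u i := by
  classical
  obtain ⟨hc, hlt, -⟩ := hS
  have hc' : (S.erase k₁).card = r := by rw [Finset.card_erase_of_mem hk, hc]; rfl
  set σ := (S.erase k₁).orderEmbOfFin hc' with hσ
  have hmem : ∀ i, σ i ∈ S.erase k₁ := fun i => Finset.orderEmbOfFin_mem _ _ i
  have hm : ∀ i, σ i < m := fun i => hlt _ (Finset.mem_of_mem_erase (hmem i))
  refine ⟨fun i => ⟨σ i, hm i⟩, fun i => ⟨σ i, (hm i).trans_le hmn⟩, fun i j h => ?_,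
    fun _ => rfl, fun i => Finset.mem_of_mem_erase (hmem i), fun i => Finset.ne_of_mem_erase (hmem i),
    ?_⟩
  · exact σ.injective (Fin.mk.inj_iff.mp h)
  · have h1 : Finset.univ.map σ.toEmbedding = S.erase k₁ := by
      rw [hσ]
      exact Finset.map_orderEmbOfFin_univ _ hc'
    rw [← h1, Finset.sum_map]
    rfl

end core

theorem lead_rel {m n : ℕ} (hmn : m ≤ n) (u : ℕ → ℕ) (r : ℕ) (hr0 : 0 < r) (hrm : r ≤ m)
    (M : Matrix (Fin m) (Fin n) (PowerSeries ℂ)) (hM : PatR m n u r M) (q : ℕ)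
    (hq : ∀ i k, ∀ l < q, PowerSeries.coeff l (M i k) = 0) (S : Finset ℕ)
    (hS : GoodSet m u r S) :
    (∀ (k : Fin m) (l : Fin n), (k : ℕ) ∈ S → (l : ℕ) ∉ S → PowerSeries.coeff q (M k l) = 0) ∧
    (∀ (k : Fin m) (l : Fin n), (k : ℕ) ∉ S → (l : ℕ) ∈ S → PowerSeries.coeff q (M k l) = 0) ∧
    (∀ (k : Fin m) (l : Fin n), (k : ℕ) ∉ S → (l : ℕ) ∉ S → (k : ℕ) ≠ l →
      PowerSeries.coeff q (M k l) = 0) ∧
    (∀ (k k₁ : Fin m) (l l₁ : Fin n), (k : ℕ) = l → (k₁ : ℕ) = l₁ → (k : ℕ) ∉ S → (k₁ : ℕ) ∈ S →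
      GoodSet m u r (insert (k : ℕ) (S.erase k₁)) →
      PowerSeries.coeff q (M k l) = PowerSeries.coeff q (M k₁ l₁)) ∧
    ∀ (k k₁ : Fin m) (l : Fin n), (k : ℕ) = l → (k : ℕ) ∉ S → (k₁ : ℕ) ∈ S →
      ¬ GoodSet m u r (insert (k : ℕ) (S.erase k₁)) → PowerSeries.coeff q (M k l) = 0 := by
  classical
  obtain ⟨r, rfl⟩ := Nat.exists_eq_succ_of_ne_zero hr0.ne'
  obtain ⟨e', c, hc, hPP⟩ := hM
  have hlow : ∀ (S : Fin (r + 1) → Fin m) (T : Fin (r + 1) → Fin n), ∀ l < e',
      PowerSeries.coeff l (M.submatrix S T).det = 0 := fun S T => (hPP S T).1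
  have hP : ∀ (S : Fin (r + 1) → Fin m) (T : Fin (r + 1) → Fin n),
      PowerSeries.coeff e' (M.submatrix S T).det =
      c * PowerSeries.coeff (ev u (r + 1)) ((refM m n u fun _ => 1).submatrix S T).det :=
    fun S T => (hPP S T).2
  -- enumeration starting with `k₁`
  have enum : ∀ (k₁ : Fin m) (l₁ : Fin n), (k₁ : ℕ) = l₁ → (k₁ : ℕ) ∈ S →
      ∃ (f : Fin r → Fin m) (g : Fin r → Fin n),
        Function.Injective f ∧ (∀ i, (g i : ℕ) = f i) ∧
        (∀ i, (f i : ℕ) ∈ S) ∧ (∀ i, (f i : ℕ) ≠ k₁) ∧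
        ∑ i, mue u (f i) = ∑ i ∈ S.erase (k₁ : ℕ), mue u i ∧
        Function.Injective (Fin.cons k₁ f : Fin (r + 1) → Fin m) ∧
        Function.Injective (Fin.cons l₁ g : Fin (r + 1) → Fin n) ∧
        (∀ i, (((Fin.cons l₁ g : Fin (r + 1) → Fin n) i : Fin n) : ℕ) =
          (Fin.cons k₁ f : Fin (r + 1) → Fin m) i) ∧
        PowerSeries.coeff e' (M.submatrix (Fin.cons k₁ f : Fin (r + 1) → Fin m)
          (Fin.cons l₁ g : Fin (r + 1) → Fin n)).det = c := by
    intro k₁ l₁ hkl hk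
    obtain ⟨f, g, hf, hfg, hfS, hfk, hsum⟩ := m2a_enum hmn hS hk
    have h1 : Function.Injective (Fin.cons k₁ f : Fin (r + 1) → Fin m) := by
      rw [Fin.cons_injective_iff]
      refine ⟨?_, hf⟩
      rintro ⟨i, hi⟩
      exact hfk i (congrArg Fin.val hi)
    have h3 : ∀ i, (((Fin.cons l₁ g : Fin (r + 1) → Fin n) i : Fin n) : ℕ) =
        (Fin.cons k₁ f : Fin (r + 1) → Fin m) i := by
      intro i
      refine Fin.cases ?_ (fun i => ?_) i
      · simpa using hkl.symm
      · simpa using hfg i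
    have h2 : Function.Injective (Fin.cons l₁ g : Fin (r + 1) → Fin n) := by
      intro i j hij
      apply h1
      apply Fin.ext
      rw [← h3, ← h3, hij]
    refine ⟨f, g, hf, hfg, hfS, hfk, hsum, h1, h2, h3, ?_⟩
    rw [m2a_D hP _ _ h1 h3, if_pos, mul_one]
    rw [Fin.sum_univ_succ]
    simp only [Fin.cons_zero, Fin.cons_succ]
    rw [hsum, Finset.add_sum_erase _ _ hk]
    exact hS.2.2.symm
  -- expansion along the new row
  have exp1 : ∀ (k k₁ : Fin m) (l l₁ : Fin n) (f : Fin r → Fin m) (g : Fin r → Fin n),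
      (k₁ : ℕ) = l₁ → (∀ i, (g i : ℕ) = f i) → (∀ i, (f i : ℕ) ∈ S) → (k₁ : ℕ) ∈ S →
      (l : ℕ) ∉ S → Function.Injective (Fin.cons l₁ g : Fin (r + 1) → Fin n) →
      PowerSeries.coeff e' (M.submatrix (Fin.cons k₁ f : Fin (r + 1) → Fin m)
          (Fin.cons l₁ g : Fin (r + 1) → Fin n)).det = c →
      PowerSeries.coeff (q + e') (M.submatrix
        (Fin.cons k (Fin.cons k₁ f : Fin (r + 1) → Fin m) : Fin (r + 1 + 1) → Fin m)
        (Fin.cons l (Fin.cons l₁ g : Fin (r + 1) → Fin n) : Fin (r + 1 + 1) → Fin n)).det =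
        PowerSeries.coeff q (M k l) * c := by
    intro k k₁ l l₁ f g hkl hfg hfS hk₁ hl hinj hcc
    have hTS : ∀ i, (((Fin.cons l₁ g : Fin (r + 1) → Fin n) i : Fin n) : ℕ) ∈ S := by
      intro i
      refine Fin.cases ?_ (fun i => ?_) i
      · simpa [hkl] using hk₁
      · simpa [hfg i] using hfS i
    have hTinj : Function.Injective
        (Fin.cons l (Fin.cons l₁ g : Fin (r + 1) → Fin n) : Fin (r + 1 + 1) → Fin n) := by
      rw [Fin.cons_injective_iff]
      refine ⟨?_, hinj⟩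
      rintro ⟨i, hi⟩
      apply hl
      rw [← hi]
      exact hTS i
    rw [coeff_laplace M hq hlow, Fin.sum_univ_succ]
    rw [Finset.sum_eq_zero]
    · have h1 : (Fin.cons l (Fin.cons l₁ g : Fin (r + 1) → Fin n) : Fin (r + 1 + 1) → Fin n) ∘
          (0 : Fin (r + 1 + 1)).succAbove = (Fin.cons l₁ g : Fin (r + 1) → Fin n) := by
        funext x
        simp [Fin.succAbove_zero]
      rw [h1, hcc]
      simp
    · intro j _
      rw [m2a_Z2 hrm hP (Fin.cons k₁ f : Fin (r + 1) → Fin m) _ hTinj j.succ j, mul_zero]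
      rw [Fin.cons_succ]
      refine Fin.cases ?_ (fun i => ?_) j
      · simpa using hkl
      · simpa using (hfg i).symm
  -- the exchange of the first two rows
  have swap : ∀ (k k₁ : Fin m) (f : Fin r → Fin m) (T : Fin (r + 1 + 1) → Fin n),
      PowerSeries.coeff (q + e') (M.submatrix
        (Fin.cons k₁ (Fin.cons k f : Fin (r + 1) → Fin m) : Fin (r + 1 + 1) → Fin m) T).det =
      - PowerSeries.coeff (q + e') (M.submatrix
        (Fin.cons k (Fin.cons k₁ f : Fin (r + 1) → Fin m) : Fin (r + 1 + 1) → Fin m) T).det := by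
    intro k k₁ f T
    have h1 : M.submatrix
        (Fin.cons k₁ (Fin.cons k f : Fin (r + 1) → Fin m) : Fin (r + 1 + 1) → Fin m) T =
        (M.submatrix
        (Fin.cons k (Fin.cons k₁ f : Fin (r + 1) → Fin m) : Fin (r + 1 + 1) → Fin m) T).submatrix
          (Equiv.swap (0 : Fin (r + 1 + 1)) 1) id := by
      have hrow : ∀ i : Fin (r + 1 + 1),
          (Fin.cons k₁ (Fin.cons k f : Fin (r + 1) → Fin m) : Fin (r + 1 + 1) → Fin m) i =
          (Fin.cons k (Fin.cons k₁ f : Fin (r + 1) → Fin m) : Fin (r + 1 + 1) → Fin m)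
            (Equiv.swap (0 : Fin (r + 1 + 1)) 1 i) := by
        intro i
        refine Fin.cases ?_ (fun i => ?_) i
        · rw [Equiv.swap_apply_left]
          rfl
        · refine Fin.cases ?_ (fun i => ?_) i
          · have : (Fin.succ (0 : Fin (r + 1))) = (1 : Fin (r + 1 + 1)) := rfl
            rw [this, Equiv.swap_apply_right]
            rfl
          · rw [Equiv.swap_apply_of_ne_of_ne (Fin.succ_ne_zero _)]
            · rfl
            · intro h
              have : (Fin.succ (0 : Fin (r + 1))) = (1 : Fin (r + 1 + 1)) := rfl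
              rw [← this] at h
              exact Fin.succ_ne_zero _ (Fin.succ_injective _ h)
      ext1 i j
      simp only [Matrix.submatrix_apply, id]
      rw [hrow]
    rw [h1, Matrix.det_permute]
    have h2 : (Equiv.swap (0 : Fin (r + 1 + 1)) 1).sign = -1 := by
      rw [Equiv.Perm.sign_swap]
      intro h
      have := congrArg Fin.val h
      simp at this
    rw [h2]
    simp
  have hcS : ∀ x ∈ S, x < m := hS.2.1
  -- the two expansions for a diagonal entry outside `S`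
  have key : ∀ (k k₁ : Fin m) (l l₁ : Fin n) (f : Fin r → Fin m) (g : Fin r → Fin n),
      (k : ℕ) = l → (k₁ : ℕ) = l₁ → (k : ℕ) ∉ S → (k₁ : ℕ) ∈ S → Function.Injective f →
      (∀ i, (g i : ℕ) = f i) → (∀ i, (f i : ℕ) ∈ S) → (∀ i, (f i : ℕ) ≠ k₁) →
      Function.Injective (Fin.cons k₁ f : Fin (r + 1) → Fin m) →
      Function.Injective (Fin.cons l₁ g : Fin (r + 1) → Fin n) →
      (∀ i, (((Fin.cons l₁ g : Fin (r + 1) → Fin n) i : Fin n) : ℕ) =
          (Fin.cons k₁ f : Fin (r + 1) → Fin m) i) →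
      PowerSeries.coeff e' (M.submatrix (Fin.cons k₁ f : Fin (r + 1) → Fin m)
          (Fin.cons l₁ g : Fin (r + 1) → Fin n)).det = c →
      PowerSeries.coeff q (M k l) * c = PowerSeries.coeff q (M k₁ l₁) *
        (c * if ev u (r + 1) = mue u k + ∑ i, mue u (f i) then 1 else 0) := by
    intro k k₁ l l₁ f g hkl hkl₁ hk hk₁ hf hfg hfS hfk h1 h2 h3 h4
    have hl : (l : ℕ) ∉ S := hkl ▸ hk
    have h5 := exp1 k k₁ l l₁ f g hkl₁ hfg hfS hk₁ hl h2 h4
    have hTS : ∀ i, (((Fin.cons l₁ g : Fin (r + 1) → Fin n) i : Fin n) : ℕ) ∈ S := by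
      intro i
      refine Fin.cases ?_ (fun i => ?_) i
      · simpa [hkl₁] using hk₁
      · simpa [hfg i] using hfS i
    have hTinj : Function.Injective
        (Fin.cons l (Fin.cons l₁ g : Fin (r + 1) → Fin n) : Fin (r + 1 + 1) → Fin n) := by
      rw [Fin.cons_injective_iff]
      refine ⟨?_, h2⟩
      rintro ⟨i, hi⟩
      apply hl
      rw [← hi]
      exact hTS i
    have h6 := swap k k₁ f (Fin.cons l (Fin.cons l₁ g :
      Fin (r + 1) → Fin n) : Fin (r + 1 + 1) → Fin n)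
    rw [h5, coeff_laplace M hq hlow, Fin.sum_univ_succ, Fin.sum_univ_succ, Finset.sum_eq_zero,
      m2a_Z2 hrm hP (Fin.cons k f : Fin (r + 1) → Fin m) _ hTinj 0 0 (by simpa using hkl)] at h6
    · have h7 : (Fin.cons l (Fin.cons l₁ g : Fin (r + 1) → Fin n) :
          Fin (r + 1 + 1) → Fin n) ∘ (Fin.succ (0 : Fin (r + 1))).succAbove =
          (Fin.cons l g : Fin (r + 1) → Fin n) := by
        funext x
        rw [Function.comp_apply]
        refine Fin.cases ?_ (fun i => ?_) x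
        · rw [Fin.succ_succAbove_zero]
          rfl
        · rw [Fin.succ_succAbove_succ, Fin.succAbove_zero]
          rfl
      have hkf : Function.Injective (Fin.cons k f : Fin (r + 1) → Fin m) := by
        rw [Fin.cons_injective_iff]
        refine ⟨?_, hf⟩
        rintro ⟨i, hi⟩
        exact hk (hi ▸ hfS i)
      have h8 : ∀ i, (((Fin.cons l g : Fin (r + 1) → Fin n) i : Fin n) : ℕ) =
          (Fin.cons k f : Fin (r + 1) → Fin m) i := by
        intro i
        refine Fin.cases ?_ (fun i => ?_) i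
        · simpa using hkl.symm
        · simpa using hfg i
      rw [h7, m2a_D hP _ _ hkf h8, Fin.sum_univ_succ] at h6
      simp only [Fin.cons_zero, Fin.cons_succ, mul_zero, Fin.val_succ, Fin.val_zero, zero_add,
        pow_one, add_zero] at h6
      linear_combination h6
    · intro j _
      rw [m2a_Z2 hrm hP (Fin.cons k f : Fin (r + 1) → Fin m) _ hTinj j.succ.succ j.succ, mul_zero]
      simpa using (hfg j).symm
  refine ⟨?_, ?_, ?_, ?_, ?_⟩
  · -- (1)
    intro k l hk hl
    obtain ⟨f, g, hf, hfg, hfS, hfk, hsum, h1, h2, h3, h4⟩ :=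
      enum k ⟨k, k.2.trans_le hmn⟩ rfl hk
    have h5 := exp1 k k l ⟨k, k.2.trans_le hmn⟩ f g rfl hfg hfS hk hl h2 h4
    have h6 : (M.submatrix
        (Fin.cons k (Fin.cons k f : Fin (r + 1) → Fin m) : Fin (r + 1 + 1) → Fin m)
        (Fin.cons l (Fin.cons ⟨k, k.2.trans_le hmn⟩ g : Fin (r + 1) → Fin n) :
          Fin (r + 1 + 1) → Fin n)).det = 0 := by
      refine Matrix.det_zero_of_row_eq (i := 0) (j := Fin.succ 0) ?_ rfl
      exact (Fin.succ_ne_zero _).symm
    rw [h6, map_zero] at h5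
    exact (mul_eq_zero.mp h5.symm).resolve_right hc
  · -- (2)
    intro k l hk hl
    have hlm : (l : ℕ) < m := hcS _ hl
    obtain ⟨f, g, hf, hfg, hfS, hfk, hsum, h1, h2, h3, h4⟩ := enum ⟨l, hlm⟩ l rfl hl
    have hlowT : ∀ (S : Fin (r + 1) → Fin n) (T : Fin (r + 1) → Fin m), ∀ l < e',
        PowerSeries.coeff l ((M.transpose).submatrix S T).det = 0 := by
      intro S T l hl
      rw [← Matrix.transpose_submatrix, Matrix.det_transpose]
      exact hlow T S l hl
    have h5 := coeff_laplace (M.transpose) (fun i k => hq k i) hlowT l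
      (Fin.cons l g : Fin (r + 1) → Fin n)
      (Fin.cons k (Fin.cons ⟨l, hlm⟩ f : Fin (r + 1) → Fin m) : Fin (r + 1 + 1) → Fin m)
    have h6 : ((M.transpose).submatrix
        (Fin.cons l (Fin.cons l g : Fin (r + 1) → Fin n) : Fin (r + 1 + 1) → Fin n)
        (Fin.cons k (Fin.cons ⟨l, hlm⟩ f : Fin (r + 1) → Fin m) :
          Fin (r + 1 + 1) → Fin m)).det = 0 := by
      refine Matrix.det_zero_of_row_eq (i := 0) (j := Fin.succ 0) ?_ rfl
      exact (Fin.succ_ne_zero _).symm
    rw [h6, map_zero, Fin.sum_univ_succ, Finset.sum_eq_zero] at h5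
    · have h7 : (Fin.cons k (Fin.cons ⟨l, hlm⟩ f : Fin (r + 1) → Fin m) :
          Fin (r + 1 + 1) → Fin m) ∘ (0 : Fin (r + 1 + 1)).succAbove =
          (Fin.cons ⟨l, hlm⟩ f : Fin (r + 1) → Fin m) := by
        funext x
        simp [Fin.succAbove_zero]
      rw [h7, ← Matrix.transpose_submatrix, Matrix.det_transpose, h4] at h5
      simp only [Fin.val_zero, pow_zero, one_mul, Fin.cons_zero, Matrix.transpose_apply,
        add_zero] at h5
      exact (mul_eq_zero.mp h5.symm).resolve_right hc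
    · intro j _
      rw [← Matrix.transpose_submatrix, Matrix.det_transpose]
      rw [m2a_Z hrm hP _ (Fin.cons l g : Fin (r + 1) → Fin n) 0, mul_zero]
      intro j'
      have h7 : (((Fin.cons k (Fin.cons ⟨l, hlm⟩ f : Fin (r + 1) → Fin m) :
          Fin (r + 1 + 1) → Fin m) ∘ (Fin.succ j).succAbove) 0) = k := by
        simp
      rw [h7]
      intro h8
      apply hk
      rw [← h8, h3]
      refine Fin.cases ?_ (fun i => ?_) j'
      · simpa using hl
      · simpa using hfS i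
  · -- (3)
    intro k l hk hl hkl
    have hne : S.Nonempty := by
      rw [← Finset.card_pos, hS.1]
      omega
    obtain ⟨k₁, hk₁⟩ := hne
    obtain ⟨f, g, hf, hfg, hfS, hfk, hsum, h1, h2, h3, h4⟩ :=
      enum ⟨k₁, hcS _ hk₁⟩ ⟨k₁, (hcS _ hk₁).trans_le hmn⟩ rfl hk₁
    have h5 := exp1 k ⟨k₁, hcS _ hk₁⟩ l ⟨k₁, (hcS _ hk₁).trans_le hmn⟩ f g rfl hfg hfS hk₁ hl h2 h4
    have h6 := swap k ⟨k₁, hcS _ hk₁⟩ f (Fin.cons l (Fin.cons ⟨k₁, (hcS _ hk₁).trans_le hmn⟩ g :
      Fin (r + 1) → Fin n) : Fin (r + 1 + 1) → Fin n)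
    rw [h5, coeff_laplace M hq hlow, Finset.sum_eq_zero] at h6
    · have h7 : PowerSeries.coeff q (M k l) * c = 0 := by
        rw [← neg_eq_zero]
        exact h6.symm
      exact (mul_eq_zero.mp h7).resolve_right hc
    · intro j _
      rw [m2a_Z hrm hP _ _ 0, mul_zero]
      intro j'
      rw [Fin.cons_zero, Function.comp_apply]
      generalize j.succAbove j' = x
      refine Fin.cases ?_ (fun i => ?_) x
      · simpa using fun h => hkl (h.symm)
      · rw [Fin.cons_succ, h3]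
        refine Fin.cases ?_ (fun i => ?_) i
        · simp only [Fin.cons_zero]
          intro h
          exact hk (h ▸ hk₁)
        · simp only [Fin.cons_succ]
          intro h
          exact hk (h ▸ hfS i)
  · -- (4)
    intro k k₁ l l₁ hkl hkl₁ hk hk₁ hgood
    obtain ⟨f, g, hf, hfg, hfS, hfk, hsum, h1, h2, h3, h4⟩ := enum k₁ l₁ hkl₁ hk₁
    have h8 := key k k₁ l l₁ f g hkl hkl₁ hk hk₁ hf hfg hfS hfk h1 h2 h3 h4
    rw [hsum, if_pos, mul_one] at h8
    · exact mul_right_cancel₀ hc h8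
    · have h9 := hgood.2.2
      rw [Finset.sum_insert] at h9
      · exact h9.symm
      · intro h10
        exact hk (Finset.mem_of_mem_erase h10)
  · -- (5)
    intro k k₁ l hkl hk hk₁ hbad
    obtain ⟨f, g, hf, hfg, hfS, hfk, hsum, h1, h2, h3, h4⟩ :=
      enum k₁ ⟨k₁, k₁.2.trans_le hmn⟩ rfl hk₁
    have h8 := key k k₁ l ⟨k₁, k₁.2.trans_le hmn⟩ f g hkl rfl hk hk₁ hf hfg hfS hfk h1 h2 h3 h4
    rw [hsum, if_neg, mul_zero, mul_zero] at h8
    · exact (mul_eq_zero.mp h8).resolve_right hc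
    · intro h9
      apply hbad
      have hk' : (k : ℕ) ∉ S.erase (k₁ : ℕ) := fun h10 => hk (Finset.mem_of_mem_erase h10)
      refine ⟨?_, ?_, ?_⟩
      · rw [Finset.card_insert_of_notMem hk', Finset.card_erase_of_mem hk₁, hS.1]
        rfl
      · intro i hi
        rw [Finset.mem_insert] at hi
        rcases hi with rfl | hi
        · exact k.2
        · exact hcS i (Finset.mem_of_mem_erase hi)
      · rw [Finset.sum_insert hk']
        exact h9.symm

end MotMono
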