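import Pool.Agent.Lib.MP_4e5fcd_ag.Det.M1

/-! # DET-M3a: elimination of a pivot -/

open MvPolynomial

namespace MotMono

/-- minors of the elimination -/
theorem det_elim1 {m n r : ℕ} (E : Matrix (Fin (m + 1)) (Fin (n + 1)) (PowerSeries ℂ))
    (hE : PowerSeries.constantCoeff (E 0 0) ≠ 0) (S : Fin r → Fin m) (T : Fin r → Fin n) :
    (E.submatrix (Fin.cons 0 (Fin.succ ∘ S) : Fin (r + 1) → Fin (m + 1))
      (Fin.cons 0 (Fin.succ ∘ T) : Fin (r + 1) → Fin (n + 1))).det =
      E 0 0 * ((elim1 E).submatrix S T).det := by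
  set A : Matrix (Fin (r + 1)) (Fin (r + 1)) (PowerSeries ℂ) :=
    E.submatrix (Fin.cons 0 (Fin.succ ∘ S) : Fin (r + 1) → Fin (m + 1))
      (Fin.cons 0 (Fin.succ ∘ T) : Fin (r + 1) → Fin (n + 1)) with hA
  set c : Fin (r + 1) → PowerSeries ℂ :=
    Fin.cons 0 fun i => E (S i).succ 0 * (E 0 0)⁻¹ with hc
  set B : Matrix (Fin (r + 1)) (Fin (r + 1)) (PowerSeries ℂ) :=
    Matrix.of fun i j => A i j - c i * A 0 j with hB
  have hc0 : c 0 = 0 := by simp [hc]
  have hAB : A.det = B.det := by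
    refine Matrix.det_eq_of_forall_row_eq_smul_add_const c 0 hc0 fun i j => ?_
    have h1 : B 0 j = A 0 j := by
      simp [hB, hc0]
    rw [h1]
    simp [hB]
  have hcol : ∀ i : Fin r, B i.succ 0 = 0 := by
    intro i
    have h1 : (E 0 0)⁻¹ * E 0 0 = 1 := PowerSeries.inv_mul_cancel _ hE
    simp only [hB, hA, hc, Matrix.of_apply, Matrix.submatrix_apply, Fin.cons_succ, Fin.cons_zero,
      Function.comp_apply]
    rw [mul_assoc, h1, mul_one, sub_self]
  rw [hAB, Matrix.det_succ_column_zero, Fin.sum_univ_succ]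
  have h0 : ∀ i : Fin r, (-1) ^ ((i.succ : Fin (r + 1)) : ℕ) * B i.succ 0 *
      (B.submatrix i.succ.succAbove Fin.succ).det = 0 := by
    intro i
    rw [hcol i, mul_zero, zero_mul]
  simp only [h0, Finset.sum_const_zero, add_zero]
  have h1 : B 0 0 = E 0 0 := by
    simp [hB, hc0, hA]
  have h2 : B.submatrix (Fin.succAbove 0) Fin.succ = (elim1 E).submatrix S T := by
    ext1 i j
    simp only [hB, hA, hc, Matrix.of_apply, Matrix.submatrix_apply, Fin.succAbove_zero,
      Fin.cons_succ, Fin.cons_zero, Function.comp_apply, elim1]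
  rw [h1, h2]
  simp

theorem m3a_divX {ι κ : Type} (q : ℕ) (M : Matrix ι κ (PowerSeries ℂ))
    (hq : ∀ i k, ∀ l < q, PowerSeries.coeff l (M i k) = 0) (i : ι) (k : κ) :
    M i k = PowerSeries.X ^ q * divX q M i k := by
  ext l
  rw [PowerSeries.coeff_X_pow_mul']
  split_ifs with h
  · rw [divX, PowerSeries.coeff_mk, Nat.sub_add_cancel h]
  · exact hq i k l (not_le.1 h)

theorem m3a_det {ι κ : Type} {r : ℕ} (q : ℕ) (M : Matrix ι κ (PowerSeries ℂ))
    (hq : ∀ i k, ∀ l < q, PowerSeries.coeff l (M i k) = 0) (S : Fin r → ι) (T : Fin r → κ) :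
    (M.submatrix S T).det = PowerSeries.X ^ (r * q) * ((divX q M).submatrix S T).det := by
  have h1 : M.submatrix S T = (PowerSeries.X ^ q : PowerSeries ℂ) • (divX q M).submatrix S T := by
    ext1 i j
    rw [Matrix.smul_apply, smul_eq_mul]
    exact m3a_divX q M hq _ _
  rw [h1, Matrix.det_smul, Fintype.card_fin, ← pow_mul, mul_comm q r]

theorem m3a_ev (u : ℕ → ℕ) (r : ℕ) :
    ev u (r + 1) = (r + 1) * u 0 + ev (fun i => u (i + 1)) r := by
  rw [ev, Finset.sum_range_succ', ev, add_comm]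
  congr 1
  refine Finset.sum_congr rfl fun i _ => ?_
  congr 1
  omega

theorem m3a_mue (u : ℕ → ℕ) (i : ℕ) :
    mue u (i + 1) = u 0 + mue (fun i => u (i + 1)) i := by
  rw [mue, Finset.sum_range_succ', mue, add_comm]

theorem m3a_d {m n r : ℕ} (S : Fin r → Fin m) (T : Fin r → Fin n) :
    m1_d (Fin.cons 0 (Fin.succ ∘ S) : Fin (r + 1) → Fin (m + 1))
      (Fin.cons 0 (Fin.succ ∘ T) : Fin (r + 1) → Fin (n + 1)) = m1_d S T := by
  rw [m1_d, Matrix.det_succ_column_zero, Fin.sum_univ_succ]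
  have h0 : ∀ i : Fin r, (Matrix.of fun i j : Fin (r + 1) =>
      if (((Fin.cons 0 (Fin.succ ∘ S) : Fin (r + 1) → Fin (m + 1)) i : Fin (m + 1)) : ℕ) =
        ((Fin.cons 0 (Fin.succ ∘ T) : Fin (r + 1) → Fin (n + 1)) j : Fin (n + 1))
        then (1 : ℂ) else 0) i.succ 0 = 0 := by
    intro i
    simp
  simp only [h0, mul_zero, zero_mul, Finset.sum_const_zero, add_zero]
  rw [m1_d]
  have h2 : (Matrix.of fun i j : Fin (r + 1) =>
      if (((Fin.cons 0 (Fin.succ ∘ S) : Fin (r + 1) → Fin (m + 1)) i : Fin (m + 1)) : ℕ) =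
        ((Fin.cons 0 (Fin.succ ∘ T) : Fin (r + 1) → Fin (n + 1)) j : Fin (n + 1))
        then (1 : ℂ) else 0).submatrix (Fin.succAbove 0) Fin.succ =
      Matrix.of fun i j : Fin r => if (S i : ℕ) = T j then (1 : ℂ) else 0 := by
    ext i j
    simp
  rw [h2]
  simp

theorem m3a_ref {m n r : ℕ} (u : ℕ → ℕ) (S : Fin r → Fin m) (T : Fin r → Fin n) :
    PowerSeries.coeff (ev u (r + 1)) ((refM (m + 1) (n + 1) u 1).submatrix
      (Fin.cons 0 (Fin.succ ∘ S) : Fin (r + 1) → Fin (m + 1))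
      (Fin.cons 0 (Fin.succ ∘ T) : Fin (r + 1) → Fin (n + 1))).det =
    PowerSeries.coeff (ev (fun i => u (i + 1)) r)
      ((refM m n (fun i => u (i + 1)) 1).submatrix S T).det := by
  rw [m1_coeff, m1_coeff, m3a_d]
  have h1 : ∑ i : Fin (r + 1), mue u
      (((Fin.cons 0 (Fin.succ ∘ S) : Fin (r + 1) → Fin (m + 1)) i : Fin (m + 1)) : ℕ) =
      (r + 1) * u 0 + ∑ i : Fin r, mue (fun i => u (i + 1)) (S i) := by
    rw [Fin.sum_univ_succ]
    simp only [Fin.cons_zero, Fin.cons_succ, Function.comp_apply, Fin.val_zero, Fin.val_succ,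
      m3a_mue, Finset.sum_add_distrib, Finset.sum_const, Finset.card_univ, Fintype.card_fin,
      smul_eq_mul]
    rw [mue]
    simp
    ring
  rw [h1, m3a_ev]
  have h2 : ((r + 1) * u 0 + ev (fun i => u (i + 1)) r =
      (r + 1) * u 0 + ∑ i : Fin r, mue (fun i => u (i + 1)) (S i)) ↔
      (ev (fun i => u (i + 1)) r = ∑ i : Fin r, mue (fun i => u (i + 1)) (S i)) := by
    constructor <;> intro h <;> omega
  simp only [h2, Pi.one_apply, Finset.prod_const_one]

/-- the leading minors after the elimination of one pivot -/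
theorem PatR.elim (m n : ℕ) (u : ℕ → ℕ) (r : ℕ) (hr0 : 0 < r) (hrm : r ≤ m)
    (M : Matrix (Fin (m + 1)) (Fin (n + 1)) (PowerSeries ℂ)) (hM : PatR (m + 1) (n + 1) u (r + 1) M)
    (q : ℕ) (hq : ∀ i k, ∀ l < q, PowerSeries.coeff l (M i k) = 0)
    (h0 : PowerSeries.coeff q (M 0 0) ≠ 0) :
    PatR m n (fun i => u (i + 1)) r (elim1 (divX q M)) := by
  by_cases hrn : r ≤ n
  swap
  · -- all minors vanish
    have hT : ∀ T : Fin r → Fin n, ∃ j j', j ≠ j' ∧ T j = T j' := by
      intro T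
      by_contra hcon
      push Not at hcon
      have hinj : Function.Injective T := by
        intro j j' h
        by_contra hne
        exact hcon j j' hne h
      have := Fintype.card_le_of_injective T hinj
      simp at this
      omega
    have hz : ∀ (M' : Matrix (Fin m) (Fin n) (PowerSeries ℂ)) (S : Fin r → Fin m)
        (T : Fin r → Fin n), (M'.submatrix S T).det = 0 := by
      intro M' S T
      obtain ⟨j, j', hne, h⟩ := hT T
      refine Matrix.det_zero_of_column_eq hne fun i => ?_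
      simp only [Matrix.submatrix_apply, h]
    refine ⟨0, 1, one_ne_zero, fun S T => ⟨fun l hl => absurd hl (Nat.not_lt_zero _), ?_⟩⟩
    rw [hz, hz]
    simp
  obtain ⟨e', c, hc, hM⟩ := hM
  set E := divX q M with hE
  have hE0 : PowerSeries.constantCoeff (E 0 0) = PowerSeries.coeff q (M 0 0) := by
    rw [← PowerSeries.coeff_zero_eq_constantCoeff_apply, hE, divX, PowerSeries.coeff_mk, zero_add]
  have hE0' : PowerSeries.constantCoeff (E 0 0) ≠ 0 := by rw [hE0]; exact h0
  have hdet : ∀ (S : Fin r → Fin m) (T : Fin r → Fin n),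
      (M.submatrix (Fin.cons 0 (Fin.succ ∘ S) : Fin (r + 1) → Fin (m + 1))
        (Fin.cons 0 (Fin.succ ∘ T) : Fin (r + 1) → Fin (n + 1))).det =
      PowerSeries.X ^ ((r + 1) * q) * (E 0 0 * ((elim1 E).submatrix S T).det) := by
    intro S T
    rw [m3a_det q M hq, ← hE, det_elim1 E hE0']
  -- the exponent
  have he' : (r + 1) * q ≤ e' := by
    by_contra hcon
    push Not at hcon
    have h1 := (hM (Fin.cons 0 (Fin.succ ∘ Fin.castLE hrm) : Fin (r + 1) → Fin (m + 1))
      (Fin.cons 0 (Fin.succ ∘ Fin.castLE hrn) : Fin (r + 1) → Fin (n + 1))).2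
    rw [m3a_ref, hdet, PowerSeries.coeff_X_pow_mul', if_neg (not_le.2 hcon)] at h1
    have h2 := coeff_ref_minor_id (fun i => u (i + 1)) hrm hrn
    have h3 : PowerSeries.coeff (ev (fun i => u (i + 1)) r)
      ((refM m n (fun i => u (i + 1)) 1).submatrix (Fin.castLE hrm) (Fin.castLE hrn)).det = 1 := h2
    rw [h3, mul_one] at h1
    exact hc h1.symm
  obtain ⟨e'', rfl⟩ := Nat.exists_eq_add_of_le he'
  have hlow : ∀ (S : Fin r → Fin m) (T : Fin r → Fin n), ∀ l < e'',
      PowerSeries.coeff l ((elim1 E).submatrix S T).det = 0 := by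
    intro S T
    have h1 : PowerSeries.X ^ e'' ∣ E 0 0 * ((elim1 E).submatrix S T).det := by
      rw [PowerSeries.X_pow_dvd_iff]
      intro l hl
      have h2 := (hM (Fin.cons 0 (Fin.succ ∘ S) : Fin (r + 1) → Fin (m + 1))
        (Fin.cons 0 (Fin.succ ∘ T) : Fin (r + 1) → Fin (n + 1))).1 ((r + 1) * q + l) (by omega)
      rw [hdet, add_comm, PowerSeries.coeff_X_pow_mul] at h2
      exact h2
    have h2 : PowerSeries.X ^ e'' ∣ ((elim1 E).submatrix S T).det := by
      have h3 : ((elim1 E).submatrix S T).det =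
          (E 0 0)⁻¹ * (E 0 0 * ((elim1 E).submatrix S T).det) := by
        rw [← mul_assoc, PowerSeries.inv_mul_cancel _ hE0', one_mul]
      rw [h3]
      exact Dvd.dvd.mul_left h1 _
    exact PowerSeries.X_pow_dvd_iff.1 h2
  refine ⟨e'', c / PowerSeries.constantCoeff (E 0 0), div_ne_zero hc hE0',
    fun S T => ⟨hlow S T, ?_⟩⟩
  have h2 := (hM (Fin.cons 0 (Fin.succ ∘ S) : Fin (r + 1) → Fin (m + 1))
    (Fin.cons 0 (Fin.succ ∘ T) : Fin (r + 1) → Fin (n + 1))).2
  rw [m3a_ref, hdet, add_comm ((r + 1) * q), PowerSeries.coeff_X_pow_mul] at h2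
  have h3 : PowerSeries.coeff e'' (E 0 0 * ((elim1 E).submatrix S T).det) =
      PowerSeries.constantCoeff (E 0 0) * PowerSeries.coeff e'' ((elim1 E).submatrix S T).det := by
    rw [PowerSeries.coeff_mul, Finset.sum_eq_single (0, e'')]
    · rw [PowerSeries.coeff_zero_eq_constantCoeff_apply]
    · rintro ⟨i, j⟩ hij hne
      rw [Finset.HasAntidiagonal.mem_antidiagonal] at hij
      have h4 : j < e'' := by
        rcases Nat.lt_or_ge j e'' with h5 | h5
        · exact h5
        · exfalso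
          apply hne
          have h6 : i = 0 := by simp only at hij; omega
          have h7 : j = e'' := by simp only at hij; omega
          rw [h6, h7]
      rw [hlow S T j h4, mul_zero]
    · intro h
      exact absurd (Finset.HasAntidiagonal.mem_antidiagonal.2 (zero_add e'')) h
  rw [h3] at h2
  rw [div_mul_eq_mul_div, eq_div_iff hE0', mul_comm]
  exact h2

end MotMono
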