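import Pool.Agent.Lib.MP_4e5fcd_ag.Det.M2
import Pool.Agent.Lib.MP_4e5fcd_ag.Det.M3a

/-! # DET-M3: the structure of the contact jets of one matrix -/

open MvPolynomial

namespace MotMono

private theorem m3_mue_succ (b : ℕ → ℕ) (i : ℕ) :
    mue b i = b 0 + ∑ k ∈ Finset.range i, b (k + 1) := by
  unfold mue
  rw [Finset.sum_range_succ', add_comm]

private theorem m3_mue_eq_iff (b : ℕ → ℕ) (i : ℕ) :
    mue b i = b 0 ↔ ∀ j, 0 < j → j ≤ i → b j = 0 := by
  rw [m3_mue_succ]
  constructor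
  · intro h j hj hji
    have h1 : ∑ k ∈ Finset.range i, b (k + 1) = 0 := by omega
    rw [Finset.sum_eq_zero_iff] at h1
    have h2 := h1 (j - 1) (Finset.mem_range.mpr (by omega))
    rwa [Nat.sub_add_cancel hj] at h2
  · intro h
    rw [Finset.sum_eq_zero, add_zero]
    intro k hk
    exact h (k + 1) (by omega) (by have := Finset.mem_range.mp hk; omega)

private theorem m3_mue_ge (b : ℕ → ℕ) (i : ℕ) : b 0 ≤ mue b i := by
  rw [m3_mue_succ]
  omega

private theorem m3_coeff_ref {m n : ℕ} (b : ℕ → ℕ) (z : ℕ → ℂ) (i : Fin m) (k : Fin n) (l : ℕ) :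
    PowerSeries.coeff l (refM m n b z i k) = if (i : ℕ) = k ∧ l = mue b i then z i else 0 := by
  unfold refM
  by_cases h : (i : ℕ) = k
  · rw [if_pos h, PowerSeries.coeff_C_mul, PowerSeries.coeff_X_pow]
    by_cases h2 : l = mue b i
    · rw [if_pos h2, if_pos ⟨h, h2⟩, mul_one]
    · rw [if_neg h2, if_neg (fun h3 => h2 h3.2), mul_zero]
  · rw [if_neg h, if_neg (fun h3 => h h3.1), map_zero]

private theorem m3_elim_coeff {m n : ℕ} (M : Matrix (Fin (m + 1)) (Fin (n + 1)) (PowerSeries ℂ))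
    (q : ℕ) (h : ∀ i : Fin m, PowerSeries.coeff q (M i.succ 0) = 0) (i : Fin m) (k : Fin n) :
    PowerSeries.coeff 0 (elim1 (divX q M) i k) = PowerSeries.coeff q (M i.succ k.succ) := by
  have h1 : ∀ a b, PowerSeries.coeff 0 (divX q M a b) = PowerSeries.coeff q (M a b) := by
    intro a b
    unfold divX
    rw [PowerSeries.coeff_mk, zero_add]
  unfold elim1
  rw [map_sub, h1]
  have h2 : PowerSeries.coeff 0 (divX q M i.succ 0 * (divX q M 0 0)⁻¹ * divX q M 0 k.succ) = 0 := by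
    rw [PowerSeries.coeff_zero_eq_constantCoeff_apply, map_mul, map_mul,
      ← PowerSeries.coeff_zero_eq_constantCoeff_apply, h1, h, zero_mul, zero_mul]
  rw [h2, sub_zero]

open Classical in
/-- one step of the induction -/
private theorem m3_step (m n : ℕ) (u : ℕ → ℕ) (M : Matrix (Fin (m + 1)) (Fin (n + 1)) (PowerSeries ℂ))
    (q : ℕ) (ζ : ℂ) (hζ : ζ ≠ 0) (hqu : q = 0 ↔ u 0 = 0)
    (hq : ∀ i k, ∀ l < q, PowerSeries.coeff l (M i k) = 0)
    (hlead : ∀ (i : Fin (m + 1)) (k : Fin (n + 1)), PowerSeries.coeff q (M i k) =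
      if (i : ℕ) = k ∧ ∀ j, 0 < j → j ≤ (i : ℕ) → u j = 0 then ζ else 0)
    (hind : ∃ (b : ℕ → ℕ) (z : ℕ → ℂ), (∀ i < m, b i = 0 ↔ u (i + 1) = 0) ∧ (∀ i < m, z i ≠ 0) ∧
      BlockConst m b z ∧ (∀ i < m, (∀ k ≤ i, u (k + 1) = 0) → z i = ζ) ∧
      Str m n b z (elim1 (divX q M))) :
    ∃ (b : ℕ → ℕ) (z : ℕ → ℂ), (∀ i < m + 1, b i = 0 ↔ u i = 0) ∧ (∀ i < m + 1, z i ≠ 0) ∧
      BlockConst (m + 1) b z ∧ (∀ i < m + 1, (∀ k ≤ i, u k = 0) → z i = ζ) ∧
      Str (m + 1) (n + 1) b z M := by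
  obtain ⟨b', z', hb, hz, hbc, hini, hstr⟩ := hind
  set b : ℕ → ℕ := fun i => Nat.casesOn i q b' with hbdef
  set z : ℕ → ℂ := fun i => Nat.casesOn i ζ z' with hzdef
  have hb0 : b 0 = q := rfl
  have hbs : ∀ i, b (i + 1) = b' i := fun i => rfl
  have hz0 : z 0 = ζ := rfl
  have hzs : ∀ i, z (i + 1) = z' i := fun i => rfl
  refine ⟨b, z, ?_, ?_, ?_, ?_, ?_, ?_⟩
  · intro i hi
    cases i with
    | zero => exact hqu
    | succ i => exact hb i (by omega)
  · intro i hi
    cases i with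
    | zero => exact hζ
    | succ i => exact hz i (by omega)
  · intro i hi h
    cases i with
    | zero =>
      rw [hzs, hz0]
      refine hini 0 (by omega) fun k hk => ?_
      have hk0 : k = 0 := by omega
      subst hk0
      exact (hb 0 (by omega)).mp h
    | succ i => exact hbc i (by omega) h
  · intro i hi h
    cases i with
    | zero => rfl
    | succ i => exact hini i (by omega) fun k hk => h (k + 1) (by omega)
  · intro i k l hl
    rw [m3_coeff_ref]
    rcases Nat.lt_or_ge l (b 0) with h | h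
    · rw [hq i k l h, if_neg]
      rintro ⟨-, h2⟩
      have := m3_mue_ge b i
      omega
    · have hlq : l = q := le_antisymm hl h
      subst hlq
      rw [hlead]
      by_cases h1 : (i : ℕ) = k
      · by_cases h2 : ∀ j, 0 < j → j ≤ (i : ℕ) → u j = 0
        · rw [if_pos ⟨h1, h2⟩, if_pos]
          · have hi := i.2
            generalize (i : ℕ) = i' at h2 hi
            cases i' with
            | zero => rfl
            | succ i' =>
              symm
              exact hini i' (by omega) fun k hk => h2 (k + 1) (by omega) (by omega)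
          · refine ⟨h1, ?_⟩
            rw [eq_comm, ← hb0, m3_mue_eq_iff]
            intro j hj hji
            have hi := i.2
            obtain ⟨j, rfl⟩ := Nat.exists_eq_succ_of_ne_zero hj.ne'
            exact (hb j (by omega)).mpr (h2 (j + 1) hj hji)
        · rw [if_neg (fun h3 => h2 h3.2), if_neg]
          rintro ⟨-, h3⟩
          apply h2
          intro j hj hji
          rw [eq_comm, ← hb0, m3_mue_eq_iff] at h3
          have hi := i.2
          have h4 := h3 j hj hji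
          obtain ⟨j, rfl⟩ := Nat.exists_eq_succ_of_ne_zero hj.ne'
          exact (hb j (by omega)).mp h4
      · rw [if_neg (fun h3 => h1 h3.1), if_neg (fun h3 => h1 h3.1)]
  · exact hstr

private theorem m3_K : ∀ (m n : ℕ) (_ : m ≤ n) (u : ℕ → ℕ) (ζ : ℂ) (_ : ζ ≠ 0) (R : Set ℕ)
    (_ : ∀ i, u i ≠ 0 → i + 1 < m → u (i + 1) = 0 →
      ∃ r ∈ R, i < r ∧ r < m ∧ ∀ k, i < k → k ≤ r → u k = 0)
    (_ : ∀ i i', i < i' → i' < m → u i ≠ 0 → u i' ≠ 0 → (∀ k, i < k → k < i' → u k = 0) →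
      ∃ r ∈ R, i < r ∧ r < m ∧ ∀ k, i' < k → k ≤ r → u k = 0)
    (_ : 0 < m → u (m - 1) ≠ 0 → m ∈ R)
    (M : Matrix (Fin m) (Fin n) (PowerSeries ℂ))
    (_ : ∀ i k, PowerSeries.coeff 0 (M i k) =
      if (i : ℕ) = k ∧ ∀ j ≤ (i : ℕ), u j = 0 then ζ else 0)
    (_ : ∀ r ∈ R, r ≤ m → PatR m n u r M),
    ∃ (b : ℕ → ℕ) (z : ℕ → ℂ), (∀ i < m, b i = 0 ↔ u i = 0) ∧ (∀ i < m, z i ≠ 0) ∧
      BlockConst m b z ∧ (∀ i < m, (∀ k ≤ i, u k = 0) → z i = ζ) ∧ Str m n b z M := by
  classical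
  intro m
  induction m with
  | zero =>
    intro n _ u ζ hζ R _ _ _ M _ _
    refine ⟨fun _ => 0, fun _ => 0, fun i hi => absurd hi (Nat.not_lt_zero _),
      fun i hi => absurd hi (Nat.not_lt_zero _), fun i hi => absurd hi (Nat.not_lt_zero _),
      fun i hi => absurd hi (Nat.not_lt_zero _), ?_⟩
    exact trivial
  | succ m ih =>
    intro n hmn u ζ hζ R hR1 hR2 hR3 M hM0 hM
    obtain ⟨n, rfl⟩ : ∃ n', n = n' + 1 := ⟨n - 1, by omega⟩
    have hmn' : m ≤ n := by omega
    -- the conditions for the smaller matrix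
    have hR1' : ∀ i, u (i + 1) ≠ 0 → i + 1 < m → u (i + 1 + 1) = 0 →
        ∃ r ∈ {r | 1 ≤ r ∧ r + 1 ∈ R}, i < r ∧ r < m ∧ ∀ k, i < k → k ≤ r → u (k + 1) = 0 := by
      intro i h1 h2 h3
      obtain ⟨r, hr, h4, h5, h6⟩ := hR1 (i + 1) h1 (by omega) h3
      refine ⟨r - 1, ⟨by omega, ?_⟩, by omega, by omega, fun k hk1 hk2 =>
        h6 (k + 1) (by omega) (by omega)⟩
      rwa [Nat.sub_add_cancel (by omega)]
    have hR2' : ∀ i i', i < i' → i' < m → u (i + 1) ≠ 0 → u (i' + 1) ≠ 0 →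
        (∀ k, i < k → k < i' → u (k + 1) = 0) →
        ∃ r ∈ {r | 1 ≤ r ∧ r + 1 ∈ R}, i < r ∧ r < m ∧ ∀ k, i' < k → k ≤ r → u (k + 1) = 0 := by
      intro i i' h1 h2 h3 h4 h5
      obtain ⟨r, hr, h6, h7, h8⟩ := hR2 (i + 1) (i' + 1) (by omega) (by omega) h3 h4
        (fun k hk1 hk2 => by
          have := h5 (k - 1) (by omega) (by omega)
          rwa [Nat.sub_add_cancel (by omega)] at this)
      refine ⟨r - 1, ⟨by omega, ?_⟩, by omega, by omega, fun k hk1 hk2 =>
        h8 (k + 1) (by omega) (by omega)⟩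
      rwa [Nat.sub_add_cancel (by omega)]
    have hR3' : 0 < m → u (m - 1 + 1) ≠ 0 → m ∈ {r | 1 ≤ r ∧ r + 1 ∈ R} := by
      intro h1 h2
      rw [Nat.sub_add_cancel h1] at h2
      exact ⟨h1, hR3 (by omega) h2⟩
    -- the induction hypothesis for the elimination
    have hind : ∀ (q : ℕ) (ζ' : ℂ), ζ' ≠ 0 →
        (∀ i k, ∀ l < q, PowerSeries.coeff l (M i k) = 0) →
        (∀ (i : Fin (m + 1)) (k : Fin (n + 1)), PowerSeries.coeff q (M i k) =
          if (i : ℕ) = k ∧ ∀ j, 0 < j → j ≤ (i : ℕ) → u j = 0 then ζ' else 0) →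
        ∃ (b : ℕ → ℕ) (z : ℕ → ℂ), (∀ i < m, b i = 0 ↔ u (i + 1) = 0) ∧ (∀ i < m, z i ≠ 0) ∧
          BlockConst m b z ∧ (∀ i < m, (∀ k ≤ i, u (k + 1) = 0) → z i = ζ') ∧
          Str m n b z (elim1 (divX q M)) := by
      intro q ζ' hζ' hq hlead
      refine ih n hmn' (fun i => u (i + 1)) ζ' hζ' {r | 1 ≤ r ∧ r + 1 ∈ R} hR1' hR2' hR3' _ ?_ ?_
      · intro i k
        rw [m3_elim_coeff M q, hlead]
        · have : ((i.succ : Fin (m + 1)) : ℕ) = (k.succ : Fin (n + 1)) ∧
              (∀ j, 0 < j → j ≤ ((i.succ : Fin (m + 1)) : ℕ) → u j = 0) ↔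
              (i : ℕ) = k ∧ ∀ j ≤ (i : ℕ), u (j + 1) = 0 := by
            rw [Fin.val_succ, Fin.val_succ]
            constructor
            · rintro ⟨h1, h2⟩
              exact ⟨by omega, fun j hj => h2 (j + 1) (by omega) (by omega)⟩
            · rintro ⟨h1, h2⟩
              refine ⟨by omega, fun j hj1 hj2 => ?_⟩
              have := h2 (j - 1) (by omega)
              rwa [Nat.sub_add_cancel hj1] at this
          simp only [this]
        · intro i
          rw [hlead, if_neg]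
          rintro ⟨h1, -⟩
          rw [Fin.val_succ] at h1
          simp at h1
      · intro r hr hrm
        refine PatR.elim m n u r hr.1 hrm M (hM _ hr.2 (by omega)) q hq ?_
        rw [hlead, if_pos]
        · exact hζ'
        · exact ⟨rfl, fun j hj1 hj2 => by simp at hj2; omega⟩
    by_cases hu0 : u 0 = 0
    · have hlead : ∀ (i : Fin (m + 1)) (k : Fin (n + 1)), PowerSeries.coeff 0 (M i k) =
          if (i : ℕ) = k ∧ ∀ j, 0 < j → j ≤ (i : ℕ) → u j = 0 then ζ else 0 := by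
        intro i k
        rw [hM0]
        have : ((i : ℕ) = k ∧ ∀ j ≤ (i : ℕ), u j = 0) ↔
            ((i : ℕ) = k ∧ ∀ j, 0 < j → j ≤ (i : ℕ) → u j = 0) := by
          constructor
          · rintro ⟨h1, h2⟩
            exact ⟨h1, fun j _ hj => h2 j hj⟩
          · rintro ⟨h1, h2⟩
            refine ⟨h1, fun j hj => ?_⟩
            rcases Nat.eq_zero_or_pos j with h | h
            · rw [h]; exact hu0
            · exact h2 j h hj
        simp only [this]
      exact m3_step m n u M 0 ζ hζ (by simp [hu0])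
        (fun _ _ l hl => absurd hl (Nat.not_lt_zero _)) hlead
        (hind 0 ζ hζ (fun _ _ l hl => absurd hl (Nat.not_lt_zero _)) hlead)
    · -- there is a visible minor
      obtain ⟨r, hrR, hr0, hrm⟩ : ∃ r ∈ R, 0 < r ∧ r ≤ m + 1 := by
        rcases Nat.eq_zero_or_pos m with h | h
        · subst h
          exact ⟨1, hR3 (by omega) hu0, by omega, by omega⟩
        · by_cases h1 : u 1 = 0
          · obtain ⟨r, hr, h2, h3, -⟩ := hR1 0 hu0 (by omega) h1
            exact ⟨r, hr, h2, h3.le⟩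
          · obtain ⟨r, hr, h2, h3, -⟩ := hR2 0 1 (by omega) (by omega) hu0 h1
              (fun k hk1 hk2 => by omega)
            exact ⟨r, hr, h2, h3.le⟩
      have hne : ∃ l, ∃ i k, PowerSeries.coeff l (M i k) ≠ 0 := by
        by_contra hcon
        push Not at hcon
        obtain ⟨e', c, hc, hP⟩ := hM r hrR hrm
        have h1 := (hP (Fin.castLE hrm) (Fin.castLE (hrm.trans hmn))).2
        rw [show (1 : ℕ → ℂ) = fun _ => 1 from rfl, coeff_ref_minor_id u hrm (hrm.trans hmn), mul_one] at h1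
        apply hc
        rw [← h1]
        have h2 : M = 0 := by
          ext1 i k
          ext l
          rw [hcon l i k]
          simp
        rw [h2]
        have h3 : ((0 : Matrix (Fin (m + 1)) (Fin (n + 1)) (PowerSeries ℂ)).submatrix
            (Fin.castLE hrm) (Fin.castLE (hrm.trans hmn))) = 0 := rfl
        have h4 : Nonempty (Fin r) := ⟨⟨0, hr0⟩⟩
        rw [h3, Matrix.det_zero, map_zero]
      set q := Nat.find hne with hqdef
      have hq1 : ∃ i k, PowerSeries.coeff q (M i k) ≠ 0 := Nat.find_spec hne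
      have hq : ∀ i k, ∀ l < q, PowerSeries.coeff l (M i k) = 0 := by
        intro i k l hl
        have h1 := Nat.find_min hne hl
        push Not at h1
        exact h1 i k
      have hq0 : q ≠ 0 := by
        intro h
        rw [h] at hq1
        obtain ⟨i, k, h1⟩ := hq1
        apply h1
        rw [hM0, if_neg]
        rintro ⟨-, h2⟩
        exact hu0 (h2 0 (Nat.zero_le _))
      obtain ⟨ζ', hlead⟩ : ∃ ζ' : ℂ, ∀ (i : Fin (m + 1)) (k : Fin (n + 1)),
          PowerSeries.coeff q (M i k) =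
          if (i : ℕ) = k ∧ ∀ j, 0 < j → j ≤ (i : ℕ) → u j = 0 then ζ' else 0 := by
        by_cases hcase : 0 < m ∧ u 1 = 0
        · obtain ⟨h, h1⟩ := hcase
          obtain ⟨r, hr, h2, h3, h4⟩ := hR1 0 hu0 (by omega) h1
          exact lead_interior (m + 1) (n + 1) hmn u r h2 h3 h4 M (hM r hr h3.le) q hq
        · refine ⟨PowerSeries.coeff q (M 0 0), ?_⟩
          have hsingle : ∀ (i : Fin (m + 1)) (k : Fin (n + 1)), ¬ ((i : ℕ) = 0 ∧ (k : ℕ) = 0) →
              PowerSeries.coeff q (M i k) = 0 := by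
            rcases Nat.eq_zero_or_pos m with h | h
            · subst h
              exact lead_single 1 (n + 1) hmn u 1 (by omega) (Or.inl ⟨rfl, Or.inl rfl⟩) M
                (hM 1 (hR3 (by omega) hu0) le_rfl) q hq
            · have h1 : u 1 ≠ 0 := fun h2 => hcase ⟨h, h2⟩
              obtain ⟨r, hr, h2, h3, h4⟩ := hR2 0 1 (by omega) (by omega) hu0 h1
                (fun k hk1 hk2 => by omega)
              refine lead_single (m + 1) (n + 1) hmn u r h2 ?_ M (hM r hr h3.le) q hq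
              rcases Nat.lt_or_ge 1 r with h5 | h5
              · exact Or.inr ⟨h5, h3, h1, h4⟩
              · exact Or.inl ⟨by omega, Or.inr h1⟩
          intro i k
          by_cases hik : (i : ℕ) = 0 ∧ (k : ℕ) = 0
          · have hi : i = 0 := Fin.ext hik.1
            have hk : k = 0 := Fin.ext hik.2
            rw [hi, hk, if_pos]
            exact ⟨rfl, fun j hj1 hj2 => by simp at hj2; omega⟩
          · rw [hsingle i k hik, if_neg]
            rintro ⟨h1, h2⟩
            have hi0 : 0 < (i : ℕ) := by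
              rcases Nat.eq_zero_or_pos (i : ℕ) with h3 | h3
              · exfalso
                exact hik ⟨h3, by omega⟩
              · exact h3
            have hi := i.2
            exact hcase ⟨by omega, h2 1 (by omega) hi0⟩
      have hζ' : ζ' ≠ 0 := by
        rintro rfl
        obtain ⟨i, k, h1⟩ := hq1
        apply h1
        rw [hlead]
        simp
      obtain ⟨b, z, h1, h2, h3, h4, h5⟩ := m3_step m n u M q ζ' hζ'
        ⟨fun h => absurd h hq0, fun h => absurd h hu0⟩ hq hlead (hind q ζ' hζ' hq hlead)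
      refine ⟨b, z, h1, h2, h3, fun i hi h => ?_, h5⟩
      exact absurd (h 0 (Nat.zero_le _)) hu0

theorem str_of_pat (m n : ℕ) (hmn : m ≤ n) (u : ℕ → ℕ) (δ : ℂ) (hδ : δ ≠ 0) (R : Set ℕ)
    (hR1 : ∀ i, u i ≠ 0 → i + 1 < m → u (i + 1) = 0 →
      ∃ r ∈ R, i < r ∧ r < m ∧ ∀ k, i < k → k ≤ r → u k = 0)
    (hR2 : ∀ i i', i < i' → i' < m → u i ≠ 0 → u i' ≠ 0 → (∀ k, i < k → k < i' → u k = 0) →
      ∃ r ∈ R, i < r ∧ r < m ∧ ∀ k, i' < k → k ≤ r → u k = 0)
    (hR3 : 0 < m → u (m - 1) ≠ 0 → m ∈ R)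
    (M : Matrix (Fin m) (Fin n) (PowerSeries ℂ))
    (hM0 : ∀ i k, PowerSeries.coeff 0 (M i k) =
      PowerSeries.coeff 0 (refM m n u (fun _ => δ) i k))
    (hM : ∀ r ∈ R, r ≤ m → PatR m n u r M) :
    ∃ (b : ℕ → ℕ) (z : ℕ → ℂ), (∀ i < m, b i = 0 ↔ u i = 0) ∧ (∀ i < m, z i ≠ 0) ∧
      BlockConst m b z ∧ (∀ i < m, (∀ k ≤ i, u k = 0) → z i = δ) ∧ Str m n b z M := by
  classical
  refine m3_K m n hmn u δ hδ R hR1 hR2 hR3 M ?_ hM
  intro i k
  rw [hM0, m3_coeff_ref]
  have : ((i : ℕ) = k ∧ 0 = mue u i) ↔ ((i : ℕ) = k ∧ ∀ j ≤ (i : ℕ), u j = 0) := by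
    refine and_congr_right fun _ => ?_
    unfold mue
    rw [eq_comm, Finset.sum_eq_zero_iff]
    constructor
    · intro h j hj
      exact h j (Finset.mem_range.mpr (by omega))
    · intro h j hj
      exact h j (by have := Finset.mem_range.mp hj; omega)
  simp only [this]

end MotMono
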