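import Pool.Agent.Lib.MP_4e5fcd_ag.K2
import Pool.Agent.Lib.MP_4e5fcd_ag.Det.R1

/-! # DET-M5: the set of the jets with given structure is constructible -/

open MvPolynomial

namespace MotMono

theorem m5_str {m n : ℕ} {b : ℕ → ℕ} {z : ℕ → ℂ}
    {M : Matrix (Fin (m + 1)) (Fin (n + 1)) (PowerSeries ℂ)} :
    Str (m + 1) (n + 1) b z M ↔ (∀ i k, ∀ l ≤ b 0, PowerSeries.coeff l (M i k) =
        PowerSeries.coeff l (refM (m + 1) (n + 1) b z i k)) ∧
      Str m n (fun i => b (i + 1)) (fun i => z (i + 1)) (elim1 (divX (b 0) M)) := by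
  simp only [Str]

theorem m5_mue (b : ℕ → ℕ) (i : ℕ) : mue b (i + 1) = b 0 + mue (fun i => b (i + 1)) i := by
  unfold mue
  rw [Finset.sum_range_succ' _ (i + 1), add_comm]

theorem m5_const {m n : ℕ} {b : ℕ → ℕ} {z : ℕ → ℂ}
    {M : Matrix (Fin (m + 1)) (Fin (n + 1)) (PowerSeries ℂ)}
    (h : ∀ i k, ∀ l ≤ b 0, PowerSeries.coeff l (M i k) =
        PowerSeries.coeff l (refM (m + 1) (n + 1) b z i k)) :
    PowerSeries.constantCoeff (divX (b 0) M 0 0) = z 0 := by
  have h1 := h 0 0 (b 0) le_rfl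
  unfold divX
  rw [← PowerSeries.coeff_zero_eq_constantCoeff_apply, PowerSeries.coeff_mk, zero_add, h1]
  unfold refM
  rw [if_pos (by simp)]
  have h2 : mue b ((0 : Fin (m + 1)) : ℕ) = b 0 := by
    unfold mue
    simp
  rw [h2, PowerSeries.coeff_C_mul, PowerSeries.coeff_X_pow, if_pos rfl, mul_one]
  simp

theorem m5_dvd_iff {L : ℕ} {F G : PowerSeries ℂ} :
    (∀ l < L, PowerSeries.coeff l F = PowerSeries.coeff l G) ↔
      (PowerSeries.X : PowerSeries ℂ) ^ L ∣ F - G := by
  rw [PowerSeries.X_pow_dvd_iff]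
  simp only [map_sub, sub_eq_zero]

theorem m5_elim {L : ℕ} {a a' b b' c c' d d' : PowerSeries ℂ}
    (ha : (PowerSeries.X : PowerSeries ℂ) ^ L ∣ a - a')
    (hb : (PowerSeries.X : PowerSeries ℂ) ^ L ∣ b - b')
    (hc : (PowerSeries.X : PowerSeries ℂ) ^ L ∣ c - c')
    (hd : (PowerSeries.X : PowerSeries ℂ) ^ L ∣ d - d')
    (h0 : PowerSeries.constantCoeff c ≠ 0) (h0' : PowerSeries.constantCoeff c' ≠ 0) :
    (PowerSeries.X : PowerSeries ℂ) ^ L ∣ (a - b * c⁻¹ * d) - (a' - b' * c'⁻¹ * d') := by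
  have h1 : (PowerSeries.X : PowerSeries ℂ) ^ L ∣ c⁻¹ - c'⁻¹ := by
    have h2 : c⁻¹ - c'⁻¹ = - (c⁻¹ * c'⁻¹ * (c - c')) := by
      have h3 := PowerSeries.mul_inv_cancel c h0
      have h4 := PowerSeries.mul_inv_cancel c' h0'
      linear_combination c'⁻¹ * h3 - c⁻¹ * h4
    rw [h2]
    exact (Dvd.dvd.mul_left hc _).neg_right
  have h5 : (a - b * c⁻¹ * d) - (a' - b' * c'⁻¹ * d') =
      (a - a') - ((b - b') * (c⁻¹ * d) + (c⁻¹ - c'⁻¹) * (b' * d) + (d - d') * (b' * c'⁻¹)) := by
    ring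
  rw [h5]
  exact dvd_sub ha (dvd_add (dvd_add (Dvd.dvd.mul_right hb _) (Dvd.dvd.mul_right h1 _))
    (Dvd.dvd.mul_right hd _))

theorem m5_congr1 (m : ℕ) : ∀ (n L : ℕ) (b : ℕ → ℕ) (z : ℕ → ℂ) (_ : ∀ i < m, z i ≠ 0)
    (_ : ∀ i < m, mue b i < L) (M M' : Matrix (Fin m) (Fin n) (PowerSeries ℂ))
    (_ : ∀ i k, ∀ l < L, PowerSeries.coeff l (M i k) = PowerSeries.coeff l (M' i k)),
    Str m n b z M → Str m n b z M' := by
  induction m with
  | zero =>
    intro n L b z _ _ M M' _ _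
    simp only [Str]
  | succ m ih =>
    intro n L b z hz hL M M' h hS
    cases n with
    | zero => exact absurd hS (by simp [Str])
    | succ n =>
      rw [m5_str] at hS ⊢
      have hb : b 0 < L := by
        have h1 := hL 0 (by omega)
        unfold mue at h1
        simpa using h1
      have h1 : ∀ i k, ∀ l ≤ b 0, PowerSeries.coeff l (M' i k) =
          PowerSeries.coeff l (refM (m + 1) (n + 1) b z i k) := by
        intro i k l hl
        rw [← h i k l (by omega)]
        exact hS.1 i k l hl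
      refine ⟨h1, ?_⟩
      refine ih n (L - b 0) _ _ (fun i hi => hz (i + 1) (by omega)) ?_ _ _ ?_ hS.2
      · intro i hi
        have h2 := hL (i + 1) (by omega)
        rw [m5_mue] at h2
        omega
      · intro i k
        rw [m5_dvd_iff]
        have h2 : ∀ i k, (PowerSeries.X : PowerSeries ℂ) ^ (L - b 0) ∣
            divX (b 0) M i k - divX (b 0) M' i k := by
          intro i k
          rw [← m5_dvd_iff]
          intro l hl
          unfold divX
          rw [PowerSeries.coeff_mk, PowerSeries.coeff_mk]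
          exact h i k _ (by omega)
        have h3 : z 0 ≠ 0 := hz 0 (by omega)
        unfold elim1
        refine m5_elim (h2 _ _) (h2 _ _) (h2 _ _) (h2 _ _) ?_ ?_
        · rw [m5_const hS.1]
          exact h3
        · rw [m5_const h1]
          exact h3

/-- `Str` depends only on the matrix modulo `t ^ L`, if all exponents are smaller than `L` -/
theorem str_congr (m n L : ℕ) (b : ℕ → ℕ) (z : ℕ → ℂ) (hz : ∀ i < m, z i ≠ 0)
    (hL : ∀ i < m, mue b i < L) (M M' : Matrix (Fin m) (Fin n) (PowerSeries ℂ))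
    (h : ∀ i k, ∀ l < L, PowerSeries.coeff l (M i k) = PowerSeries.coeff l (M' i k)) :
    Str m n b z M ↔ Str m n b z M' :=
  ⟨m5_congr1 m n L b z hz hL M M' h,
    m5_congr1 m n L b z hz hL M' M fun i k l hl => (h i k l hl).symm⟩

theorem m5_gen {σ : Type} (m : ℕ) : ∀ (n : ℕ) (b : ℕ → ℕ) (z : ℕ → ℂ) (_ : ∀ i < m, z i ≠ 0)
    (E : Set (σ → ℂ)) (_ : Constr E) (M : (σ → ℂ) → Matrix (Fin m) (Fin n) (PowerSeries ℂ))
    (_ : ∀ i k, RegSer E fun x => M x i k), Constr {x | x ∈ E ∧ Str m n b z (M x)} := by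
  induction m with
  | zero =>
    intro n b z _ E hE M _
    have h1 : {x | x ∈ E ∧ Str 0 n b z (M x)} = E := by
      ext x
      simp [Str]
    rw [h1]
    exact hE
  | succ m ih =>
    intro n b z hz E hE M hM
    cases n with
    | zero =>
      have h1 : {x | x ∈ E ∧ Str (m + 1) 0 b z (M x)} = ∅ := by
        ext x
        simp [Str]
      rw [h1]
      exact constr_empty
    | succ n =>
      set E' : Set (σ → ℂ) := {x | x ∈ E ∧ ∀ i k, ∀ l ≤ b 0, PowerSeries.coeff l (M x i k) =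
        PowerSeries.coeff l (refM (m + 1) (n + 1) b z i k)} with hE'
      have hsub : E' ⊆ E := fun x hx => hx.1
      have h1 : E' = ⋂ p : Fin (m + 1) × Fin (n + 1) × Fin (b 0 + 1),
          {x | x ∈ E ∧ PowerSeries.coeff (p.2.2 : ℕ) (M x p.1 p.2.1) =
            PowerSeries.coeff (p.2.2 : ℕ) (refM (m + 1) (n + 1) b z p.1 p.2.1)} := by
        ext x
        simp only [Set.mem_iInter, Set.mem_setOf_eq, hE']
        constructor
        · rintro ⟨h2, h3⟩ p
          exact ⟨h2, h3 _ _ _ (by omega)⟩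
        · intro h2
          refine ⟨(h2 ⟨0, 0, 0⟩).1, fun i k l hl => ?_⟩
          exact (h2 ⟨i, k, ⟨l, by omega⟩⟩).2
      have h2 : Constr E' := by
        rw [h1]
        exact constr_iInter fun p => constr_regSer_coeff hE (hM p.1 p.2.1) _ _
      have h3 : ∀ i k, RegSer E' fun x => divX (b 0) (M x) i k := by
        intro i k l
        have h4 := (hM i k).mono hsub (l + b 0)
        refine h4.congr fun x _ => ?_
        unfold divX
        rw [PowerSeries.coeff_mk]
      have h4 : {x | x ∈ E ∧ Str (m + 1) (n + 1) b z (M x)} =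
          {x | x ∈ E' ∧ Str m n (fun i => b (i + 1)) (fun i => z (i + 1))
            (elim1 (divX (b 0) (M x)))} := by
        ext x
        simp only [Set.mem_setOf_eq, hE', m5_str, and_assoc]
      rw [h4]
      refine ih n _ _ (fun i hi => hz (i + 1) (by omega)) E' h2 _ ?_
      intro i k
      unfold elim1
      refine (h3 _ _).sub (((h3 _ _).mul ((h3 _ _).inv ?_)).mul (h3 _ _))
      intro x hx
      rw [m5_const hx.2]
      exact hz 0 (by omega)

theorem constr_str_gen {σ : Type} (m n : ℕ) (b : ℕ → ℕ) (z : ℕ → ℂ) (hz : ∀ i < m, z i ≠ 0)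
    (E : Set (σ → ℂ)) (hE : Constr E) (M : (σ → ℂ) → Matrix (Fin m) (Fin n) (PowerSeries ℂ))
    (hM : ∀ i k, RegSer E fun x => M x i k) : Constr {x | x ∈ E ∧ Str m n b z (M x)} :=
  m5_gen m n b z hz E hE M hM

theorem constr_str (m n L : ℕ) (b : ℕ → ℕ) (z : ℕ → ℂ) (hz : ∀ i < m, z i ≠ 0) :
    Constr {γ : (Fin m × Fin n) × Fin L → ℂ | Str m n b z (mser γ)} := by
  have h1 := constr_str_gen m n b z hz Set.univ constr_univ
    (fun γ : (Fin m × Fin n) × Fin L → ℂ => mser γ) fun i k => regSer_mser _ i k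
  have h2 : {γ : (Fin m × Fin n) × Fin L → ℂ | Str m n b z (mser γ)} =
      {x | x ∈ Set.univ ∧ Str m n b z (mser x)} := by
    ext x
    simp
  rw [h2]
  exact h1

end MotMono
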