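import Pool.Agent.Lib.MP_4e5fcd_ag.Det.Base

/-! # DET-M6a: the group of characters -/

namespace MotMono

variable {ι : Type} [Fintype ι]

/-- the vectors of the torus of the support of `u` on which the functionals of the face of `u`
are trivial characters -/
def Hu (A : Finset (ι → ℕ)) (u : ι → ℕ) : Subgroup (ι → ℂˣ) where
  carrier := {η | (∀ i, u i = 0 → η i = 1) ∧ ∀ W, InFace A u W → ∏ i, η i ^ W i = 1}
  mul_mem' := by
    rintro a b ⟨h1, h2⟩ ⟨h3, h4⟩
    refine ⟨fun i hi => by simp [h1 i hi, h3 i hi], fun W hW => ?_⟩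
    simp only [Pi.mul_apply, mul_pow]
    rw [Finset.prod_mul_distrib, h2 W hW, h4 W hW, mul_one]
  one_mem' := ⟨fun i _ => rfl, fun W _ => by simp⟩
  inv_mem' := by
    rintro a ⟨h1, h2⟩
    refine ⟨fun i hi => by simp [h1 i hi], fun W hW => ?_⟩
    simp only [Pi.inv_apply, inv_pow]
    rw [Finset.prod_inv_distrib, h2 W hW, inv_one]

theorem m6a_pair_eq (A : Finset (ι → ℕ)) (u W : ι → ℕ) (hW : InFace A u W) :
    pair W u = minF A u := by
  apply le_antisymm
  · have hne : {k | ∃ W ∈ A, pair W u = k}.Nonempty := ⟨pair W u, W, hW.1, rfl⟩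
    obtain ⟨W', hW', h⟩ := Nat.sInf_mem hne
    unfold minF
    rw [← h]
    exact hW.2 W' hW'
  · exact Nat.sInf_le ⟨W, hW.1, rfl⟩

theorem m6a_exists_face (A : Finset (ι → ℕ)) (u : ι → ℕ) (hN : 0 < minF A u) :
    ∃ W, InFace A u W := by
  have hne : A.Nonempty := by
    rw [Finset.nonempty_iff_ne_empty]
    rintro rfl
    unfold minF at hN
    simp at hN
  obtain ⟨W, hW, h⟩ := Finset.exists_min_image A (fun W => pair W u) hne
  exact ⟨W, hW, h⟩

open Classical in
theorem m6a_span (A : Finset (ι → ℕ)) (u : ι → ℕ) (hu : Ext A u) (hN : 0 < minF A u) :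
    Submodule.span ℚ ({v : ι → ℚ | ∃ W, InFace A u W ∧ v = fun i => (W i : ℚ)} ∪
      {v | ∃ j, u j = 0 ∧ v = Pi.single j 1}) = ⊤ := by
  by_contra hne
  obtain ⟨f, hf0, hf⟩ := Submodule.exists_le_ker_of_lt_top _ (lt_top_iff_ne_top.2 hne)
  apply hf0
  have hfv : ∀ v : ι → ℚ, f v = ∑ i, v i * f (Pi.single i 1) := by
    intro v
    conv_lhs => rw [← Finset.univ_sum_single v]
    rw [map_sum]
    apply Finset.sum_congr rfl
    intro i _
    have : (Pi.single i (v i) : ι → ℚ) = v i • Pi.single i 1 := by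
      rw [← Pi.single_smul, smul_eq_mul, mul_one]
    rw [this, map_smul, smul_eq_mul]
  set y : ι → ℚ := fun i => f (Pi.single i 1) with hy
  have hyS : ∀ i, u i = 0 → y i = 0 := by
    intro i hi
    have h1 : (Pi.single i 1 : ι → ℚ) ∈ LinearMap.ker f :=
      hf (Submodule.subset_span (Or.inr ⟨i, hi, rfl⟩))
    exact h1
  have hyW : ∀ W, InFace A u W → ∑ i, (W i : ℚ) * y i = 0 := by
    intro W hW
    have h1 : (fun i => (W i : ℚ)) ∈ LinearMap.ker f :=
      hf (Submodule.subset_span (Or.inl ⟨W, hW, rfl⟩))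
    rw [LinearMap.mem_ker, hfv] at h1
    exact h1
  obtain ⟨c, hc⟩ := hu.2 y hyS (fun W W' hW hW' => by rw [hyW W hW, hyW W' hW'])
  obtain ⟨W, hW⟩ := m6a_exists_face A u hN
  have h1 := hyW W hW
  have h2 : ∑ i, (W i : ℚ) * y i = c * (pair W u : ℚ) := by
    unfold pair
    push_cast
    rw [Finset.mul_sum]
    apply Finset.sum_congr rfl
    intro i _
    rw [hc i]
    ring
  rw [h2, m6a_pair_eq A u W hW] at h1
  have hN' : (minF A u : ℚ) ≠ 0 := by
    exact_mod_cast hN.ne'
  have hc0 : c = 0 := by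
    rcases mul_eq_zero.1 h1 with h | h
    · exact h
    · exact absurd h hN'
  ext i
  simp only [LinearMap.coe_comp, Function.comp_apply, LinearMap.coe_single, LinearMap.zero_apply]
  have := hc i
  rw [hc0, zero_mul] at this
  exact this

open Classical in
theorem m6a_exp (A : Finset (ι → ℕ)) (u : ι → ℕ) (hu : Ext A u) (hN : 0 < minF A u) (i : ι) :
    ∃ D : ℕ, 0 < D ∧ ∀ η ∈ Hu A u, η i ^ D = 1 := by
  have key : ∀ v ∈ Submodule.span ℚ
      ({v : ι → ℚ | ∃ W, InFace A u W ∧ v = fun i => (W i : ℚ)} ∪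
      {v | ∃ j, u j = 0 ∧ v = Pi.single j 1}), ∃ D : ℕ, 0 < D ∧ ∃ z : ι → ℤ,
      (∀ j, (z j : ℚ) = D * v j) ∧ ∀ η ∈ Hu A u, ∏ j, η j ^ z j = 1 := by
    intro v hv
    induction hv using Submodule.span_induction with
    | mem v hv =>
      rcases hv with ⟨W, hW, rfl⟩ | ⟨j, hj, rfl⟩
      · refine ⟨1, one_pos, fun i => (W i : ℤ), fun j => by simp, ?_⟩
        intro η hη
        have := hη.2 W hW
        simpa using this
      · refine ⟨1, one_pos, Pi.single j 1, ?_, ?_⟩
        · intro k
          by_cases hk : k = j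
          · subst hk; simp
          · simp [Pi.single_eq_of_ne hk]
        · intro η hη
          have h1 := hη.1 j hj
          rw [Finset.prod_eq_single j]
          · rw [h1, one_zpow]
          · intro k _ hk
            rw [Pi.single_eq_of_ne hk, zpow_zero]
          · intro h
            exact absurd (Finset.mem_univ j) h
    | zero => exact ⟨1, one_pos, 0, fun j => by simp, fun η _ => by simp⟩
    | add v w _ _ hv hw =>
      obtain ⟨D, hD, z, hz, hη⟩ := hv
      obtain ⟨D', hD', z', hz', hη'⟩ := hw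
      refine ⟨D * D', Nat.mul_pos hD hD', fun j => D' * z j + D * z' j, ?_, ?_⟩
      · intro j
        push_cast
        rw [hz j, hz' j, Pi.add_apply]
        ring
      · intro η h
        have h1 := hη η h
        have h2 := hη' η h
        have h3 : ∀ j, η j ^ ((D' : ℤ) * z j + D * z' j) =
            (η j ^ z j) ^ (D' : ℤ) * (η j ^ z' j) ^ (D : ℤ) := by
          intro j
          rw [zpow_add, ← zpow_mul, ← zpow_mul, mul_comm (z j), mul_comm (z' j)]
        rw [Finset.prod_congr rfl (fun j _ => h3 j), Finset.prod_mul_distrib,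
          Finset.prod_zpow, Finset.prod_zpow, h1, h2, one_zpow, one_zpow, mul_one]
    | smul q v _ hv =>
      obtain ⟨D, hD, z, hz, hη⟩ := hv
      refine ⟨D * q.den, Nat.mul_pos hD q.den_pos, fun j => q.num * z j, ?_, ?_⟩
      · intro j
        push_cast
        rw [hz j, Pi.smul_apply, smul_eq_mul]
        have h1 : (q.num : ℚ) = q * q.den := (Rat.mul_den_eq_num q).symm
        rw [h1]
        ring
      · intro η h
        have h1 := hη η h
        have h3 : ∀ j, η j ^ (q.num * z j) = (η j ^ z j) ^ q.num := by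
          intro j
          rw [← zpow_mul, mul_comm]
        rw [Finset.prod_congr rfl (fun j _ => h3 j), Finset.prod_zpow, h1, one_zpow]
  obtain ⟨D, hD, z, hz, hη⟩ := key (Pi.single i 1) (by rw [m6a_span A u hu hN]; trivial)
  refine ⟨D, hD, ?_⟩
  intro η h
  have h1 := hη η h
  rw [Finset.prod_eq_single i] at h1
  · have h2 := hz i
    rw [Pi.single_eq_same, mul_one] at h2
    have h3 : z i = D := by exact_mod_cast h2
    rw [h3] at h1
    exact_mod_cast h1
  · intro j _ hj
    have h2 := hz j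
    rw [Pi.single_eq_of_ne hj, mul_zero] at h2
    have h3 : z j = 0 := by exact_mod_cast h2
    rw [h3, zpow_zero]
  · intro h
    exact absurd (Finset.mem_univ i) h

theorem finite_Hu (A : Finset (ι → ℕ)) (u : ι → ℕ) (hu : Ext A u) (hN : 0 < minF A u) :
    Finite (Hu A u) := by
  choose D hD hη using m6a_exp A u hu hN
  have hfin : ∀ i, {x : ℂˣ | x ^ D i = 1}.Finite := by
    intro i
    have h0 : NeZero (D i) := ⟨(hD i).ne'⟩
    have h1 : Finite (rootsOfUnity (D i) ℂ) := by
      apply Nat.finite_of_card_ne_zero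
      rw [Complex.card_rootsOfUnity]
      exact (hD i).ne'
    have h2 : ((rootsOfUnity (D i) ℂ : Subgroup ℂˣ) : Set ℂˣ).Finite := h1
    exact h2.subset (fun x hx => (mem_rootsOfUnity _ _).2 hx)
  have h2 : {η : ι → ℂˣ | ∀ i, η i ∈ {x : ℂˣ | x ^ D i = 1}}.Finite := Set.Finite.pi' hfin
  have h3 : ((Hu A u : Subgroup (ι → ℂˣ)) : Set (ι → ℂˣ)).Finite :=
    h2.subset (fun η h i => hη i η h)
  exact h3

theorem dvd_card_Hu (A : Finset (ι → ℕ)) (u : ι → ℕ) (hu : Ext A u) (hN : 0 < minF A u)
    (hp : Prim u) : minF A u ∣ Nat.card (Hu A u) := by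
  have : NeZero (minF A u) := ⟨hN.ne'⟩
  let f : rootsOfUnity (minF A u) ℂ →* Hu A u :=
    { toFun := fun ξ => ⟨fun i => (ξ : ℂˣ) ^ u i, by
        refine ⟨fun i hi => by simp only [hi, pow_zero], fun W hW => ?_⟩
        have h1 : ∏ i, ((ξ : ℂˣ) ^ u i) ^ W i = (ξ : ℂˣ) ^ pair W u := by
          unfold pair
          rw [← Finset.prod_pow_eq_pow_sum]
          apply Finset.prod_congr rfl
          intro i _
          rw [← pow_mul, mul_comm]
        rw [h1, m6a_pair_eq A u W hW]
        exact (mem_rootsOfUnity _ _).1 ξ.2⟩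
      map_one' := by
        ext i
        simp
      map_mul' := by
        intro a b
        ext i
        simp [mul_pow] }
  have hf : Function.Injective f := by
    rw [injective_iff_map_eq_one]
    intro ξ hξ
    have h1 : ∀ i, (ξ : ℂˣ) ^ u i = 1 := by
      intro i
      have := congrArg (fun z : Hu A u => (z : ι → ℂˣ) i) hξ
      exact this
    have h2 : orderOf (ξ : ℂˣ) = 1 := hp _ (fun i => orderOf_dvd_of_pow_eq_one (h1 i))
    rw [orderOf_eq_one_iff] at h2
    exact Subtype.ext h2
  have h1 := Subgroup.card_dvd_of_injective f hf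
  have h2 : Nat.card (rootsOfUnity (minF A u) ℂ) = minF A u := Complex.card_rootsOfUnity _
  rwa [h2] at h1

end MotMono
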