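import Pool.Agent.Lib.MP_4e5fcd_ag.Det.P1

/-! # DET-M8: the order along the reference curve -/

open MvPolynomial

namespace MotMono

variable {s N : ℕ} {m n : Fin s → ℕ}

theorem m8_coeff_gen (e : (Σ a, Fin (m a) × Fin (n a)) ≃ Fin N)
    (u : (Σ a, Fin (m a)) → ℕ) (δ : ℂ) {w : (Σ a, Fin (m a)) → ℕ} (C : Choice m n w) (l : ℕ) :
    (aeval (curveU e u δ) (genMinor e C)).coeff l =
      PowerSeries.coeff l (prodMinor (refU n u δ) C) := by
  rw [← aeval_curveU_genMinor e u δ C, Polynomial.coeff_coe]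

/-- the curve has the prescribed order of contact -/
theorem curveU_coeff_lt (e : (Σ a, Fin (m a) × Fin (n a)) ≃ Fin N)
    (A : Finset ((Σ a, Fin (m a)) → ℕ)) (u : (Σ a, Fin (m a)) → ℕ) (δ : ℂ)
    (f : MvPolynomial (Fin N) ℂ) (hf : f ∈ detSum e A) (l : ℕ) (hl : l < minF (AW A) u) :
    (aeval (curveU e u δ) f).coeff l = 0 := by
  rw [detSum_eq_span] at hf
  have hle : Ideal.span {f | ∃ w ∈ A, ∃ C : Choice m n w, f = genMinor e C} ≤
      (Ideal.span {(Polynomial.X : Polynomial ℂ) ^ minF (AW A) u}).comap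
        (aeval (curveU e u δ) : MvPolynomial (Fin N) ℂ →ₐ[ℂ] Polynomial ℂ) := by
    rw [Ideal.span_le]
    rintro g ⟨w, hw, C, rfl⟩
    rw [SetLike.mem_coe, Ideal.mem_comap, Ideal.mem_span_singleton, Polynomial.X_pow_dvd_iff]
    intro k hk
    have hle : minF (AW A) u ≤ pair (Wf w) u :=
      Nat.sInf_le ⟨Wf w, Finset.mem_image_of_mem _ hw, rfl⟩
    have h1 := m8_coeff_gen e u δ C k
    rw [(prodMinor_refU u δ C).1 k (lt_of_lt_of_le hk hle)] at h1
    exact h1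
  have h2 := hle hf
  rw [Ideal.mem_comap, Ideal.mem_span_singleton, Polynomial.X_pow_dvd_iff] at h2
  exact h2 l hl

/-- some element of the ideal has exactly this order -/
theorem curveU_exists (e : (Σ a, Fin (m a) × Fin (n a)) ≃ Fin N) (hmn : ∀ a, m a ≤ n a)
    (A : Finset ((Σ a, Fin (m a)) → ℕ)) (hA : A.Nonempty) (u : (Σ a, Fin (m a)) → ℕ) (δ : ℂ)
    (hδ : δ ≠ 0) : ∃ f ∈ detSum e A, (aeval (curveU e u δ) f).coeff (minF (AW A) u) ≠ 0 := by
  obtain ⟨w₀, hw₀⟩ := hA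
  have hne : {k | ∃ W ∈ AW A, pair W u = k}.Nonempty :=
    ⟨_, Wf w₀, Finset.mem_image_of_mem _ hw₀, rfl⟩
  obtain ⟨W, hW, hWk⟩ := Nat.sInf_mem hne
  obtain ⟨w, hw, rfl⟩ := Finset.mem_image.mp hW
  refine ⟨genMinor e (idChoice hmn w), ?_, ?_⟩
  · rw [detSum_eq_span]
    exact Ideal.subset_span ⟨w, hw, _, rfl⟩
  · rw [m8_coeff_gen]
    have h3 : minF (AW A) u = pair (Wf w) u := hWk.symm
    rw [h3]
    exact coeff_prodMinor_id hmn u δ hδ w

end MotMono
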