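import Pool.Agent.Lib.MP_4e5fcd_ag.Det.C6
import Pool.Agent.Lib.MP_4e5fcd_ag.Det.M1

/-! # DET-M8a: products of minors -/

open MvPolynomial

namespace MotMono

variable {s N : ℕ} {m n : Fin s → ℕ}

/-- row and column indices for all factors of a product of minors with exponents `w` -/
abbrev Choice (m n : Fin s → ℕ) (w : (Σ a, Fin (m a)) → ℕ) : Type :=
  (c : Σ a, Fin (m a)) → Fin (w c) → (Fin (c.2 + 1) → Fin (m c.1)) × (Fin (c.2 + 1) → Fin (n c.1))

/-- the product of the minors with the given indices -/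
noncomputable def prodMinor {w : (Σ a, Fin (m a)) → ℕ}
    (M : ∀ a, Matrix (Fin (m a)) (Fin (n a)) (PowerSeries ℂ)) (C : Choice m n w) : PowerSeries ℂ :=
  ∏ c, ∏ j, ((M c.1).submatrix (C c j).1 (C c j).2).det

/-- the reference matrices -/
noncomputable def refU (n : Fin s → ℕ) (u : (Σ a, Fin (m a)) → ℕ) (δ : ℂ) (a : Fin s) :
    Matrix (Fin (m a)) (Fin (n a)) (PowerSeries ℂ) := refM (m a) (n a) (part u a) fun _ => δ

/-- the generators of the ideal -/
noncomputable def genMinor (e : (Σ a, Fin (m a) × Fin (n a)) ≃ Fin N)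
    {w : (Σ a, Fin (m a)) → ℕ} (C : Choice m n w) : MvPolynomial (Fin N) ℂ :=
  ∏ c : (Σ a, Fin (m a)), ∏ j : Fin (w c),
    (Matrix.of fun i k => (X (e ⟨c.1, ((C c j).1 i, (C c j).2 k)⟩) : MvPolynomial (Fin N) ℂ)).det

open scoped Pointwise in
private theorem m8a_span (e : (Σ a, Fin (m a) × Fin (n a)) ≃ Fin N)
    (w : (Σ a, Fin (m a)) → ℕ) :
    ∏ c : (Σ a, Fin (m a)), detIdeal e c.1 (c.2 + 1) ^ w c =
      Ideal.span {f | ∃ C : Choice m n w, f = genMinor e C} := by
  let G : (Σ a, Fin (m a)) → Set (MvPolynomial (Fin N) ℂ) := fun c =>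
    {f | ∃ (S : Fin (c.2 + 1) → Fin (m c.1)) (T : Fin (c.2 + 1) → Fin (n c.1)),
      f = (Matrix.of fun i j => (X (e ⟨c.1, (S i, T j)⟩) : MvPolynomial (Fin N) ℂ)).det}
  have h1 : ∀ c : (Σ a, Fin (m a)), detIdeal e c.1 (c.2 + 1) ^ w c =
      Ideal.span (∏ _j : Fin (w c), G c) := by
    intro c
    rw [← Ideal.prod_span, Finset.prod_const, Finset.card_univ, Fintype.card_fin]
    rfl
  rw [Finset.prod_congr rfl fun c _ => h1 c, Ideal.prod_span]
  congr 1
  ext f
  rw [Set.mem_fintype_prod, Set.mem_ofPred_eq]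
  constructor
  · rintro ⟨g, hg, rfl⟩
    have h2 : ∀ c : (Σ a, Fin (m a)), ∃ C : Fin (w c) →
        (Fin (c.2 + 1) → Fin (m c.1)) × (Fin (c.2 + 1) → Fin (n c.1)),
        g c = ∏ j : Fin (w c), (Matrix.of fun i k =>
          (X (e ⟨c.1, ((C j).1 i, (C j).2 k)⟩) : MvPolynomial (Fin N) ℂ)).det := by
      intro c
      have h3 := hg c
      rw [Set.mem_fintype_prod] at h3
      obtain ⟨g', hg', h4⟩ := h3
      choose S T hST using hg'
      refine ⟨fun j => (S j, T j), ?_⟩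
      rw [← h4]
      exact Finset.prod_congr rfl fun j _ => hST j
    choose C hC using h2
    refine ⟨C, ?_⟩
    unfold genMinor
    exact Finset.prod_congr rfl fun c _ => hC c
  · rintro ⟨C, rfl⟩
    refine ⟨fun c => ∏ j : Fin (w c), (Matrix.of fun i k =>
      (X (e ⟨c.1, ((C c j).1 i, (C c j).2 k)⟩) : MvPolynomial (Fin N) ℂ)).det, fun c => ?_, rfl⟩
    rw [Set.mem_fintype_prod]
    exact ⟨_, fun j => ⟨(C c j).1, (C c j).2, rfl⟩, rfl⟩

theorem detSum_eq_span (e : (Σ a, Fin (m a) × Fin (n a)) ≃ Fin N)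
    (A : Finset ((Σ a, Fin (m a)) → ℕ)) :
    detSum e A = Ideal.span {f | ∃ w ∈ A, ∃ C : Choice m n w, f = genMinor e C} := by
  unfold detSum
  simp only [m8a_span]
  have h1 : {f | ∃ w ∈ A, ∃ C : Choice m n w, f = genMinor e C} =
      ⋃ w ∈ A, {f | ∃ C : Choice m n w, f = genMinor e C} := by
    ext f
    simp only [Set.mem_ofPred_eq, Set.mem_iUnion, exists_prop]
  rw [h1]
  simp only [Ideal.span_iUnion]

theorem along_genMinor (e : (Σ a, Fin (m a) × Fin (n a)) ≃ Fin N) {L : ℕ}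
    (γ : Fin N × Fin L → ℂ) {w : (Σ a, Fin (m a)) → ℕ} (C : Choice m n w) :
    ((along (genMinor e C) γ : Polynomial ℂ) : PowerSeries ℂ) =
      prodMinor (fun a => mser (jetPart e γ a)) C := by
  unfold genMinor prodMinor
  have h1 : ∀ f : MvPolynomial (Fin N) ℂ, ((along f γ : Polynomial ℂ) : PowerSeries ℂ) =
      (Polynomial.coeToPowerSeries.ringHom.comp (aeval (arc γ) : _ →ₐ[ℂ] _).toRingHom) f :=
    fun f => rfl
  rw [h1, map_prod]
  refine Finset.prod_congr rfl fun c _ => ?_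
  rw [map_prod]
  refine Finset.prod_congr rfl fun j _ => ?_
  rw [← h1]
  exact along_minor e γ c.1 (C c j).1 (C c j).2

theorem aeval_curveU_genMinor (e : (Σ a, Fin (m a) × Fin (n a)) ≃ Fin N)
    (u : (Σ a, Fin (m a)) → ℕ) (δ : ℂ) {w : (Σ a, Fin (m a)) → ℕ} (C : Choice m n w) :
    ((aeval (curveU e u δ) (genMinor e C) : Polynomial ℂ) : PowerSeries ℂ) =
      prodMinor (refU n u δ) C := by
  unfold genMinor prodMinor
  have h1 : ∀ f : MvPolynomial (Fin N) ℂ,
      ((aeval (curveU e u δ) f : Polynomial ℂ) : PowerSeries ℂ) =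
      (Polynomial.coeToPowerSeries.ringHom.comp
        (aeval (curveU e u δ) : _ →ₐ[ℂ] _).toRingHom) f := fun f => rfl
  rw [h1, map_prod]
  refine Finset.prod_congr rfl fun c _ => ?_
  rw [map_prod]
  refine Finset.prod_congr rfl fun j _ => ?_
  rw [RingHom.map_det]
  congr 1
  ext1 i k
  rw [RingHom.mapMatrix_apply, Matrix.map_apply, Matrix.of_apply, ← h1, aeval_X,
    Matrix.submatrix_apply]
  unfold refU refM curveU
  rw [Equiv.symm_apply_apply]
  dsimp only
  split_ifs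
  · rw [Polynomial.coe_mul, Polynomial.coe_C, Polynomial.coe_pow, Polynomial.coe_X]
  · rw [Polynomial.coe_zero]

end MotMono
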