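import Pool.Agent.Lib.MP_4e5fcd_ag.Det.ZF
import Pool.Agent.Lib.MP_4e5fcd_ag.Det.U3
import Pool.Agent.Lib.MP_4e5fcd_ag.Det.M7
import Pool.Agent.Lib.MP_4e5fcd_ag.Det.M8
import Pool.Agent.Lib.MP_4e5fcd_ag.Det.M11
import Pool.Agent.Lib.MP_4e5fcd_ag.Z1

/-! # DET-MAIN: assembly -/

open MvPolynomial

namespace MotMono

variable {s N : ℕ} {m n : Fin s → ℕ}

theorem eval_curve_zero (c : Fin N → Polynomial ℂ) (f : MvPolynomial (Fin N) ℂ) :
    (aeval c f).coeff 0 = eval (fun i => (c i).eval 0) f := by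
  rw [Polynomial.coeff_zero_eq_eval_zero]
  induction f using MvPolynomial.induction_on with
  | C a => simp
  | add f g hf hg => rw [map_add, Polynomial.eval_add, hf, hg, map_add]
  | mul_X f i hf => rw [map_mul, Polynomial.eval_mul, hf, map_mul, aeval_X, eval_X]

theorem det_main (e : (Σ a, Fin (m a) × Fin (n a)) ≃ Fin N) (hm : ∀ a, 0 < m a)
    (hmn : ∀ a, m a ≤ n a) (A : Finset ((Σ a, Fin (m a)) → ℕ)) (hA : A.Nonempty) (s₀ : ℚ)
    (hpole : IsPole (Zmot (detSum e A)) s₀) (ε : ℝ) (hε : 0 < ε) :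
    ∃ p : Fin N → ℂ, ‖p‖ < ε ∧ (∀ f ∈ detSum e A, eval p f = 0) ∧
      ∃ y : ConePoint (detSum e A) p, y.Nonzero ∧
        ∀ χ : K0 →+* ℤ, IsEulerChar χ →
          ∃ Z, IsZeta (fun d => χ (cls (contactArcs (detSum e A) p y d))) Z ∧
            ZeroOrPole Z (Complex.exp (2 * Real.pi * Complex.I * s₀)) := by
  obtain ⟨u₀, hu₀, hN₀, hs₀⟩ := exists_ray_of_pole e hm hmn A hA s₀ hpole
  obtain ⟨u, hu, hdet, hp, hN, z, hz⟩ := exists_detected n hmn A u₀ hu₀ hN₀
  set δ : ℂ := ((ε / 2 : ℝ) : ℂ) with hδdef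
  have hδ : δ ≠ 0 := by
    rw [hδdef]; exact_mod_cast (by positivity : (ε / 2 : ℝ) ≠ 0)
  obtain ⟨y, hy⟩ := exists_conePoint_curve (detSum e A) (curveU e u δ) (minF (AW A) u)
    (fun f hf l hl => curveU_coeff_lt e A u δ f hf l hl)
  have hp0 : ∀ f ∈ detSum e A, eval (fun i => (curveU e u δ i).eval 0) f = 0 := by
    intro f hf
    have h0 := curveU_coeff_lt e A u δ f hf 0 hN
    rwa [eval_curve_zero] at h0
  refine ⟨fun i => (curveU e u δ i).eval 0, ?_, hp0, y, ?_, ?_⟩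
  · have hle : ∀ i, ‖(curveU e u δ i).eval 0‖ ≤ ε / 2 := by
      intro i
      have h2 : ‖δ‖ = ε / 2 := by
        rw [hδdef, Complex.norm_real, Real.norm_eq_abs, abs_of_pos (by positivity)]
      unfold curveU
      split_ifs with h
      · rw [Polynomial.eval_mul, Polynomial.eval_C, Polynomial.eval_pow, Polynomial.eval_X,
          norm_mul, h2, norm_pow, norm_zero]
        have : (0 : ℝ) ^ mue (part u (e.symm i).1) ((e.symm i).2.1 : ℕ) ≤ 1 := by
          rcases Nat.eq_zero_or_pos (mue (part u (e.symm i).1) ((e.symm i).2.1 : ℕ)) with h0 | h0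
          · rw [h0, pow_zero]
          · rw [zero_pow h0.ne']; exact zero_le_one
        nlinarith
      · rw [Polynomial.eval_zero, norm_zero]; positivity
    exact lt_of_le_of_lt ((pi_norm_le_iff_of_nonneg (by positivity)).mpr hle) (by linarith)
  · obtain ⟨f, hf, hf'⟩ := curveU_exists e hmn A hA u δ hδ
    exact ⟨f, hf, by rwa [hy f hf]⟩
  · intro χ hχ
    obtain ⟨hG0, c, hc⟩ := card_Gz A u hu hN hp δ hδ
    have hc0 : (c : ℤ) ≠ 0 := by
      rintro h
      have : c = 0 := by exact_mod_cast h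
      rw [this, mul_zero] at hc
      omega
    refine exists_zeta (minF (AW A) u) hN (c : ℤ) hc0 _ ?_ _ ?_
    · rw [hs₀, ← Complex.exp_nat_mul, Complex.exp_eq_one_iff]
      refine ⟨-z, ?_⟩
      have h1 : ((pair (nuf n) u₀ : ℤ) : ℂ) * ((minF (AW A) u : ℤ) : ℂ) =
          (z : ℂ) * ((minF (AW A) u₀ : ℤ) : ℂ) := by exact_mod_cast hz
      have h2 : ((minF (AW A) u₀ : ℕ) : ℂ) ≠ 0 := by exact_mod_cast hN₀.ne'
      have h3 : ((minF (AW A) u : ℕ) : ℂ) * (((pair (nuf n) u₀ : ℕ) : ℂ) /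
          ((minF (AW A) u₀ : ℕ) : ℂ)) = z := by
        rw [← mul_div_assoc, div_eq_iff h2]
        push_cast at h1
        rw [← h1]; ring
      push_cast
      rw [← h3]
      ring
    · intro d hd
      rw [chi_contactArcs χ hχ e hmn A u hu hN hdet hp δ hδ y hy d hd, hc]
      split_ifs
      · push_cast; rfl
      · rfl

end MotMono
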