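import Pool.Agent.Lib.MP_4e5fcd_ag.Det.Base

/-! # DET-S1: locally finite sums -/

namespace MotMono

variable {β B : Type} [CommRing B]

theorem coeff_SS (μ : β → Polynomial B) (V : Set β) (j : ℕ) :
    PowerSeries.coeff j (SS μ V) = ∑ᶠ (b : β) (_ : b ∈ V), (μ b).coeff j := by
  simp [SS]

theorem SS_empty (μ : β → Polynomial B) : SS μ ∅ = 0 := by
  ext j
  rw [coeff_SS, finsum_mem_empty, map_zero]

theorem SS_singleton (μ : β → Polynomial B) (b : β) : SS μ {b} = (μ b : PowerSeries B) := by
  ext j
  rw [coeff_SS, finsum_mem_singleton, Polynomial.coeff_coe]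

theorem SS_finset (μ : β → Polynomial B) (V : Finset β) :
    SS μ (V : Set β) = ((∑ b ∈ V, μ b : Polynomial B) : PowerSeries B) := by
  ext j
  rw [coeff_SS, finsum_mem_coe_finset, Polynomial.coeff_coe, Polynomial.finset_sum_coeff]

theorem SS_union {μ : β → Polynomial B} (hμ : LocFin μ) {V V' : Set β} (h : Disjoint V V') :
    SS μ (V ∪ V') = SS μ V + SS μ V' := by
  ext j
  rw [map_add, coeff_SS, coeff_SS, coeff_SS]
  have hf : (Function.support fun b => (μ b).coeff j).Finite := hμ j
  exact finsum_mem_union' h (hf.subset Set.inter_subset_right) (hf.subset Set.inter_subset_right)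

theorem SS_diff {μ : β → Polynomial B} (hμ : LocFin μ) {V V' : Set β} (h : V' ⊆ V) :
    SS μ (V \ V') = SS μ V - SS μ V' := by
  have h1 := SS_union hμ (V := V') (V' := V \ V') Set.disjoint_sdiff_right
  rw [Set.union_diff_cancel h] at h1
  rw [h1, add_sub_cancel_left]

theorem SS_biUnion {μ : β → Polynomial B} (hμ : LocFin μ) {ι : Type} (t : Finset ι)
    (V : ι → Set β) (h : ∀ i ∈ t, ∀ j ∈ t, i ≠ j → Disjoint (V i) (V j)) :
    SS μ (⋃ i ∈ t, V i) = ∑ i ∈ t, SS μ (V i) := by
  classical
  induction t using Finset.induction_on with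
  | empty =>
    rw [Finset.sum_empty]
    simp only [Finset.notMem_empty, Set.iUnion_of_empty, Set.iUnion_empty]
    exact SS_empty μ
  | insert a t ha ih =>
    rw [Finset.sum_insert ha, Finset.set_biUnion_insert, SS_union hμ, ih]
    · intro i hi j hj hij
      exact h i (Finset.mem_insert_of_mem hi) j (Finset.mem_insert_of_mem hj) hij
    · rw [Set.disjoint_iUnion₂_right]
      intro i hi
      refine h a (Finset.mem_insert_self _ _) i (Finset.mem_insert_of_mem hi) ?_
      rintro rfl
      exact ha hi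

theorem SS_congr {μ μ' : β → Polynomial B} {V : Set β} (h : ∀ b ∈ V, μ b = μ' b) :
    SS μ V = SS μ' V := by
  ext j
  rw [coeff_SS, coeff_SS]
  exact finsum_mem_congr rfl fun b hb => by rw [h b hb]

end MotMono
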