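import Pool.Agent.Lib.MP_4e5fcd_ag.Det.U1

/-! # DET-U2: undetected blocks, the chord lemma -/

open MvPolynomial

namespace MotMono

variable {s : ℕ} {m : Fin s → ℕ}

/-- `i` is the first index of an undetected block of `u` -/
def Undet (A : Finset ((Σ a, Fin (m a)) → ℕ)) (u : (Σ a, Fin (m a)) → ℕ) (a : Fin s)
    (i : Fin (m a)) : Prop :=
  u ⟨a, i⟩ ≠ 0 ∧ (∃ h : (i : ℕ) + 1 < m a, u ⟨a, ⟨i + 1, h⟩⟩ = 0) ∧
    ∀ r, Vis A u a r → (i : ℕ) < r → r < m a →
      ∃ k : Fin (m a), i < k ∧ (k : ℕ) ≤ r ∧ u ⟨a, k⟩ ≠ 0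

/-- `r` lies strictly inside an undetected block -/
def InUndet (A : Finset ((Σ a, Fin (m a)) → ℕ)) (u : (Σ a, Fin (m a)) → ℕ) (a : Fin s) (r : ℕ) :
    Prop :=
  ∃ i : Fin (m a), Undet A u a i ∧ (i : ℕ) < r ∧ r < m a ∧
    ∀ k : Fin (m a), i < k → (k : ℕ) ≤ r → u ⟨a, k⟩ = 0

theorem not_detected_iff (A : Finset ((Σ a, Fin (m a)) → ℕ)) (u : (Σ a, Fin (m a)) → ℕ) :
    ¬ Detected A u ↔ ∃ a i, Undet A u a i := by
  unfold Detected Undet
  push Not
  constructor
  · rintro ⟨a, i, hi, h, h0, hr⟩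
    exact ⟨a, i, hi, ⟨h, h0⟩, fun r h1 h2 h3 => hr r h1 h2 h3⟩
  · rintro ⟨a, i, hi, ⟨h, h0⟩, hr⟩
    exact ⟨a, i, hi, h, h0, fun r h1 h2 h3 => hr r h1 h2 h3⟩

/-- no visible index lies strictly inside an undetected block -/
theorem not_vis_of_inUndet (A : Finset ((Σ a, Fin (m a)) → ℕ)) (u : (Σ a, Fin (m a)) → ℕ)
    (a : Fin s) (r : ℕ) (h : InUndet A u a r) : ¬ Vis A u a r := by
  intro hv
  obtain ⟨i, hi, h1, h2, h3⟩ := h
  obtain ⟨k, hk1, hk2, hk3⟩ := hi.2.2 r hv h1 h2
  exact hk3 (h3 k hk1 hk2)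

/-- a break inside an undetected block can be moved to the two ends of the block -/
theorem exists_hat (A : Finset ((Σ a, Fin (m a)) → ℕ)) (u : (Σ a, Fin (m a)) → ℕ)
    (a : Fin s) (j : Fin (m a)) (hj : u ⟨a, j⟩ = 0 → InUndet A u a j) :
    ∃ h : (Σ a, Fin (m a)) → ℚ, (∀ c, 0 ≤ h c) ∧ (∀ c, u c = 0 → h c = 0) ∧
      ∀ a' r, r ≤ m a' → ¬ InUndet A u a' r →
        evq h a' r = if a' = a then ((r - (j : ℕ) : ℕ) : ℚ) else 0 := by
  classical
  by_cases huj : u ⟨a, j⟩ = 0
  swap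
  · refine ⟨u1vec m a fun k => if k = j then 1 else 0, ?_, ?_, ?_⟩
    · intro c
      unfold u1vec
      split_ifs with h1
      · change (0 : ℚ) ≤ if (c.2 : ℕ) = j then 1 else 0
        split_ifs <;> norm_num
      · exact le_refl _
    · rintro ⟨a', k⟩ hk
      unfold u1vec
      by_cases ha : a' = a
      · subst ha
        have h1 : (k : ℕ) ≠ j := by
          intro h; rw [Fin.ext h] at hk; exact huj hk
        simp [h1]
      · simp [ha]
    · intro a' r hr _
      rw [evq_u1vec]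
      split_ifs with ha
      · subst ha
        rw [u1_sum_ite (m a') r j 1 hr, mul_one]
      · rfl
  · obtain ⟨i, hi, hij, hjm, hz⟩ := hj huj
    have hex : ∃ q, (i : ℕ) < q ∧ (q = m a ∨ ∃ h : q < m a, u ⟨a, ⟨q, h⟩⟩ ≠ 0) :=
      ⟨m a, i.2, Or.inl rfl⟩
    obtain ⟨hq1, hq2⟩ := Nat.find_spec hex
    have hqmin := fun k (hk : k < Nat.find hex) => Nat.find_min hex hk
    set q := Nat.find hex with hqdef
    clear_value q
    have hqm : q ≤ m a := by
      rcases hq2 with h | ⟨h, _⟩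
      · exact h.le
      · exact h.le
    have hjq : (j : ℕ) < q := by
      by_contra hcon
      push Not at hcon
      rcases hq2 with h | ⟨h, h'⟩
      · omega
      · exact h' (hz ⟨q, h⟩ hq1 hcon)
    have hzq : ∀ k : Fin (m a), i < k → (k : ℕ) < q → u ⟨a, k⟩ = 0 := by
      intro k h1 h2
      by_contra h3
      exact hqmin k h2 ⟨h1, Or.inr ⟨k.2, h3⟩⟩
    set g : ℚ := (q : ℕ) - (i : ℕ) with hg
    have hgp : 0 < g := by rw [hg, sub_pos]; exact_mod_cast hq1
    have c1 : 0 ≤ ((q : ℚ) - (j : ℕ)) / g := by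
      apply div_nonneg _ hgp.le
      rw [sub_nonneg]; exact_mod_cast hjq.le
    have c2 : 0 ≤ (((j : ℕ) : ℚ) - (i : ℕ)) / g := by
      apply div_nonneg _ hgp.le
      rw [sub_nonneg]; exact_mod_cast hij.le
    refine ⟨u1vec m a fun k => (if k = i then ((q : ℚ) - (j : ℕ)) / g else 0) +
      (if k = q then (((j : ℕ) : ℚ) - (i : ℕ)) / g else 0), ?_, ?_, ?_⟩
    · intro c
      unfold u1vec
      split_ifs with h1
      · change (0 : ℚ) ≤ (if (c.2 : ℕ) = i then ((q : ℚ) - (j : ℕ)) / g else 0) +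
          (if (c.2 : ℕ) = q then (((j : ℕ) : ℚ) - (i : ℕ)) / g else 0)
        apply add_nonneg
        · split_ifs
          · exact c1
          · exact le_refl _
        · split_ifs
          · exact c2
          · exact le_refl _
      · exact le_refl _
    · rintro ⟨a', k⟩ hk
      unfold u1vec
      by_cases ha : a' = a
      · subst ha
        have h1 : (k : ℕ) ≠ i := by
          intro h; rw [Fin.ext h] at hk; exact hi.1 hk
        have h3 : (k : ℕ) ≠ q := by
          rintro h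
          rcases hq2 with h' | ⟨h', h''⟩
          · have := k.2; omega
          · subst h; exact h'' hk
        simp [h1, h3]
      · simp [ha]
    · intro a' r hr hnot
      rw [evq_u1vec]
      split_ifs with ha
      swap
      · rfl
      subst ha
      have hsplit : ∑ k : Fin (m a'), ((r - (k : ℕ) : ℕ) : ℚ) *
          ((if (k : ℕ) = i then ((q : ℚ) - (j : ℕ)) / g else 0) +
            (if (k : ℕ) = q then (((j : ℕ) : ℚ) - (i : ℕ)) / g else 0)) =
          ((r - (i : ℕ) : ℕ) : ℚ) * (((q : ℚ) - (j : ℕ)) / g) +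
          ((r - q : ℕ) : ℚ) * ((((j : ℕ) : ℚ) - (i : ℕ)) / g) := by
        rw [← u1_sum_ite (m a') r i _ hr, ← u1_sum_ite (m a') r q _ hr,
          ← Finset.sum_add_distrib]
        refine Finset.sum_congr rfl fun k _ => ?_
        ring
      rw [hsplit]
      by_cases c3 : r ≤ i
      · have e1 : r - (i : ℕ) = 0 := by omega
        have e2 : r - (j : ℕ) = 0 := by omega
        have e3 : r - q = 0 := by omega
        rw [e1, e2, e3]; simp
      · push Not at c3
        have c4 : q ≤ r := by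
          by_contra c4
          push Not at c4
          exact hnot ⟨i, hi, c3, by omega, fun k h1 h2 => hzq k h1 (by omega)⟩
        rw [Nat.cast_sub c3.le, Nat.cast_sub c4, Nat.cast_sub (by omega)]
        field_simp
        rw [hg]; ring

end MotMono
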