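import Pool.Agent.Lib.MP_4e5fcd_ag.Det.U3a
import Pool.Agent.Lib.MP_4e5fcd_ag.Det.G1

/-! # DET-U3b: a detected ray exists -/

open MvPolynomial

namespace MotMono

variable {s : ℕ} {m : Fin s → ℕ}

private theorem u3b_cast {ι : Type} [Fintype ι] (W b : ι → ℕ) :
    ∑ c, (W c : ℚ) * (b c : ℚ) = (pair W b : ℚ) := by
  unfold pair
  push_cast
  rfl

private theorem u3b_minF {ι : Type} [Fintype ι] (B : Finset (ι → ℕ)) (u W : ι → ℕ)
    (h : InFace B u W) : minF B u = pair W u := by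
  unfold minF
  refine le_antisymm (Nat.sInf_le ⟨W, h.1, rfl⟩) ?_
  refine le_csInf ⟨pair W u, W, h.1, rfl⟩ ?_
  rintro k ⟨W', hW', rfl⟩
  exact h.2 W' hW'

private theorem u3b_face {ι : Type} [Fintype ι] (B : Finset (ι → ℕ)) (u : ι → ℕ)
    (h : 0 < minF B u) : ∃ W, InFace B u W := by
  have hne : B.Nonempty := by
    by_contra hB
    rw [Finset.not_nonempty_iff_eq_empty] at hB
    have h1 : minF B u = 0 := by
      unfold minF
      rw [hB]
      simp
    omega
  obtain ⟨W, hW, hmin⟩ := Finset.exists_min_image B (fun W => pair W u) hne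
  exact ⟨W, hW, hmin⟩

private theorem u3b_evq_add (x y : (Σ a, Fin (m a)) → ℚ) (e : ℚ) (a : Fin s) (r : ℕ) :
    evq (fun c => x c + e * y c) a r = evq x a r + e * evq y a r := by
  unfold evq
  rw [Finset.mul_sum, ← Finset.sum_add_distrib]
  refine Finset.sum_congr rfl fun i _ => ?_
  ring

/-- the perturbation -/
private def u3bD (i i' : ℕ) (j : ℕ) : ℚ :=
  (if j = i then -1 else 0) + (if j = i' - 1 then ((i' - i : ℕ) : ℚ) else 0) +
    (if j = i' then -(((i' - i : ℕ) : ℚ) - 1) else 0)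

private theorem u3b_sumD (i i' M r : ℕ) (h1 : i + 2 ≤ i') (h2 : i' ≤ M) (hr : r ≤ M) :
    ∑ j ∈ Finset.range M, ((r - j : ℕ) : ℚ) * u3bD i i' j =
      if i < r ∧ r < i' then -((r - i : ℕ) : ℚ) else 0 := by
  unfold u3bD
  simp only [mul_add, Finset.sum_add_distrib, mul_ite, mul_zero]
  rw [Finset.sum_ite_eq' (Finset.range M) i, Finset.sum_ite_eq' (Finset.range M) (i' - 1),
    Finset.sum_ite_eq' (Finset.range M) i', if_pos (Finset.mem_range.mpr (by omega)),
    if_pos (Finset.mem_range.mpr (by omega))]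
  have h3 : (if i' ∈ Finset.range M then ((r - i' : ℕ) : ℚ) * -(((i' - i : ℕ) : ℚ) - 1) else 0) =
      ((r - i' : ℕ) : ℚ) * -(((i' - i : ℕ) : ℚ) - 1) := by
    split_ifs with h
    · rfl
    · rw [Finset.mem_range] at h
      have : r - i' = 0 := by omega
      rw [this]
      simp
  rw [h3]
  obtain ⟨g, rfl⟩ : ∃ g, i' = i + 2 + g := ⟨i' - (i + 2), by omega⟩
  have e1 : i + 2 + g - i = g + 2 := by omega
  have e2 : i + 2 + g - 1 = i + 1 + g := by omega
  rw [e1, e2]
  split_ifs with h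
  · have e3 : r - (i + 1 + g) = 0 := by omega
    have e4 : r - (i + 2 + g) = 0 := by omega
    rw [e3, e4]
    push_cast
    ring
  · rcases Nat.lt_or_ge i r with h5 | h5
    · have h6 : i + 2 + g ≤ r := by
        by_contra h7
        exact h ⟨h5, by omega⟩
      obtain ⟨t, rfl⟩ : ∃ t, r = i + 2 + g + t := ⟨r - (i + 2 + g), by omega⟩
      have e3 : i + 2 + g + t - i = g + t + 2 := by omega
      have e4 : i + 2 + g + t - (i + 1 + g) = t + 1 := by omega
      have e5 : i + 2 + g + t - (i + 2 + g) = t := by omega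
      rw [e3, e4, e5]
      push_cast
      ring
    · have e3 : r - i = 0 := by omega
      have e4 : r - (i + 1 + g) = 0 := by omega
      have e5 : r - (i + 2 + g) = 0 := by omega
      rw [e3, e4, e5]
      push_cast
      ring

private def u3bd (a : Fin s) (i i' : ℕ) : (Σ a, Fin (m a)) → ℚ :=
  fun c => if c.1 = a then u3bD i i' c.2 else 0

private theorem u3b_evq_d (a : Fin s) (i i' : ℕ) (h1 : i + 2 ≤ i') (h2 : i' ≤ m a) (a' : Fin s)
    (r : ℕ) (hr : r ≤ m a') :
    evq (m := m) (u3bd a i i') a' r =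
      if a' = a ∧ i < r ∧ r < i' then -((r - i : ℕ) : ℚ) else 0 := by
  by_cases ha : a' = a
  · subst ha
    unfold evq u3bd
    simp only [if_true, true_and]
    rw [← u3b_sumD i i' (m a') r h1 h2 hr, Finset.sum_range]
  · unfold evq u3bd
    simp only [if_neg ha, mul_zero, Finset.sum_const_zero, ha, false_and, if_false]

/-- lowering the values inside one undetected block -/
theorem exists_lower (A : Finset ((Σ a, Fin (m a)) → ℕ)) (u' : (Σ a, Fin (m a)) → ℕ)
    (hN : 0 < minF (AW A) u') (a : Fin s) (i : Fin (m a)) (hi : Undet A u' a i) :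
    ∃ y : (Σ a, Fin (m a)) → ℚ, (∀ c, 0 ≤ y c) ∧
      (∀ a', ∀ k : Fin (m a'), u' ⟨a', k⟩ = 0 → ¬ InUndet A u' a' k → y ⟨a', k⟩ = 0) ∧
      (∀ W, InFace (AW A) u' W → ∑ c, (W c : ℚ) * y c = minF (AW A) u') ∧
      (∀ W ∈ AW A, (minF (AW A) u' : ℚ) ≤ ∑ c, (W c : ℚ) * y c) ∧
      (∀ a' r, r ≤ m a' → evq y a' r ≤ evq (fun c => (u' c : ℚ)) a' r) ∧
      (∀ a' r, r ≤ m a' → evq y a' r < evq (fun c => (u' c : ℚ)) a' r → InUndet A u' a' r) ∧
      ∃ a' r, r ≤ m a' ∧ evq y a' r < evq (fun c => (u' c : ℚ)) a' r := by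
  classical
  obtain ⟨hi1, ⟨hi2, hi3⟩, hi4⟩ := hi
  -- the end of the block
  obtain ⟨i', hii', hi'm, hi'e, hi'z⟩ : ∃ i' : ℕ, (i : ℕ) < i' ∧ i' ≤ m a ∧
      (i' = m a ∨ ∃ h : i' < m a, u' ⟨a, ⟨i', h⟩⟩ ≠ 0) ∧
      ∀ k : Fin (m a), i < k → (k : ℕ) < i' → u' ⟨a, k⟩ = 0 := by
    have hex : ∃ n : ℕ, (i : ℕ) < n ∧ (n = m a ∨ ∃ h : n < m a, u' ⟨a, ⟨n, h⟩⟩ ≠ 0) :=
      ⟨m a, i.2, Or.inl rfl⟩
    refine ⟨Nat.find hex, (Nat.find_spec hex).1, ?_, (Nat.find_spec hex).2, ?_⟩
    · exact Nat.find_min' hex ⟨i.2, Or.inl rfl⟩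
    · intro k hk1 hk2
      by_contra hk3
      exact Nat.find_min hex hk2 ⟨hk1, Or.inr ⟨k.2, hk3⟩⟩
  have hi'2 : (i : ℕ) + 2 ≤ i' := by
    rcases Nat.lt_or_ge (i + 1) i' with h | h
    · omega
    · exfalso
      have h1 : i' = i + 1 := by omega
      rcases hi'e with h2 | ⟨h2, h3⟩
      · omega
      · apply h3
        have h4 : (⟨i', h2⟩ : Fin (m a)) = ⟨i + 1, hi2⟩ := Fin.ext h1
        rw [h4]
        exact hi3
  have hUndet : Undet A u' a i := ⟨hi1, ⟨hi2, hi3⟩, hi4⟩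
  have hin : ∀ r : ℕ, (i : ℕ) < r → r < i' → InUndet A u' a r := by
    intro r hr1 hr2
    exact ⟨i, hUndet, hr1, by omega, fun k hk1 hk2 => hi'z k hk1 (by omega)⟩
  obtain ⟨d, hd⟩ : ∃ d : (Σ a, Fin (m a)) → ℚ, d = u3bd a i i' := ⟨_, rfl⟩
  obtain ⟨C, hC⟩ : ∃ C : ℚ, C = ∑ W ∈ AW A, |∑ c, (W c : ℚ) * d c| := ⟨_, rfl⟩
  have hC0 : 0 ≤ C := by
    rw [hC]
    exact Finset.sum_nonneg fun _ _ => abs_nonneg _
  obtain ⟨ε, hε⟩ : ∃ ε : ℚ, ε = 1 / (C + i' + 1) := ⟨_, rfl⟩
  have hden : 0 < C + i' + 1 := by positivity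
  have hε0 : 0 < ε := by
    rw [hε]
    positivity
  have hε1 : ε * C ≤ 1 := by
    rw [hε, one_div, inv_mul_le_iff₀ hden]
    have : (0 : ℚ) ≤ i' := Nat.cast_nonneg _
    linarith
  have hε2 : ε * i' ≤ 1 := by
    rw [hε, one_div, inv_mul_le_iff₀ hden]
    linarith
  have hε3 : ε ≤ 1 := by
    have h1 : (1 : ℚ) ≤ i' := by exact_mod_cast (by omega : 1 ≤ i')
    nlinarith
  have hevd : ∀ a' r, r ≤ m a' → evq d a' r =
      if a' = a ∧ (i : ℕ) < r ∧ r < i' then -((r - i : ℕ) : ℚ) else 0 := by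
    intro a' r hr
    rw [hd]
    exact u3b_evq_d a i i' hi'2 hi'm a' r hr
  have hevy : ∀ a' r, evq (fun c => (u' c : ℚ) + ε * d c) a' r =
      evq (fun c => (u' c : ℚ)) a' r + ε * evq d a' r :=
    fun a' r => u3b_evq_add (fun c => (u' c : ℚ)) d ε a' r
  have hWy : ∀ W : (Σ a, Fin (m a)) → ℕ, ∑ c, (W c : ℚ) * ((u' c : ℚ) + ε * d c) =
      (pair W u' : ℚ) + ε * ∑ c, (W c : ℚ) * d c := by
    intro W
    rw [← u3b_cast, Finset.mul_sum, ← Finset.sum_add_distrib]
    refine Finset.sum_congr rfl fun c _ => ?_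
    ring
  have hface : ∀ W, InFace (AW A) u' W → ∑ c, (W c : ℚ) * ((u' c : ℚ) + ε * d c) =
      minF (AW A) u' := by
    intro W hW
    rw [hWy, u3b_minF _ _ _ hW]
    have hW1 := hW.1
    unfold AW at hW1
    rw [Finset.mem_image] at hW1
    obtain ⟨w, hw, rfl⟩ := hW1
    have h1 : ∑ c, (Wf w c : ℚ) * d c = 0 := by
      rw [sum_Wf_mul]
      refine Finset.sum_eq_zero fun c _ => ?_
      rw [hevd c.1 (c.2 + 1) (by have := c.2.2; omega)]
      split_ifs with h
      · by_cases hwc : w c = 0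
        · rw [hwc]
          simp
        · exfalso
          obtain ⟨a', k⟩ := c
          obtain ⟨h2, h3, h4⟩ := h
          simp only at h2 h3 h4
          subst h2
          obtain ⟨k', hk1, hk2, hk3⟩ := hi4 (k + 1) ⟨w, hw, hW, k, rfl, hwc⟩ h3 (by omega)
          exact hk3 (hi'z k' hk1 (by omega))
      · ring
    rw [h1]
    ring
  refine ⟨fun c => (u' c : ℚ) + ε * d c, ?_, ?_, hface, ?_, ?_, ?_, ?_⟩
  · -- nonnegative
    rintro ⟨a', k⟩
    simp only
    rw [hd]
    unfold u3bd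
    simp only
    split_ifs with ha
    · subst ha
      unfold u3bD
      have hg : ((i' - (i : ℕ) : ℕ) : ℚ) ≤ i' := by exact_mod_cast Nat.sub_le _ _
      have hg0 : (0 : ℚ) ≤ ((i' - (i : ℕ) : ℕ) : ℚ) := Nat.cast_nonneg _
      by_cases hk1 : (k : ℕ) = i
      · have hk : k = i := Fin.ext hk1
        rw [if_pos hk1, if_neg (by omega), if_neg (by omega), hk]
        have h1 : (1 : ℚ) ≤ (u' ⟨a', i⟩ : ℚ) := by
          exact_mod_cast Nat.one_le_iff_ne_zero.mpr hi1
        linarith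
      · rw [if_neg hk1]
        by_cases hk2 : (k : ℕ) = i' - 1
        · rw [if_pos hk2, if_neg (by omega)]
          have : (0 : ℚ) ≤ (u' ⟨a', k⟩ : ℚ) := Nat.cast_nonneg _
          have h3 : 0 ≤ ε * ((i' - (i : ℕ) : ℕ) : ℚ) := by positivity
          linarith
        · rw [if_neg hk2]
          by_cases hk3 : (k : ℕ) = i'
          · rw [if_pos hk3]
            have h1 : u' ⟨a', k⟩ ≠ 0 := by
              rcases hi'e with h2 | ⟨h2, h3⟩
              · have := k.2
                omega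
              · have h4 : k = ⟨i', h2⟩ := Fin.ext hk3
                rw [h4]
                exact h3
            have h2 : (1 : ℚ) ≤ (u' ⟨a', k⟩ : ℚ) := by
              exact_mod_cast Nat.one_le_iff_ne_zero.mpr h1
            have h3 : ε * ((i' - (i : ℕ) : ℕ) : ℚ) ≤ 1 :=
              (mul_le_mul_of_nonneg_left hg hε0.le).trans hε2
            nlinarith
          · rw [if_neg hk3]
            have : (0 : ℚ) ≤ (u' ⟨a', k⟩ : ℚ) := Nat.cast_nonneg _
            linarith
    · have : (0 : ℚ) ≤ (u' ⟨a', k⟩ : ℚ) := Nat.cast_nonneg _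
      linarith
  · intro a' k hk1 hk2
    simp only
    rw [hk1, hd]
    unfold u3bd
    simp only
    split_ifs with ha
    · subst ha
      unfold u3bD
      rw [if_neg, if_neg, if_neg]
      · simp
      · intro h
        rcases hi'e with h2 | ⟨h2, h3⟩
        · have := k.2
          omega
        · apply h3
          have h4 : k = ⟨i', h2⟩ := Fin.ext h
          rw [← h4]
          exact hk1
      · intro h
        exact hk2 (hin k (by omega) (by omega))
      · intro h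
        have h4 : k = i := Fin.ext h
        rw [h4] at hk1
        exact hi1 hk1
    · simp
  · -- other functionals
    intro W hW
    by_cases hf : InFace (AW A) u' W
    · exact (hface W hf).ge
    · obtain ⟨W0, hW0⟩ := u3b_face (AW A) u' hN
      have h1 : minF (AW A) u' + 1 ≤ pair W u' := by
        by_contra h2
        apply hf
        refine ⟨hW, fun W' hW' => ?_⟩
        rw [u3b_minF _ _ _ hW0] at h2
        have h3 := hW0.2 W' hW'
        omega
      rw [hWy]
      have h2 : |∑ c, (W c : ℚ) * d c| ≤ C := by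
        rw [hC]
        exact Finset.single_le_sum (f := fun W : (Σ a, Fin (m a)) → ℕ => |∑ c, (W c : ℚ) * d c|)
          (fun _ _ => abs_nonneg _) hW
      have h3 := (abs_le.mp h2).1
      have h4 : ε * (-C) ≤ ε * ∑ c, (W c : ℚ) * d c := mul_le_mul_of_nonneg_left h3 hε0.le
      have h5 : (minF (AW A) u' : ℚ) + 1 ≤ (pair W u' : ℚ) := by exact_mod_cast h1
      linarith
  · intro a' r hr
    rw [hevy, hevd a' r hr]
    split_ifs
    · have : (0 : ℚ) ≤ ((r - (i : ℕ) : ℕ) : ℚ) := Nat.cast_nonneg _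
      nlinarith
    · linarith
  · intro a' r hr h
    rw [hevy, hevd a' r hr] at h
    split_ifs at h with h2
    · obtain ⟨h3, h4, h5⟩ := h2
      subst h3
      exact hin r h4 h5
    · linarith
  · refine ⟨a, i + 1, by omega, ?_⟩
    rw [hevy, hevd a (i + 1) (by omega), if_pos ⟨rfl, by omega, by omega⟩]
    have : ((i + 1 - i : ℕ) : ℚ) = 1 := by
      have : (i : ℕ) + 1 - i = 1 := by omega
      rw [this]
      simp
    rw [this]
    linarith

/-- among the rays of the face of `u` with breaks in the allowed places there is a detected one -/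
theorem exists_detected_ray (A : Finset ((Σ a, Fin (m a)) → ℕ)) (u : (Σ a, Fin (m a)) → ℕ)
    (hu : Ext (AW A) u) (hN : 0 < minF (AW A) u) :
    ∃ u' : (Σ a, Fin (m a)) → ℕ, Ext (AW A) u' ∧ Detected A u' ∧ 0 < minF (AW A) u' ∧
      (∀ a, ∀ i : Fin (m a), u ⟨a, i⟩ = 0 → ¬ InUndet A u a i → u' ⟨a, i⟩ = 0) ∧
      ∀ W, InFace (AW A) u W → InFace (AW A) u' W := by
  classical
  obtain ⟨Z, hZ⟩ : ∃ Z : Set (Σ a, Fin (m a)), Z = {c | u c = 0 ∧ ¬ InUndet A u c.1 c.2} :=
    ⟨_, rfl⟩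
  obtain ⟨Ls, hLs⟩ : ∃ Ls : Finset ((Σ a, Fin (m a)) → ℤ), Ls =
      (((AW A).filter (InFace (AW A) u)) ×ˢ (AW A)).image
        (fun p c => (p.2 c : ℤ) - (p.1 c : ℤ)) := ⟨_, rfl⟩
  have hLs' : ∀ l, l ∈ Ls ↔ ∃ W W', InFace (AW A) u W ∧ W' ∈ AW A ∧
      l = fun c => (W' c : ℤ) - (W c : ℤ) := by
    intro l
    rw [hLs, Finset.mem_image]
    constructor
    · rintro ⟨⟨W, W'⟩, hp, rfl⟩
      rw [Finset.mem_product, Finset.mem_filter] at hp
      exact ⟨W, W', hp.1.2, hp.2, rfl⟩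
    · rintro ⟨W, W', h1, h2, rfl⟩
      refine ⟨(W, W'), ?_, rfl⟩
      rw [Finset.mem_product, Finset.mem_filter]
      exact ⟨⟨h1.1, h1⟩, h2⟩
  have hlQ : ∀ (W W' : (Σ a, Fin (m a)) → ℕ) (y : (Σ a, Fin (m a)) → ℚ),
      ∑ c, (((W' c : ℤ) - (W c : ℤ) : ℤ) : ℚ) * y c =
        ∑ c, (W' c : ℚ) * y c - ∑ c, (W c : ℚ) * y c := by
    intro W W' y
    rw [← Finset.sum_sub_distrib]
    refine Finset.sum_congr rfl fun c _ => ?_
    push_cast
    ring
  have hlZ : ∀ (W W' v : (Σ a, Fin (m a)) → ℕ),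
      ∑ c, ((W' c : ℤ) - (W c : ℤ)) * (v c : ℤ) = (pair W' v : ℤ) - (pair W v : ℤ) := by
    intro W W' v
    unfold pair
    push_cast
    rw [← Finset.sum_sub_distrib]
    refine Finset.sum_congr rfl fun c _ => ?_
    ring
  obtain ⟨U, hU⟩ := exists_isRays Z Ls
  obtain ⟨W0, hW0⟩ := u3b_face (AW A) u hN
  -- properties of the rays
  have hUf : ∀ v ∈ U, ∀ W, InFace (AW A) u W → InFace (AW A) v W := by
    intro v hv W hW
    refine ⟨hW.1, fun W' hW' => ?_⟩
    have h1 := hU.nonneg v hv _ ((hLs' _).mpr ⟨W, W', hW, hW', rfl⟩)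
    rw [hlZ] at h1
    omega
  have hUe : ∀ v ∈ U, Ext (AW A) v := by
    intro v hv
    refine ⟨hU.ne v hv, fun y hy1 hy2 => hU.ext v hv y hy1 fun l hl h0 => ?_⟩
    obtain ⟨W, W', hW, hW', rfl⟩ := (hLs' l).mp hl
    simp only at h0 ⊢
    rw [hlZ] at h0
    rw [hlQ, sub_eq_zero]
    have h1 := hUf v hv W hW
    have h2 : InFace (AW A) v W' := by
      refine ⟨hW', fun W'' hW'' => ?_⟩
      have := h1.2 W'' hW''
      omega
    exact hy2 W' W h2 h1
  have hUN : ∀ v ∈ U, minF (AW A) v = pair W0 v := fun v hv =>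
    u3b_minF _ _ _ (hUf v hv W0 hW0)
  have hUZ : ∀ v ∈ U, ∀ a, ∀ i : Fin (m a), u ⟨a, i⟩ = 0 → ¬ InUndet A u a i →
      v ⟨a, i⟩ = 0 := by
    intro v hv a i h1 h2
    refine hU.zero v hv ⟨a, i⟩ ?_
    rw [hZ]
    exact ⟨h1, h2⟩
  -- linearity of the value
  have hgenN : ∀ (x : (Σ a, Fin (m a)) → ℚ) (α : ((Σ a, Fin (m a)) → ℕ) → ℚ),
      (∀ c, x c = ∑ v ∈ U, α v * v c) → ∑ c, (W0 c : ℚ) * x c = ∑ v ∈ U, α v * pair W0 v := by
    intro x α hx
    calc ∑ c, (W0 c : ℚ) * x c = ∑ c, ∑ v ∈ U, α v * ((W0 c : ℚ) * v c) := by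
          refine Finset.sum_congr rfl fun c _ => ?_
          rw [hx c, Finset.mul_sum]
          refine Finset.sum_congr rfl fun v _ => ?_
          ring
      _ = ∑ v ∈ U, ∑ c, α v * ((W0 c : ℚ) * v c) := Finset.sum_comm
      _ = _ := by
          refine Finset.sum_congr rfl fun v _ => ?_
          rw [← Finset.mul_sum, u3b_cast]
  -- the sum of the values in the undetected places
  obtain ⟨S, hS⟩ : ∃ S : ((Σ a, Fin (m a)) → ℚ) → ℚ, S = fun y =>
      ∑ a, ∑ r ∈ (Finset.range (m a)).filter (fun r => InUndet A u a r), evq y a r := ⟨_, rfl⟩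
  have hgenS : ∀ (x : (Σ a, Fin (m a)) → ℚ) (α : ((Σ a, Fin (m a)) → ℕ) → ℚ),
      (∀ c, x c = ∑ v ∈ U, α v * v c) → S x = ∑ v ∈ U, α v * S (fun c => (v c : ℚ)) := by
    intro x α hx
    have hev : ∀ a r, evq x a r = ∑ v ∈ U, α v * evq (fun c => (v c : ℚ)) a r := by
      intro a r
      unfold evq
      calc ∑ i : Fin (m a), ((r - (i : ℕ) : ℕ) : ℚ) * x ⟨a, i⟩
          = ∑ i : Fin (m a), ∑ v ∈ U, α v * (((r - (i : ℕ) : ℕ) : ℚ) * v ⟨a, i⟩) := by
            refine Finset.sum_congr rfl fun i _ => ?_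
            rw [hx, Finset.mul_sum]
            refine Finset.sum_congr rfl fun v _ => ?_
            ring
        _ = ∑ v ∈ U, ∑ i : Fin (m a), α v * (((r - (i : ℕ) : ℕ) : ℚ) * v ⟨a, i⟩) :=
            Finset.sum_comm
        _ = _ := by
            refine Finset.sum_congr rfl fun v _ => ?_
            rw [← Finset.mul_sum]
    rw [hS]
    simp only
    calc ∑ a, ∑ r ∈ (Finset.range (m a)).filter (fun r => InUndet A u a r), evq x a r
        = ∑ a, ∑ r ∈ (Finset.range (m a)).filter (fun r => InUndet A u a r),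
          ∑ v ∈ U, α v * evq (fun c => (v c : ℚ)) a r := by
          refine Finset.sum_congr rfl fun a _ => Finset.sum_congr rfl fun r _ => hev a r
      _ = ∑ a, ∑ v ∈ U, ∑ r ∈ (Finset.range (m a)).filter (fun r => InUndet A u a r),
          α v * evq (fun c => (v c : ℚ)) a r := by
          refine Finset.sum_congr rfl fun a _ => Finset.sum_comm
      _ = ∑ v ∈ U, ∑ a, ∑ r ∈ (Finset.range (m a)).filter (fun r => InUndet A u a r),
          α v * evq (fun c => (v c : ℚ)) a r := Finset.sum_comm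
      _ = _ := by
          refine Finset.sum_congr rfl fun v _ => ?_
          rw [Finset.mul_sum]
          refine Finset.sum_congr rfl fun a _ => ?_
          rw [Finset.mul_sum]
  have hS0 : ∀ v : (Σ a, Fin (m a)) → ℕ, 0 ≤ S (fun c => (v c : ℚ)) := by
    intro v
    rw [hS]
    refine Finset.sum_nonneg fun a _ => Finset.sum_nonneg fun r _ => ?_
    unfold evq
    refine Finset.sum_nonneg fun i _ => ?_
    positivity
  -- some ray has a positive value
  have hpos : (U.filter fun v => 0 < pair W0 v).Nonempty := by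
    obtain ⟨α, hα0, hα⟩ := hU.gen (fun c => (u c : ℚ)) (fun c => Nat.cast_nonneg _)
      (fun c hc => by
        rw [hZ] at hc
        rw [hc.1]
        simp)
      (fun l hl => by
        obtain ⟨W, W', hW, hW', rfl⟩ := (hLs' l).mp hl
        simp only
        rw [hlQ, u3b_cast, u3b_cast, sub_nonneg]
        exact_mod_cast hW.2 W' hW')
    by_contra hne
    rw [Finset.not_nonempty_iff_eq_empty, Finset.filter_eq_empty_iff] at hne
    have h1 := hgenN (fun c => (u c : ℚ)) α hα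
    rw [u3b_cast, ← u3b_minF _ _ _ hW0] at h1
    have h2 : ∑ v ∈ U, α v * (pair W0 v : ℚ) = 0 := by
      refine Finset.sum_eq_zero fun v hv => ?_
      have := hne hv
      have h3 : pair W0 v = 0 := by omega
      rw [h3]
      simp
    rw [h2] at h1
    have h4 : minF (AW A) u = 0 := by exact_mod_cast h1
    omega
  obtain ⟨u', hu', hmin⟩ := Finset.exists_min_image (U.filter fun v => 0 < pair W0 v)
    (fun v => S (fun c => (v c : ℚ)) / (pair W0 v : ℚ)) hpos
  rw [Finset.mem_filter] at hu'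
  obtain ⟨hu'U, hu'N⟩ := hu'
  have hu'N' : 0 < minF (AW A) u' := by
    rw [hUN u' hu'U]
    exact hu'N
  refine ⟨u', hUe u' hu'U, ?_, hu'N', hUZ u' hu'U, hUf u' hu'U⟩
  by_contra hdet
  obtain ⟨a, i, hi⟩ := (not_detected_iff A u').mp hdet
  obtain ⟨y, hy0, hyZ, hyF, hyA, hyle, hylt, a1, r1, hr1, hlt1⟩ := exists_lower A u' hu'N' a i hi
  have hback : ∀ a r, InUndet A u' a r → InUndet A u a r := fun a r h =>
    inUndet_of_inUndet A u u' hu hN (hUZ u' hu'U) (hUf u' hu'U) a r h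
  obtain ⟨α, hα0, hα⟩ := hU.gen y hy0
    (fun c hc => by
      rw [hZ] at hc
      obtain ⟨a, i⟩ := c
      exact hyZ a i (hUZ u' hu'U a i hc.1 hc.2) (fun h => hc.2 (hback a i h)))
    (fun l hl => by
      obtain ⟨W, W', hW, hW', rfl⟩ := (hLs' l).mp hl
      simp only
      rw [hlQ, hyF W (hUf u' hu'U W hW), sub_nonneg]
      exact hyA W' hW')
  have hNy : ∑ v ∈ U, α v * (pair W0 v : ℚ) = pair W0 u' := by
    rw [← hgenN y α hα, hyF W0 (hUf u' hu'U W0 hW0), hUN u' hu'U]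
  have hSy := hgenS y α hα
  have hNpos : (0 : ℚ) < pair W0 u' := by exact_mod_cast hu'N
  have h1 : S (fun c => (u' c : ℚ)) ≤ S y := by
    calc S (fun c => (u' c : ℚ))
        = (S (fun c => (u' c : ℚ)) / (pair W0 u' : ℚ)) * ∑ v ∈ U, α v * (pair W0 v : ℚ) := by
          rw [hNy]
          field_simp
      _ = ∑ v ∈ U, α v * ((S (fun c => (u' c : ℚ)) / (pair W0 u' : ℚ)) * (pair W0 v : ℚ)) := by
          rw [Finset.mul_sum]
          refine Finset.sum_congr rfl fun v _ => ?_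
          ring
      _ ≤ ∑ v ∈ U, α v * S (fun c => (v c : ℚ)) := by
          refine Finset.sum_le_sum fun v hv => mul_le_mul_of_nonneg_left ?_ (hα0 v)
          by_cases hvN : 0 < pair W0 v
          · have h2 := hmin v (Finset.mem_filter.mpr ⟨hv, hvN⟩)
            have h3 : (0 : ℚ) < pair W0 v := by exact_mod_cast hvN
            rwa [le_div_iff₀ h3] at h2
          · have h3 : pair W0 v = 0 := by omega
            rw [h3]
            simp only [Nat.cast_zero, mul_zero]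
            exact hS0 v
      _ = S y := hSy.symm
  have h2 : S y < S (fun c => (u' c : ℚ)) := by
    rw [hS]
    simp only
    refine Finset.sum_lt_sum (fun a _ => Finset.sum_le_sum fun r hr => ?_)
      ⟨a1, Finset.mem_univ a1, Finset.sum_lt_sum (fun r hr => ?_) ⟨r1, ?_, hlt1⟩⟩
    · rw [Finset.mem_filter, Finset.mem_range] at hr
      exact hyle a r hr.1.le
    · rw [Finset.mem_filter, Finset.mem_range] at hr
      exact hyle a1 r hr.1.le
    · have h3 := hback a1 r1 (hylt a1 r1 hr1 hlt1)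
      rw [Finset.mem_filter, Finset.mem_range]
      obtain ⟨_, _, _, h4, _⟩ := id h3
      exact ⟨h4, h3⟩
  exact absurd h1 (not_le.mpr h2)

end MotMono
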